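import Pool.Agent.Lib52.SP.Hol1

set_option autoImplicit false

open Set Metric Filter MeasureTheory Asymptotics
open scoped Topology

namespace Pool.Agent.SP

variable {E' F' : Type*} [NormedAddCommGroup E'] [NormedSpace ℂ E'] [NormedAddCommGroup F']
  [NormedSpace ℂ F']

theorem quad_bound {f : E' → F'} {z₀ : E'} {R K : ℝ} (hR : 0 < R)
    (hd : DifferentiableOn ℂ f (ball z₀ R)) (hK : ∀ z ∈ ball z₀ R, ‖f z‖ ≤ K) :
    ∀ z ∈ ball z₀ R, ‖f z - f z₀ - fderiv ℂ f z₀ (z - z₀)‖ ≤ 4 * K / R ^ 2 * ‖z - z₀‖ ^ 2 := by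
  intro z hz
  set L := fderiv ℂ f z₀ with hL
  have hz₀ : z₀ ∈ ball z₀ R := mem_ball_self hR
  have hLn : ‖L‖ ≤ 2 * K / R := norm_fderiv_le_of_bound hR hd hK
  set g : E' → F' := fun z => f z - f z₀ - L (z - z₀) with hg
  have hgd : DifferentiableOn ℂ g (ball z₀ R) := by
    apply DifferentiableOn.sub (hd.sub_const _)
    fun_prop
  have hg0 : g z₀ = 0 := by simp [hg]
  have hmaps : MapsTo g (ball z₀ R) (closedBall (g z₀) (4 * K)) := by
    intro w hw
    rw [hg0, mem_closedBall, dist_zero_right]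
    have hw' : ‖w - z₀‖ < R := by rwa [mem_ball, dist_eq_norm] at hw
    calc ‖g w‖ ≤ ‖f w - f z₀‖ + ‖L (w - z₀)‖ := norm_sub_le _ _
      _ ≤ (‖f w‖ + ‖f z₀‖) + ‖L‖ * ‖w - z₀‖ := by
          gcongr
          · exact norm_sub_le _ _
          · exact L.le_opNorm _
      _ ≤ (K + K) + (2 * K / R) * R := by
          have hK0 : 0 ≤ K := (norm_nonneg _).trans (hK z₀ hz₀)
          gcongr
          · exact hK w hw
          · exact hK z₀ hz₀
      _ = 4 * K := by field_simp; ring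
  have hlit : (g · - g z₀) =o[𝓝 z₀] (fun w ↦ ‖w - z₀‖ ^ 1) := by
    have h1 : HasFDerivAt f L z₀ :=
      (hd.differentiableAt (ball_mem_nhds z₀ hR)).hasFDerivAt
    have h2 := h1.isLittleO
    simp only [hg0, sub_zero, pow_one]
    exact h2.norm_right
  have := Complex.dist_le_mul_div_pow_of_mapsTo_ball_of_isLittleO (n := 1) hgd hmaps hlit hz
  rw [hg0, dist_zero_right, dist_eq_norm] at this
  calc ‖g z‖ ≤ 4 * K * (‖z - z₀‖ / R) ^ (1 + 1) := this
    _ = 4 * K / R ^ 2 * ‖z - z₀‖ ^ 2 := by rw [div_pow]; ring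

theorem hasFDerivAt_of_quad {f : E' → F'} {z₀ : E'} {L : E' →L[ℂ] F'} {R C : ℝ} (hR : 0 < R)
    (h : ∀ z ∈ ball z₀ R, ‖f z - f z₀ - L (z - z₀)‖ ≤ C * ‖z - z₀‖ ^ 2) :
    HasFDerivAt f L z₀ := by
  refine HasFDerivAt.of_isLittleO ?_
  refine IsBigO.trans_isLittleO (g := fun z => ‖z - z₀‖ ^ 2) ?_
    (isLittleO_pow_sub_sub z₀ one_lt_two)
  refine IsBigO.of_bound C ?_
  filter_upwards [ball_mem_nhds z₀ hR] with z hz
  have := h z hz
  rwa [Real.norm_of_nonneg (by positivity)]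

theorem ultra_diff [FiniteDimensional ℂ E'] [FiniteDimensional ℂ F'] {ι : Type*}
    (U : Ultrafilter ι) {F : ι → E' → F'} {f : E' → F'} {z₀ : E'} {R K : ℝ} (hR : 0 < R)
    (hd : ∀ᶠ i in (U : Filter ι), DifferentiableOn ℂ (F i) (ball z₀ R))
    (hK : ∀ᶠ i in (U : Filter ι), ∀ z ∈ ball z₀ R, ‖F i z‖ ≤ K)
    (hlim : ∀ z ∈ ball z₀ R, Tendsto (fun i => F i z) U (𝓝 (f z))) :
    DifferentiableAt ℂ f z₀ := by
  have hprop : ProperSpace (E' →L[ℂ] F') := FiniteDimensional.proper ℂ _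
  have hb : ∀ᶠ i in (U : Filter ι),
      fderiv ℂ (F i) z₀ ∈ closedBall (0 : E' →L[ℂ] F') (2 * K / R) := by
    filter_upwards [hd, hK] with i h1 h2
    rw [mem_closedBall, dist_zero_right]
    exact norm_fderiv_le_of_bound hR h1 h2
  obtain ⟨L, -, hL⟩ := (isCompact_closedBall (0 : E' →L[ℂ] F') (2 * K / R)).ultrafilter_le_nhds
    (U.map fun i => fderiv ℂ (F i) z₀) (by
      rw [le_principal_iff]
      exact hb)
  have hL' : Tendsto (fun i => fderiv ℂ (F i) z₀) U (𝓝 L) := hL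
  refine (hasFDerivAt_of_quad (L := L) hR (C := 4 * K / R ^ 2) ?_).differentiableAt
  intro z hz
  have t1 : Tendsto (fun i => ‖F i z - F i z₀ - fderiv ℂ (F i) z₀ (z - z₀)‖) U
      (𝓝 ‖f z - f z₀ - L (z - z₀)‖) := by
    apply Tendsto.norm
    apply Tendsto.sub ((hlim z hz).sub (hlim z₀ (mem_ball_self hR)))
    exact ((ContinuousLinearMap.apply ℂ F' (z - z₀)).continuous.tendsto L).comp hL'
  apply le_of_tendsto t1
  filter_upwards [hd, hK] with i h1 h2
  exact quad_bound hR h1 h2 z hz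

end Pool.Agent.SP
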