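import Pool.Agent.Lib52.SP.Defs

set_option autoImplicit false

open Set Metric Filter MeasureTheory
open scoped Topology

namespace Pool.Agent.SP

section general

variable {E' F' : Type*} [NormedAddCommGroup E'] [NormedSpace ℂ E'] [NormedAddCommGroup F']
  [NormedSpace ℂ F']

/-- Cauchy estimate -/
theorem norm_fderiv_le_of_bound {f : E' → F'} {c : E'} {R K : ℝ} (hR : 0 < R)
    (hd : DifferentiableOn ℂ f (ball c R)) (hK : ∀ z ∈ ball c R, ‖f z‖ ≤ K) :
    ‖fderiv ℂ f c‖ ≤ 2 * K / R := by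
  apply Complex.norm_fderiv_le_div_of_mapsTo_ball hd _ hR
  intro z hz
  rw [mem_closedBall, dist_eq_norm]
  calc ‖f z - f c‖ ≤ ‖f z‖ + ‖f c‖ := norm_sub_le _ _
    _ ≤ K + K := add_le_add (hK z hz) (hK c (mem_ball_self hR))
    _ = 2 * K := by ring

theorem fderiv_local {f : E' → F'} {U : Set E'} (hU : IsOpen U) (hf : DifferentiableOn ℂ f U)
    {z₀ : E'} (hz : z₀ ∈ U) :
    ∃ δ > 0, ∃ K ≥ 0, ball z₀ δ ⊆ U ∧
      (∀ z ∈ ball z₀ δ, ‖f z‖ ≤ K ∧ ‖fderiv ℂ f z‖ ≤ K) ∧
      ∀ x ∈ ball z₀ δ, ∀ y ∈ ball z₀ δ, ‖fderiv ℂ f x - fderiv ℂ f y‖ ≤ K * ‖x - y‖ := by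
  have hc : ContinuousAt f z₀ := (hf.differentiableAt (hU.mem_nhds hz)).continuousAt
  obtain ⟨ε₁, hε₁, h₁⟩ := Metric.isOpen_iff.1 hU z₀ hz
  obtain ⟨ε₂, hε₂, h₂⟩ := Metric.continuousAt_iff.1 hc 1 one_pos
  set ε := min ε₁ ε₂ / 4 with hε
  have hε0 : 0 < ε := by positivity
  have hεU : ball z₀ (4 * ε) ⊆ U := by
    refine (ball_subset_ball ?_).trans h₁
    have : 4 * ε = min ε₁ ε₂ := by rw [hε]; ring
    rw [this]; exact min_le_left _ _
  set K₀ := ‖f z₀‖ + 1 with hK₀
  have hK₀' : 0 ≤ K₀ := by positivity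
  have hb : ∀ z ∈ ball z₀ (4 * ε), ‖f z‖ ≤ K₀ := by
    intro z hz'
    have hz2 : dist z z₀ < ε₂ := by
      have : 4 * ε = min ε₁ ε₂ := by rw [hε]; ring
      rw [mem_ball, this] at hz'
      exact lt_of_lt_of_le hz' (min_le_right _ _)
    have := h₂ hz2
    rw [dist_eq_norm] at this
    have h3 : ‖f z‖ ≤ ‖f z - f z₀‖ + ‖f z₀‖ := by
      simpa using norm_add_le (f z - f z₀) (f z₀)
    linarith
  set K₁ := 2 * K₀ / (2 * ε) with hK₁
  have hK₁' : 0 ≤ K₁ := by positivity
  have hd1 : ∀ z ∈ ball z₀ (2 * ε), ‖fderiv ℂ f z‖ ≤ K₁ := by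
    intro z hz'
    have hsub : ball z (2 * ε) ⊆ ball z₀ (4 * ε) := by
      apply ball_subset_ball'
      rw [mem_ball] at hz'
      linarith
    exact norm_fderiv_le_of_bound (by positivity) ((hf.mono hεU).mono hsub)
      (fun w hw => hb w (hsub hw))
  have hlip : ∀ x ∈ ball z₀ (2 * ε), ∀ y ∈ ball z₀ (2 * ε), ‖f x - f y‖ ≤ K₁ * ‖x - y‖ := by
    intro x hx y hy
    let _ : NormedSpace ℝ E' := NormedSpace.restrictScalars ℝ ℂ E'
    exact (convex_ball z₀ (2 * ε)).norm_image_sub_le_of_norm_fderiv_le (𝕜 := ℂ)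
      (fun z hz' => hf.differentiableAt (hU.mem_nhds (hεU (ball_subset_ball (by linarith) hz'))))
      hd1 hy hx
  set K₂ := 2 * K₁ / (ε / 2) with hK₂
  have hK₂' : 0 ≤ K₂ := by positivity
  refine ⟨ε / 2, by positivity, K₀ + K₁ + K₂, by positivity,
    (ball_subset_ball (by linarith)).trans hεU, ?_, ?_⟩
  · intro z hz'
    have e1 := hb z (ball_subset_ball (by linarith) hz')
    have e2 := hd1 z (ball_subset_ball (by linarith) hz')
    exact ⟨by linarith, by linarith⟩
  · intro x hx y hy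
    set h := y - x with hh
    have hxy : ‖h‖ = ‖x - y‖ := by rw [hh, norm_sub_rev]
    have hin1 : ∀ z ∈ ball x (ε / 2), z ∈ ball z₀ (2 * ε) := by
      intro z hz'
      rw [mem_ball] at *
      have := dist_triangle z x z₀
      linarith
    have hin2 : ∀ z ∈ ball x (ε / 2), z + h ∈ ball z₀ (2 * ε) := by
      intro z hz'
      rw [mem_ball] at *
      have e1 : dist (z + h) y = dist z x := by
        rw [hh, dist_eq_norm, dist_eq_norm]; congr 1; abel
      have := dist_triangle (z + h) y z₀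
      linarith
    have hsubU : ∀ z ∈ ball z₀ (2 * ε), z ∈ U := fun z hz' =>
      hεU (ball_subset_ball (by linarith) hz')
    have hshift : ∀ z ∈ ball x (ε / 2),
        HasFDerivAt (fun w => f (w + h)) (fderiv ℂ f (z + h)) z := by
      intro z hz'
      have hh1 := (hf.differentiableAt (hU.mem_nhds (hsubU _ (hin2 z hz')))).hasFDerivAt
      have hh2 : HasFDerivAt (fun w : E' => w + h) (ContinuousLinearMap.id ℂ E') z :=
        (hasFDerivAt_id z).add_const h
      simpa [Function.comp_def] using HasFDerivAt.comp z hh1 hh2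
    have hgd : ∀ z ∈ ball x (ε / 2), HasFDerivAt (fun w => f (w + h) - f w)
        (fderiv ℂ f (z + h) - fderiv ℂ f z) z := by
      intro z hz'
      exact (hshift z hz').sub
        (hf.differentiableAt (hU.mem_nhds (hsubU _ (hin1 z hz')))).hasFDerivAt
    have hgb : ∀ z ∈ ball x (ε / 2), ‖f (z + h) - f z‖ ≤ K₁ * ‖h‖ := by
      intro z hz'
      have := hlip (z + h) (hin2 z hz') z (hin1 z hz')
      simpa using this
    have hx' : x ∈ ball x (ε / 2) := mem_ball_self (by positivity)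
    have key := norm_fderiv_le_of_bound (f := fun w => f (w + h) - f w) (c := x)
      (R := ε / 2) (K := K₁ * ‖h‖) (by positivity)
      (fun z hz' => (hgd z hz').differentiableAt.differentiableWithinAt) hgb
    rw [(hgd x hx').fderiv] at key
    have hyx : x + h = y := by rw [hh]; abel
    rw [hyx] at key
    rw [norm_sub_rev]
    calc ‖fderiv ℂ f y - fderiv ℂ f x‖ ≤ 2 * (K₁ * ‖h‖) / (ε / 2) := key
      _ = K₂ * ‖h‖ := by rw [hK₂]; ring
      _ ≤ (K₀ + K₁ + K₂) * ‖h‖ := by
          apply mul_le_mul_of_nonneg_right _ (norm_nonneg _); linarith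
      _ = (K₀ + K₁ + K₂) * ‖x - y‖ := by rw [hxy]

theorem continuousOn_fderiv' {f : E' → F'} {U : Set E'} (hU : IsOpen U)
    (hf : DifferentiableOn ℂ f U) : ContinuousOn (fderiv ℂ f) U := by
  intro z₀ hz
  obtain ⟨δ, hδ, K, hK, -, -, hl⟩ := fderiv_local hU hf hz
  apply ContinuousAt.continuousWithinAt
  have hlip : LipschitzOnWith ⟨K, hK⟩ (fderiv ℂ f) (ball z₀ δ) := by
    apply LipschitzOnWith.of_dist_le_mul
    intro x hx y hy
    rw [dist_eq_norm, dist_eq_norm]
    exact hl x hx y hy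
  exact hlip.continuousOn.continuousAt (ball_mem_nhds _ hδ)

theorem hasStrictFDerivAt' {f : E' → F'} {U : Set E'} (hU : IsOpen U)
    (hf : DifferentiableOn ℂ f U) {z : E'} (hz : z ∈ U) :
    HasStrictFDerivAt f (fderiv ℂ f z) z := by
  apply hasStrictFDerivAt_of_hasFDerivAt_of_continuousAt
  · filter_upwards [hU.mem_nhds hz] with w hw
    exact (hf.differentiableAt (hU.mem_nhds hw)).hasFDerivAt
  · exact (continuousOn_fderiv' hU hf).continuousAt (hU.mem_nhds hz)

/-- restriction to a complex line -/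
theorem hasDerivAt_line {f : E' → F'} {z v : E'} {s : ℂ}
    (hf : DifferentiableAt ℂ f (z + s • v)) :
    HasDerivAt (fun s : ℂ => f (z + s • v)) (fderiv ℂ f (z + s • v) v) s := by
  have h2 : HasDerivAt (fun s : ℂ => z + s • v) v s := by
    simpa using ((hasDerivAt_id s).smul_const v).const_add z
  exact HasFDerivAt.comp_hasDerivAt s hf.hasFDerivAt h2

variable [CompleteSpace F']

theorem fderiv_apply_eq_integral {f : E' → F'} {z v : E'} {ρ : ℝ} (hρ : 0 < ρ)
    (hf : ∀ s ∈ closedBall (0 : ℂ) ρ, DifferentiableAt ℂ f (z + s • v)) :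
    (2 * Real.pi * Complex.I : ℂ) • fderiv ℂ f z v =
      ∮ s in C(0, ρ), (1 / (s - 0) ^ 2) • f (z + s • v) := by
  have hd : DifferentiableOn ℂ (fun s : ℂ => f (z + s • v)) (closedBall 0 ρ) := fun s hs =>
    (hasDerivAt_line (hf s hs)).differentiableAt.differentiableWithinAt
  rw [hd.deriv_eq_smul_circleIntegral hρ]
  congr 1
  have h0 := hf 0 (mem_closedBall_self hρ.le)
  have := (hasDerivAt_line h0).deriv
  rw [this]; simp

/-- directional derivatives of holomorphic maps are holomorphic -/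
theorem differentiableOn_fderiv_apply {f : E' → F'} {U : Set E'} (hU : IsOpen U)
    (hf : DifferentiableOn ℂ f U) (v : E') : DifferentiableOn ℂ (fun z => fderiv ℂ f z v) U := by
  intro z₀ hz
  apply DifferentiableAt.differentiableWithinAt
  obtain ⟨δ, hδ, K, hK, hsub, hb, hl⟩ := fderiv_local hU hf hz
  set ρ := δ / (2 * (‖v‖ + 1)) with hρdef
  have hρ : 0 < ρ := by positivity
  have hρv : ρ * ‖v‖ ≤ δ / 2 := by
    have : ρ * ‖v‖ ≤ ρ * (‖v‖ + 1) := by gcongr; linarith
    have h2 : ρ * (‖v‖ + 1) = δ / 2 := by rw [hρdef]; field_simp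
    linarith
  have hmem : ∀ z ∈ ball z₀ (δ / 2), ∀ s ∈ closedBall (0 : ℂ) ρ, z + s • v ∈ ball z₀ δ := by
    intro z hz' s hs
    rw [mem_ball, dist_eq_norm] at *
    rw [mem_closedBall, dist_zero_right] at hs
    have e1 : z + s • v - z₀ = (z - z₀) + s • v := by abel
    rw [e1]
    have e2 : ‖s • v‖ ≤ ρ * ‖v‖ := by rw [norm_smul]; gcongr
    calc ‖(z - z₀) + s • v‖ ≤ ‖z - z₀‖ + ‖s • v‖ := norm_add_le _ _
      _ < δ := by linarith
  have hdiff : ∀ z ∈ ball z₀ (δ / 2), ∀ s ∈ closedBall (0 : ℂ) ρ,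
      DifferentiableAt ℂ f (z + s • v) := fun z hz' s hs =>
    hf.differentiableAt (hU.mem_nhds (hsub (hmem z hz' s hs)))
  -- representation
  have hrep : ∀ z ∈ ball z₀ (δ / 2), fderiv ℂ f z v = (2 * Real.pi * Complex.I : ℂ)⁻¹ •
      ∮ s in C(0, ρ), (1 / (s - 0) ^ 2) • f (z + s • v) := by
    intro z hz'
    rw [← fderiv_apply_eq_integral hρ (hdiff z hz'), smul_smul, inv_mul_cancel₀, one_smul]
    exact Complex.two_pi_I_ne_zero
  have hev : (fun z => fderiv ℂ f z v) =ᶠ[𝓝 z₀] fun z => (2 * Real.pi * Complex.I : ℂ)⁻¹ •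
      ∮ s in C(0, ρ), (1 / (s - 0) ^ 2) • f (z + s • v) := by
    filter_upwards [ball_mem_nhds z₀ (half_pos hδ)] with z hz'
    exact hrep z hz'
  refine DifferentiableAt.congr_of_eventuallyEq ?_ hev
  apply DifferentiableAt.const_smul
  -- differentiate under the integral sign
  have hcont : ∀ z ∈ ball z₀ (δ / 2), Continuous fun θ : ℝ =>
      deriv (circleMap 0 ρ) θ • (1 / (circleMap 0 ρ θ - 0) ^ 2) •
        f (z + circleMap 0 ρ θ • v) := by
    intro z hz'
    have hc1 : Continuous fun θ : ℝ => f (z + circleMap 0 ρ θ • v) := by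
      rw [continuous_iff_continuousAt]
      intro θ
      have hs : circleMap 0 ρ θ ∈ closedBall (0 : ℂ) ρ :=
        circleMap_mem_closedBall 0 hρ.le θ
      have h1 := (hdiff z hz' _ hs).continuousAt
      have h2 : ContinuousAt (fun θ : ℝ => z + circleMap 0 ρ θ • v) θ := by fun_prop
      exact ContinuousAt.comp (f := fun θ : ℝ => z + circleMap 0 ρ θ • v) h1 h2
    have hc2 : Continuous fun θ : ℝ => (1 / (circleMap 0 ρ θ - 0) ^ 2 : ℂ) := by
      apply Continuous.div continuous_const (by fun_prop)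
      intro θ
      have : circleMap 0 ρ θ ≠ 0 := circleMap_ne_center hρ.ne'
      simpa using this
    have hc3 : Continuous fun θ : ℝ => deriv (circleMap 0 ρ) θ := by
      simp only [deriv_circleMap]; fun_prop
    exact hc3.smul (hc2.smul hc1)
  have hcont' : Continuous fun θ : ℝ =>
      deriv (circleMap 0 ρ) θ • (1 / (circleMap 0 ρ θ - 0) ^ 2 : ℂ) •
        fderiv ℂ f (z₀ + circleMap 0 ρ θ • v) := by
    have hz0 : z₀ ∈ ball z₀ (δ / 2) := mem_ball_self (half_pos hδ)
    have hc1 : Continuous fun θ : ℝ => fderiv ℂ f (z₀ + circleMap 0 ρ θ • v) := by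
      rw [continuous_iff_continuousAt]
      intro θ
      have hs : circleMap 0 ρ θ ∈ closedBall (0 : ℂ) ρ :=
        circleMap_mem_closedBall 0 hρ.le θ
      have h1 := (continuousOn_fderiv' hU hf).continuousAt (hU.mem_nhds (hsub (hmem z₀ hz0 _ hs)))
      have h2 : ContinuousAt (fun θ : ℝ => z₀ + circleMap 0 ρ θ • v) θ := by fun_prop
      exact ContinuousAt.comp (f := fun θ : ℝ => z₀ + circleMap 0 ρ θ • v) h1 h2
    have hc2 : Continuous fun θ : ℝ => (1 / (circleMap 0 ρ θ - 0) ^ 2 : ℂ) := by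
      apply Continuous.div continuous_const (by fun_prop)
      intro θ
      have : circleMap 0 ρ θ ≠ 0 := circleMap_ne_center hρ.ne'
      simpa using this
    have hc3 : Continuous fun θ : ℝ => deriv (circleMap 0 ρ) θ := by
      simp only [deriv_circleMap]; fun_prop
    exact hc3.smul (hc2.smul hc1)
  have hmain := intervalIntegral.hasFDerivAt_integral_of_dominated_of_fderiv_le
    (𝕜 := ℂ) (μ := volume) (a := 0) (b := 2 * Real.pi) (x₀ := z₀) (s := ball z₀ (δ / 2))
    (F := fun z θ => deriv (circleMap 0 ρ) θ • (1 / (circleMap 0 ρ θ - 0) ^ 2 : ℂ) •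
        f (z + circleMap 0 ρ θ • v))
    (F' := fun z θ => deriv (circleMap 0 ρ) θ • (1 / (circleMap 0 ρ θ - 0) ^ 2 : ℂ) •
        fderiv ℂ f (z + circleMap 0 ρ θ • v))
    (bound := fun _ => ρ * ((1 / ρ ^ 2) * K))
    (ball_mem_nhds z₀ (half_pos hδ))
    (by
      filter_upwards [ball_mem_nhds z₀ (half_pos hδ)] with z hz'
      exact (hcont z hz').aestronglyMeasurable)
    ((hcont z₀ (mem_ball_self (half_pos hδ))).intervalIntegrable _ _)
    hcont'.aestronglyMeasurable
    (by
      refine Eventually.of_forall fun θ _ z hz' => ?_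
      have hs : circleMap 0 ρ θ ∈ closedBall (0 : ℂ) ρ :=
        circleMap_mem_closedBall 0 hρ.le θ
      rw [norm_smul, norm_smul]
      have n1 : ‖deriv (circleMap 0 ρ) θ‖ = ρ := by
        simp [abs_of_pos hρ]
      have n2 : ‖(1 / (circleMap 0 ρ θ - 0) ^ 2 : ℂ)‖ = 1 / ρ ^ 2 := by
        simp
      rw [n1, n2]
      gcongr
      exact (hb _ (hmem z hz' _ hs)).2)
    (intervalIntegrable_const)
    (by
      refine Eventually.of_forall fun θ _ z hz' => ?_
      have hs : circleMap 0 ρ θ ∈ closedBall (0 : ℂ) ρ :=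
        circleMap_mem_closedBall 0 hρ.le θ
      have h1 := (hdiff z hz' _ hs).hasFDerivAt
      have h2 : HasFDerivAt (fun z : E' => z + circleMap 0 ρ θ • v)
          (ContinuousLinearMap.id ℂ E') z := (hasFDerivAt_id z).add_const _
      have h3 : HasFDerivAt (fun z : E' => f (z + circleMap 0 ρ θ • v))
          (fderiv ℂ f (z + circleMap 0 ρ θ • v)) z := by
        simpa [Function.comp_def] using HasFDerivAt.comp z h1 h2
      exact (h3.const_smul _).const_smul _)
  exact hmain.differentiableAt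

end general

end Pool.Agent.SP
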