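import Pool.Agent.Lib52.SP.ODE3
import Pool.Agent.Lib_helper37.Osgood

set_option autoImplicit false

open Set Metric Filter MeasureTheory Complex
open scoped Topology ComplexConjugate

namespace Pool.Agent.SP

/-- Osgood: the maps of a normal chain have invertible differentials -/
theorem reg_of_chain {F : ℝ → Hol} (hF : IsNormalChain F) : Reg F := by
  intro t ht
  apply Pool.Agent.Lib37.Osg.osgood (ev_diff (F t)) (hF.univalent t ht)
  rw [hF.deriv t ht]
  intro v w hvw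
  have hne : ((Real.exp t : ℝ) : ℂ) ≠ 0 := by exact_mod_cast (Real.exp_pos t).ne'
  have h1 : ((Real.exp t : ℝ) : ℂ) • v = ((Real.exp t : ℝ) : ℂ) • w := hvw
  exact smul_right_injective E hne h1

/-- the modified control -/
noncomputable def modC (C : ℝ → ℂ → ℂ) (D : ℂ → ℂ) (χ : ℝ → ℝ) (τ : ℝ) (ζ : ℂ) : ℂ :=
  ((1 - χ τ : ℝ) : ℂ) * C τ ζ + ((χ τ : ℝ) : ℂ) * D ζ

theorem modC_ctrl {C : ℝ → ℂ → ℂ} (hC : Ctrl C) {D : ℂ → ℂ} (hD : InD D) {χ : ℝ → ℝ}
    (hχ : Continuous χ) (h0 : ∀ τ, 0 ≤ χ τ) (h1 : ∀ τ, χ τ ≤ 1) : Ctrl (modC C D χ) where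
  inD := fun τ => (hC.inD τ).convex hD (h0 τ) (h1 τ)
  cont := by
    intro ζ hζ
    have hc := hC.cont ζ hζ
    unfold modC
    have k1 : Continuous fun τ => ((1 - χ τ : ℝ) : ℂ) :=
      Complex.continuous_ofReal.comp (continuous_const.sub hχ)
    have k2 : Continuous fun τ => ((χ τ : ℝ) : ℂ) := Complex.continuous_ofReal.comp hχ
    exact (k1.mul hc).add (k2.mul continuous_const)

theorem ctrl_const {D : ℂ → ℂ} (hD : InD D) : Ctrl (fun _ => D) where
  inD := fun _ => hD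
  cont := fun _ _ => continuous_const

theorem Ji_modC {C : ℝ → ℂ → ℂ} (hC : Ctrl C) {D : ℂ → ℂ} (hD : InD D) (χ : ℝ → ℝ) (τ : ℝ) :
    Ji (modC C D χ) τ = Ji C τ + ((χ τ : ℝ) : ℂ) * (Ji (fun _ => D) τ - Ji C τ) := by
  have h : ∀ n, co (modC C D χ τ) n =
      ((1 - χ τ : ℝ) : ℂ) * co (C τ) n + ((χ τ : ℝ) : ℂ) * co D n := by
    intro n
    exact co_lin (hC.inD τ).diff hD.diff _ _ n
  unfold Ji
  rw [h 1, h 2]
  push_cast
  ring

/-- the pointwise maximum principle -/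
theorem var_ineq {C : ℝ → ℂ → ℂ} (hC : Ctrl C)
    (hmax : ∀ C' : ℝ → ℂ → ℂ, Ctrl C' → (JJ C').re ≤ (JJ C).re) {D : ℂ → ℂ} (hD : InD D) :
    ∀ τ, 0 ≤ τ → (Ji (fun _ => D) τ).re ≤ (Ji C τ).re := by
  set g : ℝ → ℝ := fun τ => (Ji (fun _ => D) τ).re - (Ji C τ).re with hg
  have hgc : Continuous g :=
    (Complex.continuous_re.comp (ctrl_const hD).Ji_cont).sub
      (Complex.continuous_re.comp hC.Ji_cont)
  set χ : ℝ → ℝ := fun τ => min (max (g τ) 0) 1 with hχ
  have hχc : Continuous χ := (hgc.max continuous_const).min continuous_const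
  have hχ0 : ∀ τ, 0 ≤ χ τ := fun τ => le_min (le_max_right _ _) zero_le_one
  have hχ1 : ∀ τ, χ τ ≤ 1 := fun τ => min_le_right _ _
  have hC' := modC_ctrl hC hD hχc hχ0 hχ1
  have hle := hmax _ hC'
  -- the difference of the functionals
  have hre : ∀ {C : ℝ → ℂ → ℂ}, Ctrl C → (JJ C).re = ∫ τ in Ioi (0 : ℝ), (Ji C τ).re := by
    intro C h
    rw [JJ_def]
    exact (integral_re h.Ji_int).symm
  have hint : IntegrableOn (fun τ => (Ji (modC C D χ) τ).re - (Ji C τ).re) (Ioi 0) :=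
    hC'.Ji_int.re.sub hC.Ji_int.re
  have hpt : ∀ τ, (Ji (modC C D χ) τ).re - (Ji C τ).re = χ τ * g τ := by
    intro τ
    rw [Ji_modC hC hD, Complex.add_re, Complex.re_ofReal_mul, Complex.sub_re]
    simp only [hg]
    ring
  have hI : ∫ τ in Ioi (0 : ℝ), ((Ji (modC C D χ) τ).re - (Ji C τ).re) =
      (JJ (modC C D χ)).re - (JJ C).re := by
    rw [hre hC', hre hC]
    exact integral_sub hC'.Ji_int.re hC.Ji_int.re
  have hnn : ∀ τ, 0 ≤ χ τ * g τ := by
    intro τ
    rcases le_or_gt 0 (g τ) with h | h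
    · exact mul_nonneg (hχ0 τ) h
    · have : χ τ = 0 := by
        simp only [hχ]
        rw [max_eq_right h.le, min_eq_left zero_le_one]
      rw [this, zero_mul]
  simp only [hpt] at hI hint
  have hI0 : ∫ τ in Ioi (0 : ℝ), χ τ * g τ = 0 := by
    apply le_antisymm
    · rw [hI]; linarith
    · exact integral_nonneg hnn
  have hae : (fun τ => χ τ * g τ) =ᵐ[volume.restrict (Ioi (0 : ℝ))] 0 :=
    (integral_eq_zero_iff_of_nonneg hnn hint).1 hI0
  rw [Measure.restrict_congr_set Ioi_ae_eq_Ici] at hae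
  have hall := mem_of_ae (φ := fun τ => χ τ * g τ) (K := {(0 : ℝ)}) isClosed_singleton
    (hχc.mul hgc).continuousOn (by
      filter_upwards [hae] with τ hτ
      exact hτ)
  intro τ hτ
  by_contra hn
  have hgpos : 0 < g τ := by simp only [hg]; linarith
  have hχpos : 0 < χ τ := by
    simp only [hχ]
    rw [max_eq_left hgpos.le]
    exact lt_min hgpos one_pos
  have h3 : χ τ * g τ = 0 := hall τ hτ
  have : 0 < χ τ * g τ := mul_pos hχpos hgpos
  linarith

/-- optimal controls are discontinuous -/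
theorem no_max_ctrl {C : ℝ → ℂ → ℂ} (hC : Ctrl C)
    (hmax : ∀ C' : ℝ → ℂ → ℂ, Ctrl C' → (JJ C').re ≤ (JJ C).re) : False := by
  have hJre : ∀ (D : ℝ → ℂ → ℂ) (τ : ℝ), (Ji D τ).re =
      (Real.exp (-τ) - 2 * Real.exp (-τ) ^ 2) * (co (D τ) 1).re +
        Real.exp (-τ) ^ 2 * (co (D τ) 2).re := by
    intro D τ
    unfold Ji
    rw [Complex.add_re, Complex.re_mul_ofReal, Complex.re_mul_ofReal]
    ring
  have h2 : ∀ τ, (co (C τ) 2).re ≤ 4 := fun τ => (hC.inD τ).re_co_two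
  have v1 := var_ineq hC hmax inD_C₁
  have v2 := var_ineq hC hmax inD_C₂
  have hlog : 0 < Real.log 2 := Real.log_pos (by norm_num)
  have hexp : Real.exp (-Real.log 2) = 1 / 2 := by
    rw [Real.exp_neg, Real.exp_log (by norm_num)]; norm_num
  have k1 : ∀ τ, 0 < τ → τ < Real.log 2 → (co (C τ) 1).re ≤ -3 := by
    intro τ h0 hτ
    have h3 := v1 τ h0.le
    rw [hJre, hJre, co_C₁.1, co_C₁.2] at h3
    have hx : 1 / 2 < Real.exp (-τ) := by
      rw [← hexp, Real.exp_lt_exp]; linarith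
    set x := Real.exp (-τ)
    have h4 := h2 τ
    have e1 : ((-3 : ℂ)).re = -3 := by simp
    have e2 : ((4 : ℂ)).re = 4 := by simp
    rw [e1, e2] at h3
    have hx2 : 0 ≤ x ^ 2 := by positivity
    have h5 : x ^ 2 * (co (C τ) 2).re ≤ x ^ 2 * 4 := by gcongr
    have h6 : (x - 2 * x ^ 2) * (-3 - (co (C τ) 1).re) ≤ 0 := by linarith
    have h7 : x - 2 * x ^ 2 < 0 := by nlinarith
    by_contra hn
    push Not at hn
    have : 0 < (x - 2 * x ^ 2) * (-3 - (co (C τ) 1).re) := mul_pos_of_neg_of_neg h7 (by linarith)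
    linarith
  have k2 : ∀ τ, Real.log 2 < τ → -1 ≤ (co (C τ) 1).re := by
    intro τ hτ
    have h3 := v2 τ (by linarith)
    rw [hJre, hJre, co_C₂.1, co_C₂.2] at h3
    have hx : Real.exp (-τ) < 1 / 2 := by
      rw [← hexp, Real.exp_lt_exp]; linarith
    have hx0 : 0 < Real.exp (-τ) := Real.exp_pos _
    set x := Real.exp (-τ)
    have h4 := h2 τ
    have e1 : ((-1 : ℂ)).re = -1 := by simp
    have e2 : ((4 : ℂ)).re = 4 := by simp
    rw [e1, e2] at h3
    have hx2 : 0 ≤ x ^ 2 := by positivity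
    have h5 : x ^ 2 * (co (C τ) 2).re ≤ x ^ 2 * 4 := by gcongr
    have h6 : (x - 2 * x ^ 2) * (-1 - (co (C τ) 1).re) ≤ 0 := by linarith
    have h7 : 0 < x - 2 * x ^ 2 := by nlinarith
    by_contra hn
    push Not at hn
    have : 0 < (x - 2 * x ^ 2) * (-1 - (co (C τ) 1).re) := mul_pos h7 (by linarith)
    linarith
  have hcont : Continuous fun τ => (co (C τ) 1).re :=
    Complex.continuous_re.comp (hC.co_cont 1)
  have l1 : (co (C (Real.log 2)) 1).re ≤ -3 := by
    apply le_of_tendsto ((hcont.tendsto (Real.log 2)).mono_left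
      (nhdsWithin_le_nhds (s := Iio (Real.log 2))))
    filter_upwards [Ioo_mem_nhdsLT hlog] with τ hτ using k1 τ hτ.1 hτ.2
  have l2 : -1 ≤ (co (C (Real.log 2)) 1).re := by
    apply ge_of_tendsto ((hcont.tendsto (Real.log 2)).mono_left
      (nhdsWithin_le_nhds (s := Ioi (Real.log 2))))
    filter_upwards [self_mem_nhdsWithin] with τ hτ using k2 τ hτ
  linarith

/-- the main theorem -/
theorem main_theorem : MainStatement := by
  obtain ⟨L, q, hfam, hmax⟩ := exists_max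
  refine ⟨chainOf hfam 0, ?_, ?_⟩
  · refine ⟨mem_S0_of_chain (isNormalChain hfam), Lf, ?_, ?_⟩
    · rintro ⟨c, hc⟩
      have h1 := hc _ (mem_S0_of_chain (isNormalChain hfam))
      have h2 := hc _ idH_mem
      rw [Lf_chain] at h1
      rw [Lf_id] at h2
      rw [← h2] at h1
      norm_num at h1
    · rintro g ⟨-, -, -, F, hF, rfl⟩
      rw [Lf_chain]
      have := hF.Lf_le (reg_of_chain hF)
      simpa using this
  · intro G hG F hF hF0 hgen hcont
    obtain ⟨H, hH, hGH⟩ := hcont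
    have hg : Gen F H := Gen.of hF (reg_of_chain hF) hH hG hGH hgen
    have h0 : co (sl (F 0)) 2 = 2 := by
      rw [hF0, ← Lf_apply, Lf_chain]
    have hC := hg.ctrl h0
    have hW := hg.W_eq h0
    have hinit := init_chain hfam
    have hW0 : Gen.Wf F 0 = q.1 - q.2 := by
      unfold Gen.Wf
      rw [hF0, hinit.1, hinit.2, neg_zero, Real.exp_zero, Complex.ofReal_one]
      ring
    apply no_max_ctrl hC
    intro C' hC'
    have h1 := hmax _ _ hC'.fam
    simp only at h1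
    rw [hC'.JJ_eq, ← hW0, hW] at h1
    exact h1

end Pool.Agent.SP
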