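import Pool.Agent.Lib52.SP.Stmt
import Pool.Agent.Lib52.SP.Final

set_option autoImplicit false

open MeasureTheory Set Metric

namespace Pool.Agent.SuppLoewner

/-- the main statement -/
def Main : Prop :=
  ∃ f ∈ Supp (S0 (EuclideanSpace ℂ (Fin 2))),
    ∀ G : EuclideanSpace ℂ (Fin 2) → ℝ → EuclideanSpace ℂ (Fin 2), IsHerglotz G →
      ∀ F : ℝ → Hol (EuclideanSpace ℂ (Fin 2)),
        IsNormalChain F → F 0 = f → Generates G F → ¬ IsContinuousField G

theorem ev_eq (f : SP.Hol) (z : SP.E) : ev (V := SP.E) f z = SP.ev f z := rfl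

theorem chain_to {F : ℝ → SP.Hol} (h : SP.IsNormalChain F) :
    IsNormalChain (V := SP.E) F where
  univalent := h.univalent
  zero := h.zero
  deriv := h.deriv
  mono := h.mono
  normal := h.normal

theorem chain_of {F : ℝ → Hol SP.E} (h : IsNormalChain (V := SP.E) F) :
    SP.IsNormalChain F where
  univalent := h.univalent
  zero := h.zero
  deriv := h.deriv
  mono := h.mono
  normal := h.normal

theorem S0_eq : S0 SP.E = SP.S0 := by
  ext f
  constructor
  · rintro ⟨h1, h2, h3, F, hF, h4⟩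
    exact ⟨h1, h2, h3, F, chain_of hF, h4⟩
  · rintro ⟨h1, h2, h3, F, hF, h4⟩
    exact ⟨h1, h2, h3, F, chain_to hF, h4⟩

theorem Supp_eq (K : Set (Hol SP.E)) : Supp K = SP.Supp K := rfl

theorem herglotz_of {G : SP.E → ℝ → SP.E} (h : IsHerglotz G) : SP.IsHerglotz G where
  meas := h.meas
  mem := h.mem

theorem main : Main := by
  obtain ⟨f, hf, h⟩ := SP.main_theorem
  refine ⟨f, ?_, fun G hG F hF hF0 hgen hc => ?_⟩
  · have h1 : f ∈ SP.Supp SP.S0 := hf
    rw [← S0_eq] at h1
    exact h1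
  · exact h G (herglotz_of hG) F (chain_of hF) hF0 hgen hc

end Pool.Agent.SuppLoewner
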