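import Pool.Agent.Lib52.SP.Jets

set_option autoImplicit false

open Set Metric Filter MeasureTheory Complex
open scoped Topology Real ComplexConjugate

namespace Pool.Agent.SP

/-- the constant control `1` -/
theorem ctrl_one : Ctrl (fun _ _ => 1) where
  inD := fun _ =>
    { diff := differentiableOn_const 1
      one := rfl
      pos := fun ζ _ => by
        simp only [Complex.one_re]
        positivity }
  cont := fun _ _ => continuous_const

/-- the bounding function -/
noncomputable def Mb (t : ℝ) (ζ : ℂ) : ℝ :=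
  if 0 ≤ t ∧ ‖ζ‖ < 1 then 80 * ‖ζ‖ / (1 - ‖ζ‖) ^ 5 else 0

/-- the space in which families live -/
abbrev XX := (ℝ → ℂ → ℂ) × (ℂ × ℂ)

/-- normalised families -/
def SS : Set XX := {x | Fam x.1 x.2 ∧ ∀ t ζ, ¬ (0 ≤ t ∧ ‖ζ‖ < 1) → x.1 t ζ = 0}

theorem Fam.congr {L L' : ℝ → ℂ → ℂ} {q : ℂ × ℂ} (h : Fam L q)
    (he : ∀ t, 0 ≤ t → ∀ ζ, ‖ζ‖ < 1 → L' t ζ = L t ζ) : Fam L' q where
  diff := fun t ht => (h.diff t ht).congr fun ζ hζ => he t ht ζ (by simpa using hζ)
  bd := fun t ht ζ hζ => by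
    rw [he t ht ζ (by simpa using hζ)]; exact h.bd t ht ζ hζ
  ineq := fun s t hs hst ζ hζ => by
    have hζ' : ‖ζ‖ < 1 := by simpa using hζ
    obtain ⟨e0, e1⟩ := exp_bounds hst
    rw [he s hs ζ hζ', he t (hs.trans hst) _ (norm_Zf_lt e0 e1 hζ')]
    exact h.ineq s t hs hst ζ hζ
  jet := fun ζ hζ => by
    rw [he 0 le_rfl ζ (by linarith)]; exact h.jet ζ hζ
  qbd := h.qbd

theorem SS_trunc {L : ℝ → ℂ → ℂ} {q : ℂ × ℂ} (h : Fam L q) :
    ((fun t ζ => if 0 ≤ t ∧ ‖ζ‖ < 1 then L t ζ else 0, q) : XX) ∈ SS := by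
  refine ⟨h.congr fun t ht ζ hζ => ?_, fun t ζ hn => ?_⟩
  · simp only [ht, hζ, and_self, if_true]
  · simp only [hn, if_false]

theorem SS_nonempty : SS.Nonempty := ⟨_, SS_trunc ctrl_one.fam⟩

theorem isCompact_SS : IsCompact SS := by
  set K : Set XX := (Set.pi univ fun t => Set.pi univ fun ζ => closedBall (0 : ℂ) (Mb t ζ)) ×ˢ
    (closedBall (0 : ℂ) 8 ×ˢ closedBall (0 : ℂ) 32) with hK
  have hKc : IsCompact K :=
    (isCompact_univ_pi fun t => isCompact_univ_pi fun ζ => isCompact_closedBall _ _).prod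
      ((isCompact_closedBall _ _).prod (isCompact_closedBall _ _))
  have hSK : SS ⊆ K := by
    rintro ⟨L, q⟩ ⟨hF, h0⟩
    refine ⟨?_, ?_, ?_⟩
    · intro t _ ζ _
      rw [mem_closedBall, dist_zero_right]
      unfold Mb
      split_ifs with hc
      · exact hF.bd t hc.1 ζ (by simpa using hc.2)
      · rw [h0 t ζ hc, norm_zero]
    · simpa using hF.qbd.1
    · simpa using hF.qbd.2
  rw [isCompact_iff_ultrafilter_le_nhds]
  intro U hU
  obtain ⟨x, hxK, hx⟩ := hKc.ultrafilter_le_nhds U (hU.trans (principal_mono.2 hSK))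
  refine ⟨x, ?_, hx⟩
  have hS : ∀ᶠ y in (U : Filter XX), y ∈ SS := hU (mem_principal_self _)
  have hid : Tendsto (fun y : XX => y) (U : Filter XX) (𝓝 x) := hx
  -- coordinate convergence
  have hev : ∀ t ζ, Tendsto (fun y : XX => y.1 t ζ) (U : Filter XX) (𝓝 (x.1 t ζ)) := by
    intro t ζ
    have hc : Continuous fun y : XX => y.1 t ζ := by fun_prop
    exact (hc.tendsto x).comp hid
  have hq1 : Tendsto (fun y : XX => y.2.1) (U : Filter XX) (𝓝 x.2.1) := by
    have hc : Continuous fun y : XX => y.2.1 := by fun_prop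
    exact (hc.tendsto x).comp hid
  have hq2 : Tendsto (fun y : XX => y.2.2) (U : Filter XX) (𝓝 x.2.2) := by
    have hc : Continuous fun y : XX => y.2.2 := by fun_prop
    exact (hc.tendsto x).comp hid
  refine ⟨?_, ?_⟩
  · refine ⟨?_, ?_, ?_, ?_, ?_⟩
    · -- holomorphy
      intro t ht ζ₀ hζ₀
      have hζ₀' : ‖ζ₀‖ < 1 := by simpa using hζ₀
      apply DifferentiableAt.differentiableWithinAt
      set δ := (1 - ‖ζ₀‖) / 2 with hδ
      have hδ0 : 0 < δ := by rw [hδ]; linarith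
      set r := (1 + ‖ζ₀‖) / 2 with hr
      have hr1 : r < 1 := by rw [hr]; linarith
      have hsub : ∀ z ∈ ball ζ₀ δ, ‖z‖ ≤ r := by
        intro z hz
        rw [mem_ball, dist_eq_norm] at hz
        have : ‖z‖ ≤ ‖z - ζ₀‖ + ‖ζ₀‖ := by simpa using norm_add_le (z - ζ₀) ζ₀
        rw [hr]; rw [hδ] at hz; linarith
      have hr' : 0 < 1 - r := by linarith
      apply ultra_diff U (F := fun y : XX => y.1 t) (R := δ) (K := 80 / (1 - r) ^ 5) hδ0
      · filter_upwards [hS] with y hy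
        exact (hy.1.diff t ht).mono fun z hz => by
          rw [mem_ball_zero_iff]; linarith [hsub z hz]
      · filter_upwards [hS] with y hy
        intro z hz
        have hz1 := hsub z hz
        refine (hy.1.bd t ht z (by rw [mem_ball_zero_iff]; linarith)).trans ?_
        have : 80 * ‖z‖ ≤ 80 := by linarith
        gcongr
      · intro z _
        exact hev t z
    · intro t ht ζ hζ
      apply le_of_tendsto (hev t ζ).norm
      filter_upwards [hS] with y hy using hy.1.bd t ht ζ hζ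
    · intro s t hs hst ζ hζ
      set Z := Zf (Real.exp (s - t)) ζ with hZ
      have t1 : Tendsto (fun y : XX => Real.exp (2 * ((y.1 s ζ - y.1 t Z).re + (s - t))) *
          (1 - ‖ζ‖ ^ 2)) (U : Filter XX)
          (𝓝 (Real.exp (2 * ((x.1 s ζ - x.1 t Z).re + (s - t))) * (1 - ‖ζ‖ ^ 2))) := by
        have hc : Continuous fun w : ℂ => Real.exp (2 * (w.re + (s - t))) * (1 - ‖ζ‖ ^ 2) := by
          fun_prop
        exact (hc.tendsto _).comp ((hev s ζ).sub (hev t Z))
      apply le_of_tendsto t1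
      filter_upwards [hS] with y hy using hy.1.ineq s t hs hst ζ hζ
    · intro ζ hζ
      have t1 : Tendsto (fun y : XX => ‖y.1 0 ζ - y.2.1 * ζ - y.2.2 * ζ ^ 2‖) (U : Filter XX)
          (𝓝 ‖x.1 0 ζ - x.2.1 * ζ - x.2.2 * ζ ^ 2‖) :=
        (((hev 0 ζ).sub (hq1.mul_const ζ)).sub (hq2.mul_const (ζ ^ 2))).norm
      apply le_of_tendsto t1
      filter_upwards [hS] with y hy using hy.1.jet ζ hζ
    · constructor
      · apply le_of_tendsto hq1.norm
        filter_upwards [hS] with y hy using hy.1.qbd.1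
      · apply le_of_tendsto hq2.norm
        filter_upwards [hS] with y hy using hy.1.qbd.2
  · intro t ζ hn
    have : Tendsto (fun y : XX => y.1 t ζ) (U : Filter XX) (𝓝 0) := by
      apply tendsto_const_nhds.congr'
      filter_upwards [hS] with y hy
      exact (hy.2 t ζ hn).symm
    exact tendsto_nhds_unique (hev t ζ) this

/-- there is a family maximising the second-level functional -/
theorem exists_max : ∃ (L : ℝ → ℂ → ℂ) (q : ℂ × ℂ), Fam L q ∧
    ∀ (L' : ℝ → ℂ → ℂ) (q' : ℂ × ℂ), Fam L' q' → (q'.1 - q'.2).re ≤ (q.1 - q.2).re := by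
  obtain ⟨x, hxS, hmax⟩ := isCompact_SS.exists_isMaxOn SS_nonempty
    (f := fun x : XX => (x.2.1 - x.2.2).re) (by
      apply Continuous.continuousOn
      exact Complex.continuous_re.comp (by fun_prop))
  refine ⟨x.1, x.2, hxS.1, fun L' q' h' => ?_⟩
  exact hmax (SS_trunc h')

end Pool.Agent.SP
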