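import Pool.Agent.Lib52.SP.HolB
import Pool.Agent.Lib52.SP.Max

set_option autoImplicit false

open Set Metric Filter MeasureTheory Complex
open scoped Topology

namespace Pool.Agent.SP

/-- the point with coordinates `(ζ, w)` -/
noncomputable def pt (ζ w : ℂ) : E := !₂[ζ, w]

@[simp] theorem pt_zero (ζ w : ℂ) : pt ζ w 0 = ζ := rfl
@[simp] theorem pt_one (ζ w : ℂ) : pt ζ w 1 = w := rfl

theorem norm_sq_E (z : E) : ‖z‖ ^ 2 = ‖z 0‖ ^ 2 + ‖z 1‖ ^ 2 := by
  rw [EuclideanSpace.norm_sq_eq, Fin.sum_univ_two]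

theorem norm_coord_le (z : E) (i : Fin 2) : ‖z i‖ ≤ ‖z‖ := by
  have h := norm_sq_E z
  have h2 : ‖z i‖ ^ 2 ≤ ‖z‖ ^ 2 := by
    fin_cases i
    · show ‖z 0‖ ^ 2 ≤ _
      nlinarith [sq_nonneg ‖z 1‖]
    · show ‖z 1‖ ^ 2 ≤ _
      nlinarith [sq_nonneg ‖z 0‖]
  exact (sq_le_sq₀ (norm_nonneg _) (norm_nonneg _)).1 h2

theorem mem_ball_iff_sq (z : E) : z ∈ ball (0 : E) 1 ↔ ‖z 0‖ ^ 2 + ‖z 1‖ ^ 2 < 1 := by
  rw [mem_ball_zero_iff, ← norm_sq_E]
  constructor
  · intro h; nlinarith [norm_nonneg z]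
  · intro h; nlinarith [norm_nonneg z]

theorem norm_le_add_E (z : E) : ‖z‖ ≤ ‖z 0‖ + ‖z 1‖ := by
  have h := norm_sq_E z
  have h0 := norm_nonneg (z 0)
  have h1 := norm_nonneg (z 1)
  have : ‖z‖ ^ 2 ≤ (‖z 0‖ + ‖z 1‖) ^ 2 := by nlinarith
  exact (sq_le_sq₀ (norm_nonneg _) (by positivity)).1 this

theorem norm_fst_lt {z : E} (hz : z ∈ ball (0 : E) 1) : ‖z 0‖ < 1 :=
  lt_of_le_of_lt (norm_coord_le z 0) (mem_ball_zero_iff.1 hz)

/-- coordinate functional -/
noncomputable def pr (i : Fin 2) : E →L[ℂ] ℂ := EuclideanSpace.proj i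

@[simp] theorem pr_apply (i : Fin 2) (z : E) : pr i z = z i := rfl

/-- the maps of the chain -/
noncomputable def mk (L : ℝ → ℂ → ℂ) (t : ℝ) (z : E) : E :=
  pt ((Real.exp t : ℝ) * kf (z 0)) ((Real.exp t : ℝ) * (z 1 * Complex.exp (L t (z 0))))

variable {L : ℝ → ℂ → ℂ} {q : ℂ × ℂ}

theorem hasFDerivAt_E {f : E → E} {f' : E →L[ℂ] E} {z : E}
    (h : ∀ i, HasFDerivAt (fun x => f x i) (pr i ∘L f') z) : HasFDerivAt f f' z := by
  rw [← hasFDerivWithinAt_univ]
  rw [hasFDerivWithinAt_euclidean]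
  intro i
  rw [hasFDerivWithinAt_univ]
  exact h i

theorem mk_diff (h : Fam L q) {t : ℝ} (ht : 0 ≤ t) :
    DifferentiableOn ℂ (mk L t) (ball (0 : E) 1) := by
  rw [differentiableOn_euclidean]
  intro i z hz
  apply DifferentiableAt.differentiableWithinAt
  have hz0 := norm_fst_lt hz
  have d0 : DifferentiableAt ℂ (fun x : E => x 0) z := (pr 0).differentiableAt
  have d1 : DifferentiableAt ℂ (fun x : E => x 1) z := (pr 1).differentiableAt
  have dk : DifferentiableAt ℂ (fun x : E => kf (x 0)) z :=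
    DifferentiableAt.comp z (differentiableAt_kf hz0) d0
  have dL : DifferentiableAt ℂ (fun x : E => L t (x 0)) z :=
    DifferentiableAt.comp (f := fun x : E => x 0) z
      ((h.diff t ht).differentiableAt (isOpen_ball.mem_nhds (by simpa using hz0))) d0
  fin_cases i
  · exact dk.const_mul _
  · exact (d1.mul dL.cexp).const_mul _

theorem L_zero (h : Fam L q) {t : ℝ} (ht : 0 ≤ t) : L t 0 = 0 := by
  have := h.bd t ht 0 (by simp)
  simpa using this

theorem hasDerivAt_kf_zero : HasDerivAt kf 1 0 := by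
  have h1 : HasDerivAt (fun ζ : ℂ => ζ) 1 0 := hasDerivAt_id 0
  have h2 : HasDerivAt (fun ζ : ℂ => (1 - ζ) ^ 2) (2 * (1 - 0) ^ (2 - 1) * (-1)) 0 := by
    have := ((hasDerivAt_id (0 : ℂ)).const_sub 1).fun_pow 2
    simpa using this
  have h3 := h1.div h2 (by norm_num)
  refine h3.congr_deriv ?_
  norm_num

theorem mk_hasFDerivAt (h : Fam L q) {t : ℝ} (ht : 0 ≤ t) :
    HasFDerivAt (mk L t) (((Real.exp t : ℝ) : ℂ) • ContinuousLinearMap.id ℂ E) 0 := by
  apply hasFDerivAt_E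
  have d0 : HasFDerivAt (fun x : E => x 0) (pr 0) 0 := (pr 0).hasFDerivAt
  have d1 : HasFDerivAt (fun x : E => x 1) (pr 1) 0 := (pr 1).hasFDerivAt
  have dk : HasFDerivAt (fun x : E => kf (x 0)) ((1 : ℂ) • pr 0) 0 := by
    have := hasDerivAt_kf_zero
    exact HasDerivAt.comp_hasFDerivAt (f := fun x : E => x 0) 0 this d0
  have hLd : DifferentiableAt ℂ (L t) 0 :=
    (h.diff t ht).differentiableAt (isOpen_ball.mem_nhds (by simp))
  have dL : HasFDerivAt (fun x : E => L t (x 0)) (deriv (L t) 0 • pr 0) 0 :=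
    HasDerivAt.comp_hasFDerivAt (f := fun x : E => x 0) 0 hLd.hasDerivAt d0
  have dE := dL.cexp
  have dM := d1.mul dE
  intro i
  fin_cases i
  · show HasFDerivAt (fun x : E => ((Real.exp t : ℝ) : ℂ) * kf (x 0)) _ 0
    refine (dk.const_mul ((Real.exp t : ℝ) : ℂ)).congr_fderiv ?_
    ext v
    simp
  · show HasFDerivAt (fun x : E => ((Real.exp t : ℝ) : ℂ) * (x 1 * Complex.exp (L t (x 0)))) _ 0
    refine (dM.const_mul ((Real.exp t : ℝ) : ℂ)).congr_fderiv ?_
    ext v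
    simp [L_zero h ht]

theorem mk_inj {t : ℝ} : InjOn (mk L t) (ball (0 : E) 1) := by
  intro z hz w hw he
  have he0 : ((Real.exp t : ℝ) : ℂ) * kf (z 0) = ((Real.exp t : ℝ) : ℂ) * kf (w 0) :=
    congrArg (fun x : E => x 0) he
  have he1 : ((Real.exp t : ℝ) : ℂ) * (z 1 * Complex.exp (L t (z 0))) =
      ((Real.exp t : ℝ) : ℂ) * (w 1 * Complex.exp (L t (w 0))) :=
    congrArg (fun x : E => x 1) he
  have hne : ((Real.exp t : ℝ) : ℂ) ≠ 0 := by exact_mod_cast (Real.exp_pos t).ne'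
  have h0 : z 0 = w 0 := by
    have := mul_left_cancel₀ hne he0
    rw [← ki_kf (norm_fst_lt hz), ← ki_kf (norm_fst_lt hw), this]
  rw [h0] at he1
  have h1 : z 1 = w 1 := by
    have := mul_left_cancel₀ hne he1
    exact mul_right_cancel₀ (Complex.exp_ne_zero _) this
  ext i
  fin_cases i
  · exact h0
  · exact h1

theorem mk_mono (h : Fam L q) {s t : ℝ} (hs : 0 ≤ s) (hst : s ≤ t) :
    mk L s '' ball (0 : E) 1 ⊆ mk L t '' ball (0 : E) 1 := by
  rintro _ ⟨z, hz, rfl⟩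
  obtain ⟨e0, e1⟩ := exp_bounds hst
  have hz0 := norm_fst_lt hz
  set Z := Zf (Real.exp (s - t)) (z 0) with hZ
  set A : ℂ := L s (z 0) - L t Z + ((s - t : ℝ) : ℂ) with hA
  refine ⟨pt Z (z 1 * Complex.exp A), ?_, ?_⟩
  · rw [mem_ball_iff_sq, pt_zero, pt_one, norm_mul, mul_pow, Complex.norm_exp]
    have hin := h.ineq s t hs hst (z 0) (by simpa using hz0)
    rw [← hZ] at hin
    have hb := (mem_ball_iff_sq z).1 hz
    have hE : Real.exp A.re ^ 2 = Real.exp (2 * ((L s (z 0) - L t Z).re + (s - t))) := by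
      rw [← Real.exp_nat_mul, hA, Complex.add_re, Complex.ofReal_re]; norm_num
    rw [hE]
    set Ex := Real.exp (2 * ((L s (z 0) - L t Z).re + (s - t))) with hEx
    have hExpos : 0 < Ex := Real.exp_pos _
    have : ‖z 1‖ ^ 2 * Ex < 1 - ‖Z‖ ^ 2 := by
      calc ‖z 1‖ ^ 2 * Ex < (1 - ‖z 0‖ ^ 2) * Ex := by
            apply mul_lt_mul_of_pos_right _ hExpos; linarith
        _ = Ex * (1 - ‖z 0‖ ^ 2) := by ring
        _ ≤ _ := hin
    linarith
  · show pt _ _ = pt _ _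
    rw [pt_zero, pt_one, hZ, kf_Zf e0 e1 hz0, ← hZ]
    have h1 : ((Real.exp t : ℝ) : ℂ) * ((Real.exp (s - t) : ℝ) : ℂ) = ((Real.exp s : ℝ) : ℂ) := by
      rw [← Complex.ofReal_mul, ← Real.exp_add]; congr 2; ring
    congr 1
    · rw [← mul_assoc, h1]
    · have h2 : Complex.exp A * Complex.exp (L t Z) =
          ((Real.exp (s - t) : ℝ) : ℂ) * Complex.exp (L s (z 0)) := by
        rw [← Complex.exp_add, Complex.ofReal_exp, ← Complex.exp_add]
        congr 1
        rw [hA]; ring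
      calc ((Real.exp t : ℝ) : ℂ) * (z 1 * Complex.exp A * Complex.exp (L t Z))
          = ((Real.exp t : ℝ) : ℂ) * (z 1 * (Complex.exp A * Complex.exp (L t Z))) := by ring
        _ = (((Real.exp t : ℝ) : ℂ) * ((Real.exp (s - t) : ℝ) : ℂ)) *
            (z 1 * Complex.exp (L s (z 0))) := by rw [h2]; ring
        _ = _ := by rw [h1]

open Classical in
/-- the chain attached to a family -/
noncomputable def chainOf (h : Fam L q) (t : ℝ) : Hol :=
  if ht : 0 ≤ t then toHol (mk L t) (mk_diff h ht) else 0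

theorem ev_chainOf (h : Fam L q) {t : ℝ} (ht : 0 ≤ t) {z : E} (hz : z ∈ ball (0 : E) 1) :
    ev (chainOf h t) z = mk L t z := by
  unfold chainOf
  rw [dif_pos ht, ev_toHol _ _ hz]

theorem chain_bound (h : Fam L q) {r : ℝ} (hr : r < 1) {t : ℝ} (ht : 0 ≤ t) {z : E}
    (hz : ‖z‖ ≤ r) : ‖((Real.exp (-t) : ℝ) : ℂ) • mk L t z‖ ≤
      1 / (1 - r) ^ 2 + Real.exp (80 / (1 - r) ^ 5) := by
  have hr' : 0 < 1 - r := by linarith
  have h0 : ‖z 0‖ ≤ r := (norm_coord_le z 0).trans hz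
  have h1 : ‖z 1‖ ≤ r := (norm_coord_le z 1).trans hz
  have h01 : ‖z 0‖ < 1 := by linarith
  have e1 : ((Real.exp (-t) : ℝ) : ℂ) * ((Real.exp t : ℝ) : ℂ) = 1 := by
    rw [← Complex.ofReal_mul, ← Real.exp_add]; simp
  refine (norm_le_add_E _).trans ?_
  have c0 : (((Real.exp (-t) : ℝ) : ℂ) • mk L t z) 0 = kf (z 0) := by
    show ((Real.exp (-t) : ℝ) : ℂ) * (((Real.exp t : ℝ) : ℂ) * kf (z 0)) = _
    rw [← mul_assoc, e1, one_mul]
  have c1 : (((Real.exp (-t) : ℝ) : ℂ) • mk L t z) 1 = z 1 * Complex.exp (L t (z 0)) := by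
    show ((Real.exp (-t) : ℝ) : ℂ) * (((Real.exp t : ℝ) : ℂ) *
      (z 1 * Complex.exp (L t (z 0)))) = _
    rw [← mul_assoc, e1, one_mul]
  rw [c0, c1]
  have b0 : ‖kf (z 0)‖ ≤ 1 / (1 - r) ^ 2 := by
    refine (norm_kf_le h01).trans ?_
    have : 0 < 1 - ‖z 0‖ := by linarith
    gcongr
  have b1 : ‖z 1 * Complex.exp (L t (z 0))‖ ≤ Real.exp (80 / (1 - r) ^ 5) := by
    rw [norm_mul, Complex.norm_exp]
    have h2 := h.bd t ht (z 0) (by simpa using h01)
    have h3 : 80 * ‖z 0‖ / (1 - ‖z 0‖) ^ 5 ≤ 80 / (1 - r) ^ 5 := by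
      have : 80 * ‖z 0‖ ≤ 80 := by linarith
      have : 0 < 1 - ‖z 0‖ := by linarith
      gcongr
    have h4 : (L t (z 0)).re ≤ 80 / (1 - r) ^ 5 :=
      (Complex.re_le_norm _).trans (h2.trans h3)
    calc ‖z 1‖ * Real.exp (L t (z 0)).re ≤ 1 * Real.exp (80 / (1 - r) ^ 5) := by
          gcongr; linarith
      _ = _ := one_mul _
  exact add_le_add b0 b1

theorem fderiv_ev {f : Hol} {g : E → E} {g' : E →L[ℂ] E} {z : E} (hz : z ∈ ball (0 : E) 1)
    (he : ∀ w ∈ ball (0 : E) 1, ev f w = g w) (hg : HasFDerivAt g g' z) :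
    fderiv ℂ (ev f) z = g' :=
  (hg.congr_of_eventuallyEq (ev_eventuallyEq he hz)).fderiv

theorem zero_mem_ball : (0 : E) ∈ ball (0 : E) 1 := by simp

theorem isNormalChain (h : Fam L q) : IsNormalChain (chainOf h) where
  univalent := by
    intro t ht z hz w hw he
    rw [ev_chainOf h ht hz, ev_chainOf h ht hw] at he
    exact mk_inj hz hw he
  zero := by
    intro t ht
    rw [ev_chainOf h ht zero_mem_ball]
    show pt _ _ = 0
    ext i
    fin_cases i
    · show ((Real.exp t : ℝ) : ℂ) * kf 0 = 0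
      rw [kf_zero, mul_zero]
    · show ((Real.exp t : ℝ) : ℂ) * (0 * _) = 0
      rw [zero_mul, mul_zero]
  deriv := by
    intro t ht
    exact fderiv_ev zero_mem_ball (fun w hw => ev_chainOf h ht hw) (mk_hasFDerivAt h ht)
  mono := by
    intro s t hs hst
    have e : ∀ t, 0 ≤ t → ev (chainOf h t) '' ball (0 : E) 1 = mk L t '' ball (0 : E) 1 :=
      fun t ht => image_congr fun z hz => ev_chainOf h ht hz
    rw [e s hs, e t (hs.trans hst)]
    exact mk_mono h hs hst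
  normal := by
    apply montel
    intro r hr
    refine ⟨1 / (1 - r) ^ 2 + Real.exp (80 / (1 - r) ^ 5), ?_⟩
    rintro g ⟨t, ht, rfl⟩ z hz
    have hzb : z ∈ ball (0 : E) 1 := by rw [mem_ball_zero_iff]; linarith
    rw [ev_smul _ _ hzb, ev_chainOf h ht hzb]
    exact chain_bound h hr ht hz

/-- members of `S⁰` from chains -/
theorem mem_S0_of_chain {F : ℝ → Hol} (hF : IsNormalChain F) : F 0 ∈ S0 := by
  refine ⟨hF.univalent 0 le_rfl, hF.zero 0 le_rfl, ?_, F, hF, rfl⟩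
  have := hF.deriv 0 le_rfl
  rw [this, Real.exp_zero, Complex.ofReal_one, one_smul]

/-- the identity -/
noncomputable def idH : Hol := toHol (fun z => z) differentiableOn_id

theorem idChain : IsNormalChain (fun t => ((Real.exp t : ℝ) : ℂ) • idH) where
  univalent := by
    intro t _ z hz w hw he
    rw [ev_smul _ _ hz, ev_smul _ _ hw] at he
    unfold idH at he
    rw [ev_toHol _ _ hz, ev_toHol _ _ hw] at he
    have hne : ((Real.exp t : ℝ) : ℂ) ≠ 0 := by exact_mod_cast (Real.exp_pos t).ne'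
    have h2 := congrArg (fun v : E => (((Real.exp t : ℝ) : ℂ))⁻¹ • v) he
    simpa only [smul_smul, inv_mul_cancel₀ hne, one_smul] using h2
  zero := by
    intro t _
    rw [ev_smul _ _ zero_mem_ball]
    unfold idH
    rw [ev_toHol _ _ zero_mem_ball, smul_zero]
  deriv := by
    intro t _
    apply fderiv_ev (g := fun z : E => ((Real.exp t : ℝ) : ℂ) • z) zero_mem_ball
    · intro w hw
      rw [ev_smul _ _ hw]
      unfold idH
      rw [ev_toHol _ _ hw]
    · exact (hasFDerivAt_id (𝕜 := ℂ) (0 : E)).const_smul ((Real.exp t : ℝ) : ℂ)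
  mono := by
    intro s t _ hst
    rintro _ ⟨z, hz, rfl⟩
    have hx : Real.exp (s - t) ≤ 1 := by rw [Real.exp_le_one_iff]; linarith
    have hz' : ((Real.exp (s - t) : ℝ) : ℂ) • z ∈ ball (0 : E) 1 := by
      rw [mem_ball_zero_iff, norm_smul, Complex.norm_real, Real.norm_of_nonneg (Real.exp_pos _).le]
      have := mem_ball_zero_iff.1 hz
      nlinarith [norm_nonneg z, Real.exp_pos (s - t)]
    refine ⟨_, hz', ?_⟩
    simp only [ev_smul _ _ hz, ev_smul _ _ hz']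
    unfold idH
    rw [ev_toHol _ _ hz, ev_toHol _ _ hz', smul_smul, ← Complex.ofReal_mul, ← Real.exp_add]
    congr 3; ring
  normal := by
    have : {g : Hol | ∃ t, 0 ≤ t ∧ g = ((Real.exp (-t) : ℝ) : ℂ) • ((Real.exp t : ℝ) : ℂ) • idH} =
        {idH} := by
      ext g
      constructor
      · rintro ⟨t, _, rfl⟩
        rw [smul_smul, ← Complex.ofReal_mul, ← Real.exp_add]
        simp
      · rintro rfl
        exact ⟨0, le_rfl, by simp⟩
    rw [this, closure_singleton]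
    exact isCompact_singleton

theorem idH_mem : idH ∈ S0 := by
  have := mem_S0_of_chain idChain
  simpa using this

end Pool.Agent.SP
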