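import Pool.Agent.Lib52.SP.TD

set_option autoImplicit false

open Set Metric Filter MeasureTheory Complex
open scoped Topology ComplexConjugate

namespace Pool.Agent.SP

/-! ### algebra of Taylor coefficients -/

theorem exp3 {U : ℂ → ℂ} (hU : DifferentiableOn ℂ U (ball 0 1)) :
    ∃ g : ℂ → ℂ, DifferentiableOn ℂ g (ball 0 1) ∧ ∀ ζ ∈ ball (0 : ℂ) 1,
      U ζ = U 0 + co U 1 * ζ + co U 2 * ζ ^ 2 + ζ ^ 3 * g ζ := by
  have h1 := dslope_diff hU
  have h2 := dslope_diff h1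
  have h3 := dslope_diff h2
  have hexp : ∀ ζ ∈ ball (0 : ℂ) 1, U ζ = U 0 + dslope U 0 0 * ζ +
      dslope (dslope U 0) 0 0 * ζ ^ 2 + ζ ^ 3 * dslope (dslope (dslope U 0) 0) 0 ζ := by
    intro ζ _
    have e1 := dslope_rec U ζ
    have e2 := dslope_rec (dslope U 0) ζ
    have e3 := dslope_rec (dslope (dslope U 0) 0) ζ
    rw [e1, e2, e3]
    ring
  have := co_of_expansion h3 hexp
  refine ⟨_, h3, ?_⟩
  rw [this.1, this.2]
  exact hexp

theorem co_mul {U V : ℂ → ℂ} (hU : DifferentiableOn ℂ U (ball 0 1))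
    (hV : DifferentiableOn ℂ V (ball 0 1)) :
    co (fun ζ => U ζ * V ζ) 1 = U 0 * co V 1 + co U 1 * V 0 ∧
    co (fun ζ => U ζ * V ζ) 2 = U 0 * co V 2 + co U 1 * co V 1 + co U 2 * V 0 := by
  obtain ⟨g, hg, eU⟩ := exp3 hU
  obtain ⟨k, hk, eV⟩ := exp3 hV
  have hid : DifferentiableOn ℂ (fun ζ : ℂ => ζ) (ball 0 1) := differentiableOn_id
  refine co_of_expansion (a := U 0 * V 0)
    (g := fun ζ => (co U 1 * co V 2 + co U 2 * co V 1) + co U 2 * co V 2 * ζ +
      (g ζ * V ζ + (U 0 + co U 1 * ζ + co U 2 * ζ ^ 2) * k ζ)) ?_ ?_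
  · apply DifferentiableOn.add
    · exact (differentiableOn_const _).add (hid.const_mul _)
    · apply DifferentiableOn.add (hg.mul hV)
      apply DifferentiableOn.mul _ hk
      exact ((differentiableOn_const _).add (hid.const_mul _)).add ((hid.pow 2).const_mul _)
  · intro ζ hζ
    have e1 := eU ζ hζ
    have e2 := eV ζ hζ
    have e3 : U ζ * V ζ = (U 0 + co U 1 * ζ + co U 2 * ζ ^ 2) * V ζ + ζ ^ 3 * g ζ * V ζ := by
      conv_lhs => rw [e1]
      ring
    have e4 : (U 0 + co U 1 * ζ + co U 2 * ζ ^ 2) * V ζ =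
        (U 0 + co U 1 * ζ + co U 2 * ζ ^ 2) *
          (V 0 + co V 1 * ζ + co V 2 * ζ ^ 2 + ζ ^ 3 * k ζ) := by
      conv_lhs => rw [e2]
    rw [e3, e4]
    ring

theorem co_add' {U V : ℂ → ℂ} (hU : DifferentiableOn ℂ U (ball 0 1))
    (hV : DifferentiableOn ℂ V (ball 0 1)) (n : ℕ) :
    co (fun ζ => U ζ + V ζ) n = co U n + co V n := by
  have := co_lin hU hV 1 1 n
  simp only [one_mul] at this
  exact this

theorem co_deriv {U : ℂ → ℂ} : deriv U 0 = co U 1 ∧ co (deriv U) 1 = 2 * co U 2 := by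
  constructor
  · rw [co_one]
  · rw [co_one, co_two]; ring

theorem norm_co_le {A : ℂ → ℂ} {r K : ℝ} (hr : 0 < r) (hA : DifferentiableOn ℂ A (closedBall 0 r))
    (hK : ∀ ζ ∈ sphere (0 : ℂ) r, ‖A ζ‖ ≤ K) (n : ℕ) : r ^ n * ‖co A n‖ ≤ K := by
  have h1 := md_nat hr n hA
  have h2 := norm_md_le (f := A) hr (n : ℤ)
  rw [h1, norm_mul, norm_pow, Complex.norm_real, Real.norm_of_nonneg hr.le] at h2
  have hc : ContinuousOn (fun z => ‖A z‖) (sphere (0 : ℂ) r) :=
    (hA.continuousOn.mono sphere_subset_closedBall).norm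
  calc _ ≤ avr r (fun z => ‖A z‖) := h2
    _ ≤ avr r (fun _ => K) := avr_mono hr hc continuousOn_const hK
    _ = K := Real.circleAverage_const K 0 _

theorem co_eq_md {A : ℂ → ℂ} {r : ℝ} (hr : 0 < r) (hA : DifferentiableOn ℂ A (closedBall 0 r))
    (n : ℕ) : co A n = ((r : ℂ) ^ n)⁻¹ * md n r A := by
  have hr' : (r : ℂ) ≠ 0 := by exact_mod_cast hr.ne'
  have := pow_ne_zero n hr'
  rw [md_nat hr n hA]
  field_simp

theorem co_sub' {A B : ℂ → ℂ} {r : ℝ} (hr : 0 < r) (hA : DifferentiableOn ℂ A (closedBall 0 r))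
    (hB : DifferentiableOn ℂ B (closedBall 0 r)) (n : ℕ) :
    co (fun ζ => A ζ - B ζ) n = co A n - co B n := by
  have cA : ContinuousOn A (sphere 0 r) := hA.continuousOn.mono sphere_subset_closedBall
  have cB : ContinuousOn (fun z => (-1) * B z) (sphere 0 r) :=
    (continuousOn_const.mul (hB.continuousOn.mono sphere_subset_closedBall))
  have e : (fun ζ => A ζ - B ζ) = fun ζ => A ζ + (-1) * B ζ := by ext ζ; ring
  have h := md_add (r := r) hr (n : ℤ) cA cB
  have hd : DifferentiableOn ℂ (fun ζ => A ζ - B ζ) (closedBall 0 r) := hA.sub hB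
  rw [co_eq_md hr hd, co_eq_md hr hA, co_eq_md hr hB, e, h, md_const_mul]
  ring

/-- the difference of coefficients -/
theorem norm_co_sub_le {A B : ℂ → ℂ} {r K : ℝ} (hr : 0 < r)
    (hA : DifferentiableOn ℂ A (closedBall 0 r)) (hB : DifferentiableOn ℂ B (closedBall 0 r))
    (hK : ∀ ζ ∈ sphere (0 : ℂ) r, ‖A ζ - B ζ‖ ≤ K) (n : ℕ) :
    r ^ n * ‖co A n - co B n‖ ≤ K := by
  rw [← co_sub' hr hA hB]
  exact norm_co_le hr (hA.sub hB) hK n

/-! ### time derivatives of Taylor coefficients -/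

theorem hasDerivAt_co {y y' : ℝ → ℂ → ℂ} {r : ℝ} (hr : 0 < r) {t₀ : ℝ} {s : Set ℝ}
    (hs : s ∈ 𝓝 t₀) (hd : ∀ t ∈ s, DifferentiableOn ℂ (y t) (closedBall 0 r))
    (hd' : DifferentiableOn ℂ (y' t₀) (closedBall 0 r))
    (hder : ∀ t ∈ s, ∀ ζ ∈ sphere (0 : ℂ) r, HasDerivAt (fun t => y t ζ) (y' t ζ) t) {K : ℝ}
    (hK : ∀ t ∈ s, ∀ ζ ∈ sphere (0 : ℂ) r, ‖y' t ζ‖ ≤ K) (n : ℕ) :
    HasDerivAt (fun t => co (y t) n) (co (y' t₀) n) t₀ := by
  have hmem : ∀ θ, circleMap 0 r θ ∈ sphere (0 : ℂ) r := fun θ => circleMap_mem_sphere 0 hr.le θ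
  have hev : (fun t => co (y t) n) =ᶠ[𝓝 t₀] fun t => ((r : ℂ) ^ n)⁻¹ * md n r (y t) := by
    filter_upwards [hs] with t ht using co_eq_md hr (hd t ht) n
  rw [co_eq_md hr hd' n]
  refine HasDerivAt.congr_of_eventuallyEq ?_ hev
  apply HasDerivAt.const_mul
  unfold md av Real.circleAverage
  apply HasDerivAt.const_smul
  have hcont : ∀ g : ℂ → ℂ, DifferentiableOn ℂ g (closedBall 0 r) →
      Continuous fun θ => (circleMap 0 r θ / (r : ℂ)) ^ (-(n : ℤ)) * g (circleMap 0 r θ) := by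
    intro g hg
    have hc := continuousOn_md (f := g) hr (n : ℤ)
      (hg.continuousOn.mono sphere_subset_closedBall)
    exact hc.comp_continuous (continuous_circleMap 0 r) hmem
  have hmain := intervalIntegral.hasDerivAt_integral_of_dominated_loc_of_deriv_le (𝕜 := ℝ)
    (μ := volume) (a := 0) (b := 2 * Real.pi) (x₀ := t₀) (s := s)
    (F := fun t θ => (circleMap 0 r θ / (r : ℂ)) ^ (-(n : ℤ)) * y t (circleMap 0 r θ))
    (F' := fun t θ => (circleMap 0 r θ / (r : ℂ)) ^ (-(n : ℤ)) * y' t (circleMap 0 r θ))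
    (bound := fun _ => K) hs
    (by
      filter_upwards [hs] with t ht
      exact (hcont _ (hd t ht)).aestronglyMeasurable)
    ((hcont _ (hd t₀ (mem_of_mem_nhds hs))).intervalIntegrable _ _)
    (hcont _ hd').aestronglyMeasurable
    (by
      refine Eventually.of_forall fun θ _ t ht => ?_
      rw [norm_mul, norm_zpow, norm_div_sphere hr (hmem θ), one_zpow, one_mul]
      exact hK t ht _ (hmem θ))
    intervalIntegrable_const
    (by
      refine Eventually.of_forall fun θ _ t ht => ?_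
      exact (hder t ht _ (hmem θ)).const_mul _)
  exact hmain.2

/-- continuity from a local Lipschitz condition -/
theorem continuousOn_of_lip {X : Type*} [NormedAddCommGroup X] {f : ℝ → X}
    (h : ∀ T : ℝ, 0 ≤ T → ∃ C : ℝ, 0 ≤ C ∧ ∀ s t, 0 ≤ s → s ≤ t → t ≤ T →
      ‖f t - f s‖ ≤ C * (t - s)) : ContinuousOn f (Ici 0) := by
  intro t ht
  have ht0 : 0 ≤ t := ht
  obtain ⟨C, hC0, hC⟩ := h (t + 1) (by linarith)
  rw [ContinuousWithinAt, tendsto_iff_norm_sub_tendsto_zero]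
  have t1 : Tendsto (fun s => C * |s - t|) (𝓝[Ici 0] t) (𝓝 0) := by
    have h1 : Continuous fun s : ℝ => C * |s - t| := by fun_prop
    have h2 := (h1.tendsto t).mono_left (nhdsWithin_le_nhds (s := Ici (0 : ℝ)))
    simpa using h2
  apply squeeze_zero' (Eventually.of_forall fun s => norm_nonneg _) _ t1
  have h3 : ∀ᶠ s in 𝓝[Ici 0] t, s < t + 1 :=
    (nhdsWithin_le_nhds (s := Ici (0 : ℝ))) (gt_mem_nhds (by linarith))
  filter_upwards [h3, self_mem_nhdsWithin] with s hs hs0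
  have hs0' : 0 ≤ s := hs0
  rcases le_total s t with hst | hst
  · have h1 := hC s t hs0' hst (by linarith)
    rw [norm_sub_rev]
    refine h1.trans_eq ?_
    rw [abs_of_nonpos (by linarith)]; ring
  · have h1 := hC t s ht0 hst hs.le
    refine h1.trans_eq ?_
    rw [abs_of_nonneg (by linarith)]

end Pool.Agent.SP
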