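import Pool.Agent.Lib52.SP.Zflow
import Pool.Agent.Lib52.SP.Ultra

set_option autoImplicit false

open Set Metric Filter MeasureTheory Complex
open scoped Topology Real ComplexConjugate

namespace Pool.Agent.SP

/-- families of functions coding the chains `(e^t k(ζ), e^t w exp(L t ζ))` -/
structure Fam (L : ℝ → ℂ → ℂ) (q : ℂ × ℂ) : Prop where
  diff : ∀ t, 0 ≤ t → DifferentiableOn ℂ (L t) (ball 0 1)
  bd : ∀ t, 0 ≤ t → ∀ ζ ∈ ball (0 : ℂ) 1, ‖L t ζ‖ ≤ 80 * ‖ζ‖ / (1 - ‖ζ‖) ^ 5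
  ineq : ∀ s t, 0 ≤ s → s ≤ t → ∀ ζ ∈ ball (0 : ℂ) 1,
    Real.exp (2 * ((L s ζ - L t (Zf (Real.exp (s - t)) ζ)).re + (s - t))) * (1 - ‖ζ‖ ^ 2) ≤
      1 - ‖Zf (Real.exp (s - t)) ζ‖ ^ 2
  jet : ∀ ζ : ℂ, ‖ζ‖ ≤ 1 / 4 → ‖L 0 ζ - q.1 * ζ - q.2 * ζ ^ 2‖ ≤ 6200 * ‖ζ‖ ^ 3
  qbd : ‖q.1‖ ≤ 8 ∧ ‖q.2‖ ≤ 32

/-- continuous controls with values in the class `InD` -/
structure Ctrl (C : ℝ → ℂ → ℂ) : Prop where
  inD : ∀ τ, InD (C τ)
  cont : ∀ ζ ∈ ball (0 : ℂ) 1, Continuous (fun τ => C τ ζ)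

/-- the integrand -/
noncomputable def gg (C : ℝ → ℂ → ℂ) (s : ℝ) (ζ : ℂ) (τ : ℝ) : ℂ :=
  C τ (Zf (Real.exp (s - τ)) ζ) - 1

/-- the family generated by a control -/
noncomputable def LL (C : ℝ → ℂ → ℂ) (t : ℝ) (ζ : ℂ) : ℂ := -∫ τ in Ioi t, gg C t ζ τ

theorem exp_bounds {s τ : ℝ} (h : s ≤ τ) : 0 ≤ Real.exp (s - τ) ∧ Real.exp (s - τ) ≤ 1 :=
  ⟨(Real.exp_pos _).le, by rw [Real.exp_le_one_iff]; linarith⟩

namespace InD

/-- uniform bound on `‖ζ‖ ≤ r` -/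
theorem bound' {C : ℂ → ℂ} (h : InD C) {ζ : ℂ} {r : ℝ} (hζ : ‖ζ‖ ≤ r) (hr : r < 1) :
    ‖C ζ‖ ≤ 1 + 20 / (1 - r) ^ 3 := by
  have h1 := h.bound (ζ := ζ) (by linarith)
  have h2 : ‖C ζ‖ ≤ ‖C ζ - 1‖ + 1 := by
    have := norm_add_le (C ζ - 1) 1
    rw [norm_one] at this
    simpa using this
  have h3 : 20 * ‖ζ‖ / (1 - ‖ζ‖) ^ 3 ≤ 20 / (1 - r) ^ 3 := by
    have hr' : 0 < 1 - r := by linarith
    have : 20 * ‖ζ‖ ≤ 20 := by linarith
    gcongr
  linarith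

end InD

namespace Ctrl

variable {C : ℝ → ℂ → ℂ} (h : Ctrl C)
include h

/-- equicontinuity -/
theorem equi {z₀ : ℂ} (hz₀ : ‖z₀‖ < 1) : ∃ δ > 0, ∃ K, 0 ≤ K ∧ ∀ τ, ∀ z ∈ ball z₀ δ, ‖z‖ < 1 ∧
    ‖C τ z - C τ z₀‖ ≤ K * ‖z - z₀‖ := by
  set δ := (1 - ‖z₀‖) / 2 with hδ
  have hδ0 : 0 < δ := by rw [hδ]; linarith
  set r := (1 + ‖z₀‖) / 2 with hr
  have hr1 : r < 1 := by rw [hr]; linarith
  have hsub : ∀ z ∈ ball z₀ δ, ‖z‖ ≤ r := by
    intro z hz
    rw [mem_ball, dist_eq_norm] at hz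
    have : ‖z‖ ≤ ‖z - z₀‖ + ‖z₀‖ := by simpa using norm_add_le (z - z₀) z₀
    rw [hr]; rw [hδ] at hz; linarith
  set B : ℝ := 1 + 20 / (1 - r) ^ 3 with hB
  have hr' : 0 < 1 - r := by linarith
  have hB0 : 0 ≤ B := by positivity
  refine ⟨δ, hδ0, 2 * B / δ, by positivity, fun τ z hz => ⟨by linarith [hsub z hz], ?_⟩⟩
  have hd : DifferentiableOn ℂ (C τ) (ball z₀ δ) :=
    (h.inD τ).diff.mono fun w hw => by
      have := hsub w hw
      rw [mem_ball_zero_iff]; linarith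
  have hmaps : MapsTo (C τ) (ball z₀ δ) (closedBall (C τ z₀) (2 * B)) := by
    intro w hw
    rw [mem_closedBall, dist_eq_norm]
    calc ‖C τ w - C τ z₀‖ ≤ ‖C τ w‖ + ‖C τ z₀‖ := norm_sub_le _ _
      _ ≤ B + B := add_le_add ((h.inD τ).bound' (hsub w hw) hr1)
          ((h.inD τ).bound' (hsub z₀ (mem_ball_self hδ0)) hr1)
      _ = 2 * B := by ring
  have := Complex.dist_le_div_mul_dist_of_mapsTo_ball hd hmaps hz
  rwa [dist_eq_norm, dist_eq_norm] at this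

/-- joint continuity -/
theorem cont_comp {X : Type*} [TopologicalSpace X] {a : X → ℝ} {b : X → ℂ} {x₀ : X} {S : Set X}
    (ha : ContinuousWithinAt a S x₀) (hb : ContinuousWithinAt b S x₀) (hb1 : ‖b x₀‖ < 1) :
    ContinuousWithinAt (fun x => C (a x) (b x)) S x₀ := by
  obtain ⟨δ, hδ, K, hK, hequi⟩ := h.equi hb1
  have t1 : Tendsto (fun x => C (a x) (b x₀)) (𝓝[S] x₀) (𝓝 (C (a x₀) (b x₀))) :=
    ((h.cont (b x₀) (by simpa using hb1)).tendsto (a x₀)).comp ha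
  have t2 : Tendsto (fun x => C (a x) (b x) - C (a x) (b x₀)) (𝓝[S] x₀) (𝓝 0) := by
    apply squeeze_zero_norm' (a := fun x => K * ‖b x - b x₀‖)
    · have : ∀ᶠ x in 𝓝[S] x₀, b x ∈ ball (b x₀) δ := hb (ball_mem_nhds _ hδ)
      filter_upwards [this] with x hx
      exact (hequi (a x) (b x) hx).2
    · have t3 : Tendsto (fun x => b x - b x₀) (𝓝[S] x₀) (𝓝 (b x₀ - b x₀)) :=
        hb.sub tendsto_const_nhds
      rw [sub_self] at t3
      simpa using (t3.norm.const_mul K)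
  have := t2.add t1
  show Tendsto (fun x => C (a x) (b x)) (𝓝[S] x₀) (𝓝 (C (a x₀) (b x₀)))
  simpa using this

theorem gg_cont {s : ℝ} {ζ : ℂ} (hζ : ‖ζ‖ < 1) : ContinuousOn (gg C s ζ) (Ici s) := by
  intro τ hτ
  have hτ' : s ≤ τ := hτ
  unfold gg
  apply ContinuousWithinAt.sub _ continuousWithinAt_const
  apply h.cont_comp continuousWithinAt_id
  · exact (hasDerivAt_Zf hτ' hζ).continuousAt.continuousWithinAt
  · exact norm_Zf_lt (exp_bounds hτ').1 (exp_bounds hτ').2 hζ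

theorem gg_bound {s τ : ℝ} (hτ : s ≤ τ) {ζ : ℂ} (hζ : ‖ζ‖ < 1) :
    ‖gg C s ζ τ‖ ≤ 80 * ‖ζ‖ / (1 - ‖ζ‖) ^ 5 * Real.exp (s - τ) := by
  obtain ⟨e0, e1⟩ := exp_bounds hτ
  have hZ1 := norm_Zf_le e0 e1 hζ
  have hZ2 := norm_Zf_le' e0 e1 hζ
  have hlt := norm_Zf_lt e0 e1 hζ
  have hk := norm_kf_le hζ
  have h1 : 0 < 1 - ‖ζ‖ := by linarith
  have hb := (h.inD τ).bound hlt
  unfold gg
  calc _ ≤ 20 * ‖Zf (Real.exp (s - τ)) ζ‖ / (1 - ‖Zf (Real.exp (s - τ)) ζ‖) ^ 3 := hb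
    _ ≤ 20 * (4 * (Real.exp (s - τ) * (‖ζ‖ / (1 - ‖ζ‖) ^ 2))) / (1 - ‖ζ‖) ^ 3 := by
        have h2 : ‖Zf (Real.exp (s - τ)) ζ‖ ≤ 4 * (Real.exp (s - τ) * (‖ζ‖ / (1 - ‖ζ‖) ^ 2)) := by
          refine hZ2.trans ?_
          gcongr
        gcongr
    _ = _ := by field_simp; ring

omit h in
theorem exp_integrable (s : ℝ) (c : ℝ) :
    IntegrableOn (fun τ : ℝ => c * Real.exp (s - τ)) (Ioi s) := by
  apply Integrable.const_mul
  have := exp_neg_integrableOn_Ioi s (b := 1) one_pos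
  have h2 : (fun τ : ℝ => Real.exp (s - τ)) = fun τ => Real.exp s * Real.exp (-1 * τ) := by
    ext τ; rw [← Real.exp_add]; congr 1; ring
  rw [h2]
  exact Integrable.const_mul this _

theorem gg_integrable {s : ℝ} {ζ : ℂ} (hζ : ‖ζ‖ < 1) : IntegrableOn (gg C s ζ) (Ioi s) := by
  apply Integrable.mono' (exp_integrable s (80 * ‖ζ‖ / (1 - ‖ζ‖) ^ 5))
  · exact ((h.gg_cont hζ).mono Ioi_subset_Ici_self).aestronglyMeasurable measurableSet_Ioi
  · rw [ae_restrict_iff' measurableSet_Ioi]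
    exact Eventually.of_forall fun τ hτ => h.gg_bound (le_of_lt hτ) hζ

omit h in
theorem integral_exp (s : ℝ) : ∫ τ in Ioi s, Real.exp (s - τ) = 1 := by
  have h2 : (fun τ : ℝ => Real.exp (s - τ)) = fun τ => Real.exp s * Real.exp (-τ) := by
    ext τ; rw [← Real.exp_add]; congr 1
  rw [h2, integral_const_mul, integral_exp_neg_Ioi, ← Real.exp_add]; simp

theorem LL_bound (t : ℝ) {ζ : ℂ} (hζ : ‖ζ‖ < 1) :
    ‖LL C t ζ‖ ≤ 80 * ‖ζ‖ / (1 - ‖ζ‖) ^ 5 := by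
  unfold LL
  rw [norm_neg]
  calc ‖∫ τ in Ioi t, gg C t ζ τ‖ ≤ ∫ τ in Ioi t, 80 * ‖ζ‖ / (1 - ‖ζ‖) ^ 5 * Real.exp (t - τ) := by
        apply norm_integral_le_of_norm_le (exp_integrable t _)
        rw [ae_restrict_iff' measurableSet_Ioi]
        exact Eventually.of_forall fun τ hτ => h.gg_bound (le_of_lt hτ) hζ
    _ = 80 * ‖ζ‖ / (1 - ‖ζ‖) ^ 5 := by rw [integral_const_mul, integral_exp, mul_one]

theorem gg_diff {s τ : ℝ} (hτ : s ≤ τ) {ζ : ℂ} (hζ : ‖ζ‖ < 1) :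
    DifferentiableAt ℂ (fun ζ => gg C s ζ τ) ζ := by
  obtain ⟨e0, e1⟩ := exp_bounds hτ
  unfold gg
  apply DifferentiableAt.sub_const
  have d1 := differentiableAt_Zf e0 e1 hζ
  have hlt := norm_Zf_lt e0 e1 hζ
  have d2 : DifferentiableAt ℂ (C τ) (Zf (Real.exp (s - τ)) ζ) :=
    (h.inD τ).diff.differentiableAt (isOpen_ball.mem_nhds (by simpa using hlt))
  exact DifferentiableAt.comp ζ d2 d1

theorem LL_diff (t : ℝ) : DifferentiableOn ℂ (LL C t) (ball 0 1) := by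
  intro ζ₀ hζ₀
  have hζ₀' : ‖ζ₀‖ < 1 := by simpa using hζ₀
  apply DifferentiableAt.differentiableWithinAt
  unfold LL
  apply DifferentiableAt.neg
  set δ := (1 - ‖ζ₀‖) / 4 with hδ
  have hδ0 : 0 < δ := by rw [hδ]; linarith
  set r := (1 + ‖ζ₀‖) / 2 with hr
  have hr1 : r < 1 := by rw [hr]; linarith
  have hsub : ∀ z ∈ ball ζ₀ (2 * δ), ‖z‖ ≤ r := by
    intro z hz
    rw [mem_ball, dist_eq_norm] at hz
    have : ‖z‖ ≤ ‖z - ζ₀‖ + ‖ζ₀‖ := by simpa using norm_add_le (z - ζ₀) ζ₀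
    rw [hr]; rw [hδ] at hz; linarith
  have hr' : 0 < 1 - r := by linarith
  set B : ℝ := 80 / (1 - r) ^ 5 with hB
  have hB0 : 0 ≤ B := by positivity
  have hbd : ∀ z ∈ ball ζ₀ (2 * δ), ∀ τ, t ≤ τ → ‖gg C t z τ‖ ≤ B * Real.exp (t - τ) := by
    intro z hz τ hτ
    have hz1 := hsub z hz
    refine (h.gg_bound hτ (by linarith)).trans ?_
    have : 80 * ‖z‖ ≤ 80 := by linarith
    have h2 : 0 < 1 - ‖z‖ := by linarith
    gcongr
    rw [hB]
    gcongr
  have hderiv : ∀ z ∈ ball ζ₀ δ, ∀ τ, t ≤ τ →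
      ‖deriv (fun ζ => gg C t ζ τ) z‖ ≤ 2 * B / δ * Real.exp (t - τ) := by
    intro z hz τ hτ
    have hsub2 : ball z δ ⊆ ball ζ₀ (2 * δ) := by
      apply ball_subset_ball'
      rw [mem_ball] at hz; linarith
    have hd : DifferentiableOn ℂ (fun ζ => gg C t ζ τ) (ball z δ) := fun w hw =>
      (h.gg_diff hτ (by linarith [hsub w (hsub2 hw)])).differentiableWithinAt
    have := norm_fderiv_le_of_bound hδ0 hd (K := B * Real.exp (t - τ))
      (fun w hw => hbd w (hsub2 hw) τ hτ)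
    rw [← norm_deriv_eq_norm_fderiv] at this
    refine this.trans_eq (by ring)
  have hmeas : ∀ z, ‖z‖ < 1 → AEStronglyMeasurable (gg C t z) (volume.restrict (Ioi t)) := by
    intro z hz
    exact ((h.gg_cont hz).mono Ioi_subset_Ici_self).aestronglyMeasurable measurableSet_Ioi
  have hmain := hasDerivAt_integral_of_dominated_loc_of_deriv_le (𝕜 := ℂ)
    (μ := volume.restrict (Ioi t)) (F := fun ζ τ => gg C t ζ τ) (x₀ := ζ₀) (s := ball ζ₀ δ)
    (bound := fun τ => 2 * B / δ * Real.exp (t - τ))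
    (F' := fun z τ => deriv (fun ζ => gg C t ζ τ) z)
    (ball_mem_nhds ζ₀ hδ0)
    (by
      filter_upwards [ball_mem_nhds ζ₀ hδ0] with z hz
      exact hmeas z (by linarith [hsub z (ball_subset_ball (by linarith) hz)]))
    (h.gg_integrable hζ₀')
    (by
      -- measurability of the derivative
      set u : ℕ → ℂ := fun n => ζ₀ + ((δ / (n + 2) : ℝ) : ℂ) with hu
      have hne : ∀ n, u n ≠ ζ₀ := by
        intro n hn
        have h1 : ((δ / (n + 2) : ℝ) : ℂ) = 0 := by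
          have : u n - ζ₀ = 0 := by rw [hn]; ring
          simpa [hu] using this
        have h2 : δ / ((n : ℝ) + 2) = 0 := by exact_mod_cast h1
        have h3 : 0 < δ / ((n : ℝ) + 2) := by positivity
        linarith
      have hin : ∀ n, ‖u n‖ < 1 := by
        intro n
        have h1 : u n ∈ ball ζ₀ (2 * δ) := by
          rw [mem_ball, dist_eq_norm]
          have : u n - ζ₀ = ((δ / (n + 2) : ℝ) : ℂ) := by simp [hu]
          rw [this, Complex.norm_real, Real.norm_of_nonneg (by positivity)]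
          calc δ / ((n : ℝ) + 2) ≤ δ := by
                apply div_le_self hδ0.le
                have : (0 : ℝ) ≤ n := Nat.cast_nonneg n
                linarith
            _ < 2 * δ := by linarith
        linarith [hsub _ h1]
      have hlim : Tendsto u atTop (𝓝[≠] ζ₀) := by
        rw [tendsto_nhdsWithin_iff]
        refine ⟨?_, Eventually.of_forall hne⟩
        have h1 : Tendsto (fun n : ℕ => δ / ((n : ℝ) + 2)) atTop (𝓝 0) := by
          have : Tendsto (fun n : ℕ => (n : ℝ) + 2) atTop atTop :=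
            tendsto_atTop_add_const_right _ _ tendsto_natCast_atTop_atTop
          exact Tendsto.div_atTop tendsto_const_nhds this
        have h2 : Tendsto (fun n : ℕ => ((δ / ((n : ℝ) + 2) : ℝ) : ℂ)) atTop (𝓝 ((0 : ℝ) : ℂ)) :=
          (Complex.continuous_ofReal.tendsto 0).comp h1
        have h3 := h2.const_add ζ₀
        rw [Complex.ofReal_zero, add_zero] at h3
        exact h3
      apply aestronglyMeasurable_of_tendsto_ae (u := atTop)
        (f := fun n τ => slope (fun ζ => gg C t ζ τ) ζ₀ (u n))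
      · intro n
        simp only [slope, vsub_eq_sub]
        exact ((hmeas _ (hin n)).sub (hmeas _ hζ₀')).const_smul ((u n - ζ₀)⁻¹)
      · rw [ae_restrict_iff' measurableSet_Ioi]
        refine Eventually.of_forall fun τ hτ => ?_
        have h1 := (h.gg_diff (le_of_lt hτ) hζ₀').hasDerivAt
        exact (hasDerivAt_iff_tendsto_slope.1 h1).comp hlim)
    (by
      rw [ae_restrict_iff' measurableSet_Ioi]
      exact Eventually.of_forall fun τ hτ z hz => hderiv z hz τ (le_of_lt hτ))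
    (exp_integrable t _)
    (by
      rw [ae_restrict_iff' measurableSet_Ioi]
      refine Eventually.of_forall fun τ hτ z hz => ?_
      exact (h.gg_diff (le_of_lt hτ)
        (by linarith [hsub z (ball_subset_ball (by linarith) hz)])).hasDerivAt)
  exact hmain.2.differentiableAt

omit h in
theorem gg_semigroup {s t τ : ℝ} (hst : s ≤ t) (htτ : t ≤ τ) {ζ : ℂ} (hζ : ‖ζ‖ < 1) :
    gg C t (Zf (Real.exp (s - t)) ζ) τ = gg C s ζ τ := by
  unfold gg
  obtain ⟨a0, a1⟩ := exp_bounds hst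
  obtain ⟨b0, b1⟩ := exp_bounds htτ
  rw [Zf_Zf b0 b1 a0 a1 hζ, ← Real.exp_add]
  congr 3; ring_nf

theorem LL_ineq {s t : ℝ} (hst : s ≤ t) {ζ : ℂ} (hζ : ‖ζ‖ < 1) :
    Real.exp (2 * ((LL C s ζ - LL C t (Zf (Real.exp (s - t)) ζ)).re + (s - t))) *
      (1 - ‖ζ‖ ^ 2) ≤ 1 - ‖Zf (Real.exp (s - t)) ζ‖ ^ 2 := by
  obtain ⟨a0, a1⟩ := exp_bounds hst
  have hZlt := norm_Zf_lt a0 a1 hζ
  have hint := h.gg_integrable (s := s) hζ
  have hcont := h.gg_cont (s := s) hζ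
  -- difference of the integrals
  have e1 : LL C s ζ - LL C t (Zf (Real.exp (s - t)) ζ) = -∫ τ in s..t, gg C s ζ τ := by
    unfold LL
    have e2 : ∫ τ in Ioi t, gg C t (Zf (Real.exp (s - t)) ζ) τ = ∫ τ in Ioi t, gg C s ζ τ := by
      apply setIntegral_congr_fun measurableSet_Ioi
      intro τ hτ
      exact gg_semigroup hst (le_of_lt hτ) hζ
    rw [e2]
    have e3 := intervalIntegral.integral_Ioi_sub_Ioi hint hst
    rw [← e3]; ring
  have hii : IntervalIntegrable (gg C s ζ) volume s t := by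
    apply ContinuousOn.intervalIntegrable
    rw [uIcc_of_le hst]
    exact hcont.mono Icc_subset_Ici_self
  -- the real part
  have e4 : (LL C s ζ - LL C t (Zf (Real.exp (s - t)) ζ)).re + (s - t) =
      ∫ τ in s..t, (-(C τ (Zf (Real.exp (s - τ)) ζ)).re) := by
    rw [e1, Complex.neg_re]
    have e5 : (∫ τ in s..t, gg C s ζ τ).re = ∫ τ in s..t, (gg C s ζ τ).re :=
      (Complex.reCLM.intervalIntegral_comp_comm hii).symm
    rw [e5]
    have e6 : (∫ τ in s..t, (gg C s ζ τ).re) =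
        (∫ τ in s..t, (C τ (Zf (Real.exp (s - τ)) ζ)).re) - (t - s) := by
      have : (fun τ => (gg C s ζ τ).re) =
          fun τ => (C τ (Zf (Real.exp (s - τ)) ζ)).re - 1 := by
        ext τ; unfold gg; simp
      rw [this, intervalIntegral.integral_sub, intervalIntegral.integral_const]
      · simp
      · have h3 : ContinuousOn (fun τ => (C τ (Zf (Real.exp (s - τ)) ζ)).re) (Ici s) := by
          have := Complex.continuous_re.comp_continuousOn (hcont.add (continuousOn_const (c := (1 : ℂ))))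
          refine this.congr fun τ _ => ?_
          simp [gg]
        apply ContinuousOn.intervalIntegrable
        rw [uIcc_of_le hst]
        exact h3.mono Icc_subset_Ici_self
      · exact intervalIntegrable_const
    rw [e6, intervalIntegral.integral_neg]; ring
  have hcC : ContinuousOn (fun τ => -(C τ (Zf (Real.exp (s - τ)) ζ)).re) (Icc s t) := by
    have := Complex.continuous_re.comp_continuousOn (hcont.add (continuousOn_const (c := (1 : ℂ))))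
    have h3 : ContinuousOn (fun τ => (C τ (Zf (Real.exp (s - τ)) ζ)).re) (Ici s) := by
      refine this.congr fun τ _ => ?_
      simp [gg]
    exact (h3.mono Icc_subset_Ici_self).neg
  have hZc : ContinuousOn (fun τ => Zf (Real.exp (s - τ)) ζ) (Icc s t) := fun τ hτ =>
    (hasDerivAt_Zf hτ.1 hζ).continuousAt.continuousWithinAt
  have hcR : ContinuousOn (fun τ : ℝ => ‖Zf (Real.exp (s - τ)) ζ‖ ^ 2 /
      ‖1 + Zf (Real.exp (s - τ)) ζ‖ ^ 2) (Icc s t) := by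
    apply ContinuousOn.div (hZc.norm.pow 2) ((continuousOn_const.add hZc).norm.pow 2)
    intro τ hτ
    have := norm_one_add_pos (norm_Zf_lt (exp_bounds hτ.1).1 (exp_bounds hτ.1).2 hζ)
    exact pow_ne_zero 2 this.ne'
  have e7 : (∫ τ in s..t, ‖Zf (Real.exp (s - τ)) ζ‖ ^ 2 / ‖1 + Zf (Real.exp (s - τ)) ζ‖ ^ 2) =
      Real.log (1 - ‖Zf (Real.exp (s - t)) ζ‖ ^ 2) / 2 - Real.log (1 - ‖ζ‖ ^ 2) / 2 := by
    have := intervalIntegral.integral_eq_sub_of_hasDerivAt (a := s) (b := t)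
      (f := fun τ : ℝ => Real.log (1 - ‖Zf (Real.exp (s - τ)) ζ‖ ^ 2) / 2)
      (f' := fun τ => ‖Zf (Real.exp (s - τ)) ζ‖ ^ 2 / ‖1 + Zf (Real.exp (s - τ)) ζ‖ ^ 2)
      (by
        intro τ hτ
        rw [uIcc_of_le hst] at hτ
        exact hasDerivAt_logZ hτ.1 hζ)
      (by
        apply ContinuousOn.intervalIntegrable
        rwa [uIcc_of_le hst])
    rw [this, sub_self, Real.exp_zero, Zf_one hζ]
  have e8 : (∫ τ in s..t, (-(C τ (Zf (Real.exp (s - τ)) ζ)).re)) ≤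
      ∫ τ in s..t, ‖Zf (Real.exp (s - τ)) ζ‖ ^ 2 / ‖1 + Zf (Real.exp (s - τ)) ζ‖ ^ 2 := by
    apply intervalIntegral.integral_mono_on hst
    · apply ContinuousOn.intervalIntegrable; rwa [uIcc_of_le hst]
    · apply ContinuousOn.intervalIntegrable; rwa [uIcc_of_le hst]
    · intro τ hτ
      have hlt := norm_Zf_lt (exp_bounds hτ.1).1 (exp_bounds hτ.1).2 hζ
      have := (h.inD τ).pos _ (by simpa using hlt)
      linarith
  have p1 : 0 < 1 - ‖ζ‖ ^ 2 := by nlinarith [norm_nonneg ζ]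
  have p2 : 0 < 1 - ‖Zf (Real.exp (s - t)) ζ‖ ^ 2 := by
    nlinarith [norm_nonneg (Zf (Real.exp (s - t)) ζ)]
  have e9 : 2 * ((LL C s ζ - LL C t (Zf (Real.exp (s - t)) ζ)).re + (s - t)) ≤
      Real.log (1 - ‖Zf (Real.exp (s - t)) ζ‖ ^ 2) - Real.log (1 - ‖ζ‖ ^ 2) := by
    rw [e4]; rw [e7] at e8; linarith
  calc _ ≤ Real.exp (Real.log (1 - ‖Zf (Real.exp (s - t)) ζ‖ ^ 2) - Real.log (1 - ‖ζ‖ ^ 2)) *
        (1 - ‖ζ‖ ^ 2) := by gcongr
    _ = _ := by
        rw [Real.exp_sub, Real.exp_log p1, Real.exp_log p2]; field_simp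

end Ctrl

end Pool.Agent.SP
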