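import Pool.Agent.Lib52.SP.Modes

set_option autoImplicit false

open Set Metric Filter MeasureTheory Complex
open scoped Topology Real ComplexConjugate

namespace Pool.Agent.SP

/-- the Carathéodory function `(1-ζ)/(1+ζ)` -/
noncomputable def pf (ζ : ℂ) : ℂ := (1 - ζ) / (1 + ζ)

/-- the convex class of admissible coefficient functions -/
structure InD (C : ℂ → ℂ) : Prop where
  diff : DifferentiableOn ℂ C (ball 0 1)
  one : C 0 = 1
  pos : ∀ ζ ∈ ball (0 : ℂ) 1, 0 ≤ (C ζ).re + ‖ζ‖ ^ 2 / ‖1 + ζ‖ ^ 2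

theorem one_add_ne {ζ : ℂ} (hζ : ‖ζ‖ < 1) : 1 + ζ ≠ 0 := by
  intro h
  have : ζ = -1 := by linear_combination h
  rw [this, norm_neg, norm_one] at hζ
  exact lt_irrefl _ hζ

theorem one_sub_ne {ζ : ℂ} (hζ : ‖ζ‖ < 1) : 1 - ζ ≠ 0 := by
  intro h
  have : ζ = 1 := by linear_combination -h
  rw [this, norm_one] at hζ
  exact lt_irrefl _ hζ

theorem re_div_eq (a b : ℂ) : (a / b).re = (a * conj b).re / ‖b‖ ^ 2 := by
  rw [div_eq_mul_inv, Complex.inv_def, Complex.normSq_eq_norm_sq, ← mul_assoc,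
    Complex.re_mul_ofReal]
  rfl

theorem re_pf (ζ : ℂ) : (pf ζ).re = (1 - ‖ζ‖ ^ 2) / ‖1 + ζ‖ ^ 2 := by
  unfold pf
  rw [re_div_eq]
  congr 1
  have : (1 - ζ) * conj (1 + ζ) = 1 - ζ * conj ζ + (conj ζ - ζ) := by
    rw [map_add, map_one]; ring
  rw [this, Complex.mul_conj, Complex.normSq_eq_norm_sq]
  simp only [Complex.add_re, Complex.sub_re, Complex.one_re, Complex.ofReal_re, Complex.conj_re]
  ring

theorem norm_one_add_pos {ζ : ℂ} (hζ : ‖ζ‖ < 1) : 0 < ‖1 + ζ‖ := norm_pos_iff.2 (one_add_ne hζ)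

theorem re_pf_pos {ζ : ℂ} (hζ : ‖ζ‖ < 1) : 0 < (pf ζ).re := by
  rw [re_pf]
  have := norm_one_add_pos hζ
  have h2 : ‖ζ‖ ^ 2 < 1 := by nlinarith [norm_nonneg ζ]
  apply div_pos (by linarith) (by positivity)

theorem differentiableOn_pf : DifferentiableOn ℂ pf (ball 0 1) := by
  unfold pf
  intro z hz
  have hz' : ‖z‖ < 1 := by simpa using hz
  exact (DifferentiableAt.div (by fun_prop) (by fun_prop)
    (one_add_ne hz')).differentiableWithinAt

theorem co_add_const {g : ℂ → ℂ} (c : ℂ) {n : ℕ} (hn : n ≠ 0) :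
    co (fun z => g z + c) n = co g n := by
  obtain ⟨m, rfl⟩ := Nat.exists_eq_succ_of_ne_zero hn
  unfold co
  rw [Nat.succ_eq_add_one, iteratedDeriv_succ', iteratedDeriv_succ']
  congr 2
  ext z
  simp

/-- uniqueness of Taylor coefficients up to order `2` -/
theorem co_of_expansion {C g : ℂ → ℂ} {a b c : ℂ} (hg : DifferentiableOn ℂ g (ball 0 1))
    (h : ∀ ζ ∈ ball (0 : ℂ) 1, C ζ = a + b * ζ + c * ζ ^ 2 + ζ ^ 3 * g ζ) :
    co C 1 = b ∧ co C 2 = c := by
  have hr : (0 : ℝ) < 1 / 2 := by norm_num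
  have hr1 : (1 / 2 : ℝ) < 1 := by norm_num
  set r : ℝ := 1 / 2 with hrdef
  have hs : sphere (0 : ℂ) r ⊆ ball 0 1 := sphere_subset_ball hr1
  have hgd := differentiableOn_of_closedBall hg hr1
  have cg : ContinuousOn g (sphere 0 r) := hg.continuousOn.mono hs
  have hCd : DifferentiableOn ℂ C (ball 0 1) := by
    have : DifferentiableOn ℂ (fun ζ => a + b * ζ + c * ζ ^ 2 + ζ ^ 3 * g ζ) (ball 0 1) := by
      fun_prop
    exact this.congr h
  have hCd' := differentiableOn_of_closedBall hCd hr1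
  have hr' : (r : ℂ) ≠ 0 := by exact_mod_cast hr.ne'
  -- the modes
  have hmode : ∀ k : ℤ, md k r C = a * md k r (fun _ => 1) + b * (r * md (k - 1) r (fun _ => 1)) +
      c * (r ^ 2 * md (k - 2) r (fun _ => 1)) + r ^ 3 * md (k - 3) r g := by
    intro k
    have e1 : md k r C = md k r (fun z => a * 1 + (b * r) * ((z / (r : ℂ)) ^ (1 : ℤ) * 1) +
        (c * r ^ 2) * ((z / (r : ℂ)) ^ (2 : ℤ) * 1) + (r : ℂ) ^ 3 * ((z / (r : ℂ)) ^ (3 : ℤ) * g z)) := by
      apply md_congr hr k fun z hz => ?_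
      rw [h z (hs hz)]
      have h2 : (z / (r : ℂ)) ^ (2 : ℤ) = (z / (r : ℂ)) ^ 2 := by norm_cast
      have h3 : (z / (r : ℂ)) ^ (3 : ℤ) = (z / (r : ℂ)) ^ 3 := by norm_cast
      rw [h2, h3, zpow_one]
      field_simp
    have cz : ∀ j : ℤ, ContinuousOn (fun z : ℂ => (z / (r : ℂ)) ^ j) (sphere 0 r) :=
      fun j => continuousOn_zpow_div hr j
    have k0 : ContinuousOn (fun _ : ℂ => a * 1) (sphere 0 r) := continuousOn_const
    have k1 : ContinuousOn (fun z : ℂ => (b * r) * ((z / (r : ℂ)) ^ (1 : ℤ) * 1)) (sphere 0 r) :=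
      continuousOn_const.mul ((cz 1).mul continuousOn_const)
    have k2 : ContinuousOn (fun z : ℂ => (c * (r : ℂ) ^ 2) * ((z / (r : ℂ)) ^ (2 : ℤ) * 1))
      (sphere 0 r) := continuousOn_const.mul ((cz 2).mul continuousOn_const)
    have k3 : ContinuousOn (fun z : ℂ => (r : ℂ) ^ 3 * ((z / (r : ℂ)) ^ (3 : ℤ) * g z))
      (sphere 0 r) := continuousOn_const.mul ((cz 3).mul cg)
    have k01 : ContinuousOn (fun z : ℂ => a * 1 + (b * r) * ((z / (r : ℂ)) ^ (1 : ℤ) * 1))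
      (sphere 0 r) := k0.add k1
    have k012 : ContinuousOn (fun z : ℂ => a * 1 + (b * r) * ((z / (r : ℂ)) ^ (1 : ℤ) * 1) +
        (c * (r : ℂ) ^ 2) * ((z / (r : ℂ)) ^ (2 : ℤ) * 1)) (sphere 0 r) := k01.add k2
    rw [e1, md_add hr k k012 k3, md_add hr k k01 k2, md_add hr k k0 k1, md_const_mul,
      md_const_mul, md_const_mul, md_const_mul, md_shift hr, md_shift hr, md_shift hr]
    ring
  have hone : DifferentiableOn ℂ (fun _ : ℂ => (1 : ℂ)) (closedBall 0 r) := differentiableOn_const 1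
  have m0 : md 0 r (fun _ => 1) = 1 := by
    have := md_nat hr 0 hone
    simpa [co_zero] using this
  have mpos : ∀ n : ℕ, n ≠ 0 → md n r (fun _ => 1) = 0 := by
    intro n hn
    rw [md_nat hr n hone]
    have : co (fun _ : ℂ => (1 : ℂ)) n = 0 := by
      have := co_add_const (g := fun _ : ℂ => (0 : ℂ)) 1 hn
      simp only [zero_add] at this
      rw [this]
      unfold co
      have : iteratedDeriv n (fun _ : ℂ => (0 : ℂ)) 0 = 0 := by
        simp
      rw [this, zero_div]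
    rw [this, mul_zero]
  have m1 : md 1 r (fun _ => 1) = 0 := by simpa using mpos 1 one_ne_zero
  have m2 : md 2 r (fun _ => 1) = 0 := by simpa using mpos 2 two_ne_zero
  have mm1 : md (-1) r (fun _ => 1) = 0 := md_int_neg hr (by norm_num) hone
  have g1 : md (1 - 3) r g = 0 := md_int_neg hr (by norm_num) hgd
  have g2 : md (2 - 3) r g = 0 := md_int_neg hr (by norm_num) hgd
  constructor
  · have := md_nat hr 1 hCd'
    rw [show ((1 : ℕ) : ℤ) = 1 by norm_num, hmode 1, m1, g1,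
      show (1 : ℤ) - 1 = 0 by norm_num, show (1 : ℤ) - 2 = -1 by norm_num, m0, mm1] at this
    have h2 : (r : ℂ) * b = r * co C 1 := by linear_combination this
    exact (mul_left_cancel₀ hr' h2).symm
  · have := md_nat hr 2 hCd'
    rw [show ((2 : ℕ) : ℤ) = 2 by norm_num, hmode 2, m2, g2,
      show (2 : ℤ) - 1 = 1 by norm_num, show (2 : ℤ) - 2 = 0 by norm_num, m0, m1] at this
    have h2 : (r : ℂ) ^ 2 * c = r ^ 2 * co C 2 := by linear_combination this
    exact (mul_left_cancel₀ (pow_ne_zero 2 hr') h2).symm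

namespace InD

variable {C : ℂ → ℂ}

theorem bound (h : InD C) {ζ : ℂ} (hζ : ‖ζ‖ < 1) : ‖C ζ - 1‖ ≤ 20 * ‖ζ‖ / (1 - ‖ζ‖) ^ 3 := by
  set r := ‖ζ‖ with hr
  have hr0 : 0 ≤ r := norm_nonneg ζ
  set R := (1 + r) / 2 with hR
  have hR1 : R < 1 := by rw [hR]; linarith
  have hR0 : 0 < R := by rw [hR]; linarith
  have hRr : R - r = (1 - r) / 2 := by rw [hR]; ring
  set Mm : ℝ := 1 + 4 / (1 - r) ^ 2 with hMm
  have h1r : 0 < 1 - r := by linarith
  have hMpos : 0 < Mm := by positivity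
  have hd : DifferentiableOn ℂ (fun z => 1 - C z) (ball 0 R) :=
    (differentiableOn_const 1).sub (h.diff.mono (ball_subset_ball hR1.le))
  have hmaps : MapsTo (fun z => 1 - C z) (ball 0 R) {z | z.re ≤ Mm} := by
    intro z hz
    have hz' : ‖z‖ < R := by simpa using hz
    have hpos := h.pos z (ball_subset_ball hR1.le hz)
    have h1 : ‖z‖ ^ 2 / ‖1 + z‖ ^ 2 ≤ 4 / (1 - r) ^ 2 := by
      have h2 : (1 - r) / 2 ≤ ‖1 + z‖ := by
        have := norm_sub_norm_le (1 : ℂ) (-z)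
        rw [norm_one, norm_neg, sub_neg_eq_add] at this
        have h3 : 1 - R = (1 - r) / 2 := by rw [hR]; ring
        linarith
      have h4 : ‖z‖ ^ 2 ≤ 1 := by nlinarith [norm_nonneg z]
      have h5 : ((1 - r) / 2) ^ 2 ≤ ‖1 + z‖ ^ 2 := by gcongr
      calc ‖z‖ ^ 2 / ‖1 + z‖ ^ 2 ≤ 1 / ((1 - r) / 2) ^ 2 := by gcongr
        _ = 4 / (1 - r) ^ 2 := by field_simp; norm_num
    simp only [mem_ofPred_eq, Complex.sub_re, Complex.one_re]
    rw [hMm]; linarith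
  have key := Complex.borelCaratheodory_zero hMpos hd hmaps hR0
    (z := ζ) (by simpa [← hr] using by rw [hR]; linarith) (by simp [h.one])
  rw [← norm_neg, neg_sub]
  refine key.trans ?_
  rw [← hr, hRr]
  have h6 : Mm ≤ 5 / (1 - r) ^ 2 := by
    rw [hMm]
    have : 1 ≤ 1 / (1 - r) ^ 2 := by
      rw [le_div_iff₀ (by positivity)]; nlinarith
    calc 1 + 4 / (1 - r) ^ 2 ≤ 1 / (1 - r) ^ 2 + 4 / (1 - r) ^ 2 := by linarith
      _ = 5 / (1 - r) ^ 2 := by ring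
  calc 2 * Mm * r / ((1 - r) / 2) ≤ 2 * (5 / (1 - r) ^ 2) * r / ((1 - r) / 2) := by gcongr
    _ = 20 * r / (1 - r) ^ 3 := by field_simp; ring

theorem co_bound (h : InD C) {n : ℕ} (hn : n ≠ 0) : ‖co C n‖ ≤ 4 * 2 ^ n := by
  have hd : DifferentiableOn ℂ (fun z => C z + 1) (closedBall 0 (1 / 2 : ℝ)) :=
    (differentiableOn_of_closedBall h.diff (by norm_num)).add (differentiableOn_const 1)
  have hpos : ∀ z ∈ sphere (0 : ℂ) (1 / 2 : ℝ), 0 ≤ (C z + 1).re := by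
    intro z hz
    have hz' : ‖z‖ = 1 / 2 := by simpa using hz
    have hp := h.pos z (by rw [mem_ball_zero_iff, hz']; norm_num)
    have h1 : ‖z‖ ^ 2 / ‖1 + z‖ ^ 2 ≤ 1 := by
      have h2 : 1 / 2 ≤ ‖1 + z‖ := by
        have := norm_sub_norm_le (1 : ℂ) (-z)
        rw [norm_one, norm_neg, sub_neg_eq_add, hz'] at this
        linarith
      rw [hz', div_le_one (by positivity)]
      gcongr
    simp only [Complex.add_re, Complex.one_re]
    linarith
  have key := caratheodory (by norm_num : (0 : ℝ) < 1 / 2) hd hpos n hn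
  rw [co_add_const 1 hn] at key
  simp only [h.one] at key
  norm_num at key
  have h3 : ‖co C n‖ = 2 ^ n * ((1 / 2) ^ n * ‖co C n‖) := by
    rw [← mul_assoc, ← mul_pow]; norm_num
  rw [h3]
  nlinarith [pow_pos (two_pos : (0 : ℝ) < 2) n]

theorem hasSum_co {C : ℂ → ℂ} (hC : DifferentiableOn ℂ C (ball 0 1)) {ζ : ℂ} (hζ : ‖ζ‖ < 1) :
    HasSum (fun n : ℕ => co C n * ζ ^ n) (C ζ) := by
  have h1 := Complex.hasSum_taylorSeries_on_ball hC (z := ζ) (by simpa using hζ)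
  have e : (fun n : ℕ => co C n * ζ ^ n) =
      fun n : ℕ => (n.factorial : ℂ)⁻¹ • (ζ - 0) ^ n • iteratedDeriv n C 0 := by
    ext n
    unfold co
    simp only [sub_zero, smul_eq_mul]
    field_simp
  rw [e]; exact h1

theorem remainder (h : InD C) {ζ : ℂ} (hζ : ‖ζ‖ ≤ 1 / 4) :
    ‖C ζ - 1 - co C 1 * ζ - co C 2 * ζ ^ 2‖ ≤ 64 * ‖ζ‖ ^ 3 := by
  have h1 := hasSum_co h.diff (ζ := ζ) (by linarith)
  have h2 := (hasSum_nat_add_iff' 3).2 h1
  have h3 : C ζ - ∑ i ∈ Finset.range 3, co C i * ζ ^ i =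
      C ζ - 1 - co C 1 * ζ - co C 2 * ζ ^ 2 := by
    simp only [Finset.sum_range_succ, Finset.sum_range_zero, co_zero, h.one]
    ring
  rw [h3] at h2
  rw [← h2.tsum_eq]
  have h4 : HasSum (fun n : ℕ => (32 * ‖ζ‖ ^ 3) * (1 / 2 : ℝ) ^ n) ((32 * ‖ζ‖ ^ 3) * 2) := by
    have := hasSum_geometric_two
    exact this.mul_left _
  have h5 : (32 * ‖ζ‖ ^ 3) * 2 = 64 * ‖ζ‖ ^ 3 := by ring
  rw [← h5]
  apply tsum_of_norm_bounded h4
  intro n
  rw [norm_mul, norm_pow]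
  have h6 := h.co_bound (n := n + 3) (by omega)
  calc ‖co C (n + 3)‖ * ‖ζ‖ ^ (n + 3) ≤ (4 * 2 ^ (n + 3)) * ‖ζ‖ ^ (n + 3) := by gcongr
    _ = 32 * ‖ζ‖ ^ 3 * (2 * ‖ζ‖) ^ n := by rw [mul_pow]; ring
    _ ≤ 32 * ‖ζ‖ ^ 3 * (1 / 2) ^ n := by gcongr; linarith

theorem re_co_two (h : InD C) : (co C 2).re ≤ 4 := by
  -- use radius `r` and let `r → 1`
  have key : ∀ r : ℝ, 0 < r → r < 1 → r ^ 2 * (co C 2).re ≤ 2 * (1 + r ^ 2) := by
    intro r hr hr1
    have h1r : 0 < 1 - r ^ 2 := by nlinarith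
    set κ : ℝ := r ^ 2 / (1 - r ^ 2) with hκ
    have hd : DifferentiableOn ℂ (fun z => C z + κ * pf z) (closedBall 0 r) :=
      (differentiableOn_of_closedBall h.diff hr1).add
        ((differentiableOn_of_closedBall differentiableOn_pf hr1).const_mul _)
    have hpos : ∀ z ∈ sphere (0 : ℂ) r, 0 ≤ (C z + κ * pf z).re := by
      intro z hz
      have hz' : ‖z‖ = r := by simpa using hz
      have hp := h.pos z (by rw [mem_ball_zero_iff, hz']; exact hr1)
      rw [Complex.add_re, Complex.re_ofReal_mul, re_pf, hz', hκ]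
      rw [hz'] at hp
      have : r ^ 2 / (1 - r ^ 2) * ((1 - r ^ 2) / ‖1 + z‖ ^ 2) = r ^ 2 / ‖1 + z‖ ^ 2 := by
        field_simp
      rw [this]; exact hp
    have k1 := caratheodory hr hd hpos 2 two_ne_zero
    have e1 : co (fun z => C z + κ * pf z) 2 = co C 2 + κ * 2 := by
      -- expansion of pf
      have hCe : co pf 2 = 2 := by
        refine (co_of_expansion (C := pf) (a := 1) (b := -2) (c := 2)
          (g := fun ζ => -2 / (1 + ζ)) ?_ ?_).2
        · intro z hz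
          have hz' : ‖z‖ < 1 := by simpa using hz
          exact (DifferentiableAt.div (by fun_prop) (by fun_prop)
            (one_add_ne hz')).differentiableWithinAt
        · intro ζ hζ
          have hz' : ‖ζ‖ < 1 := by simpa using hζ
          have := one_add_ne hz'
          unfold pf
          field_simp
          ring
      have hs : sphere (0 : ℂ) r ⊆ ball 0 1 := sphere_subset_ball hr1
      have hr' : (r : ℂ) ≠ 0 := by exact_mod_cast hr.ne'
      have m1 := md_nat hr 2 hd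
      have c1 : ContinuousOn C (sphere 0 r) := h.diff.continuousOn.mono hs
      have c2 : ContinuousOn (fun z => (κ : ℂ) * pf z) (sphere 0 r) :=
        continuousOn_const.mul (differentiableOn_pf.continuousOn.mono hs)
      rw [md_add hr _ c1 c2, md_const_mul,
        md_nat hr 2 (differentiableOn_of_closedBall h.diff hr1),
        md_nat hr 2 (differentiableOn_of_closedBall differentiableOn_pf hr1), hCe] at m1
      have h2 : (r : ℂ) ^ 2 * (co C 2 + κ * 2) = r ^ 2 * co (fun z => C z + κ * pf z) 2 := by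
        rw [← m1]; ring
      exact (mul_left_cancel₀ (pow_ne_zero 2 hr') h2).symm
    rw [e1] at k1
    have e2 : (C 0 + (κ : ℂ) * pf 0).re = 1 + κ := by
      rw [h.one]; simp [pf]
    rw [e2] at k1
    have e3 : (co C 2).re + κ * 2 ≤ ‖co C 2 + κ * 2‖ := by
      have := Complex.re_le_norm (co C 2 + κ * 2)
      simpa using this
    have k2 : r ^ 2 * ((co C 2).re + κ * 2) ≤ 2 * (1 + κ) := by
      refine le_trans ?_ k1
      gcongr
    have e4 : 2 * (1 + κ) - r ^ 2 * (κ * 2) = 2 * (1 + r ^ 2) := by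
      rw [hκ]; field_simp; ring
    linarith
  -- limit
  have h1 : Tendsto (fun r : ℝ => r ^ 2 * (co C 2).re) (𝓝[<] 1) (𝓝 (1 ^ 2 * (co C 2).re)) := by
    apply Tendsto.mono_left _ nhdsWithin_le_nhds
    apply Continuous.tendsto; fun_prop
  have h2 : Tendsto (fun r : ℝ => 2 * (1 + r ^ 2)) (𝓝[<] 1) (𝓝 (2 * (1 + 1 ^ 2))) := by
    apply Tendsto.mono_left _ nhdsWithin_le_nhds
    apply Continuous.tendsto; fun_prop
  have h3 := le_of_tendsto_of_tendsto h1 h2 (by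
    have : Ioo (0 : ℝ) 1 ∈ 𝓝[<] (1 : ℝ) := Ioo_mem_nhdsLT one_pos
    filter_upwards [this] with r hr using key r hr.1 hr.2)
  linarith

theorem convex {C' : ℂ → ℂ} (h : InD C) (h' : InD C') {x : ℝ} (h0 : 0 ≤ x) (h1 : x ≤ 1) :
    InD (fun ζ => (1 - x : ℝ) * C ζ + (x : ℝ) * C' ζ) where
  diff := (h.diff.const_mul _).add (h'.diff.const_mul _)
  one := by rw [h.one, h'.one]; push_cast; ring
  pos := by
    intro ζ hζ
    have e1 := h.pos ζ hζ
    have e2 := h'.pos ζ hζ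
    rw [Complex.add_re, Complex.re_ofReal_mul, Complex.re_ofReal_mul]
    have h3 : 0 ≤ 1 - x := by linarith
    have := add_nonneg (mul_nonneg h3 e1) (mul_nonneg h0 e2)
    calc (0 : ℝ) ≤ _ := this
      _ = _ := by ring

theorem of_pairs {C : ℂ → ℂ} (hd : DifferentiableOn ℂ C (ball 0 1)) (h1 : C 0 = 1)
    (h : ∀ ζ : ℂ, ∀ ρ : ℝ, 0 < ρ → ‖ζ‖ ^ 2 + ρ ^ 2 < 1 →
      0 ≤ ‖ζ‖ ^ 2 * (pf ζ).re + ρ ^ 2 * (C ζ).re) : InD C where
  diff := hd
  one := h1
  pos := by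
    intro ζ hζ
    have hz : ‖ζ‖ < 1 := by simpa using hζ
    set R2 : ℝ := 1 - ‖ζ‖ ^ 2 with hR2
    have hR : 0 < R2 := by rw [hR2]; nlinarith [norm_nonneg ζ]
    have hlim : 0 ≤ ‖ζ‖ ^ 2 * (pf ζ).re + R2 * (C ζ).re := by
      have t1 : Tendsto (fun x : ℝ => ‖ζ‖ ^ 2 * (pf ζ).re + x * (C ζ).re) (𝓝[<] R2)
          (𝓝 (‖ζ‖ ^ 2 * (pf ζ).re + R2 * (C ζ).re)) := by
        apply Tendsto.mono_left _ nhdsWithin_le_nhds
        apply Continuous.tendsto; fun_prop
      apply ge_of_tendsto t1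
      have : Ioo (0 : ℝ) R2 ∈ 𝓝[<] R2 := Ioo_mem_nhdsLT hR
      filter_upwards [this] with x hx
      have := h ζ (Real.sqrt x) (Real.sqrt_pos.2 hx.1) (by
        rw [Real.sq_sqrt hx.1.le]; rw [hR2] at hx; linarith [hx.2])
      rwa [Real.sq_sqrt hx.1.le] at this
    rw [re_pf] at hlim
    have h2 : ‖ζ‖ ^ 2 * ((1 - ‖ζ‖ ^ 2) / ‖1 + ζ‖ ^ 2) + R2 * (C ζ).re =
        R2 * ((C ζ).re + ‖ζ‖ ^ 2 / ‖1 + ζ‖ ^ 2) := by rw [hR2]; ring
    rw [h2] at hlim
    exact nonneg_of_mul_nonneg_right hlim hR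

end InD

/-! ### two special elements -/

theorem re_sq_identity {ζ : ℂ} (hζ : ‖ζ‖ < 1) :
    ((1 / (1 + ζ)) ^ 2 - 1 / 2).re + ‖ζ‖ ^ 2 / ‖1 + ζ‖ ^ 2 = (pf ζ).re ^ 2 / 2 := by
  have h0 := one_add_ne hζ
  have e1 : 1 / (1 + ζ) = (1 + pf ζ) / 2 := by unfold pf; field_simp; ring
  have e2 : ‖ζ‖ ^ 2 / ‖1 + ζ‖ ^ 2 = ‖(1 - pf ζ) / 2‖ ^ 2 := by
    have : (1 - pf ζ) / 2 = ζ / (1 + ζ) := by unfold pf; field_simp; ring
    rw [this, norm_div, div_pow]
  rw [e1, e2]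
  set p := pf ζ
  rw [← Complex.normSq_eq_norm_sq, Complex.normSq_apply]
  simp only [pow_two, Complex.sub_re, Complex.mul_re, Complex.div_re, Complex.add_re,
    Complex.one_re, Complex.add_im, Complex.one_im, Complex.div_im, Complex.sub_im,
    Complex.normSq_apply]
  simp
  ring

/-- `C₁(ζ) = 1/(1+ζ)² - 1/2 + (1/2)(1-ζ)/(1+ζ)` -/
noncomputable def C₁ (ζ : ℂ) : ℂ := (1 / (1 + ζ)) ^ 2 - 1 / 2 + 1 / 2 * pf ζ

/-- `C₂(ζ) = 1/(1+ζ)² - 1/2 + (1/2)(1+ζ)/(1-ζ)` -/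
noncomputable def C₂ (ζ : ℂ) : ℂ := (1 / (1 + ζ)) ^ 2 - 1 / 2 + 1 / 2 * ((1 + ζ) / (1 - ζ))

theorem diff_base : DifferentiableOn ℂ (fun ζ : ℂ => (1 / (1 + ζ)) ^ 2 - 1 / 2) (ball 0 1) := by
  intro z hz
  have hz' : ‖z‖ < 1 := by simpa using hz
  apply DifferentiableAt.differentiableWithinAt
  apply DifferentiableAt.sub _ (differentiableAt_const _)
  apply DifferentiableAt.pow
  exact DifferentiableAt.div (by fun_prop) (by fun_prop) (one_add_ne hz')

theorem diff_inv : DifferentiableOn ℂ (fun ζ : ℂ => (1 + ζ) / (1 - ζ)) (ball 0 1) := by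
  intro z hz
  have hz' : ‖z‖ < 1 := by simpa using hz
  exact (DifferentiableAt.div (by fun_prop) (by fun_prop)
    (one_sub_ne hz')).differentiableWithinAt

theorem inD_C₁ : InD C₁ where
  diff := diff_base.add (differentiableOn_pf.const_mul _)
  one := by simp [C₁, pf]
  pos := by
    intro ζ hζ
    have hz : ‖ζ‖ < 1 := by simpa using hζ
    have h1 := re_sq_identity hz
    have h2 := (re_pf_pos hz).le
    unfold C₁
    have h3 : (1 / 2 * pf ζ).re = 1 / 2 * (pf ζ).re := by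
      have : (1 / 2 * pf ζ) = ((1 / 2 : ℝ) : ℂ) * pf ζ := by push_cast; ring
      rw [this, Complex.re_ofReal_mul]
    rw [Complex.add_re, h3]
    nlinarith

theorem re_inv_nonneg {ζ : ℂ} (hζ : ‖ζ‖ < 1) : 0 ≤ ((1 + ζ) / (1 - ζ)).re := by
  have := re_pf_pos (ζ := -ζ) (by simpa using hζ)
  unfold pf at this
  rw [sub_neg_eq_add, ← sub_eq_add_neg] at this
  exact this.le

theorem inD_C₂ : InD C₂ where
  diff := diff_base.add (diff_inv.const_mul _)
  one := by simp [C₂]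
  pos := by
    intro ζ hζ
    have hz : ‖ζ‖ < 1 := by simpa using hζ
    have h1 := re_sq_identity hz
    have h2 := re_inv_nonneg hz
    unfold C₂
    have h3 : (1 / 2 * ((1 + ζ) / (1 - ζ))).re = 1 / 2 * ((1 + ζ) / (1 - ζ)).re := by
      have : (1 / 2 * ((1 + ζ) / (1 - ζ))) = ((1 / 2 : ℝ) : ℂ) * ((1 + ζ) / (1 - ζ)) := by
        push_cast; ring
      rw [this, Complex.re_ofReal_mul]
    rw [Complex.add_re, h3]
    nlinarith [sq_nonneg (pf ζ).re]

theorem co_C₁ : co C₁ 1 = -3 ∧ co C₁ 2 = 4 := by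
  refine co_of_expansion (a := 1) (g := fun ζ => -(5 + 4 * ζ) / (1 + ζ) ^ 2) ?_ ?_
  · intro z hz
    have hz' : ‖z‖ < 1 := by simpa using hz
    have d1 : DifferentiableAt ℂ (fun ζ : ℂ => -(5 + 4 * ζ)) z := by fun_prop
    have d2 : DifferentiableAt ℂ (fun ζ : ℂ => (1 + ζ) ^ 2) z := by fun_prop
    exact (d1.div d2 (pow_ne_zero 2 (one_add_ne hz'))).differentiableWithinAt
  · intro ζ hζ
    have hz' : ‖ζ‖ < 1 := by simpa using hζ
    have := one_add_ne hz'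
    unfold C₁ pf
    field_simp
    ring

theorem co_C₂ : co C₂ 1 = -1 ∧ co C₂ 2 = 4 := by
  refine co_of_expansion (a := 1)
    (g := fun ζ => (-3 + 3 * ζ + 4 * ζ ^ 2) / ((1 + ζ) ^ 2 * (1 - ζ))) ?_ ?_
  · intro z hz
    have hz' : ‖z‖ < 1 := by simpa using hz
    have d1 : DifferentiableAt ℂ (fun ζ : ℂ => -3 + 3 * ζ + 4 * ζ ^ 2) z := by fun_prop
    have d2 : DifferentiableAt ℂ (fun ζ : ℂ => (1 + ζ) ^ 2 * (1 - ζ)) z := by fun_prop
    exact (d1.div d2
      (mul_ne_zero (pow_ne_zero 2 (one_add_ne hz')) (one_sub_ne hz'))).differentiableWithinAt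
  · intro ζ hζ
    have hz' : ‖ζ‖ < 1 := by simpa using hζ
    have h1 := one_add_ne hz'
    have h2 := one_sub_ne hz'
    unfold C₂
    field_simp
    ring

end Pool.Agent.SP
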