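import Mathlib

set_option autoImplicit false

open MeasureTheory Set

namespace Pool.Agent.SP

/-- the space `ℂ²` with its Hermitian inner product and norm -/
abbrev E := EuclideanSpace ℂ (Fin 2)

/-- `Hol(𝔹²,ℂ²)`: the continuous maps `𝔹² → ℂ²` that are holomorphic, with the compact-open
topology (the topology of locally uniform convergence) inherited from `C(𝔹², ℂ²)`. -/
def Hol : Submodule ℂ C(Metric.ball (0 : E) 1, E) where
  carrier := {f | ∃ g : E → E, DifferentiableOn ℂ g (Metric.ball (0 : E) 1) ∧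
    ∀ z : Metric.ball (0 : E) 1, f z = g z}
  add_mem' := by
    rintro f₁ f₂ ⟨g₁, h₁, e₁⟩ ⟨g₂, h₂, e₂⟩
    exact ⟨g₁ + g₂, h₁.add h₂, fun z => by simp [e₁, e₂]⟩
  zero_mem' := ⟨0, differentiableOn_const 0, fun z => by simp⟩
  smul_mem' := by
    rintro c f ⟨g, h, e⟩
    exact ⟨c • g, h.const_smul c, fun z => by simp [e]⟩

open Classical in
/-- the value of `f ∈ Hol(𝔹²,ℂ²)` at `z`, extended by `0` outside the ball -/
noncomputable def ev (f : Hol) (z : E) : E :=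
  if h : z ∈ Metric.ball (0 : E) 1 then (f : C(Metric.ball (0 : E) 1, E)) ⟨z, h⟩ else 0

/-- the class `𝓜` -/
def M : Set Hol :=
  {h | ev h 0 = 0 ∧ fderiv ℂ (ev h) 0 = ContinuousLinearMap.id ℂ E ∧
    ∀ z ∈ Metric.ball (0 : E) 1, z ≠ 0 → 0 < (inner ℂ (ev h z) z).re}

/-- Herglotz vector fields associated with `𝓜` (only `z ∈ 𝔹²` and `t ≥ 0` matter) -/
structure IsHerglotz (G : E → ℝ → E) : Prop where
  meas : ∀ z ∈ Metric.ball (0 : E) 1,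
    AEStronglyMeasurable (fun t => G z t) (volume.restrict (Ici (0 : ℝ)))
  mem : ∀ᵐ t ∂(volume.restrict (Ici (0 : ℝ))), ∃ h ∈ M,
    ∀ z ∈ Metric.ball (0 : E) 1, G z t = - ev h z

/-- normal Loewner chains `(f_t)_{t ≥ 0}` (only `t ≥ 0` matters); a family in `Hol` is normal
when it is relatively compact. -/
structure IsNormalChain (F : ℝ → Hol) : Prop where
  univalent : ∀ t, 0 ≤ t → InjOn (ev (F t)) (Metric.ball (0 : E) 1)
  zero : ∀ t, 0 ≤ t → ev (F t) 0 = 0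
  deriv : ∀ t, 0 ≤ t →
    fderiv ℂ (ev (F t)) 0 = ((Real.exp t : ℝ) : ℂ) • ContinuousLinearMap.id ℂ E
  mono : ∀ s t, 0 ≤ s → s ≤ t →
    ev (F s) '' (Metric.ball (0 : E) 1) ⊆ ev (F t) '' (Metric.ball (0 : E) 1)
  normal : IsCompact (closure {g : Hol | ∃ t, 0 ≤ t ∧ g = ((Real.exp (-t) : ℝ) : ℂ) • F t})

/-- `G` generates `(f_t)`: `∂f_t(z)/∂t = -d(f_t)_z G(z,t)` for all `z` and a.e. `t ≥ 0` -/
def Generates (G : E → ℝ → E) (F : ℝ → Hol) : Prop :=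
  ∀ z ∈ Metric.ball (0 : E) 1, ∀ᵐ t ∂(volume.restrict (Ici (0 : ℝ))),
    HasDerivAt (fun s => ev (F s) z) (-(fderiv ℂ (ev (F t)) z (G z t))) t

/-- the class `S⁰` -/
def S0 : Set Hol :=
  {f | InjOn (ev f) (Metric.ball (0 : E) 1) ∧ ev f 0 = 0 ∧
    fderiv ℂ (ev f) 0 = ContinuousLinearMap.id ℂ E ∧ ∃ F : ℝ → Hol, IsNormalChain F ∧ F 0 = f}

/-- support points of a set `K ⊆ Hol(𝔹²,ℂ²)` -/
def Supp (K : Set Hol) : Set Hol :=
  {f | f ∈ K ∧ ∃ L : Hol →L[ℂ] ℂ, (¬ ∃ c : ℂ, ∀ g ∈ K, L g = c) ∧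
    ∀ g ∈ K, (L g).re ≤ (L f).re}

/-- `t ↦ G(·,t)` is continuous from `[0,∞)` into `Hol(𝔹²,ℂ²)` -/
def IsContinuousField (G : E → ℝ → E) : Prop :=
  ∃ H : ℝ → Hol, ContinuousOn H (Ici (0 : ℝ)) ∧
    ∀ t, 0 ≤ t → ∀ z ∈ Metric.ball (0 : E) 1, G z t = ev (H t) z

/-- the main statement -/
def MainStatement : Prop :=
  ∃ f ∈ Supp S0, ∀ G : E → ℝ → E, IsHerglotz G → ∀ F : ℝ → Hol, IsNormalChain F →
    F 0 = f → Generates G F → ¬ IsContinuousField G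

end Pool.Agent.SP
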