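import Pool.Agent.Lib52.SP.Chain

set_option autoImplicit false

open Set Metric Filter MeasureTheory Complex
open scoped Topology

namespace Pool.Agent.SP

/-- basis vectors -/
noncomputable def e₁ : E := pt 1 0
/-- basis vectors -/
noncomputable def e₂ : E := pt 0 1

theorem pt_eq (ζ w : ℂ) : pt ζ w = ζ • e₁ + w • e₂ := by
  ext i
  fin_cases i
  · show ζ = ζ * 1 + w * 0
    ring
  · show w = ζ * 0 + w * 1
    ring

theorem E_eq (z : E) : z = z 0 • e₁ + z 1 • e₂ := by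
  rw [← pt_eq]
  ext i
  fin_cases i <;> rfl

theorem norm_pt_sq (ζ w : ℂ) : ‖pt ζ w‖ ^ 2 = ‖ζ‖ ^ 2 + ‖w‖ ^ 2 := norm_sq_E _

theorem pt_mem {ζ w : ℂ} (h : ‖ζ‖ ^ 2 + ‖w‖ ^ 2 < 1) : pt ζ w ∈ ball (0 : E) 1 :=
  (mem_ball_iff_sq _).2 h

theorem norm_pt_zero (ζ : ℂ) : ‖pt ζ 0‖ = ‖ζ‖ := by
  have := norm_pt_sq ζ 0
  rw [norm_zero] at this
  have h2 : ‖pt ζ 0‖ ^ 2 = ‖ζ‖ ^ 2 := by rw [this]; ring
  exact (sq_eq_sq₀ (norm_nonneg _) (norm_nonneg _)).1 h2

theorem pt_zero_mem {ζ : ℂ} (h : ‖ζ‖ < 1) : pt ζ 0 ∈ ball (0 : E) 1 := by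
  rw [mem_ball_zero_iff, norm_pt_zero]; exact h

section lines
variable {F' : Type*} [NormedAddCommGroup F'] [NormedSpace ℂ F']

theorem hasDerivAt_pt₁ (ζ w : ℂ) : HasDerivAt (fun ζ => pt ζ w) e₁ ζ := by
  have h : (fun ζ => pt ζ w) = fun ζ => ζ • e₁ + w • e₂ := by ext1 ζ; exact pt_eq ζ w
  rw [h]
  have := ((hasDerivAt_id ζ).smul_const e₁).add_const (w • e₂)
  simpa using this

theorem hasDerivAt_pt₂ (ζ w : ℂ) : HasDerivAt (fun w => pt ζ w) e₂ w := by
  have h : (fun w => pt ζ w) = fun w => ζ • e₁ + w • e₂ := by ext1 w; exact pt_eq ζ w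
  rw [h]
  have := ((hasDerivAt_id w).smul_const e₂).const_add (ζ • e₁)
  simpa using this

theorem hasDerivAt_line₁ {f : E → F'} {ζ w : ℂ} (hf : DifferentiableAt ℂ f (pt ζ w)) :
    HasDerivAt (fun ζ => f (pt ζ w)) (fderiv ℂ f (pt ζ w) e₁) ζ :=
  HasFDerivAt.comp_hasDerivAt ζ hf.hasFDerivAt (hasDerivAt_pt₁ ζ w)

theorem hasDerivAt_line₂ {f : E → F'} {ζ w : ℂ} (hf : DifferentiableAt ℂ f (pt ζ w)) :
    HasDerivAt (fun w => f (pt ζ w)) (fderiv ℂ f (pt ζ w) e₂) w :=
  HasFDerivAt.comp_hasDerivAt w hf.hasFDerivAt (hasDerivAt_pt₂ ζ w)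

end lines

theorem hasDerivAt_coord {g : ℂ → E} {g' : E} {ζ : ℂ} (h : HasDerivAt g g' ζ) (i : Fin 2) :
    HasDerivAt (fun ζ => g ζ i) (g' i) ζ := by
  have := HasFDerivAt.comp_hasDerivAt ζ (pr i).hasFDerivAt h
  exact this

/-- the first component on the slice `(ζ,0)` -/
noncomputable def sl (f : Hol) (ζ : ℂ) : ℂ := ev f (pt ζ 0) 0

theorem ev_diffAt (f : Hol) {z : E} (hz : z ∈ ball (0 : E) 1) : DifferentiableAt ℂ (ev f) z :=
  (ev_diff f).differentiableAt (isOpen_ball.mem_nhds hz)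

theorem sl_diff (f : Hol) : DifferentiableOn ℂ (sl f) (ball 0 1) := by
  intro ζ hζ
  have hζ' : ‖ζ‖ < 1 := by simpa using hζ
  exact (hasDerivAt_coord (hasDerivAt_line₁ (ev_diffAt f (pt_zero_mem hζ')))
    0).differentiableAt.differentiableWithinAt

theorem co_congr {A B : ℂ → ℂ} (h : ∀ ζ ∈ ball (0 : ℂ) 1, A ζ = B ζ) (n : ℕ) :
    co A n = co B n := by
  unfold co
  congr 1
  apply Filter.EventuallyEq.iteratedDeriv_eq
  filter_upwards [ball_mem_nhds (0 : ℂ) one_pos] with ζ hζ using h ζ hζ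

theorem norm_co_two_le {A : ℂ → ℂ} (hA : DifferentiableOn ℂ A (ball 0 1)) {K : ℝ}
    (hK : ∀ ζ ∈ sphere (0 : ℂ) (1 / 2), ‖A ζ‖ ≤ K) : ‖co A 2‖ ≤ 4 * K := by
  have hr : (0 : ℝ) < 1 / 2 := by norm_num
  have hr1 : (1 / 2 : ℝ) < 1 := by norm_num
  have h1 := md_nat hr 2 (differentiableOn_of_closedBall hA hr1)
  have h2 := norm_md_le (f := A) hr ((2 : ℕ) : ℤ)
  rw [h1, norm_mul, norm_pow, Complex.norm_real, Real.norm_of_nonneg hr.le] at h2
  have h3 : avr (1 / 2) (fun z => ‖A z‖) ≤ K := by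
    have hc : ContinuousOn (fun z => ‖A z‖) (sphere (0 : ℂ) (1 / 2)) :=
      (hA.continuousOn.mono (sphere_subset_ball hr1)).norm
    calc _ ≤ avr (1 / 2) (fun _ => K) := avr_mono hr hc continuousOn_const hK
      _ = K := Real.circleAverage_const K 0 _
  have h4 : (1 / 2 : ℝ) ^ 2 = 1 / 4 := by norm_num
  rw [h4] at h2
  linarith

/-- the first-level functional: the coefficient of `z₁²` in the first component -/
noncomputable def Lf : Hol →L[ℂ] ℂ where
  toFun := fun f => co (sl f) 2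
  map_add' := by
    intro f g
    have h := co_lin (sl_diff f) (sl_diff g) 1 1 2
    simp only [one_mul] at h
    rw [← h]
    apply co_congr
    intro ζ hζ
    have hζ' : ‖ζ‖ < 1 := by simpa using hζ
    unfold sl
    rw [ev_add _ _ (pt_zero_mem hζ')]
    rfl
  map_smul' := by
    intro c f
    have h := co_lin (sl_diff f) (sl_diff f) c 0 2
    simp only [zero_mul, add_zero] at h
    rw [RingHom.id_apply, smul_eq_mul, ← h]
    apply co_congr
    intro ζ hζ
    have hζ' : ‖ζ‖ < 1 := by simpa using hζ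
    unfold sl
    rw [ev_smul _ _ (pt_zero_mem hζ')]
    rfl
  cont := by
    show Continuous fun f : Hol => co (sl f) 2
    set Kr : Set BB := {z | ‖(z : E)‖ ≤ 1 / 2} with hKr
    have hKc : IsCompact Kr := by
      rw [Subtype.isCompact_iff]
      have : (Subtype.val '' Kr : Set E) = closedBall 0 (1 / 2) := by
        ext z
        constructor
        · rintro ⟨w, hw, rfl⟩
          have hw' : ‖(w : E)‖ ≤ 1 / 2 := hw
          simpa using hw'
        · intro hz
          have hz' : ‖z‖ ≤ 1 / 2 := by simpa using hz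
          exact ⟨⟨z, by rw [mem_ball_zero_iff]; linarith⟩, hz', rfl⟩
      rw [this]
      exact isCompact_closedBall _ _
    have : CompactSpace Kr := isCompact_iff_compactSpace.1 hKc
    have hcont : Continuous fun g : Hol => ((g : C(BB, E)).restrict Kr : C(Kr, E)) :=
      (ContinuousMap.continuous_restrict Kr).comp continuous_subtype_val
    have key : ∀ f g : Hol, ‖co (sl f) 2 - co (sl g) 2‖ ≤
        4 * ‖((f : C(BB, E)).restrict Kr : C(Kr, E)) - (g : C(BB, E)).restrict Kr‖ := by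
      intro f g
      have h := co_lin (sl_diff f) (sl_diff g) 1 (-1) 2
      have h2 : co (sl f) 2 - co (sl g) 2 = co (fun z => 1 * sl f z + -1 * sl g z) 2 := by
        rw [h]; ring
      rw [h2]
      apply norm_co_two_le
      · exact ((sl_diff f).const_mul 1).add ((sl_diff g).const_mul (-1))
      · intro ζ hζ
        have hζn : ‖ζ‖ = 1 / 2 := by simpa using hζ
        have hζ' : ‖ζ‖ < 1 := by rw [hζn]; norm_num
        have hm := pt_zero_mem hζ'
        have hk : (⟨pt ζ 0, hm⟩ : BB) ∈ Kr := by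
          show ‖pt ζ 0‖ ≤ 1 / 2
          rw [norm_pt_zero, hζn]
        have h3 := ContinuousMap.norm_coe_le_norm
          (((f : C(BB, E)).restrict Kr : C(Kr, E)) - (g : C(BB, E)).restrict Kr) ⟨⟨pt ζ 0, hm⟩, hk⟩
        refine le_trans ?_ h3
        have h4 : (((f : C(BB, E)).restrict Kr : C(Kr, E)) - (g : C(BB, E)).restrict Kr)
            ⟨⟨pt ζ 0, hm⟩, hk⟩ = ev f (pt ζ 0) - ev g (pt ζ 0) := by
          rw [ev_apply f hm, ev_apply g hm]; rfl
        rw [h4]
        have h5 : 1 * sl f ζ + -1 * sl g ζ = (ev f (pt ζ 0) - ev g (pt ζ 0)) 0 := by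
          show _ = ev f (pt ζ 0) 0 - ev g (pt ζ 0) 0
          unfold sl; ring
        rw [h5]
        exact norm_coord_le _ 0
    rw [continuous_iff_continuousAt]
    intro g
    rw [ContinuousAt, tendsto_iff_norm_sub_tendsto_zero]
    have t1 : Tendsto (fun f : Hol => 4 * ‖((f : C(BB, E)).restrict Kr : C(Kr, E)) -
        (g : C(BB, E)).restrict Kr‖) (𝓝 g) (𝓝 0) := by
      have := (((hcont.tendsto g).sub_const ((g : C(BB, E)).restrict Kr)).norm).const_mul 4
      simpa using this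
    exact squeeze_zero (fun f => norm_nonneg _) (fun f => key f g) t1

theorem Lf_apply (f : Hol) : Lf f = co (sl f) 2 := rfl

theorem co_kf : co kf 2 = 2 := by
  refine (co_of_expansion (C := kf) (a := 0) (b := 1) (c := 2)
    (g := fun ζ => (3 - 2 * ζ) / (1 - ζ) ^ 2) ?_ ?_).2
  · intro z hz
    have hz' : ‖z‖ < 1 := by simpa using hz
    have d1 : DifferentiableAt ℂ (fun ζ : ℂ => 3 - 2 * ζ) z := by fun_prop
    have d2 : DifferentiableAt ℂ (fun ζ : ℂ => (1 - ζ) ^ 2) z := by fun_prop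
    exact (d1.div d2 (pow_ne_zero 2 (one_sub_ne hz'))).differentiableWithinAt
  · intro ζ hζ
    have hz' : ‖ζ‖ < 1 := by simpa using hζ
    have := one_sub_ne hz'
    unfold kf
    field_simp
    ring

theorem Lf_chain {L : ℝ → ℂ → ℂ} {q : ℂ × ℂ} (h : Fam L q) : Lf (chainOf h 0) = 2 := by
  rw [Lf_apply, ← co_kf]
  apply co_congr
  intro ζ hζ
  have hζ' : ‖ζ‖ < 1 := by simpa using hζ
  unfold sl
  rw [ev_chainOf h le_rfl (pt_zero_mem hζ')]
  show ((Real.exp 0 : ℝ) : ℂ) * kf ζ = kf ζ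
  simp

theorem Lf_id : Lf idH = 0 := by
  rw [Lf_apply]
  have h := (co_of_expansion (C := sl idH) (a := 0) (b := 1) (c := 0) (g := fun _ => 0)
    (differentiableOn_const 0) ?_).2
  · exact h
  · intro ζ hζ
    have hζ' : ‖ζ‖ < 1 := by simpa using hζ
    unfold sl idH
    rw [ev_toHol _ _ (pt_zero_mem hζ')]
    show ζ = _
    ring

end Pool.Agent.SP
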