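import Pool.Agent.Lib52.SP.Ultra

set_option autoImplicit false

open Set Metric Filter MeasureTheory
open scoped Topology

namespace Pool.Agent.SP

/-- the open unit ball as a type -/
abbrev BB := Metric.ball (0 : E) 1

theorem ev_apply (f : Hol) {z : E} (hz : z ∈ ball (0 : E) 1) :
    ev f z = (f : C(BB, E)) ⟨z, hz⟩ := dif_pos hz

theorem ev_diff (f : Hol) : DifferentiableOn ℂ (ev f) (ball (0 : E) 1) := by
  obtain ⟨g, hg, he⟩ := f.2
  refine hg.congr fun z hz => ?_
  rw [ev_apply f hz]
  exact he ⟨z, hz⟩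

/-- a holomorphic map on the ball as an element of `Hol` -/
def toHol (g : E → E) (hg : DifferentiableOn ℂ g (ball (0 : E) 1)) : Hol :=
  ⟨⟨fun z => g z, hg.continuousOn.domRestrict⟩, g, hg, fun _ => rfl⟩

theorem ev_toHol (g : E → E) (hg : DifferentiableOn ℂ g (ball (0 : E) 1)) {z : E}
    (hz : z ∈ ball (0 : E) 1) : ev (toHol g hg) z = g z := by
  rw [ev_apply _ hz]; rfl

theorem hol_ext {f g : Hol} (h : ∀ z ∈ ball (0 : E) 1, ev f z = ev g z) : f = g := by
  apply Subtype.ext
  apply ContinuousMap.ext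
  intro z
  have := h z z.2
  rwa [ev_apply f z.2, ev_apply g z.2] at this

theorem ev_add (f g : Hol) {z : E} (hz : z ∈ ball (0 : E) 1) :
    ev (f + g) z = ev f z + ev g z := by
  rw [ev_apply _ hz, ev_apply _ hz, ev_apply _ hz]; rfl

theorem ev_sub (f g : Hol) {z : E} (hz : z ∈ ball (0 : E) 1) :
    ev (f - g) z = ev f z - ev g z := by
  rw [ev_apply _ hz, ev_apply _ hz, ev_apply _ hz]; rfl

theorem ev_smul (c : ℂ) (f : Hol) {z : E} (hz : z ∈ ball (0 : E) 1) :
    ev (c • f) z = c • ev f z := by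
  rw [ev_apply _ hz, ev_apply _ hz]; rfl

theorem ev_zero {z : E} (hz : z ∈ ball (0 : E) 1) : ev (0 : Hol) z = 0 := by
  rw [ev_apply _ hz]; rfl

theorem ev_eventuallyEq {f : Hol} {g : E → E} (h : ∀ z ∈ ball (0 : E) 1, ev f z = g z) {z : E}
    (hz : z ∈ ball (0 : E) 1) : ev f =ᶠ[𝓝 z] g := by
  filter_upwards [isOpen_ball.mem_nhds hz] with w hw using h w hw

/-- Montel's theorem for `Hol` -/
theorem montel (S : Set Hol)
    (hS : ∀ r : ℝ, r < 1 → ∃ K : ℝ, ∀ g ∈ S, ∀ z : E, ‖z‖ ≤ r → ‖ev g z‖ ≤ K) :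
    IsCompact (closure S) := by
  choose! K hK using hS
  set T : Set C(BB, E) := {g | g ∈ Hol ∧ ∀ r : ℝ, r < 1 → ∀ z : BB, ‖(z : E)‖ ≤ r → ‖g z‖ ≤ K r}
    with hT
  have hTc : IsCompact T := by
    apply ArzelaAscoli.isCompact_of_equicontinuous
    · -- compactness in the pointwise topology
      set P : Set (BB → E) := Set.pi univ fun z => closedBall (0 : E) (K ‖(z : E)‖) with hP
      have hPc : IsCompact P := isCompact_univ_pi fun z => isCompact_closedBall _ _
      have hsub : ContinuousMap.toFun '' T ⊆ P := by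
        rintro _ ⟨g, hg, rfl⟩ z _
        rw [mem_closedBall, dist_zero_right]
        exact hg.2 ‖(z : E)‖ (mem_ball_zero_iff.1 z.2) z le_rfl
      rw [isCompact_iff_ultrafilter_le_nhds]
      intro U hU
      obtain ⟨x, hxP, hx⟩ := hPc.ultrafilter_le_nhds U (hU.trans (principal_mono.2 hsub))
      refine ⟨x, ?_, hx⟩
      have hid : Tendsto (fun y : BB → E => y) (U : Filter (BB → E)) (𝓝 x) := hx
      have hmem : ∀ᶠ y in (U : Filter (BB → E)), y ∈ ContinuousMap.toFun '' T :=
        hU (mem_principal_self _)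
      have hevz : ∀ z : BB, Tendsto (fun y : BB → E => y z) (U : Filter (BB → E)) (𝓝 (x z)) := by
        intro z
        exact ((continuous_apply z).tendsto x).comp hid
      classical
      set X : E → E := fun z => if h : z ∈ ball (0 : E) 1 then x ⟨z, h⟩ else 0 with hX
      have hXd : DifferentiableOn ℂ X (ball (0 : E) 1) := by
        intro z₀ hz₀
        apply DifferentiableAt.differentiableWithinAt
        have hz₀' : ‖z₀‖ < 1 := by simpa using hz₀
        set δ := (1 - ‖z₀‖) / 2 with hδ
        have hδ0 : 0 < δ := by rw [hδ]; linarith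
        set r := (1 + ‖z₀‖) / 2 with hr
        have hr1 : r < 1 := by rw [hr]; linarith
        have hsubr : ∀ z ∈ ball z₀ δ, ‖z‖ ≤ r := by
          intro z hz
          rw [mem_ball, dist_eq_norm] at hz
          have : ‖z‖ ≤ ‖z - z₀‖ + ‖z₀‖ := by simpa using norm_add_le (z - z₀) z₀
          rw [hr]; rw [hδ] at hz; linarith
        have hsubb : ∀ z ∈ ball z₀ δ, z ∈ ball (0 : E) 1 := fun z hz => by
          rw [mem_ball_zero_iff]; linarith [hsubr z hz]
        apply ultra_diff U (F := fun (y : BB → E) (z : E) =>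
          if h : z ∈ ball (0 : E) 1 then y ⟨z, h⟩ else 0) (R := δ) (K := K r) hδ0
        · filter_upwards [hmem] with y hy
          obtain ⟨g, hg, rfl⟩ := hy
          obtain ⟨G, hG, he⟩ := hg.1
          refine (hG.mono fun z hz => hsubb z hz).congr fun z hz => ?_
          rw [dif_pos (hsubb z hz)]
          exact he ⟨z, hsubb z hz⟩
        · filter_upwards [hmem] with y hy
          obtain ⟨g, hg, rfl⟩ := hy
          intro z hz
          simp only [dif_pos (hsubb z hz)]
          exact hg.2 r hr1 ⟨z, hsubb z hz⟩ (hsubr z hz)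
        · intro z hz
          simp only [hX, dif_pos (hsubb z hz)]
          exact hevz ⟨z, hsubb z hz⟩
      have hxX : ∀ z : BB, x z = X z := fun z => by
        simp only [hX, dif_pos z.2]
      have hxc : Continuous x := by
        have h1 : Continuous fun z : BB => X z := hXd.continuousOn.domRestrict
        exact h1.congr fun z => (hxX z).symm
      refine ⟨⟨x, hxc⟩, ⟨⟨X, hXd, fun z => hxX z⟩, ?_⟩, rfl⟩
      intro r hr z hz
      apply le_of_tendsto (hevz z).norm
      filter_upwards [hmem] with y hy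
      obtain ⟨g, hg, rfl⟩ := hy
      exact hg.2 r hr z hz
    · -- equicontinuity
      intro x₀
      rw [Metric.equicontinuousAt_iff]
      intro ε hε
      have hz₀' : ‖(x₀ : E)‖ < 1 := mem_ball_zero_iff.1 x₀.2
      set δ := (1 - ‖(x₀ : E)‖) / 2 with hδ
      have hδ0 : 0 < δ := by rw [hδ]; linarith
      set r := (1 + ‖(x₀ : E)‖) / 2 with hr
      have hr1 : r < 1 := by rw [hr]; linarith
      have hsubr : ∀ z ∈ ball (x₀ : E) δ, ‖z‖ ≤ r := by
        intro z hz
        rw [mem_ball, dist_eq_norm] at hz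
        have : ‖z‖ ≤ ‖z - x₀‖ + ‖(x₀ : E)‖ := by simpa using norm_add_le (z - x₀) (x₀ : E)
        rw [hr]; rw [hδ] at hz; linarith
      have hsubb : ∀ z ∈ ball (x₀ : E) δ, z ∈ ball (0 : E) 1 := fun z hz => by
        rw [mem_ball_zero_iff]; linarith [hsubr z hz]
      set A : ℝ := 2 * |K r| / δ with hA
      have hA0 : 0 ≤ A := by positivity
      refine ⟨min δ (ε / (A + 1)), by positivity, fun x hx g => ?_⟩
      obtain ⟨G, hG, he⟩ := g.2.1
      have hx1 : dist (x : E) x₀ < δ := lt_of_lt_of_le hx (min_le_left _ _)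
      have hx2 : dist (x : E) x₀ < ε / (A + 1) := lt_of_lt_of_le hx (min_le_right _ _)
      have hb : ∀ z ∈ ball (x₀ : E) δ, ‖G z‖ ≤ |K r| := by
        intro z hz
        have h1 := g.2.2 r hr1 ⟨z, hsubb z hz⟩ (hsubr z hz)
        have h2 := he ⟨z, hsubb z hz⟩
        simp only at h2
        rw [← h2]
        exact h1.trans (le_abs_self _)
      have hmaps : MapsTo G (ball (x₀ : E) δ) (closedBall (G x₀) (2 * |K r|)) := by
        intro w hw
        rw [mem_closedBall, dist_eq_norm]
        calc ‖G w - G x₀‖ ≤ ‖G w‖ + ‖G x₀‖ := norm_sub_le _ _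
          _ ≤ |K r| + |K r| := add_le_add (hb w hw) (hb x₀ (mem_ball_self hδ0))
          _ = 2 * |K r| := by ring
      have := Complex.dist_le_div_mul_dist_of_mapsTo_ball (hG.mono fun z hz => hsubb z hz)
        hmaps (z := (x : E)) hx1
      have e1 : (g : C(BB, E)) x₀ = G x₀ := he x₀
      have e2 : (g : C(BB, E)) x = G x := he x
      show dist ((g : C(BB, E)) x₀) ((g : C(BB, E)) x) < ε
      rw [e1, e2, dist_comm]
      calc _ ≤ A * dist (x : E) x₀ := this
        _ ≤ A * (ε / (A + 1)) := by gcongr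
        _ < ε := by
            rw [mul_div_assoc', div_lt_iff₀ (by positivity)]
            nlinarith
  -- transfer to `Hol`
  set T' : Set Hol := Subtype.val ⁻¹' T with hT'
  have hT'c : IsCompact T' := by
    have himg : (Subtype.val : Hol → C(BB, E)) '' T' = T := by
      rw [hT', image_preimage_eq_iff]
      intro g hg
      exact ⟨⟨g, hg.1⟩, rfl⟩
    rw [Topology.IsInducing.subtypeVal.isCompact_iff]
    convert hTc using 1
    exact himg
  have hsub : S ⊆ T' := by
    intro g hg
    refine ⟨g.2, fun r hr z hz => ?_⟩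
    have := hK r hr g hg z hz
    rwa [ev_apply g z.2] at this
  exact hT'c.of_isClosed_subset isClosed_closure (closure_minimal hsub hT'c.isClosed)

/-- relatively compact families are locally bounded -/
theorem bounded_of_isCompact_closure {S : Set Hol} (hS : IsCompact (closure S)) {r : ℝ}
    (hr : r < 1) : ∃ K : ℝ, ∀ g ∈ S, ∀ z : E, ‖z‖ ≤ r → ‖ev g z‖ ≤ K := by
  set Kr : Set BB := {z | ‖(z : E)‖ ≤ r} with hKr
  have hKc : IsCompact Kr := by
    rw [Subtype.isCompact_iff]
    have : (Subtype.val '' Kr : Set E) = closedBall 0 r := by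
      ext z
      constructor
      · rintro ⟨w, hw, rfl⟩
        have hw' : ‖(w : E)‖ ≤ r := hw
        simpa using hw'
      · intro hz
        have hz' : ‖z‖ ≤ r := by simpa using hz
        exact ⟨⟨z, by rw [mem_ball_zero_iff]; linarith⟩, hz', rfl⟩
    rw [this]
    exact isCompact_closedBall _ _
  -- the restriction map
  have : CompactSpace Kr := isCompact_iff_compactSpace.1 hKc
  have hcont : Continuous fun g : Hol => ((g : C(BB, E)).restrict Kr : C(Kr, E)) := by
    exact (ContinuousMap.continuous_restrict Kr).comp continuous_subtype_val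
  have himg := hS.image hcont
  obtain ⟨K, hK⟩ := himg.isBounded.exists_norm_le
  refine ⟨K, fun g hg z hz => ?_⟩
  have hzb : z ∈ ball (0 : E) 1 := by rw [mem_ball_zero_iff]; linarith
  have h1 := hK _ ⟨g, subset_closure hg, rfl⟩
  have h2 := ContinuousMap.norm_coe_le_norm ((g : C(BB, E)).restrict Kr) ⟨⟨z, hzb⟩, hz⟩
  rw [ev_apply g hzb]
  exact h2.trans h1

end Pool.Agent.SP
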