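import Pool.Agent.Lib52.SP.Ctrl

set_option autoImplicit false

open Set Metric Filter MeasureTheory Complex
open scoped Topology Real ComplexConjugate

namespace Pool.Agent.SP

theorem co_lin {A B : ℂ → ℂ} (hA : DifferentiableOn ℂ A (ball 0 1))
    (hB : DifferentiableOn ℂ B (ball 0 1)) (a b : ℂ) (n : ℕ) :
    co (fun z => a * A z + b * B z) n = a * co A n + b * co B n := by
  have hr : (0 : ℝ) < 1 / 2 := by norm_num
  have hr1 : (1 / 2 : ℝ) < 1 := by norm_num
  set r : ℝ := 1 / 2 with hrdef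
  have hs : sphere (0 : ℂ) r ⊆ ball 0 1 := sphere_subset_ball hr1
  have hr' : (r : ℂ) ≠ 0 := by exact_mod_cast hr.ne'
  have hd : DifferentiableOn ℂ (fun z => a * A z + b * B z) (ball 0 1) :=
    (hA.const_mul a).add (hB.const_mul b)
  have m1 := md_nat hr n (differentiableOn_of_closedBall hd hr1)
  have c1 : ContinuousOn (fun z => a * A z) (sphere 0 r) :=
    continuousOn_const.mul (hA.continuousOn.mono hs)
  have c2 : ContinuousOn (fun z => b * B z) (sphere 0 r) :=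
    continuousOn_const.mul (hB.continuousOn.mono hs)
  rw [md_add hr _ c1 c2, md_const_mul, md_const_mul,
    md_nat hr n (differentiableOn_of_closedBall hA hr1),
    md_nat hr n (differentiableOn_of_closedBall hB hr1)] at m1
  have h2 : (r : ℂ) ^ n * (a * co A n + b * co B n) =
      r ^ n * co (fun z => a * A z + b * B z) n := by
    rw [← m1]; ring
  exact (mul_left_cancel₀ (pow_ne_zero n hr') h2).symm

namespace Ctrl

variable {C : ℝ → ℂ → ℂ} (h : Ctrl C)
include h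

theorem co_cont (n : ℕ) : Continuous (fun τ => co (C τ) n) := by
  have hr : (0 : ℝ) < 1 / 2 := by norm_num
  have hr1 : (1 / 2 : ℝ) < 1 := by norm_num
  set r : ℝ := 1 / 2 with hrdef
  have hr' : (r : ℂ) ≠ 0 := by exact_mod_cast hr.ne'
  have e1 : (fun τ => co (C τ) n) = fun τ => ((r : ℂ) ^ n)⁻¹ * md n r (C τ) := by
    ext τ
    rw [md_nat hr n (differentiableOn_of_closedBall (h.inD τ).diff hr1)]
    have := pow_ne_zero n hr'
    field_simp
  rw [e1]
  apply Continuous.mul continuous_const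
  unfold md av Real.circleAverage
  apply Continuous.const_smul
  have hmem : ∀ θ, circleMap 0 r θ ∈ sphere (0 : ℂ) r := fun θ => circleMap_mem_sphere 0 hr.le θ
  have hn : ∀ θ, ‖circleMap 0 r θ‖ = r := fun θ => by simpa using hmem θ
  apply intervalIntegral.continuous_of_dominated_interval
    (bound := fun _ => 1 + 20 / (1 - r) ^ 3)
  · intro τ
    apply Continuous.aestronglyMeasurable
    have hc := (continuousOn_md (f := C τ) hr (n : ℤ) ((h.inD τ).diff.continuousOn.mono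
      (sphere_subset_ball hr1)))
    exact hc.comp_continuous (continuous_circleMap 0 r) hmem
  · intro τ
    refine Eventually.of_forall fun θ _ => ?_
    rw [norm_mul, norm_zpow, norm_div_sphere hr (hmem θ), one_zpow, one_mul]
    exact (h.inD τ).bound' (hn θ).le hr1
  · exact intervalIntegrable_const
  · refine Eventually.of_forall fun θ _ => ?_
    exact continuous_const.mul (h.cont _ (by rw [mem_ball_zero_iff, hn]; exact hr1))

/-- integrand of `q₁` -/
noncomputable def q1i (C : ℝ → ℂ → ℂ) (τ : ℝ) : ℂ := co (C τ) 1 * (Real.exp (0 - τ) : ℝ)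

/-- integrand of `q₂` -/
noncomputable def q2i (C : ℝ → ℂ → ℂ) (τ : ℝ) : ℂ :=
  co (C τ) 1 * (2 * ((Real.exp (0 - τ) : ℝ) - ((Real.exp (0 - τ) : ℝ) : ℂ) ^ 2)) +
    co (C τ) 2 * ((Real.exp (0 - τ) : ℝ) : ℂ) ^ 2

theorem norm_q1i {τ : ℝ} (_hτ : 0 < τ) : ‖q1i C τ‖ ≤ 8 * Real.exp (0 - τ) := by
  unfold q1i
  rw [norm_mul, Complex.norm_real, Real.norm_of_nonneg (Real.exp_pos _).le]
  have := (h.inD τ).co_bound (n := 1) one_ne_zero
  gcongr
  linarith

theorem norm_q2i {τ : ℝ} (hτ : 0 < τ) : ‖q2i C τ‖ ≤ 32 * Real.exp (0 - τ) := by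
  unfold q2i
  obtain ⟨e0, e1⟩ := exp_bounds hτ.le
  set x := Real.exp (0 - τ)
  have a1 := (h.inD τ).co_bound (n := 1) one_ne_zero
  have a2 := (h.inD τ).co_bound (n := 2) two_ne_zero
  have hxx : x ^ 2 ≤ x := by nlinarith
  calc _ ≤ ‖co (C τ) 1 * (2 * ((x : ℂ) - (x : ℂ) ^ 2))‖ + ‖co (C τ) 2 * (x : ℂ) ^ 2‖ :=
        norm_add_le _ _
    _ = ‖co (C τ) 1‖ * (2 * (x - x ^ 2)) + ‖co (C τ) 2‖ * x ^ 2 := by
        rw [norm_mul, norm_mul, norm_mul, norm_pow, Complex.norm_real, Real.norm_of_nonneg e0]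
        have : ((x : ℂ) - (x : ℂ) ^ 2) = ((x - x ^ 2 : ℝ) : ℂ) := by push_cast; ring
        rw [this, Complex.norm_real, Real.norm_of_nonneg (by linarith), Complex.norm_ofNat]
    _ ≤ (4 * 2 ^ 1) * (2 * x) + (4 * 2 ^ 2) * x := by
        have : 0 ≤ x - x ^ 2 := by linarith
        have h2 : 2 * (x - x ^ 2) ≤ 2 * x := by nlinarith
        gcongr
    _ = 32 * x := by ring

theorem q1i_cont : Continuous (q1i C) := by
  unfold q1i
  exact (h.co_cont 1).mul (by fun_prop)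

theorem q2i_cont : Continuous (q2i C) := by
  unfold q2i
  exact ((h.co_cont 1).mul (by fun_prop)).add ((h.co_cont 2).mul (by fun_prop))

theorem q1i_int : IntegrableOn (q1i C) (Ioi 0) := by
  apply Integrable.mono' (exp_integrable 0 8) h.q1i_cont.aestronglyMeasurable.restrict
  rw [ae_restrict_iff' measurableSet_Ioi]
  exact Eventually.of_forall fun τ hτ => h.norm_q1i hτ

theorem q2i_int : IntegrableOn (q2i C) (Ioi 0) := by
  apply Integrable.mono' (exp_integrable 0 32) h.q2i_cont.aestronglyMeasurable.restrict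
  rw [ae_restrict_iff' measurableSet_Ioi]
  exact Eventually.of_forall fun τ hτ => h.norm_q2i hτ

/-- every continuous control generates a family -/
theorem fam : Fam (LL C) (-∫ τ in Ioi (0 : ℝ), q1i C τ, -∫ τ in Ioi (0 : ℝ), q2i C τ) where
  diff := fun t _ => h.LL_diff t
  bd := fun t _ ζ hζ => h.LL_bound t (by simpa using hζ)
  ineq := fun s t _ hst ζ hζ => h.LL_ineq hst (by simpa using hζ)
  jet := by
    intro ζ hζ
    have hζ1 : ‖ζ‖ < 1 := by linarith
    have i1 := h.q1i_int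
    have i2 := h.q2i_int
    have ig := h.gg_integrable (s := 0) hζ1
    have e : LL C 0 ζ - (-∫ τ in Ioi (0 : ℝ), q1i C τ) * ζ -
        (-∫ τ in Ioi (0 : ℝ), q2i C τ) * ζ ^ 2 =
        -∫ τ in Ioi (0 : ℝ), (gg C 0 ζ τ - q1i C τ * ζ - q2i C τ * ζ ^ 2) := by
      have hs1 : ∫ τ in Ioi (0 : ℝ), (gg C 0 ζ τ - q1i C τ * ζ - q2i C τ * ζ ^ 2) =
          (∫ τ in Ioi (0 : ℝ), (gg C 0 ζ τ - q1i C τ * ζ)) -
            ∫ τ in Ioi (0 : ℝ), q2i C τ * ζ ^ 2 := by
        apply integral_sub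
        · exact ig.sub (i1.mul_const ζ)
        · exact i2.mul_const (ζ ^ 2)
      have hs2 : ∫ τ in Ioi (0 : ℝ), (gg C 0 ζ τ - q1i C τ * ζ) =
          (∫ τ in Ioi (0 : ℝ), gg C 0 ζ τ) - ∫ τ in Ioi (0 : ℝ), q1i C τ * ζ := by
        apply integral_sub ig (i1.mul_const ζ)
      rw [hs1, hs2, integral_mul_const, integral_mul_const]
      unfold LL
      ring
    rw [show ((-∫ τ in Ioi (0 : ℝ), q1i C τ, -∫ τ in Ioi (0 : ℝ), q2i C τ) : ℂ × ℂ).1 =
      -∫ τ in Ioi (0 : ℝ), q1i C τ from rfl,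
      show ((-∫ τ in Ioi (0 : ℝ), q1i C τ, -∫ τ in Ioi (0 : ℝ), q2i C τ) : ℂ × ℂ).2 =
      -∫ τ in Ioi (0 : ℝ), q2i C τ from rfl, e, norm_neg]
    calc _ ≤ ∫ τ in Ioi (0 : ℝ), (6200 * ‖ζ‖ ^ 3) * Real.exp (0 - τ) := by
          apply norm_integral_le_of_norm_le (exp_integrable 0 _)
          rw [ae_restrict_iff' measurableSet_Ioi]
          refine Eventually.of_forall fun τ hτ => ?_
          obtain ⟨e0, e1⟩ := exp_bounds (le_of_lt hτ)
          have := comp_expansion (h.inD τ) e0 e1 hζ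
          unfold gg q1i q2i
          refine this.trans_eq (by ring)
      _ = 6200 * ‖ζ‖ ^ 3 := by rw [integral_const_mul, integral_exp, mul_one]
  qbd := by
    constructor
    · show ‖-∫ τ in Ioi (0 : ℝ), q1i C τ‖ ≤ 8
      rw [norm_neg]
      calc _ ≤ ∫ τ in Ioi (0 : ℝ), 8 * Real.exp (0 - τ) := by
            apply norm_integral_le_of_norm_le (exp_integrable 0 _)
            rw [ae_restrict_iff' measurableSet_Ioi]
            exact Eventually.of_forall fun τ hτ => h.norm_q1i hτ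
        _ = 8 := by rw [integral_const_mul, integral_exp, mul_one]
    · show ‖-∫ τ in Ioi (0 : ℝ), q2i C τ‖ ≤ 32
      rw [norm_neg]
      calc _ ≤ ∫ τ in Ioi (0 : ℝ), 32 * Real.exp (0 - τ) := by
            apply norm_integral_le_of_norm_le (exp_integrable 0 _)
            rw [ae_restrict_iff' measurableSet_Ioi]
            exact Eventually.of_forall fun τ hτ => h.norm_q2i hτ
        _ = 32 := by rw [integral_const_mul, integral_exp, mul_one]

end Ctrl

/-- the second-level functional of a control -/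
noncomputable def JJ (C : ℝ → ℂ → ℂ) : ℂ :=
  ∫ τ in Ioi (0 : ℝ), (co (C τ) 1 * ((Real.exp (-τ) - 2 * Real.exp (-τ) ^ 2 : ℝ) : ℂ) +
    co (C τ) 2 * ((Real.exp (-τ) ^ 2 : ℝ) : ℂ))

theorem Ctrl.JJ_eq {C : ℝ → ℂ → ℂ} (h : Ctrl C) :
    (-∫ τ in Ioi (0 : ℝ), Ctrl.q1i C τ) - (-∫ τ in Ioi (0 : ℝ), Ctrl.q2i C τ) = JJ C := by
  have e : (-∫ τ in Ioi (0 : ℝ), Ctrl.q1i C τ) - (-∫ τ in Ioi (0 : ℝ), Ctrl.q2i C τ) =
      ∫ τ in Ioi (0 : ℝ), (Ctrl.q2i C τ - Ctrl.q1i C τ) := by
    rw [integral_sub h.q2i_int h.q1i_int]; ring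
  rw [e]
  unfold JJ
  congr 1
  ext τ
  unfold Ctrl.q2i Ctrl.q1i
  rw [zero_sub]
  push_cast
  ring

end Pool.Agent.SP
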