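import Pool.Agent.Lib52.SP.Rig1

set_option autoImplicit false

open Set Metric Filter MeasureTheory Complex
open scoped Topology Real ComplexConjugate

namespace Pool.Agent.SP

theorem eq_zero_of_co {A : ℂ → ℂ} (hA : DifferentiableOn ℂ A (ball 0 1))
    (h : ∀ n, co A n = 0) : ∀ ζ ∈ ball (0 : ℂ) 1, A ζ = 0 := by
  intro ζ hζ
  have h1 := Complex.hasSum_taylorSeries_on_ball hA hζ
  have h2 : (fun n : ℕ => (n.factorial : ℂ)⁻¹ • (ζ - 0) ^ n • iteratedDeriv n A 0) =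
      fun _ => (0 : ℂ) := by
    ext n
    have := h n
    unfold co at this
    have hf : (n.factorial : ℂ) ≠ 0 := by exact_mod_cast n.factorial_ne_zero
    have h3 : iteratedDeriv n A 0 = 0 := by
      rcases div_eq_zero_iff.1 this with h4 | h4
      · exact h4
      · exact absurd h4 hf
    rw [h3]; simp
  rw [h2] at h1
  exact h1.unique hasSum_zero

theorem lim_zero {Φ : ℝ → ℂ} (hc : Continuous Φ) {K : ℝ}
    (h : ∀ ε : ℝ, 0 < ε → ε < 1 → ‖Φ ε‖ ≤ K * ε) : Φ 0 = 0 := by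
  have h1 : Tendsto (fun ε => ‖Φ ε‖) (𝓝[>] (0 : ℝ)) (𝓝 ‖Φ 0‖) :=
    (hc.norm.tendsto 0).mono_left nhdsWithin_le_nhds
  have h2 : Tendsto (fun ε : ℝ => K * ε) (𝓝[>] (0 : ℝ)) (𝓝 (K * 0)) :=
    ((continuous_const.mul continuous_id).tendsto 0).mono_left nhdsWithin_le_nhds
  rw [mul_zero] at h2
  have h3 : ‖Φ 0‖ ≤ 0 := by
    apply le_of_tendsto_of_tendsto h1 h2
    have : Ioo (0 : ℝ) 1 ∈ 𝓝[>] (0 : ℝ) := Ioo_mem_nhdsGT one_pos
    filter_upwards [this] with ε hε using h ε hε.1 hε.2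
  exact norm_le_zero_iff.1 h3

/-- the modes of the mixed term -/
theorem md_S {A B B₂ : ℂ → ℂ} (hA : DifferentiableOn ℂ A (ball 0 1))
    (hB : DifferentiableOn ℂ B (ball 0 1)) (hB2 : DifferentiableOn ℂ B₂ (ball 0 1))
    {r ρ : ℝ} (hr : 0 < r) (hr1 : r < 1) (m : ℤ) :
    md m r (fun ζ => conj ζ * A ζ + conj (B ζ) + ρ ^ 2 * B₂ ζ) =
      r * md (m + 1) r A + conj (md (-m) r B) + ρ ^ 2 * md m r B₂ := by
  have hs : sphere (0 : ℂ) r ⊆ ball 0 1 := sphere_subset_ball hr1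
  have cA := hA.continuousOn.mono hs
  have cB := hB.continuousOn.mono hs
  have cB2 := hB2.continuousOn.mono hs
  have c1 : ContinuousOn (fun ζ => conj ζ * A ζ) (sphere 0 r) :=
    continuous_conj.continuousOn.mul cA
  have c2 : ContinuousOn (fun ζ => conj (B ζ)) (sphere 0 r) := continuous_conj.comp_continuousOn cB
  have c3 : ContinuousOn (fun ζ => (ρ : ℂ) ^ 2 * B₂ ζ) (sphere 0 r) := continuousOn_const.mul cB2
  have c12 : ContinuousOn (fun ζ => conj ζ * A ζ + conj (B ζ)) (sphere 0 r) := c1.add c2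
  rw [md_add hr m c12 c3, md_add hr m c1 c2, md_conj_var_mul hr, md_conj hr m cB,
    md_const_mul]

structure RigData (A B B₂ C p : ℂ → ℂ) : Prop where
  hA : DifferentiableOn ℂ A (ball 0 1)
  hB : DifferentiableOn ℂ B (ball 0 1)
  hB2 : DifferentiableOn ℂ B₂ (ball 0 1)
  hC : DifferentiableOn ℂ C (ball 0 1)
  hp : DifferentiableOn ℂ p (ball 0 1)
  hA0 : A 0 = 0
  hB0 : B 0 = 0
  hB1 : co B 1 = 0
  hC0 : C 0 = 1
  hp0 : p 0 = 1
  hp1 : co p 1 = -2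
  hbd : ∀ ζ : ℂ, ∀ ρ : ℝ, 0 < ρ → ‖ζ‖ ^ 2 + ρ ^ 2 < 1 →
    ρ / 2 * ‖conj ζ * A ζ + conj (B ζ) + ρ ^ 2 * B₂ ζ‖ ≤
      ‖ζ‖ ^ 2 * (p ζ).re + ρ ^ 2 * (C ζ).re

namespace RigData

variable {A B B₂ C p : ℂ → ℂ} (h : RigData A B B₂ C p)
include h

/-- the mixed modes -/
theorem T_nat {r ρ : ℝ} (hr : 0 < r) (hr1 : r < 1) (n : ℕ) :
    md n r (fun ζ => conj ζ * A ζ + conj (B ζ) + ρ ^ 2 * B₂ ζ) =
      r ^ (n + 2) * co A (n + 1) + ρ ^ 2 * (r ^ n * co B₂ n) := by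
  rw [md_S h.hA h.hB h.hB2 hr hr1]
  have a1 := md_nat hr (n + 1) (differentiableOn_of_closedBall h.hA hr1)
  have a3 := md_nat hr n (differentiableOn_of_closedBall h.hB2 hr1)
  have a2 : md (-(n : ℤ)) r B = 0 := by
    rcases Nat.eq_zero_or_pos n with h0 | h0
    · subst h0
      have := md_nat hr 0 (differentiableOn_of_closedBall h.hB hr1)
      simpa [co_zero, h.hB0] using this
    · exact md_neg hr n h0.ne' (differentiableOn_of_closedBall h.hB hr1)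
  push_cast at a1
  rw [a1, a2, a3, map_zero]
  ring

theorem T_neg_one {r ρ : ℝ} (hr : 0 < r) (hr1 : r < 1) :
    md (-1) r (fun ζ => conj ζ * A ζ + conj (B ζ) + ρ ^ 2 * B₂ ζ) = 0 := by
  rw [md_S h.hA h.hB h.hB2 hr hr1]
  have a1 := md_nat hr 0 (differentiableOn_of_closedBall h.hA hr1)
  have a2 := md_nat hr 1 (differentiableOn_of_closedBall h.hB hr1)
  have a3 := md_neg hr 1 one_ne_zero (differentiableOn_of_closedBall h.hB2 hr1)
  rw [show ((0 : ℕ) : ℤ) = -1 + 1 by norm_num, co_zero, h.hA0, mul_zero] at a1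
  rw [show ((1 : ℕ) : ℤ) = - -1 by norm_num, h.hB1, mul_zero] at a2
  rw [show -((1 : ℕ) : ℤ) = -1 by norm_num] at a3
  rw [a1, a2, a3, map_zero]; ring

theorem T_neg {r ρ : ℝ} (hr : 0 < r) (hr1 : r < 1) (j : ℕ) :
    md (-((j : ℤ) + 2)) r (fun ζ => conj ζ * A ζ + conj (B ζ) + ρ ^ 2 * B₂ ζ) =
      r ^ (j + 2) * conj (co B (j + 2)) := by
  rw [md_S h.hA h.hB h.hB2 hr hr1]
  have a1 : md (-((j : ℤ) + 2) + 1) r A = 0 :=
    md_int_neg hr (by omega) (differentiableOn_of_closedBall h.hA hr1)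
  have a2 := md_nat hr (j + 2) (differentiableOn_of_closedBall h.hB hr1)
  have a3 : md (-((j : ℤ) + 2)) r B₂ = 0 :=
    md_int_neg hr (by omega) (differentiableOn_of_closedBall h.hB2 hr1)
  rw [show ((j + 2 : ℕ) : ℤ) = - -((j : ℤ) + 2) by push_cast; ring] at a2
  rw [a1, a2, a3, map_mul, map_pow, Complex.conj_ofReal]; ring

theorem continuousOn_S {r ρ : ℝ} (hr1 : r < 1) :
    ContinuousOn (fun ζ => conj ζ * A ζ + conj (B ζ) + ρ ^ 2 * B₂ ζ) (sphere 0 r) := by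
  have hs : sphere (0 : ℂ) r ⊆ ball 0 1 := sphere_subset_ball hr1
  have cA := h.hA.continuousOn.mono hs
  have cB := h.hB.continuousOn.mono hs
  have cB2 := h.hB2.continuousOn.mono hs
  exact ((continuous_conj.continuousOn.mul cA).add (continuous_conj.comp_continuousOn cB)).add
    (continuousOn_const.mul cB2)

theorem diff_P {r ρ : ℝ} (hr1 : r < 1) :
    DifferentiableOn ℂ (fun ζ => (r : ℂ) ^ 2 * p ζ + ρ ^ 2 * C ζ) (closedBall 0 r) :=
  ((differentiableOn_of_closedBall h.hp hr1).const_mul _).add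
    ((differentiableOn_of_closedBall h.hC hr1).const_mul _)

theorem bound_sphere {r ρ : ℝ} (_hr : 0 < r) (hρ : 0 < ρ) (hrρ : r ^ 2 + ρ ^ 2 < 1) :
    ∀ ζ ∈ sphere (0 : ℂ) r, ‖conj ζ * A ζ + conj (B ζ) + ρ ^ 2 * B₂ ζ‖ ≤
      2 / ρ * ((r : ℂ) ^ 2 * p ζ + ρ ^ 2 * C ζ).re := by
  intro ζ hζ
  have hn : ‖ζ‖ = r := by simpa using hζ
  have := h.hbd ζ ρ hρ (by rw [hn]; exact hrρ)
  rw [hn] at this
  have e : ((r : ℂ) ^ 2 * p ζ + (ρ : ℂ) ^ 2 * C ζ).re = r ^ 2 * (p ζ).re + ρ ^ 2 * (C ζ).re := by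
    rw [← Complex.ofReal_pow, ← Complex.ofReal_pow, Complex.add_re, Complex.re_ofReal_mul,
      Complex.re_ofReal_mul]
  rw [e]
  calc ‖conj ζ * A ζ + conj (B ζ) + ρ ^ 2 * B₂ ζ‖
      = 2 / ρ * (ρ / 2 * ‖conj ζ * A ζ + conj (B ζ) + ρ ^ 2 * B₂ ζ‖) := by field_simp
    _ ≤ _ := by gcongr

/-- inequality (i) -/
theorem ineq_one {r ρ : ℝ} (hr : 0 < r) (hr1 : r < 1) (hρ : 0 < ρ) (hrρ : r ^ 2 + ρ ^ 2 < 1)
    (k : ℤ) :
    ‖md k r (fun ζ => conj ζ * A ζ + conj (B ζ) + ρ ^ 2 * B₂ ζ)‖ ≤ 2 / ρ := by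
  have hP := h.diff_P (ρ := ρ) hr1
  have cP := hP.continuousOn.mono sphere_subset_closedBall
  have cRe : ContinuousOn (fun ζ => ((r : ℂ) ^ 2 * p ζ + ρ ^ 2 * C ζ).re) (sphere 0 r) :=
    Complex.continuous_re.comp_continuousOn cP
  have hval : avr r (fun ζ => ((r : ℂ) ^ 2 * p ζ + ρ ^ 2 * C ζ).re) = r ^ 2 + ρ ^ 2 := by
    rw [← av_re hr cP, ← md_zero_eq]
    have := md_nat hr 0 hP
    simp only [Nat.cast_zero, pow_zero, one_mul, co_zero, h.hp0, h.hC0, mul_one] at this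
    rw [this, ← Complex.ofReal_pow, ← Complex.ofReal_pow, ← Complex.ofReal_add,
      Complex.ofReal_re]
  calc _ ≤ avr r (fun ζ => ‖conj ζ * A ζ + conj (B ζ) + ρ ^ 2 * B₂ ζ‖) := norm_md_le hr k
    _ ≤ avr r (fun ζ => 2 / ρ * ((r : ℂ) ^ 2 * p ζ + ρ ^ 2 * C ζ).re) :=
        avr_mono hr (h.continuousOn_S hr1).norm (continuousOn_const.mul cRe)
          (h.bound_sphere hr hρ hrρ)
    _ = 2 / ρ * (r ^ 2 + ρ ^ 2) := by rw [avr_const_mul, hval]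
    _ ≤ 2 / ρ * 1 := by gcongr
    _ = 2 / ρ := mul_one _

/-- inequality (ii) -/
theorem ineq_two {ε : ℝ} (hε : 0 < ε) (hε1 : ε < 1) (m : ℤ) :
    ‖md m (1 - ε ^ 2) (fun ζ => conj ζ * A ζ + conj (B ζ) + ε ^ 2 * B₂ ζ) +
      2 * md (m - 1) (1 - ε ^ 2) (fun ζ => conj ζ * A ζ + conj (B ζ) + ε ^ 2 * B₂ ζ) +
      md (m - 2) (1 - ε ^ 2) (fun ζ => conj ζ * A ζ + conj (B ζ) + ε ^ 2 * B₂ ζ)‖ ≤
      (2 * (4 + ‖co C 1‖)) * ε := by
  set r : ℝ := 1 - ε ^ 2 with hrdef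
  have hε2 : 0 < ε ^ 2 := by positivity
  have hε2' : ε ^ 2 < 1 := by nlinarith
  have hr : 0 < r := by rw [hrdef]; linarith
  have hr1 : r < 1 := by rw [hrdef]; linarith
  have hrρ : r ^ 2 + ε ^ 2 < 1 := by rw [hrdef]; nlinarith
  set S : ℂ → ℂ := fun ζ => conj ζ * A ζ + conj (B ζ) + ε ^ 2 * B₂ ζ with hS
  have cS : ContinuousOn S (sphere 0 r) := h.continuousOn_S hr1
  have hP := h.diff_P (ρ := ε) hr1
  have cP : ContinuousOn (fun ζ => (r : ℂ) ^ 2 * p ζ + ε ^ 2 * C ζ) (sphere 0 r) :=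
    hP.continuousOn.mono sphere_subset_closedBall
  set P : ℂ → ℂ := fun ζ => (r : ℂ) ^ 2 * p ζ + ε ^ 2 * C ζ with hPdef
  have cz : ∀ k : ℤ, ContinuousOn (fun z : ℂ => (z / (r : ℂ)) ^ k) (sphere 0 r) :=
    fun k => continuousOn_zpow_div hr k
  -- the weighted mode
  have e1 : md m r S + 2 * md (m - 1) r S + md (m - 2) r S =
      md m r (fun z => (1 + z / r) ^ 2 * S z) := by
    have : md m r (fun z => (1 + z / r) ^ 2 * S z) =
        md m r (fun z => (z / (r : ℂ)) ^ (0 : ℤ) * S z + 2 * ((z / (r : ℂ)) ^ (1 : ℤ) * S z) +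
          (z / (r : ℂ)) ^ (2 : ℤ) * S z) := by
      apply md_congr hr m fun z _ => ?_
      simp only [zpow_ofNat]
      ring
    have k0 : ContinuousOn (fun z : ℂ => (z / (r : ℂ)) ^ (0 : ℤ) * S z) (sphere 0 r) :=
      (cz 0).mul cS
    have k1 : ContinuousOn (fun z : ℂ => 2 * ((z / (r : ℂ)) ^ (1 : ℤ) * S z)) (sphere 0 r) :=
      continuousOn_const.mul ((cz 1).mul cS)
    have k2 : ContinuousOn (fun z : ℂ => (z / (r : ℂ)) ^ (2 : ℤ) * S z) (sphere 0 r) :=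
      (cz 2).mul cS
    have k01 : ContinuousOn (fun z : ℂ => (z / (r : ℂ)) ^ (0 : ℤ) * S z +
      2 * ((z / (r : ℂ)) ^ (1 : ℤ) * S z)) (sphere 0 r) := k0.add k1
    rw [this, md_add hr m k01 k2, md_add hr m k0 k1,
      md_const_mul, md_shift hr, md_shift hr, md_shift hr, sub_zero]
  rw [e1]
  have hnorm : ∀ z ∈ sphere (0 : ℂ) r, ‖(1 + z / (r : ℂ)) ^ 2 * S z‖ ≤
      2 / ε * ((2 + z / (r : ℂ) + (z / (r : ℂ))⁻¹) * P z).re := by
    intro z hz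
    have hb := h.bound_sphere hr hε hrρ z hz
    have hw : (2 + z / (r : ℂ) + (z / (r : ℂ))⁻¹) = ((‖1 + z / (r : ℂ)‖ ^ 2 : ℝ) : ℂ) := by
      rw [← conj_div_sphere hr hz, ← Complex.normSq_eq_norm_sq, ← Complex.mul_conj, map_add,
        map_one]
      have h1 : (z / (r : ℂ)) * conj (z / (r : ℂ)) = 1 := by
        rw [conj_div_sphere hr hz, mul_inv_cancel₀ (div_ne_zero_of_sphere hr hz)]
      linear_combination -h1
    rw [hw, Complex.re_ofReal_mul, norm_mul, norm_pow]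
    calc ‖1 + z / (r : ℂ)‖ ^ 2 * ‖S z‖ ≤ ‖1 + z / (r : ℂ)‖ ^ 2 * (2 / ε * (P z).re) := by
          gcongr
      _ = _ := by ring
  have cW : ContinuousOn (fun z : ℂ => (2 + z / (r : ℂ) + (z / (r : ℂ))⁻¹) * P z)
      (sphere 0 r) := by
    apply ContinuousOn.mul _ cP
    have h1 := cz (-1)
    simp only [zpow_neg_one] at h1
    have h0 : ContinuousOn (fun z : ℂ => 2 + z / (r : ℂ)) (sphere 0 r) := by fun_prop
    exact h0.add h1
  have cWr : ContinuousOn (fun z : ℂ => ((2 + z / (r : ℂ) + (z / (r : ℂ))⁻¹) * P z).re)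
      (sphere 0 r) := Complex.continuous_re.comp_continuousOn cW
  have hval : avr r (fun z => ((2 + z / (r : ℂ) + (z / (r : ℂ))⁻¹) * P z).re) =
      ε ^ 2 * (2 * r ^ 2 + 2 + r * (co C 1).re) := by
    rw [← av_re hr cW, ← md_zero_eq]
    have e2 : md 0 r (fun z => (2 + z / (r : ℂ) + (z / (r : ℂ))⁻¹) * P z) =
        2 * md 0 r P + md (-1) r P + md 1 r P := by
      have : md 0 r (fun z => (2 + z / (r : ℂ) + (z / (r : ℂ))⁻¹) * P z) =
          md 0 r (fun z => 2 * ((z / (r : ℂ)) ^ (0 : ℤ) * P z) + (z / (r : ℂ)) ^ (1 : ℤ) * P z +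
            (z / (r : ℂ)) ^ (-1 : ℤ) * P z) := by
        apply md_congr hr 0 fun z _ => ?_
        simp only [zpow_zero, zpow_one, zpow_neg_one]
        ring
      have k0 : ContinuousOn (fun z : ℂ => 2 * ((z / (r : ℂ)) ^ (0 : ℤ) * P z)) (sphere 0 r) :=
        continuousOn_const.mul ((cz 0).mul cP)
      have k1 : ContinuousOn (fun z : ℂ => (z / (r : ℂ)) ^ (1 : ℤ) * P z) (sphere 0 r) :=
        (cz 1).mul cP
      have k2 : ContinuousOn (fun z : ℂ => (z / (r : ℂ)) ^ (-1 : ℤ) * P z) (sphere 0 r) :=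
        (cz (-1)).mul cP
      have k01 : ContinuousOn (fun z : ℂ => 2 * ((z / (r : ℂ)) ^ (0 : ℤ) * P z) +
        (z / (r : ℂ)) ^ (1 : ℤ) * P z) (sphere 0 r) := k0.add k1
      rw [this, md_add hr 0 k01 k2, md_add hr 0 k0 k1,
        md_const_mul, md_shift hr, md_shift hr, md_shift hr]
      norm_num
    have a0 := md_nat hr 0 hP
    have a1 := md_nat hr 1 hP
    have a2 := md_neg hr 1 one_ne_zero hP
    rw [show ((0 : ℕ) : ℤ) = 0 by norm_num, pow_zero, one_mul, co_zero] at a0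
    rw [show ((1 : ℕ) : ℤ) = 1 by norm_num, pow_one] at a1
    rw [show -((1 : ℕ) : ℤ) = -1 by norm_num] at a2
    rw [e2]
    change (2 * md 0 r (fun ζ => (r : ℂ) ^ 2 * p ζ + ε ^ 2 * C ζ) +
      md (-1) r (fun ζ => (r : ℂ) ^ 2 * p ζ + ε ^ 2 * C ζ) +
      md 1 r (fun ζ => (r : ℂ) ^ 2 * p ζ + ε ^ 2 * C ζ)).re = _
    rw [a0, a1, a2]
    have dp : DifferentiableAt ℂ p 0 := h.hp.differentiableAt (ball_mem_nhds _ one_pos)
    have dC : DifferentiableAt ℂ C 0 := h.hC.differentiableAt (ball_mem_nhds _ one_pos)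
    have e3 : co (fun ζ => (r : ℂ) ^ 2 * p ζ + ε ^ 2 * C ζ) 1 =
        (r : ℂ) ^ 2 * co p 1 + ε ^ 2 * co C 1 := by
      simp only [co_one]
      rw [deriv_fun_add (dp.const_mul _) (dC.const_mul _), deriv_const_mul _ dp,
        deriv_const_mul _ dC]
    have e5 : P 0 = (r : ℂ) ^ 2 * 1 + (ε : ℂ) ^ 2 * 1 := by
      rw [hPdef]; simp only [h.hp0, h.hC0]
    rw [e5, e3, h.hp1]
    have e4 : (2 * ((r : ℂ) ^ 2 * 1 + (ε : ℂ) ^ 2 * 1) + 0 +
        r * ((r : ℂ) ^ 2 * -2 + (ε : ℂ) ^ 2 * co C 1)).re =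
        2 * (r ^ 2 + ε ^ 2) + r * (r ^ 2 * -2 + ε ^ 2 * (co C 1).re) := by
      have : (2 * ((r : ℂ) ^ 2 * 1 + (ε : ℂ) ^ 2 * 1) + 0 +
        r * ((r : ℂ) ^ 2 * -2 + (ε : ℂ) ^ 2 * co C 1)) =
        ((2 * (r ^ 2 + ε ^ 2) + r * (r ^ 2 * -2) : ℝ) : ℂ) + ((r * ε ^ 2 : ℝ) : ℂ) * co C 1 := by
        push_cast; ring
      rw [this, Complex.add_re, Complex.re_ofReal_mul, Complex.ofReal_re]; ring
    rw [e4, hrdef]; ring
  calc _ ≤ avr r (fun z => ‖(1 + z / (r : ℂ)) ^ 2 * S z‖) := norm_md_le hr m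
    _ ≤ avr r (fun z => 2 / ε * ((2 + z / (r : ℂ) + (z / (r : ℂ))⁻¹) * P z).re) := by
        apply avr_mono hr _ (continuousOn_const.mul cWr) hnorm
        apply ContinuousOn.norm
        apply ContinuousOn.mul _ cS
        fun_prop
    _ = 2 / ε * (ε ^ 2 * (2 * r ^ 2 + 2 + r * (co C 1).re)) := by rw [avr_const_mul, hval]
    _ = 2 * ε * (2 * r ^ 2 + 2 + r * (co C 1).re) := by field_simp
    _ ≤ 2 * ε * (4 + ‖co C 1‖) := by
        apply mul_le_mul_of_nonneg_left _ (by positivity)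
        have g1 : (co C 1).re ≤ ‖co C 1‖ := Complex.re_le_norm _
        have g2 : r * (co C 1).re ≤ 1 * ‖co C 1‖ := by
          calc r * (co C 1).re ≤ r * ‖co C 1‖ := by gcongr
            _ ≤ 1 * ‖co C 1‖ := by gcongr
        have g3 : r ^ 2 ≤ 1 := by nlinarith
        linarith
    _ = (2 * (4 + ‖co C 1‖)) * ε := by ring

theorem rec_A (n : ℕ) : co A (n + 3) + 2 * co A (n + 2) + co A (n + 1) = 0 := by
  have key := lim_zero (Φ := fun ε : ℝ =>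
    (((1 - ε ^ 2 : ℝ) : ℂ) ^ (n + 4) * co A (n + 3) +
      (ε : ℂ) ^ 2 * (((1 - ε ^ 2 : ℝ) : ℂ) ^ (n + 2) * co B₂ (n + 2))) +
    2 * (((1 - ε ^ 2 : ℝ) : ℂ) ^ (n + 3) * co A (n + 2) +
      (ε : ℂ) ^ 2 * (((1 - ε ^ 2 : ℝ) : ℂ) ^ (n + 1) * co B₂ (n + 1))) +
    (((1 - ε ^ 2 : ℝ) : ℂ) ^ (n + 2) * co A (n + 1) +
      (ε : ℂ) ^ 2 * (((1 - ε ^ 2 : ℝ) : ℂ) ^ n * co B₂ n)))
    (K := 2 * (4 + ‖co C 1‖)) (by fun_prop) ?_
  · simpa using key
  · intro ε h0 h1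
    have hr : 0 < 1 - ε ^ 2 := by nlinarith
    have hr1 : 1 - ε ^ 2 < 1 := by nlinarith [pow_pos h0 2]
    have := h.ineq_two h0 h1 ((n : ℤ) + 2)
    rw [show (n : ℤ) + 2 = ((n + 2 : ℕ) : ℤ) by push_cast; ring,
      show ((n + 2 : ℕ) : ℤ) - 1 = ((n + 1 : ℕ) : ℤ) by push_cast; ring,
      show ((n + 2 : ℕ) : ℤ) - 2 = (n : ℤ) by push_cast; ring,
      h.T_nat hr hr1, h.T_nat hr hr1, h.T_nat hr hr1] at this
    exact this

theorem rec_A1 : co A 2 + 2 * co A 1 = 0 := by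
  have key := lim_zero (Φ := fun ε : ℝ =>
    (((1 - ε ^ 2 : ℝ) : ℂ) ^ (1 + 2) * co A (1 + 1) +
      (ε : ℂ) ^ 2 * (((1 - ε ^ 2 : ℝ) : ℂ) ^ 1 * co B₂ 1)) +
    2 * (((1 - ε ^ 2 : ℝ) : ℂ) ^ (0 + 2) * co A (0 + 1) +
      (ε : ℂ) ^ 2 * (((1 - ε ^ 2 : ℝ) : ℂ) ^ 0 * co B₂ 0)) + 0)
    (K := 2 * (4 + ‖co C 1‖)) (by fun_prop) ?_
  · simpa using key
  · intro ε h0 h1
    have hr : 0 < 1 - ε ^ 2 := by nlinarith
    have hr1 : 1 - ε ^ 2 < 1 := by nlinarith [pow_pos h0 2]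
    have := h.ineq_two h0 h1 1
    rw [show (1 : ℤ) - 2 = -1 by norm_num, h.T_neg_one hr hr1,
      show (1 : ℤ) - 1 = ((0 : ℕ) : ℤ) by norm_num,
      show (1 : ℤ) = ((1 : ℕ) : ℤ) by norm_num,
      h.T_nat hr hr1, h.T_nat hr hr1] at this
    exact this

theorem rec_B0 : co A 1 + conj (co B 2) = 0 := by
  have key := lim_zero (Φ := fun ε : ℝ =>
    (((1 - ε ^ 2 : ℝ) : ℂ) ^ (0 + 2) * co A (0 + 1) +
      (ε : ℂ) ^ 2 * (((1 - ε ^ 2 : ℝ) : ℂ) ^ 0 * co B₂ 0)) + 2 * 0 +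
      ((1 - ε ^ 2 : ℝ) : ℂ) ^ (0 + 2) * conj (co B (0 + 2)))
    (K := 2 * (4 + ‖co C 1‖)) (by fun_prop) ?_
  · simpa using key
  · intro ε h0 h1
    have hr : 0 < 1 - ε ^ 2 := by nlinarith
    have hr1 : 1 - ε ^ 2 < 1 := by nlinarith [pow_pos h0 2]
    have := h.ineq_two h0 h1 0
    rw [show (0 : ℤ) - 1 = -1 by norm_num, h.T_neg_one hr hr1,
      show (0 : ℤ) - 2 = -(((0 : ℕ) : ℤ) + 2) by norm_num, h.T_neg hr hr1,
      show (0 : ℤ) = ((0 : ℕ) : ℤ) by norm_num,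
      h.T_nat hr hr1] at this
    exact this

theorem rec_B1 : 2 * conj (co B 2) + conj (co B 3) = 0 := by
  have key := lim_zero (Φ := fun ε : ℝ =>
    0 + 2 * (((1 - ε ^ 2 : ℝ) : ℂ) ^ (0 + 2) * conj (co B (0 + 2))) +
      ((1 - ε ^ 2 : ℝ) : ℂ) ^ (1 + 2) * conj (co B (1 + 2)))
    (K := 2 * (4 + ‖co C 1‖)) (by fun_prop) ?_
  · simpa using key
  · intro ε h0 h1
    have hr : 0 < 1 - ε ^ 2 := by nlinarith
    have hr1 : 1 - ε ^ 2 < 1 := by nlinarith [pow_pos h0 2]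
    have := h.ineq_two h0 h1 (-1)
    rw [h.T_neg_one hr hr1,
      show (-1 : ℤ) - 1 = -(((0 : ℕ) : ℤ) + 2) by norm_num,
      show (-1 : ℤ) - 2 = -(((1 : ℕ) : ℤ) + 2) by norm_num,
      h.T_neg hr hr1, h.T_neg hr hr1] at this
    exact this

theorem rec_B (j : ℕ) : conj (co B (j + 2)) + 2 * conj (co B (j + 3)) + conj (co B (j + 4)) = 0 := by
  have key := lim_zero (Φ := fun ε : ℝ =>
    ((1 - ε ^ 2 : ℝ) : ℂ) ^ (j + 2) * conj (co B (j + 2)) +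
      2 * (((1 - ε ^ 2 : ℝ) : ℂ) ^ (j + 1 + 2) * conj (co B (j + 1 + 2))) +
      ((1 - ε ^ 2 : ℝ) : ℂ) ^ (j + 2 + 2) * conj (co B (j + 2 + 2)))
    (K := 2 * (4 + ‖co C 1‖)) (by fun_prop) ?_
  · simpa using key
  · intro ε h0 h1
    have hr : 0 < 1 - ε ^ 2 := by nlinarith
    have hr1 : 1 - ε ^ 2 < 1 := by nlinarith [pow_pos h0 2]
    have := h.ineq_two h0 h1 (-((j : ℤ) + 2))
    rw [show -((j : ℤ) + 2) - 1 = -(((j + 1 : ℕ) : ℤ) + 2) by push_cast; ring,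
      show -((j : ℤ) + 2) - 2 = -(((j + 2 : ℕ) : ℤ) + 2) by push_cast; ring,
      h.T_neg hr hr1, h.T_neg hr hr1, h.T_neg hr hr1] at this
    exact this

theorem co_A (n : ℕ) : co A (n + 1) = (-1) ^ n * (n + 1) * co A 1 ∧
    co A (n + 2) = (-1) ^ (n + 1) * (n + 2) * co A 1 := by
  induction n with
  | zero =>
    refine ⟨by simp, ?_⟩
    have := h.rec_A1
    simp
    linear_combination this
  | succ n ih =>
    obtain ⟨i1, i2⟩ := ih
    have := h.rec_A n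
    constructor
    · rw [show n + 1 + 1 = n + 2 by ring, i2]; push_cast; ring
    · rw [show n + 1 + 2 = n + 3 by ring]
      push_cast
      have e : co A (n + 3) = -2 * co A (n + 2) - co A (n + 1) := by linear_combination this
      rw [e, i1, i2]; ring

theorem growth (n : ℕ) : (n : ℝ) * ‖co A 1‖ ^ 2 ≤ 288 := by
  set ε : ℝ := Real.sqrt (1 / (2 * (n + 2))) with hε
  have hn : (0 : ℝ) < 2 * (n + 2) := by positivity
  have hε2 : ε ^ 2 = 1 / (2 * (n + 2)) := by rw [hε, Real.sq_sqrt (by positivity)]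
  have hε0 : 0 < ε := by rw [hε]; positivity
  have hle : ε ^ 2 ≤ 1 / 4 := by
    rw [hε2]
    apply one_div_le_one_div_of_le (by norm_num)
    have : (0 : ℝ) ≤ n := Nat.cast_nonneg n
    linarith
  set r : ℝ := 1 - ε ^ 2 with hr'
  have hr : 0 < r := by rw [hr']; linarith
  have hr1 : r < 1 := by rw [hr']; linarith [pow_pos hε0 2]
  have hpow : 1 / 2 ≤ r ^ (n + 2) := by
    have h1 := one_add_mul_le_pow (a := -ε ^ 2) (by nlinarith) (n + 2)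
    have h2 : (1 : ℝ) + -ε ^ 2 = r := by rw [hr']; ring
    rw [h2] at h1
    refine le_trans ?_ h1
    push_cast
    rw [hε2]
    field_simp
    linarith
  have e0 : r ^ 2 + ε ^ 2 < 1 := by rw [hr']; nlinarith [pow_pos hε0 2]
  have hε' : 0 < ε / 2 := by positivity
  have e0' : r ^ 2 + (ε / 2) ^ 2 < 1 := by nlinarith [pow_pos hε0 2]
  have i1 := h.ineq_one hr hr1 hε0 e0 (n : ℤ)
  have i2 := h.ineq_one hr hr1 hε' e0' (n : ℤ)
  rw [h.T_nat hr hr1] at i1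
  have t2 := h.T_nat (ρ := ε / 2) hr hr1 n
  rw [t2] at i2
  have e3 : (3 : ℂ) * (r ^ (n + 2) * co A (n + 1)) =
      4 * ((r : ℂ) ^ (n + 2) * co A (n + 1) + ((ε / 2 : ℝ) : ℂ) ^ 2 * (r ^ n * co B₂ n)) -
        (r ^ (n + 2) * co A (n + 1) + (ε : ℂ) ^ 2 * (r ^ n * co B₂ n)) := by
    push_cast; ring
  have e4 : 3 * (r ^ (n + 2) * ‖co A (n + 1)‖) ≤ 4 * (2 / (ε / 2)) + 2 / ε := by
    have := congrArg norm e3
    rw [norm_mul, norm_mul, norm_pow, Complex.norm_real, Real.norm_of_nonneg hr.le] at this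
    simp only [Complex.norm_ofNat] at this
    rw [this]
    refine (norm_sub_le _ _).trans ?_
    rw [norm_mul]
    simp only [Complex.norm_ofNat]
    gcongr
  have e5 : r ^ (n + 2) * ‖co A (n + 1)‖ ≤ 6 / ε := by
    have : 4 * (2 / (ε / 2)) + 2 / ε = 18 / ε := by field_simp; norm_num
    rw [this] at e4
    have : (18 : ℝ) / ε = 3 * (6 / ε) := by ring
    linarith
  have e6 : ‖co A (n + 1)‖ ≤ 12 / ε := by
    have h1 : 1 / 2 * ‖co A (n + 1)‖ ≤ r ^ (n + 2) * ‖co A (n + 1)‖ := by gcongr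
    have h2 : (12 : ℝ) / ε = 2 * (6 / ε) := by ring
    linarith
  have e7 : ‖co A (n + 1)‖ = (n + 1) * ‖co A 1‖ := by
    rw [(h.co_A n).1, norm_mul, norm_mul, norm_pow, norm_neg, norm_one, one_pow, one_mul]
    congr 1
    have : ((n : ℂ) + 1) = ((n + 1 : ℕ) : ℂ) := by push_cast; ring
    rw [this, Complex.norm_natCast]; push_cast; ring
  rw [e7] at e6
  have e8 : ((n + 1) * ‖co A 1‖) ^ 2 ≤ (12 / ε) ^ 2 := by gcongr
  have e9 : (12 / ε) ^ 2 = 288 * (n + 2) := by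
    rw [div_pow, hε2]; field_simp; ring
  rw [e9] at e8
  have hn0 : (0 : ℝ) ≤ n := Nat.cast_nonneg n
  have e10 : (n : ℝ) * (n + 2) * ‖co A 1‖ ^ 2 ≤ 288 * (n + 2) := by
    refine le_trans ?_ e8
    rw [mul_pow]
    apply mul_le_mul_of_nonneg_right _ (by positivity)
    nlinarith
  have e11 : ((n : ℝ) * ‖co A 1‖ ^ 2) * (n + 2) ≤ 288 * (n + 2) := by linarith
  exact le_of_mul_le_mul_right e11 (by positivity)

theorem co_A_one : co A 1 = 0 := by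
  by_contra hne
  have hpos : 0 < ‖co A 1‖ ^ 2 := by positivity
  obtain ⟨n, hn⟩ := exists_nat_gt (288 / ‖co A 1‖ ^ 2)
  have := h.growth n
  rw [div_lt_iff₀ hpos] at hn
  linarith

theorem co_A_all (n : ℕ) : co A n = 0 := by
  rcases n with _ | n
  · rw [co_zero, h.hA0]
  · rw [(h.co_A n).1, h.co_A_one]; ring

theorem co_B_all (n : ℕ) : co B n = 0 := by
  have hB2' : co B 2 = 0 := by
    have := h.rec_B0
    rw [h.co_A_one, zero_add] at this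
    simpa using this
  have hB3 : co B 3 = 0 := by
    have := h.rec_B1
    rw [hB2'] at this
    simpa using this
  have key : ∀ j : ℕ, co B (j + 2) = 0 ∧ co B (j + 3) = 0 := by
    intro j
    induction j with
    | zero => exact ⟨hB2', hB3⟩
    | succ j ih =>
      have := h.rec_B j
      rw [ih.1, ih.2] at this
      refine ⟨ih.2, ?_⟩
      simpa using this
  rcases n with _ | _ | n
  · rw [co_zero, h.hB0]
  · exact h.hB1
  · exact (key n).1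

theorem A_eq_zero : ∀ ζ ∈ ball (0 : ℂ) 1, A ζ = 0 := eq_zero_of_co h.hA h.co_A_all

theorem B_eq_zero : ∀ ζ ∈ ball (0 : ℂ) 1, B ζ = 0 := eq_zero_of_co h.hB h.co_B_all

end RigData

end Pool.Agent.SP
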