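import Pool.Agent.Lib52.SP.Trans
import Pool.Agent.Lib52.SP.Rig2
import Pool.Agent.Lib52.SP.Dcls

set_option autoImplicit false

open Set Metric Filter MeasureTheory Complex
open scoped Topology ComplexConjugate

namespace Pool.Agent.SP

/-- the closure of the class `𝓜` -/
structure MB (h : E → E) : Prop where
  diff : DifferentiableOn ℂ h (ball (0 : E) 1)
  zero : h 0 = 0
  der : fderiv ℂ h 0 = ContinuousLinearMap.id ℂ E
  pos : ∀ z ∈ ball (0 : E) 1, 0 ≤ (inner ℂ z (h z)).re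

theorem inner_pt (ζ w : ℂ) (x : E) : inner ℂ (pt ζ w) x = conj ζ * x 0 + conj w * x 1 := by
  have : inner ℂ (pt ζ w) x = ∑ i, inner ℂ (pt ζ w i) (x i) := PiLp.inner_apply _ x
  rw [this, Fin.sum_univ_two, pt_zero, pt_one, RCLike.inner_apply, RCLike.inner_apply]
  ring

theorem dslope_rec (R : ℂ → ℂ) (ζ : ℂ) : R ζ = R 0 + ζ * dslope R 0 ζ := by
  have := sub_smul_dslope R 0 ζ
  rw [sub_zero, smul_eq_mul] at this
  rw [this]; ring

theorem dslope_diff {R : ℂ → ℂ} (hR : DifferentiableOn ℂ R (ball 0 1)) :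
    DifferentiableOn ℂ (dslope R 0) (ball 0 1) :=
  (Complex.differentiableOn_dslope (ball_mem_nhds 0 one_pos)).2 hR

theorem co_two_dslope {P : ℂ → ℂ} (hP : DifferentiableOn ℂ P (ball 0 1)) :
    co P 2 = co (dslope P 0) 1 := by
  have h1 := dslope_diff hP
  have h2 := dslope_diff h1
  have h3 := dslope_diff h2
  have := (co_of_expansion (C := P) (a := P 0) (b := dslope P 0 0)
    (c := dslope (dslope P 0) 0 0) (g := dslope (dslope (dslope P 0) 0) 0) h3 ?_).2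
  · rw [this, co_one, dslope_same]
  · intro ζ _
    have e1 := dslope_rec P ζ
    have e2 := dslope_rec (dslope P 0) ζ
    have e3 := dslope_rec (dslope (dslope P 0) 0) ζ
    rw [e1, e2, e3]
    ring

namespace MB

variable {h : E → E} (hM : MB h)
include hM

theorem sl_diff' (i : Fin 2) : DifferentiableOn ℂ (fun ζ => h (pt ζ 0) i) (ball 0 1) := by
  intro ζ hζ
  exact (deriv_slice hM.diff i (by simpa using hζ)).differentiableAt.differentiableWithinAt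

theorem P_zero : h (pt 0 0) 0 = 0 := by rw [pt00, hM.zero]; rfl

theorem p_zero : dslope (fun ζ => h (pt ζ 0) 0) 0 0 = 1 := by
  rw [dslope_same, (deriv_slice hM.diff 0 (ζ := 0) (by simp)).deriv, pt00, hM.der]
  rfl

theorem P_eq (ζ : ℂ) : h (pt ζ 0) 0 = ζ * dslope (fun ζ => h (pt ζ 0) 0) 0 ζ := by
  have := dslope_rec (fun ζ => h (pt ζ 0) 0) ζ
  simp only at this
  rw [hM.P_zero, zero_add] at this
  exact this

theorem p_pos : ∀ ζ ∈ ball (0 : ℂ) 1, 0 ≤ (dslope (fun ζ => h (pt ζ 0) 0) 0 ζ).re := by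
  intro ζ hζ
  by_cases hζ0 : ζ = 0
  · rw [hζ0, hM.p_zero]; simp
  have h1 := hM.pos (pt ζ 0) (pt_zero_mem (by simpa using hζ))
  rw [inner_pt, map_zero, zero_mul, add_zero, hM.P_eq ζ, ← mul_assoc, mul_comm (conj ζ) ζ,
    Complex.mul_conj, Complex.re_ofReal_mul, Complex.normSq_eq_norm_sq] at h1
  have h2 : 0 < ‖ζ‖ ^ 2 := by have := norm_pos_iff.2 hζ0; positivity
  exact nonneg_of_mul_nonneg_right h1 h2

theorem co_p : co (dslope (fun ζ => h (pt ζ 0) 0) 0) 1 = D2 h / 2 := by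
  rw [← co_two_dslope (hM.sl_diff' 0), co_two_eq hM.diff]

theorem D2_le : ‖D2 h‖ ≤ 4 := by
  set Q := dslope (fun ζ => h (pt ζ 0) 0) 0 with hQdef
  have hQ : DifferentiableOn ℂ Q (ball 0 1) := dslope_diff (hM.sl_diff' 0)
  have h3 : ∀ r : ℝ, 0 < r → r < 1 → r * ‖co Q 1‖ ≤ 2 := by
    intro r hr hr1
    have := caratheodory hr (differentiableOn_of_closedBall hQ hr1)
      (fun z hz => hM.p_pos z (sphere_subset_ball hr1 hz)) 1 one_ne_zero
    rw [pow_one, hQdef, hM.p_zero, ← hQdef, Complex.one_re, mul_one] at this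
    exact this
  have h4 : ‖co Q 1‖ ≤ 2 := by
    have t1 : Tendsto (fun r : ℝ => r * ‖co Q 1‖) (𝓝[<] 1) (𝓝 (1 * ‖co Q 1‖)) := by
      apply Tendsto.mono_left _ nhdsWithin_le_nhds
      apply Continuous.tendsto; fun_prop
    rw [one_mul] at t1
    apply le_of_tendsto t1
    have : Ioo (0 : ℝ) 1 ∈ 𝓝[<] (1 : ℝ) := Ioo_mem_nhdsLT one_pos
    filter_upwards [this] with r hr using h3 r hr.1 hr.2
  have h5 : D2 h = 2 * co Q 1 := by rw [hQdef, hM.co_p]; ring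
  rw [h5, norm_mul, Complex.norm_ofNat]
  linarith

end MB

/-- rigidity of the extremal functions of the Carathéodory class -/
theorem eq_pf {p : ℂ → ℂ} (hp : DifferentiableOn ℂ p (ball 0 1)) (h0 : p 0 = 1)
    (hpos : ∀ ζ ∈ ball (0 : ℂ) 1, 0 ≤ (p ζ).re) (h1 : co p 1 = -2) :
    ∀ ζ ∈ ball (0 : ℂ) 1, p ζ = pf ζ := by
  have hne : ∀ ζ ∈ ball (0 : ℂ) 1, 1 + p ζ ≠ 0 := by
    intro ζ hζ h2
    have h3 := congrArg Complex.re h2
    rw [Complex.add_re, Complex.one_re, Complex.zero_re] at h3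
    have := hpos ζ hζ
    linarith
  set ω : ℂ → ℂ := fun ζ => (1 - p ζ) / (1 + p ζ) with hω
  have hωd : DifferentiableOn ℂ ω (ball 0 1) :=
    (hp.const_sub 1).div (hp.const_add 1) hne
  have hω0 : ω 0 = 0 := by simp [hω, h0]
  have hmaps : MapsTo ω (ball 0 1) (closedBall (ω 0) 1) := by
    intro ζ hζ
    rw [hω0, mem_closedBall, dist_zero_right]
    simp only [hω]
    rw [norm_div, div_le_one (norm_pos_iff.2 (hne ζ hζ))]
    have h3 := hpos ζ hζ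
    have e1 : ‖1 - p ζ‖ ^ 2 = (1 - (p ζ).re) ^ 2 + (p ζ).im ^ 2 := by
      rw [← Complex.normSq_eq_norm_sq, Complex.normSq_apply]; simp; ring
    have e2 : ‖1 + p ζ‖ ^ 2 = (1 + (p ζ).re) ^ 2 + (p ζ).im ^ 2 := by
      rw [← Complex.normSq_eq_norm_sq, Complex.normSq_apply]; simp; ring
    have e3 : ‖1 - p ζ‖ ^ 2 ≤ ‖1 + p ζ‖ ^ 2 := by rw [e1, e2]; nlinarith
    exact (sq_le_sq₀ (norm_nonneg _) (norm_nonneg _)).1 e3
  have hd : deriv ω 0 = 1 := by
    have hp' : HasDerivAt p (-2) 0 := by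
      rw [← h1, co_one]
      exact (hp.differentiableAt (ball_mem_nhds 0 one_pos)).hasDerivAt
    have hq := (hp'.const_sub 1).div (hp'.const_add 1) (hne 0 (mem_ball_self one_pos))
    have : HasDerivAt ω ((-(-2) * (1 + p 0) - (1 - p 0) * -2) / (1 + p 0) ^ 2) 0 := hq
    rw [this.deriv, h0]; norm_num
  have key := Complex.affine_of_mapsTo_ball_of_norm_dslope_eq_div hωd hmaps
    (mem_ball_self (x := (0 : ℂ)) one_pos) (by rw [dslope_same, hd]; simp)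
  intro ζ hζ
  have h4 := key hζ
  simp only [hω0, dslope_same, hd, sub_zero, zero_add, smul_eq_mul, mul_one] at h4
  have h5 : (1 - p ζ) / (1 + p ζ) = ζ := h4
  rw [div_eq_iff (hne ζ hζ)] at h5
  have hζ' : ‖ζ‖ < 1 := by simpa using hζ
  unfold pf
  rw [eq_div_iff (one_add_ne hζ')]
  linear_combination -h5

/-- the rigid structure along the slice -/
structure Rigid (h : E → E) : Prop where
  hP : ∀ ζ ∈ ball (0 : ℂ) 1, h (pt ζ 0) 0 = ζ * pf ζ
  hA : ∀ ζ ∈ ball (0 : ℂ) 1, (fderiv ℂ h (pt ζ 0) e₂) 0 = 0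
  hB : ∀ ζ ∈ ball (0 : ℂ) 1, h (pt ζ 0) 1 = 0
  hC : InD (fun ζ => (fderiv ℂ h (pt ζ 0) e₂) 1)

theorem deriv_slice₂ {f : E → E} (hf : DifferentiableOn ℂ f (ball (0 : E) 1)) (i : Fin 2) {ζ w : ℂ}
    (hζ : ‖ζ‖ ^ 2 + ‖w‖ ^ 2 < 1) :
    HasDerivAt (fun w => f (pt ζ w) i) (fderiv ℂ f (pt ζ w) e₂ i) w :=
  hasDerivAt_coord (hasDerivAt_line₂
    (hf.differentiableAt (isOpen_ball.mem_nhds (pt_mem hζ)))) i

theorem MB.rigid {h : E → E} (hM : MB h) (h4 : D2 h = -4) : Rigid h := by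
  have hp1 : co (dslope (fun ζ => h (pt ζ 0) 0) 0) 1 = -2 := by
    rw [hM.co_p, h4]; norm_num
  have hp := eq_pf (dslope_diff (hM.sl_diff' 0)) hM.p_zero hM.p_pos hp1
  have hd2 := differentiableOn_fderiv_apply isOpen_ball hM.diff e₂
  have hd22 := differentiableOn_fderiv_apply isOpen_ball hd2 e₂
  have hsl : ∀ (f : E → E), DifferentiableOn ℂ f (ball (0 : E) 1) → ∀ i : Fin 2,
      DifferentiableOn ℂ (fun ζ => f (pt ζ 0) i) (ball 0 1) := by
    intro f hf i ζ hζ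
    exact (deriv_slice hf i (by simpa using hζ)).differentiableAt.differentiableWithinAt
  have hbd : ∀ ζ : ℂ, ∀ ρ : ℝ, 0 < ρ → ‖ζ‖ ^ 2 + ρ ^ 2 < 1 →
      ρ / 2 * ‖conj ζ * (fderiv ℂ h (pt ζ 0) e₂) 0 + conj (h (pt ζ 0) 1) +
        ρ ^ 2 * ((fderiv ℂ (fun z => fderiv ℂ h z e₂) (pt ζ 0) e₂) 1 / 2)‖ ≤
      ‖ζ‖ ^ 2 * (dslope (fun ζ => h (pt ζ 0) 0) 0 ζ).re +
        ρ ^ 2 * ((fderiv ℂ h (pt ζ 0) e₂) 1).re := by
    intro ζ ρ hρ hζρ
    have hmem : ∀ w ∈ closedBall (0 : ℂ) ρ, ‖ζ‖ ^ 2 + ‖w‖ ^ 2 < 1 := by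
      intro w hw
      have hw' : ‖w‖ ≤ ρ := by simpa using hw
      have : ‖w‖ ^ 2 ≤ ρ ^ 2 := by gcongr
      linarith
    have hdw : ∀ i : Fin 2, DifferentiableOn ℂ (fun w => h (pt ζ w) i) (closedBall 0 ρ) :=
      fun i w hw => (deriv_slice₂ hM.diff i (hmem w hw)).differentiableAt.differentiableWithinAt
    have hw := w_modes hρ (hdw 0) (hdw 1) ζ (by
      intro w hw
      have := hM.pos _ (pt_mem (hmem w (sphere_subset_closedBall hw)))
      rwa [inner_pt] at this)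
    have h0mem : ‖ζ‖ ^ 2 + ‖(0 : ℂ)‖ ^ 2 < 1 := hmem 0 (by simp [hρ.le])
    have hco1 : ∀ i : Fin 2, co (fun w => h (pt ζ w) i) 1 = (fderiv ℂ h (pt ζ 0) e₂) i := by
      intro i
      rw [co_one, (deriv_slice₂ hM.diff i h0mem).deriv]
    have hco2 : co (fun w => h (pt ζ w) 1) 2 =
        (fderiv ℂ (fun z => fderiv ℂ h z e₂) (pt ζ 0) e₂) 1 / 2 := by
      rw [co_two]
      have e1 : deriv (fun w => h (pt ζ w) 1) =ᶠ[𝓝 0] fun w => fderiv ℂ h (pt ζ w) e₂ 1 := by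
        filter_upwards [ball_mem_nhds (0 : ℂ) hρ] with w hw
        exact (deriv_slice₂ hM.diff 1 (hmem w (ball_subset_closedBall hw))).deriv
      rw [e1.deriv_eq, (deriv_slice₂ hd2 1 h0mem).deriv]
    rw [hco1 0, hco1 1, hco2] at hw
    have e3 : (conj ζ * h (pt ζ 0) 0).re =
        ‖ζ‖ ^ 2 * (dslope (fun ζ => h (pt ζ 0) 0) 0 ζ).re := by
      rw [hM.P_eq ζ, ← mul_assoc, mul_comm (conj ζ) ζ,
        Complex.mul_conj, Complex.re_ofReal_mul, Complex.normSq_eq_norm_sq]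
    rw [e3] at hw
    exact hw
  have hRD : RigData (fun ζ => (fderiv ℂ h (pt ζ 0) e₂) 0) (fun ζ => h (pt ζ 0) 1)
      (fun ζ => (fderiv ℂ (fun z => fderiv ℂ h z e₂) (pt ζ 0) e₂) 1 / 2)
      (fun ζ => (fderiv ℂ h (pt ζ 0) e₂) 1) (dslope (fun ζ => h (pt ζ 0) 0) 0) :=
    { hA := hsl _ hd2 0
      hB := hM.sl_diff' 1
      hB2 := (hsl _ hd22 1).div_const 2
      hC := hsl _ hd2 1
      hp := dslope_diff (hM.sl_diff' 0)
      hA0 := by
        show (fderiv ℂ h (pt 0 0) e₂) 0 = 0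
        rw [pt00, hM.der]; rfl
      hB0 := by
        show h (pt 0 0) 1 = 0
        rw [pt00, hM.zero]; rfl
      hB1 := by
        rw [co_one, (deriv_slice hM.diff 1 (ζ := 0) (by simp)).deriv, pt00, hM.der]; rfl
      hC0 := by
        show (fderiv ℂ h (pt 0 0) e₂) 1 = 1
        rw [pt00, hM.der]; rfl
      hp0 := hM.p_zero
      hp1 := hp1
      hbd := hbd }
  refine ⟨?_, hRD.A_eq_zero, hRD.B_eq_zero, ?_⟩
  · intro ζ hζ
    rw [hM.P_eq ζ, hp ζ hζ]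
  · apply InD.of_pairs hRD.hC hRD.hC0
    intro ζ ρ hρ hζρ
    have hζ : ζ ∈ ball (0 : ℂ) 1 := by
      rw [mem_ball_zero_iff]
      nlinarith [norm_nonneg ζ, sq_nonneg ρ]
    have h5 := hbd ζ ρ hρ hζρ
    rw [hp ζ hζ] at h5
    exact le_trans (by positivity) h5

end Pool.Agent.SP
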