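import Mathlib

set_option autoImplicit false

open Set Metric Filter MeasureTheory Complex
open scoped Topology Real ComplexConjugate

namespace Pool.Agent.SP

/-- average over the circle `|z| = r` -/
noncomputable def av (r : ℝ) (f : ℂ → ℂ) : ℂ := Real.circleAverage f 0 r

/-- real average over the circle `|z| = r` -/
noncomputable def avr (r : ℝ) (f : ℂ → ℝ) : ℝ := Real.circleAverage f 0 r

/-- `n`-th Taylor coefficient at `0` -/
noncomputable def co (g : ℂ → ℂ) (n : ℕ) : ℂ := iteratedDeriv n g 0 / (n.factorial : ℂ)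

/-- `k`-th Fourier mode on the circle `|z| = r` -/
noncomputable def md (k : ℤ) (r : ℝ) (g : ℂ → ℂ) : ℂ := av r (fun z => (z / r) ^ (-k) * g z)

variable {r : ℝ} {f g : ℂ → ℂ}

theorem ci {X : Type*} [NormedAddCommGroup X] {f : ℂ → X} (hr : 0 < r)
    (hf : ContinuousOn f (sphere 0 r)) : CircleIntegrable f 0 r :=
  hf.circleIntegrable hr.le

theorem av_add (hr : 0 < r) (hf : ContinuousOn f (sphere 0 r)) (hg : ContinuousOn g (sphere 0 r)) :
    av r (fun z => f z + g z) = av r f + av r g :=
  Real.circleAverage_fun_add (ci hr hf) (ci hr hg)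

theorem av_sub (hr : 0 < r) (hf : ContinuousOn f (sphere 0 r)) (hg : ContinuousOn g (sphere 0 r)) :
    av r (fun z => f z - g z) = av r f - av r g :=
  Real.circleAverage_fun_sub (ci hr hf) (ci hr hg)

theorem av_const_mul (c : ℂ) : av r (fun z => c * f z) = c * av r f := by
  have := Real.circleAverage_fun_smul (a := c) (f := f) (c := 0) (R := r)
  simpa [av, smul_eq_mul] using this

theorem av_congr (hr : 0 < r) (h : ∀ z ∈ sphere (0 : ℂ) r, f z = g z) : av r f = av r g := by
  apply Real.circleAverage_congr_sphere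
  rw [abs_of_pos hr]; exact h

theorem av_const (c : ℂ) : av r (fun _ => c) = c := Real.circleAverage_const c 0 r

theorem av_re (hr : 0 < r) (hf : ContinuousOn f (sphere 0 r)) :
    (av r f).re = avr r (fun z => (f z).re) :=
  (Complex.reCLM.circleAverage_comp_comm (ci hr hf)).symm

theorem av_conj (hr : 0 < r) (hf : ContinuousOn f (sphere 0 r)) :
    av r (fun z => conj (f z)) = conj (av r f) := by
  have := (Complex.conjCLE.toContinuousLinearMap).circleAverage_comp_comm (ci hr hf)
  simpa [av, Function.comp_def] using this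

theorem av_ofReal (hr : 0 < r) {f : ℂ → ℝ} (hf : ContinuousOn f (sphere 0 r)) :
    av r (fun z => (f z : ℂ)) = (avr r f : ℂ) :=
  (Complex.ofRealCLM.circleAverage_comp_comm (ci hr hf))

theorem norm_av_le (_hr : 0 < r) : ‖av r f‖ ≤ avr r (fun z => ‖f z‖) := by
  unfold av avr Real.circleAverage
  rw [norm_smul, smul_eq_mul, Real.norm_of_nonneg (by positivity)]
  gcongr
  exact intervalIntegral.norm_integral_le_integral_norm Real.two_pi_pos.le

theorem avr_mono (hr : 0 < r) {f g : ℂ → ℝ} (hf : ContinuousOn f (sphere 0 r))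
    (hg : ContinuousOn g (sphere 0 r)) (h : ∀ z ∈ sphere (0 : ℂ) r, f z ≤ g z) :
    avr r f ≤ avr r g := by
  apply Real.circleAverage_mono (ci hr hf) (ci hr hg)
  rw [abs_of_pos hr]; exact h

theorem avr_congr (hr : 0 < r) {f g : ℂ → ℝ} (h : ∀ z ∈ sphere (0 : ℂ) r, f z = g z) :
    avr r f = avr r g := by
  apply Real.circleAverage_congr_sphere
  rw [abs_of_pos hr]; exact h

theorem avr_nonneg (hr : 0 < r) {f : ℂ → ℝ} (h : ∀ z ∈ sphere (0 : ℂ) r, 0 ≤ f z) :
    0 ≤ avr r f := by
  apply Real.circleAverage_nonneg_of_nonneg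
  rw [abs_of_pos hr]; exact h

theorem avr_const_mul (c : ℝ) {f : ℂ → ℝ} : avr r (fun z => c * f z) = c * avr r f := by
  have := Real.circleAverage_fun_smul (a := c) (f := f) (c := 0) (R := r)
  simpa [avr, smul_eq_mul] using this

/-! ### unit -/

theorem div_ne_zero_of_sphere (hr : 0 < r) {z : ℂ} (hz : z ∈ sphere (0 : ℂ) r) :
    z / (r : ℂ) ≠ 0 := by
  have : ‖z‖ = r := by simpa using hz
  apply div_ne_zero
  · intro h; rw [h, norm_zero] at this; linarith
  · exact_mod_cast hr.ne'

theorem norm_div_sphere (hr : 0 < r) {z : ℂ} (hz : z ∈ sphere (0 : ℂ) r) :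
    ‖z / (r : ℂ)‖ = 1 := by
  have : ‖z‖ = r := by simpa using hz
  rw [norm_div, this, Complex.norm_real, Real.norm_of_nonneg hr.le, div_self hr.ne']

theorem conj_div_sphere (hr : 0 < r) {z : ℂ} (hz : z ∈ sphere (0 : ℂ) r) :
    conj (z / (r : ℂ)) = (z / (r : ℂ))⁻¹ := by
  rw [Complex.inv_def, Complex.normSq_eq_norm_sq, norm_div_sphere hr hz]; simp

theorem conj_sphere (hr : 0 < r) {z : ℂ} (hz : z ∈ sphere (0 : ℂ) r) :
    conj z = r * (z / (r : ℂ))⁻¹ := by
  have hr' : (r : ℂ) ≠ 0 := by exact_mod_cast hr.ne'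
  have h1 : conj z = (r : ℂ) * conj (z / (r : ℂ)) := by
    rw [map_div₀, Complex.conj_ofReal]; field_simp
  rw [h1, conj_div_sphere hr hz]

theorem continuousOn_zpow_div (hr : 0 < r) (k : ℤ) :
    ContinuousOn (fun z : ℂ => (z / (r : ℂ)) ^ k) (sphere 0 r) := by
  intro z hz
  apply ContinuousAt.continuousWithinAt
  apply ContinuousAt.zpow₀
  · fun_prop
  · exact Or.inl (div_ne_zero_of_sphere hr hz)

theorem continuousOn_md (hr : 0 < r) (k : ℤ) (hf : ContinuousOn f (sphere 0 r)) :
    ContinuousOn (fun z : ℂ => (z / (r : ℂ)) ^ (-k) * f z) (sphere 0 r) :=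
  (continuousOn_zpow_div hr (-k)).mul hf

theorem md_add (hr : 0 < r) (k : ℤ) (hf : ContinuousOn f (sphere 0 r))
    (hg : ContinuousOn g (sphere 0 r)) :
    md k r (fun z => f z + g z) = md k r f + md k r g := by
  unfold md
  rw [← av_add hr (continuousOn_md hr k hf) (continuousOn_md hr k hg)]
  congr 1; ext z; ring

theorem md_const_mul (k : ℤ) (c : ℂ) : md k r (fun z => c * f z) = c * md k r f := by
  unfold md
  rw [← av_const_mul]
  congr 1; ext z; ring

theorem md_congr (hr : 0 < r) (k : ℤ) (h : ∀ z ∈ sphere (0 : ℂ) r, f z = g z) :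
    md k r f = md k r g := by
  unfold md
  exact av_congr hr fun z hz => by rw [h z hz]

/-- multiplication by a power of the unit shifts modes -/
theorem md_shift (hr : 0 < r) (k j : ℤ) :
    md k r (fun z => (z / (r : ℂ)) ^ j * f z) = md (k - j) r f := by
  unfold md
  apply av_congr hr fun z hz => ?_
  have h0 := div_ne_zero_of_sphere hr hz
  rw [← mul_assoc, ← zpow_add₀ h0]
  congr 2; ring

theorem md_conj (hr : 0 < r) (k : ℤ) (hf : ContinuousOn f (sphere 0 r)) :
    md k r (fun z => conj (f z)) = conj (md (-k) r f) := by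
  unfold md
  rw [← av_conj hr (continuousOn_md hr _ hf)]
  apply av_congr hr fun z hz => ?_
  rw [map_mul, map_zpow₀, conj_div_sphere hr hz, inv_zpow', neg_neg]

/-- conjugate variable -/
theorem md_conj_var_mul (hr : 0 < r) (k : ℤ) :
    md k r (fun z => conj z * f z) = r * md (k + 1) r f := by
  have h1 : md k r (fun z => conj z * f z) =
      md k r (fun z => (r : ℂ) * ((z / (r : ℂ)) ^ (-1 : ℤ) * f z)) := by
    apply md_congr hr k fun z hz => ?_
    rw [conj_sphere hr hz, zpow_neg_one]; ring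
  rw [h1, md_const_mul, md_shift hr]
  congr 2

theorem md_var_mul (hr : 0 < r) (k : ℤ) :
    md k r (fun z => z * f z) = r * md (k - 1) r f := by
  have hr' : (r : ℂ) ≠ 0 := by exact_mod_cast hr.ne'
  have h1 : md k r (fun z => z * f z) =
      md k r (fun z => (r : ℂ) * ((z / (r : ℂ)) ^ (1 : ℤ) * f z)) := by
    apply md_congr hr k fun z hz => ?_
    rw [zpow_one]; field_simp
  rw [h1, md_const_mul, md_shift hr]

theorem norm_md_le (hr : 0 < r) (k : ℤ) : ‖md k r f‖ ≤ avr r (fun z => ‖f z‖) := by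
  unfold md
  refine (norm_av_le hr).trans_eq ?_
  apply avr_congr hr fun z hz => ?_
  rw [norm_mul, norm_zpow, norm_div_sphere hr hz, one_zpow, one_mul]

theorem differentiableOn_of_closedBall {R : ℝ} (hg : DifferentiableOn ℂ g (ball 0 R)) (hrR : r < R) :
    DifferentiableOn ℂ g (closedBall 0 r) := hg.mono (closedBall_subset_ball hrR)

/-- nonnegative modes of a holomorphic function -/
theorem md_nat (hr : 0 < r) (n : ℕ) (hg : DifferentiableOn ℂ g (closedBall 0 r)) :
    md n r g = r ^ n * co g n := by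
  unfold md av
  rw [Real.circleAverage_eq_circleIntegral hr.ne']
  have h := hg.circleIntegral_one_div_sub_center_pow_smul hr n
  have h2 : (∮ z in C(0, r), (z - 0)⁻¹ • ((z / (r : ℂ)) ^ (-(n : ℤ)) * g z)) =
      (r : ℂ) ^ n * ∮ z in C(0, r), (1 / (z - 0) ^ (n + 1)) • g z := by
    rw [← circleIntegral.integral_const_mul]
    apply circleIntegral.integral_congr hr.le
    intro z hz
    have hz0 : z ≠ 0 := by
      intro h0
      have : ‖z‖ = r := by simpa using hz
      rw [h0, norm_zero] at this; linarith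
    simp only [sub_zero, smul_eq_mul, zpow_neg, zpow_natCast, div_pow]
    field_simp
    ring
  rw [h2, h]
  unfold co
  have hpi : (2 * π * I : ℂ) ≠ 0 := Complex.two_pi_I_ne_zero
  simp only [smul_eq_mul]
  field_simp

/-- negative modes of a holomorphic function vanish -/
theorem md_neg (hr : 0 < r) (n : ℕ) (hn : n ≠ 0) (hg : DifferentiableOn ℂ g (closedBall 0 r)) :
    md (-(n : ℤ)) r g = 0 := by
  unfold md av
  have hd : DifferentiableOn ℂ (fun z : ℂ => (z / (r : ℂ)) ^ n * g z) (closedBall 0 r) := by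
    apply DifferentiableOn.mul _ hg
    fun_prop
  have h1 : Real.circleAverage (fun z : ℂ => (z / (r : ℂ)) ^ n * g z) 0 r = 0 := by
    rw [DiffContOnCl.circleAverage]
    · simp [hn]
    · rw [abs_of_pos hr]
      exact (hd.mono closure_ball_subset_closedBall).diffContOnCl
  simpa using h1

theorem md_int_neg (hr : 0 < r) {k : ℤ} (hk : k < 0) (hg : DifferentiableOn ℂ g (closedBall 0 r)) :
    md k r g = 0 := by
  obtain ⟨n, rfl⟩ : ∃ n : ℕ, k = -(n : ℤ) := ⟨k.natAbs, by omega⟩
  exact md_neg hr n (by omega) hg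

theorem co_zero : co g 0 = g 0 := by simp [co]

theorem co_one : co g 1 = deriv g 0 := by simp [co, iteratedDeriv_one]

theorem md_zero_eq (f : ℂ → ℂ) : md 0 r f = av r f := by simp [md]

/-! ### functions with nonnegative real part -/

/-- modes of `2 Re q` -/
theorem md_two_re (hr : 0 < r) (k : ℤ) (hg : ContinuousOn g (sphere 0 r)) :
    md k r (fun z => ((2 * (g z).re : ℝ) : ℂ)) = md k r g + conj (md (-k) r g) := by
  have hcg : ContinuousOn (fun z => conj (g z)) (sphere 0 r) :=
    continuous_conj.comp_continuousOn hg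
  rw [← md_conj hr k hg, ← md_add hr k hg hcg]
  apply md_congr hr k fun z _ => ?_
  rw [Complex.add_conj]

theorem norm_md_real_le (hr : 0 < r) (k : ℤ) {F : ℂ → ℝ} (hF : ∀ z ∈ sphere (0 : ℂ) r, 0 ≤ F z) :
    ‖md k r (fun z => (F z : ℂ))‖ ≤ avr r F := by
  refine (norm_md_le hr k).trans_eq ?_
  apply avr_congr hr fun z hz => ?_
  rw [Complex.norm_real, Real.norm_of_nonneg (hF z hz)]

/-- Carathéodory coefficient bounds: if `Re g ≥ 0` on `|z| = r` then `r ^ n |g_n| ≤ 2 Re g(0)` -/
theorem caratheodory (hr : 0 < r) (hg : DifferentiableOn ℂ g (closedBall 0 r))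
    (hpos : ∀ z ∈ sphere (0 : ℂ) r, 0 ≤ (g z).re) (n : ℕ) (hn : n ≠ 0) :
    r ^ n * ‖co g n‖ ≤ 2 * (g 0).re := by
  have hc : ContinuousOn g (sphere 0 r) := hg.continuousOn.mono sphere_subset_closedBall
  have h1 := norm_md_real_le hr (n : ℤ) (F := fun z => 2 * (g z).re)
    (fun z hz => by have := hpos z hz; positivity)
  rw [md_two_re hr _ hc, md_nat hr n hg, md_neg hr n hn hg, map_zero, add_zero, norm_mul,
    norm_pow, Complex.norm_real, Real.norm_of_nonneg hr.le] at h1
  refine h1.trans_eq ?_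
  have h2 : avr r (fun z => 2 * (g z).re) = 2 * (av r g).re := by
    rw [avr_const_mul, av_re hr hc]
  rw [h2, ← md_zero_eq]
  have := md_nat hr 0 hg
  simp only [Nat.cast_zero, pow_zero, one_mul, co_zero] at this
  rw [this]

end Pool.Agent.SP
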