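import Pool.Agent.Lib52.SP.Trans

set_option autoImplicit false

open Set Metric Filter MeasureTheory Complex
open scoped Topology ComplexConjugate

namespace Pool.Agent.SP

/-- the maps of the chain have invertible differentials -/
def Reg (F : ℝ → Hol) : Prop :=
  ∀ t, 0 ≤ t → ∀ z ∈ ball (0 : E) 1, Function.Injective (fderiv ℂ (ev (F t)) z)

namespace IsNormalChain

variable {F : ℝ → Hol} (hF : IsNormalChain F)
include hF

theorem bound {r : ℝ} (hr : r < 1) : ∃ K : ℝ, 0 ≤ K ∧ ∀ t, 0 ≤ t → ∀ z : E, ‖z‖ ≤ r →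
    ‖ev (F t) z‖ ≤ Real.exp t * K := by
  obtain ⟨K, hK⟩ := bounded_of_isCompact_closure hF.normal hr
  refine ⟨|K|, abs_nonneg _, fun t ht z hz => ?_⟩
  have hzb : z ∈ ball (0 : E) 1 := by rw [mem_ball_zero_iff]; linarith
  have h1 := hK _ ⟨t, ht, rfl⟩ z hz
  rw [ev_smul _ _ hzb, norm_smul, Complex.norm_real, Real.norm_of_nonneg (Real.exp_pos _).le] at h1
  have h2 : Real.exp t * (Real.exp (-t) * ‖ev (F t) z‖) = ‖ev (F t) z‖ := by
    rw [← mul_assoc, ← Real.exp_add]; simp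
  rw [← h2]
  apply mul_le_mul_of_nonneg_left _ (Real.exp_pos _).le
  exact h1.trans (le_abs_self _)

theorem fderiv_bound {r : ℝ} (hr : r < 1) : ∃ K : ℝ, 0 ≤ K ∧ ∀ t, 0 ≤ t → ∀ z : E, ‖z‖ ≤ r →
    ‖fderiv ℂ (ev (F t)) z‖ ≤ Real.exp t * K := by
  have hr2 : (1 + r) / 2 < 1 := by linarith
  obtain ⟨K, hK0, hK⟩ := hF.bound hr2
  have hδ : 0 < (1 - r) / 2 := by linarith
  refine ⟨2 * K / ((1 - r) / 2), by positivity, fun t ht z hz => ?_⟩
  have hsub : ∀ w ∈ ball z ((1 - r) / 2), ‖w‖ ≤ (1 + r) / 2 := by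
    intro w hw
    rw [mem_ball, dist_eq_norm] at hw
    have : ‖w‖ ≤ ‖w - z‖ + ‖z‖ := by simpa using norm_add_le (w - z) z
    linarith
  have h1 := norm_fderiv_le_of_bound hδ (f := ev (F t)) (c := z) (K := Real.exp t * K)
    ((ev_diff (F t)).mono fun w hw => by
      rw [mem_ball_zero_iff]; linarith [hsub w hw]) (fun w hw => hK t ht w (hsub w hw))
  refine h1.trans_eq (by ring)

theorem transition (hreg : Reg F) {s t : ℝ} (hs : 0 ≤ s) (hst : s ≤ t) :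
    ∃ φ : E → E, DifferentiableOn ℂ φ (ball (0 : E) 1) ∧
      (∀ z ∈ ball (0 : E) 1, φ z ∈ ball (0 : E) 1) ∧
      (∀ z ∈ ball (0 : E) 1, ev (F t) (φ z) = ev (F s) z) ∧ φ 0 = 0 ∧
      fderiv ℂ φ 0 = ((Real.exp (s - t) : ℝ) : ℂ) • ContinuousLinearMap.id ℂ E := by
  have ht : 0 ≤ t := hs.trans hst
  obtain ⟨φ, hφ, hφ2⟩ := exists_transition (ev_diff (F s)) (ev_diff (F t)) (hF.univalent t ht)
    (hreg t ht) (hF.mono s t hs hst)
  have h0 : φ 0 = 0 := by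
    apply hF.univalent t ht (hφ2 0 zero_mem_ball).1 zero_mem_ball
    rw [(hφ2 0 zero_mem_ball).2, hF.zero s hs, hF.zero t ht]
  refine ⟨φ, hφ, fun z hz => (hφ2 z hz).1, fun z hz => (hφ2 z hz).2, h0, ?_⟩
  have d1 : HasFDerivAt (ev (F t)) (((Real.exp t : ℝ) : ℂ) • ContinuousLinearMap.id ℂ E) (φ 0) := by
    rw [h0, ← hF.deriv t ht]
    exact (ev_diffAt (F t) zero_mem_ball).hasFDerivAt
  have d2 : HasFDerivAt φ (fderiv ℂ φ 0) 0 :=
    (hφ.differentiableAt (isOpen_ball.mem_nhds zero_mem_ball)).hasFDerivAt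
  have d3 := HasFDerivAt.comp 0 d1 d2
  have d4 : HasFDerivAt (ev (F s)) (((Real.exp s : ℝ) : ℂ) • ContinuousLinearMap.id ℂ E) 0 := by
    rw [← hF.deriv s hs]
    exact (ev_diffAt (F s) zero_mem_ball).hasFDerivAt
  have d5 : HasFDerivAt (ev (F s)) ((((Real.exp t : ℝ) : ℂ) • ContinuousLinearMap.id ℂ E).comp
      (fderiv ℂ φ 0)) 0 := by
    refine d3.congr_of_eventuallyEq ?_
    filter_upwards [isOpen_ball.mem_nhds zero_mem_ball] with w hw
    exact (hφ2 w hw).2.symm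
  have e1 := d5.unique d4
  ext1 v
  have e2 := congrArg (fun A : E →L[ℂ] E => A v) e1
  have e3 : ((Real.exp t : ℝ) : ℂ) • (fderiv ℂ φ 0 v) = ((Real.exp s : ℝ) : ℂ) • v := e2
  show fderiv ℂ φ 0 v = ((Real.exp (s - t) : ℝ) : ℂ) • v
  have hne : ((Real.exp t : ℝ) : ℂ) ≠ 0 := by exact_mod_cast (Real.exp_pos t).ne'
  have e4 : ((Real.exp (s - t) : ℝ) : ℂ) = ((Real.exp t : ℝ) : ℂ)⁻¹ * ((Real.exp s : ℝ) : ℂ) := by
    rw [Real.exp_sub]; push_cast; field_simp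
  rw [e4, mul_smul, ← e3, smul_smul, inv_mul_cancel₀ hne, one_smul]

theorem lipschitz (hreg : Reg F) {r : ℝ} (hr0 : 0 ≤ r) (hr : r < 1) {T : ℝ} (_hT : 0 ≤ T) :
    ∃ C : ℝ, 0 ≤ C ∧ ∀ s t, 0 ≤ s → s ≤ t → t ≤ T → ∀ z : E, ‖z‖ ≤ r →
      ‖ev (F t) z - ev (F s) z‖ ≤ C * (t - s) := by
  obtain ⟨K, hK0, hK⟩ := hF.fderiv_bound hr
  have h1r : 0 < 1 - r := by linarith
  refine ⟨Real.exp T * K * (8 / (1 - r) ^ 2), by positivity, fun s t hs hst htT z hz => ?_⟩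
  rcases eq_or_lt_of_le hst with heq | hlt
  · rw [heq]; simp
  obtain ⟨φ, hφ, hφm, hφe, hφ0, hφ'⟩ := hF.transition hreg hs hst
  have hzb : z ∈ ball (0 : E) 1 := by rw [mem_ball_zero_iff]; linarith
  have hα : Real.exp (s - t) < 1 := by rw [Real.exp_lt_one_iff]; linarith
  have h1 := norm_psi_bound hφ hφm hφ0 hφ' hα hr0 hr hz
  have h2 : 1 - Real.exp (s - t) ≤ t - s := by
    have := Real.add_one_le_exp (s - t)
    linarith
  have h3 : ‖z - φ z‖ ≤ 8 / (1 - r) ^ 2 * (t - s) := by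
    refine h1.trans ?_
    calc 8 * (1 - Real.exp (s - t)) / (1 - r) ^ 2 ≤ 8 * (t - s) / (1 - r) ^ 2 := by gcongr
      _ = _ := by ring
  have hφz : ‖φ z‖ ≤ r := by
    refine (Complex.norm_le_norm_of_mapsTo_ball hφ (fun w hw => ball_subset_closedBall (hφm w hw))
      hφ0 (mem_ball_zero_iff.1 hzb)).trans hz
  rw [← hφe z hzb]
  let _ : NormedSpace ℝ E := NormedSpace.restrictScalars ℝ ℂ E
  have h4 := (convex_closedBall (0 : E) r).norm_image_sub_le_of_norm_fderiv_le (𝕜 := ℂ)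
    (f := ev (F t)) (C := Real.exp T * K)
    (fun w hw => ev_diffAt (F t) (by
      rw [mem_ball_zero_iff]; have : ‖w‖ ≤ r := by simpa using hw
      linarith))
    (fun w hw => by
      refine (hK t (hs.trans hst) w (by simpa using hw)).trans ?_
      gcongr)
    (x := φ z) (y := z) (by simpa using hφz) (by simpa using hz)
  calc _ ≤ Real.exp T * K * ‖z - φ z‖ := h4
    _ ≤ Real.exp T * K * (8 / (1 - r) ^ 2 * (t - s)) := by gcongr
    _ = _ := by ring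

theorem D2_rel (hreg : Reg F) {s t : ℝ} (hs : 0 ≤ s) (hst : s ≤ t) :
    Real.exp (-s) * ‖D2 (ev (F s))‖ ≤ 4 * (Real.exp (t - s) - 1) +
      Real.exp (s - t) * (Real.exp (-t) * ‖D2 (ev (F t))‖) := by
  obtain ⟨φ, hφ, hφm, hφe, hφ0, hφ'⟩ := hF.transition hreg hs hst
  have ht : 0 ≤ t := hs.trans hst
  have hα : Real.exp (s - t) ≤ 1 := (exp_bounds hst).2
  have h1 := D2_comp (ev_diff (F s)) (ev_diff (F t)) hφ hφm hφ0 hφe hφ' (hF.deriv t ht)
  have h2 := norm_D2_le hφ hφm hφ0 hφ' hα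
  rw [h1]
  have h3 : ‖((Real.exp t : ℝ) : ℂ) * D2 φ + ((Real.exp (s - t) : ℝ) : ℂ) ^ 2 * D2 (ev (F t))‖ ≤
      Real.exp t * (4 * (1 - Real.exp (s - t))) + Real.exp (s - t) ^ 2 * ‖D2 (ev (F t))‖ := by
    refine (norm_add_le _ _).trans ?_
    rw [norm_mul, norm_mul, norm_pow, Complex.norm_real, Complex.norm_real,
      Real.norm_of_nonneg (Real.exp_pos _).le, Real.norm_of_nonneg (Real.exp_pos _).le]
    gcongr
  calc _ ≤ Real.exp (-s) * (Real.exp t * (4 * (1 - Real.exp (s - t))) +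
        Real.exp (s - t) ^ 2 * ‖D2 (ev (F t))‖) := by gcongr
    _ = 4 * (Real.exp (-s) * Real.exp t - Real.exp (-s) * Real.exp t * Real.exp (s - t)) +
        Real.exp (-s) * Real.exp (s - t) * Real.exp (s - t) * ‖D2 (ev (F t))‖ := by ring
    _ = _ := by
        rw [← Real.exp_add, ← Real.exp_add, ← Real.exp_add]
        have e1 : -s + t = t - s := by ring
        have e2 : -s + t + (s - t) = 0 := by ring
        have e3 : -s + (s - t) = -t := by ring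
        rw [e1, show t - s + (s - t) = 0 by ring, e3, Real.exp_zero]
        ring

theorem D2_bdd : ∃ K : ℝ, ∀ t, 0 ≤ t → Real.exp (-t) * ‖D2 (ev (F t))‖ ≤ K := by
  obtain ⟨K, hK0, hK⟩ := hF.bound (r := 1 / 2) (by norm_num)
  refine ⟨8 * K, fun t ht => ?_⟩
  have h1 := co_two_eq (ev_diff (F t))
  have h2 : D2 (ev (F t)) = 2 * co (sl (F t)) 2 := by
    have : co (sl (F t)) 2 = D2 (ev (F t)) / 2 := h1
    rw [this]; ring
  have h3 : ‖co (sl (F t)) 2‖ ≤ 4 * (Real.exp t * K) := by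
    apply norm_co_two_le (sl_diff (F t))
    intro ζ hζ
    have hn : ‖ζ‖ = 1 / 2 := by simpa using hζ
    exact (norm_coord_le _ 0).trans (hK t ht _ (by rw [norm_pt_zero, hn]))
  rw [h2, norm_mul, Complex.norm_ofNat]
  calc _ ≤ Real.exp (-t) * (2 * (4 * (Real.exp t * K))) := by gcongr
    _ = 8 * K * (Real.exp (-t) * Real.exp t) := by ring
    _ = 8 * K := by rw [← Real.exp_add]; simp

/-- the coefficient bound `|a| ≤ 2` for all times -/
theorem D2_le (hreg : Reg F) {t : ℝ} (ht : 0 ≤ t) :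
    Real.exp (-t) * ‖D2 (ev (F t))‖ ≤ 4 := by
  obtain ⟨K, hK⟩ := hF.D2_bdd
  set N : ℝ → ℝ := fun t => Real.exp (-t) * ‖D2 (ev (F t))‖ with hN
  set S : ℝ := sSup (N '' Ici 0) with hS
  have hbdd : BddAbove (N '' Ici 0) := ⟨K, by rintro _ ⟨t, ht, rfl⟩; exact hK t ht⟩
  have hle : ∀ t, 0 ≤ t → N t ≤ S := fun t ht => le_csSup hbdd ⟨t, ht, rfl⟩
  have hkey : ∀ δ : ℝ, 0 < δ → S ≤ 4 * Real.exp δ := by
    intro δ hδ
    have h1 : S ≤ 4 * (Real.exp δ - 1) + Real.exp (-δ) * S := by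
      apply csSup_le (⟨N 0, 0, self_mem_Ici, rfl⟩ : (N '' Ici 0).Nonempty)
      rintro _ ⟨s, hs, rfl⟩
      have hs' : 0 ≤ s := hs
      have h2 := hF.D2_rel hreg hs' (t := s + δ) (by linarith)
      have e1 : s + δ - s = δ := by ring
      have e2 : s - (s + δ) = -δ := by ring
      rw [e1, e2] at h2
      refine h2.trans ?_
      gcongr
      exact hle (s + δ) (by linarith)
    have h3 : Real.exp (-δ) * Real.exp δ = 1 := by rw [← Real.exp_add]; simp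
    have h4 : Real.exp (-δ) < 1 := by rw [Real.exp_lt_one_iff]; linarith
    have h5 : S * (1 - Real.exp (-δ)) ≤ 4 * Real.exp δ * (1 - Real.exp (-δ)) := by
      nlinarith
    exact le_of_mul_le_mul_right h5 (by linarith)
  have h6 : S ≤ 4 := by
    have t1 : Tendsto (fun δ : ℝ => 4 * Real.exp δ) (𝓝[>] 0) (𝓝 (4 * Real.exp 0)) := by
      apply Tendsto.mono_left _ nhdsWithin_le_nhds
      apply Continuous.tendsto; fun_prop
    rw [Real.exp_zero, mul_one] at t1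
    apply ge_of_tendsto t1
    filter_upwards [self_mem_nhdsWithin] with δ hδ using hkey δ hδ
  exact (hle t ht).trans h6

theorem Lf_le (hreg : Reg F) : (Lf (F 0)).re ≤ 2 := by
  have h1 := hF.D2_le hreg le_rfl
  have h2 : Lf (F 0) = D2 (ev (F 0)) / 2 := co_two_eq (ev_diff (F 0))
  rw [neg_zero, Real.exp_zero, one_mul] at h1
  calc (Lf (F 0)).re ≤ ‖Lf (F 0)‖ := Complex.re_le_norm _
    _ = ‖D2 (ev (F 0))‖ / 2 := by rw [h2, norm_div, Complex.norm_ofNat]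
    _ ≤ 2 := by linarith

end IsNormalChain

end Pool.Agent.SP
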