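import Pool.Agent.Lib52.SP.CoT

set_option autoImplicit false

open Set Metric Filter MeasureTheory Complex
open scoped Topology ComplexConjugate

namespace Pool.Agent.SP

/-- a chain generated by a continuous field -/
structure Gen (F H : ℝ → Hol) : Prop where
  nc : IsNormalChain F
  reg : Reg F
  cont : ContinuousOn H (Ici 0)
  mb : ∀ t, 0 ≤ t → MB (hh H t)
  der : ∀ z ∈ ball (0 : E) 1, ∀ t, 0 < t → HasDerivAt (fun s => ev (F s) z) (gt F H t z) t

theorem Gen.of {F H : ℝ → Hol} (hF : IsNormalChain F) (hreg : Reg F)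
    (hH : ContinuousOn H (Ici 0)) {G : E → ℝ → E} (hG : IsHerglotz G)
    (hGH : ∀ t, 0 ≤ t → ∀ z ∈ ball (0 : E) 1, G z t = ev (H t) z) (hgen : Generates G F) :
    Gen F H where
  nc := hF
  reg := hreg
  cont := hH
  mb := hh_MB hH hG hGH
  der := fun _ hz _ ht => hasDerivAt_F hF hreg hH hGH hgen hz ht

theorem hasDerivAt_coordR {g : ℝ → E} {g' : E} {t : ℝ} (h : HasDerivAt g g' t) (i : Fin 2) :
    HasDerivAt (fun s => g s i) (g' i) t := by
  have := (((pr i).restrictScalars ℝ).hasFDerivAt (x := g t)).comp_hasDerivAt t h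
  exact this

theorem slice_diff {f : E → E} (hf : DifferentiableOn ℂ f (ball (0 : E) 1)) (i : Fin 2) :
    DifferentiableOn ℂ (fun ζ => f (pt ζ 0) i) (ball 0 1) := by
  intro ζ hζ
  exact (deriv_slice hf i (by simpa using hζ)).differentiableAt.differentiableWithinAt

namespace Gen

variable {F H : ℝ → Hol} (hg : Gen F H)
include hg

theorem gt_bound {r : ℝ} (hr0 : 0 ≤ r) (hr : r < 1) (T : ℝ) (hT : 0 ≤ T) :
    ∃ K : ℝ, 0 ≤ K ∧ ∀ t, 0 < t → t < T → ∀ z : E, ‖z‖ ≤ r → ‖gt F H t z‖ ≤ K := by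
  obtain ⟨C, hC0, hC⟩ := hg.nc.lipschitz hg.reg hr0 hr hT
  refine ⟨C, hC0, fun t ht htT z hz => ?_⟩
  have hzb : z ∈ ball (0 : E) 1 := by rw [mem_ball_zero_iff]; linarith
  apply (hg.der z hzb t ht).le_of_lip' hC0
  filter_upwards [Ioo_mem_nhds ht htT] with s hs
  rw [Real.norm_eq_abs]
  rcases le_total s t with hst | hst
  · have h1 := hC s t hs.1.le hst htT.le z hz
    rw [norm_sub_rev]
    refine h1.trans_eq ?_
    rw [abs_of_nonpos (by linarith)]; ring
  · have h1 := hC t s ht.le hst hs.2.le z hz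
    refine h1.trans_eq ?_
    rw [abs_of_nonneg (by linarith)]

/-- jets of the first component of the time derivative -/
theorem co_gt (t : ℝ) (ht : 0 ≤ t) : co (fun ζ => gt F H t (pt ζ 0) 0) 2 =
    2 * co (sl (F t)) 2 + (Real.exp t : ℝ) * (D2 (hh H t) / 2) := by
  have hM := hg.mb t ht
  have dF := ev_diff (F t)
  have d1 := differentiableOn_fderiv_apply isOpen_ball dF e₁
  have d2 := differentiableOn_fderiv_apply isOpen_ball dF e₂
  have u1 := slice_diff hM.diff 0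
  have u2 := slice_diff hM.diff 1
  have v1 := slice_diff d1 0
  have v2 := slice_diff d2 0
  have hc := hg.nc.deriv t ht
  have e : co (fun ζ => gt F H t (pt ζ 0) 0) 2 =
      co (fun ζ => hh H t (pt ζ 0) 0 * fderiv ℂ (ev (F t)) (pt ζ 0) e₁ 0 +
        hh H t (pt ζ 0) 1 * fderiv ℂ (ev (F t)) (pt ζ 0) e₂ 0) 2 := by
    apply co_congr
    intro ζ _
    rw [gt_eq]
    rfl
  have m1 : DifferentiableOn ℂ (fun ζ => hh H t (pt ζ 0) 0 *
      fderiv ℂ (ev (F t)) (pt ζ 0) e₁ 0) (ball 0 1) := u1.mul v1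
  have m2 : DifferentiableOn ℂ (fun ζ => hh H t (pt ζ 0) 1 *
      fderiv ℂ (ev (F t)) (pt ζ 0) e₂ 0) (ball 0 1) := u2.mul v2
  rw [e, co_add' m1 m2, (co_mul u1 v1).2, (co_mul u2 v2).2]
  have a1 : hh H t (pt 0 0) 0 = 0 := hM.P_zero
  have a2 : hh H t (pt 0 0) 1 = 0 := by rw [pt00, hM.zero]; rfl
  have a3 : co (fun ζ => hh H t (pt ζ 0) 0) 1 = 1 := by
    rw [co_one, (deriv_slice hM.diff 0 (ζ := 0) (by simp)).deriv, pt00, hM.der]; rfl
  have a4 : co (fun ζ => hh H t (pt ζ 0) 1) 1 = 0 := by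
    rw [co_one, (deriv_slice hM.diff 1 (ζ := 0) (by simp)).deriv, pt00, hM.der]; rfl
  have a5 : co (fun ζ => fderiv ℂ (ev (F t)) (pt ζ 0) e₁ 0) 1 = D2 (ev (F t)) := by
    rw [co_one, (deriv2_slice dF).deriv]
  have a6 : fderiv ℂ (ev (F t)) (pt 0 0) e₁ 0 = (Real.exp t : ℝ) := by
    rw [pt00, hc]
    show ((Real.exp t : ℝ) : ℂ) * (1 : ℂ) = _
    ring
  have a7 : fderiv ℂ (ev (F t)) (pt 0 0) e₂ 0 = 0 := by
    rw [pt00, hc]
    show ((Real.exp t : ℝ) : ℂ) * (0 : ℂ) = _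
    ring
  have a8 : co (fun ζ => hh H t (pt ζ 0) 0) 2 = D2 (hh H t) / 2 := co_two_eq hM.diff
  have a9 : co (sl (F t)) 2 = D2 (ev (F t)) / 2 := co_two_eq dF
  rw [a1, a2, a3, a4, a5, a6, a7, a8, a9]
  ring

theorem lip_slice (r : ℝ) (hr0 : 0 ≤ r) (hr : r < 1) (T : ℝ) (hT : 0 ≤ T) :
    ∃ C : ℝ, 0 ≤ C ∧ ∀ s t, 0 ≤ s → s ≤ t → t ≤ T → ∀ z : E, ‖z‖ ≤ r → ∀ i : Fin 2,
      ‖ev (F t) z i - ev (F s) z i‖ ≤ C * (t - s) := by
  obtain ⟨C, hC0, hC⟩ := hg.nc.lipschitz hg.reg hr0 hr hT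
  refine ⟨C, hC0, fun s t hs hst htT z hz i => ?_⟩
  exact (norm_coord_le (ev (F t) z - ev (F s) z) i).trans (hC s t hs hst htT z hz)

theorem a_deriv {t : ℝ} (ht : 0 < t) : HasDerivAt (fun t => co (sl (F t)) 2)
    (2 * co (sl (F t)) 2 + (Real.exp t : ℝ) * (D2 (hh H t) / 2)) t := by
  rw [← hg.co_gt t ht.le]
  have hr : (0 : ℝ) < 1 / 2 := by norm_num
  have hr1 : (1 / 2 : ℝ) < 1 := by norm_num
  obtain ⟨K, hK0, hK⟩ := hg.gt_bound hr.le hr1 (t + 1) (by linarith)
  have hn : ∀ ζ ∈ sphere (0 : ℂ) (1 / 2), ‖pt ζ 0‖ ≤ 1 / 2 := by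
    intro ζ hζ
    rw [norm_pt_zero]
    have : ‖ζ‖ = 1 / 2 := by simpa using hζ
    exact this.le
  refine hasDerivAt_co (y := fun t => sl (F t)) (y' := fun t ζ => gt F H t (pt ζ 0) 0) hr
    (s := Ioo 0 (t + 1)) (Ioo_mem_nhds ht (by linarith)) ?_ ?_ ?_ (K := K) ?_ 2
  · intro s _
    exact differentiableOn_of_closedBall (sl_diff (F s)) hr1
  · exact differentiableOn_of_closedBall (slice_diff (gt_diff F H t) 0) hr1
  · intro s hs ζ hζ
    have hz : pt ζ 0 ∈ ball (0 : E) 1 := by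
      rw [mem_ball_zero_iff]; linarith [hn ζ hζ]
    exact hasDerivAt_coordR (hg.der _ hz s hs.1) 0
  · intro s hs ζ hζ
    exact (norm_coord_le _ 0).trans (hK s hs.1 hs.2 _ (hn ζ hζ))

theorem a_cont : ContinuousOn (fun t => co (sl (F t)) 2) (Ici 0) := by
  apply continuousOn_of_lip
  intro T hT
  have hr : (0 : ℝ) < 1 / 2 := by norm_num
  have hr1 : (1 / 2 : ℝ) < 1 := by norm_num
  obtain ⟨C, hC0, hC⟩ := hg.lip_slice (1 / 2) hr.le hr1 T hT
  refine ⟨4 * C, by positivity, fun s t hs hst htT => ?_⟩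
  have h1 := norm_co_sub_le (A := sl (F t)) (B := sl (F s)) (K := C * (t - s)) hr
    (differentiableOn_of_closedBall (sl_diff (F t)) hr1)
    (differentiableOn_of_closedBall (sl_diff (F s)) hr1) (by
      intro ζ hζ
      have hn : ‖pt ζ 0‖ ≤ 1 / 2 := by
        rw [norm_pt_zero]
        have : ‖ζ‖ = 1 / 2 := by simpa using hζ
        exact this.le
      exact hC s t hs hst htT _ hn 0) 2
  have e : (1 / 2 : ℝ) ^ 2 = 1 / 4 := by norm_num
  rw [e] at h1
  linarith

theorem norm_a_le {t : ℝ} (ht : 0 ≤ t) : ‖co (sl (F t)) 2‖ ≤ 2 * Real.exp t := by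
  have h1 := hg.nc.D2_le hg.reg ht
  have h2 : co (sl (F t)) 2 = D2 (ev (F t)) / 2 := co_two_eq (ev_diff (F t))
  rw [h2, norm_div, Complex.norm_ofNat]
  have h3 : Real.exp t * (Real.exp (-t) * ‖D2 (ev (F t))‖) = ‖D2 (ev (F t))‖ := by
    rw [← mul_assoc, ← Real.exp_add]; simp
  have h4 : Real.exp t * (Real.exp (-t) * ‖D2 (ev (F t))‖) ≤ Real.exp t * 4 := by
    gcongr
  rw [h3] at h4
  linarith

/-- extremality propagates -/
theorem D2_hh (h0 : co (sl (F 0)) 2 = 2) : ∀ t, 0 ≤ t → D2 (hh H t) = -4 := by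
  set u : ℝ → ℝ := fun t => Real.exp (-(2 * t)) * (co (sl (F t)) 2).re - 2 * Real.exp (-t) with hu
  have hder : ∀ t, 0 < t → HasDerivAt u (Real.exp (-t) * ((D2 (hh H t)).re / 2 + 2)) t := by
    intro t ht
    have h1 := hg.a_deriv ht
    have h2 : HasDerivAt (fun t => (co (sl (F t)) 2).re)
        (2 * co (sl (F t)) 2 + (Real.exp t : ℝ) * (D2 (hh H t) / 2)).re t :=
      (Complex.reCLM.hasFDerivAt).comp_hasDerivAt t h1
    have h3 : HasDerivAt (fun t : ℝ => Real.exp (-(2 * t))) (Real.exp (-(2 * t)) * (-2)) t := by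
      have : HasDerivAt (fun t : ℝ => -(2 * t)) (-2) t := by
        simpa using ((hasDerivAt_id t).const_mul 2).fun_neg
      exact this.exp
    have h4 : HasDerivAt (fun t : ℝ => Real.exp (-t)) (Real.exp (-t) * (-1)) t :=
      (hasDerivAt_neg t).exp
    have h5 := (h3.mul h2).sub (h4.const_mul 2)
    refine h5.congr_deriv ?_
    have e1 : (2 * co (sl (F t)) 2 + (Real.exp t : ℝ) * (D2 (hh H t) / 2)).re =
        2 * (co (sl (F t)) 2).re + Real.exp t * ((D2 (hh H t)).re / 2) := by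
      rw [Complex.add_re, Complex.re_ofReal_mul, Complex.div_ofNat_re]
      simp
    rw [e1]
    have e2 : Real.exp (-(2 * t)) = Real.exp (-t) * Real.exp (-t) := by
      rw [← Real.exp_add]; congr 1; ring
    have e3 : Real.exp (-t) * Real.exp t = 1 := by rw [← Real.exp_add]; simp
    rw [e2]
    linear_combination (Real.exp (-t) * (D2 (hh H t)).re / 2) * e3
  have hcont : ContinuousOn u (Ici 0) := by
    apply ContinuousOn.sub
    · apply ContinuousOn.mul
      · exact Continuous.continuousOn (by fun_prop)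
      · exact Complex.continuous_re.comp_continuousOn hg.a_cont
    · exact Continuous.continuousOn (by fun_prop)
  have hnn : ∀ t, 0 < t → 0 ≤ Real.exp (-t) * ((D2 (hh H t)).re / 2 + 2) := by
    intro t ht
    have h1 := (hg.mb t ht.le).D2_le
    have h2 : -(D2 (hh H t)).re ≤ ‖D2 (hh H t)‖ := by
      have := Complex.abs_re_le_norm (D2 (hh H t))
      exact (neg_le_abs _).trans this
    have := Real.exp_pos (-t)
    apply mul_nonneg this.le
    linarith
  have hmono : MonotoneOn u (Ici 0) := by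
    apply monotoneOn_of_deriv_nonneg (convex_Ici 0) hcont
    · rw [interior_Ici]
      intro t ht
      exact (hder t ht).differentiableAt.differentiableWithinAt
    · rw [interior_Ici]
      intro t ht
      rw [(hder t ht).deriv]
      exact hnn t ht
  have hu0 : u 0 = 0 := by
    simp only [hu, h0]
    norm_num
  have hule : ∀ t, 0 ≤ t → u t ≤ 0 := by
    intro t ht
    have h1 := hg.norm_a_le ht
    have h2 : (co (sl (F t)) 2).re ≤ 2 * Real.exp t := (Complex.re_le_norm _).trans h1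
    have e2 : Real.exp (-(2 * t)) = Real.exp (-t) * Real.exp (-t) := by
      rw [← Real.exp_add]; congr 1; ring
    have e3 : Real.exp (-t) * Real.exp t = 1 := by rw [← Real.exp_add]; simp
    have h3 : Real.exp (-(2 * t)) * (co (sl (F t)) 2).re ≤
        Real.exp (-(2 * t)) * (2 * Real.exp t) := by gcongr
    have h4 : Real.exp (-(2 * t)) * (2 * Real.exp t) = 2 * Real.exp (-t) := by
      rw [e2]; linear_combination (2 * Real.exp (-t)) * e3
    simp only [hu]
    linarith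
  have huz : ∀ t, 0 ≤ t → u t = 0 := by
    intro t ht
    apply le_antisymm (hule t ht)
    rw [← hu0]
    exact hmono self_mem_Ici ht ht
  have hpos : ∀ t, 0 < t → D2 (hh H t) = -4 := by
    intro t ht
    have h1 : HasDerivAt u 0 t := by
      refine (hasDerivAt_const t (0 : ℝ)).congr_of_eventuallyEq ?_
      filter_upwards [Ioi_mem_nhds ht] with s hs
      exact huz s (le_of_lt hs)
    have h2 := (hder t ht).unique h1
    have h3 : (D2 (hh H t)).re / 2 + 2 = 0 := by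
      rcases mul_eq_zero.1 h2 with h4 | h4
      · exact absurd h4 (Real.exp_pos _).ne'
      · exact h4
    have h4 : (D2 (hh H t)).re = -4 := by linarith
    have h5 := (hg.mb t ht.le).D2_le
    have h6 : ‖D2 (hh H t)‖ ^ 2 = (D2 (hh H t)).re ^ 2 + (D2 (hh H t)).im ^ 2 := by
      rw [← Complex.normSq_eq_norm_sq, Complex.normSq_apply]; ring
    have h7 : ‖D2 (hh H t)‖ ^ 2 ≤ 4 ^ 2 := by gcongr
    rw [h6, h4] at h7
    have h8 : (D2 (hh H t)).im = 0 := by nlinarith
    apply Complex.ext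
    · rw [h4]; simp
    · rw [h8]; simp
  -- at time zero, by continuity
  have hc2 : ContinuousOn (fun t => D2 (hh H t)) (Ici 0) := by
    have e : ∀ t ∈ Ici (0 : ℝ), D2 (hh H t) = -(2 * Lf (H t)) := by
      intro t ht
      have h1 : Lf (H t) = D2 (ev (H t)) / 2 := co_two_eq (ev_diff (H t))
      have h2 : D2 (hh H t) = -D2 (ev (H t)) := by
        unfold D2
        have h3 : (fun z => fderiv ℂ (hh H t) z e₁) = fun z => -fderiv ℂ (ev (H t)) z e₁ := by
          ext1 z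
          rw [fderiv_hh]; rfl
        rw [h3, fderiv_fun_neg]; rfl
      rw [h2, h1]; ring
    refine ContinuousOn.congr ?_ e
    exact ((Lf.continuous.comp_continuousOn hg.cont).const_smul (2 : ℂ)).neg.congr
      (fun t _ => by simp)
  have := mem_of_ae (K := {(-4 : ℂ)}) isClosed_singleton hc2 (by
    rw [ae_restrict_iff' measurableSet_Ici]
    have h1 : ∀ᵐ t : ℝ, t ≠ 0 := by
      rw [ae_iff]
      simp
    filter_upwards [h1] with t ht ht0
    exact hpos t (lt_of_le_of_ne ht0 (Ne.symm ht)))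
  exact this

theorem rigid (h0 : co (sl (F 0)) 2 = 2) {t : ℝ} (ht : 0 ≤ t) : Rigid (hh H t) :=
  (hg.mb t ht).rigid (hg.D2_hh h0 t ht)

end Gen

end Pool.Agent.SP
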