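import Pool.Agent.Lib52.SP.ODE1

set_option autoImplicit false

open Set Metric Filter MeasureTheory Complex
open scoped Topology ComplexConjugate

namespace Pool.Agent.SP

/-- symmetry of the second derivatives of a holomorphic map -/
theorem fderiv_symm {f : E → E} (hf : DifferentiableOn ℂ f (ball (0 : E) 1)) {z : E}
    (hz : z ∈ ball (0 : E) 1) (v w : E) :
    fderiv ℂ (fun z => fderiv ℂ f z v) z w = fderiv ℂ (fun z => fderiv ℂ f z w) z v := by
  have hrep : ∀ x : E, fderiv ℂ f x =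
      (ContinuousLinearMap.smulRightL ℂ E E (pr 0)) (fderiv ℂ f x e₁) +
        (ContinuousLinearMap.smulRightL ℂ E E (pr 1)) (fderiv ℂ f x e₂) := by
    intro x
    ext1 u
    conv_lhs => rw [E_eq u]
    rw [map_add, map_smul, map_smul]
    rfl
  have d1 := (differentiableOn_fderiv_apply isOpen_ball hf e₁).differentiableAt
    (isOpen_ball.mem_nhds hz)
  have d2 := (differentiableOn_fderiv_apply isOpen_ball hf e₂).differentiableAt
    (isOpen_ball.mem_nhds hz)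
  have k1 : DifferentiableAt ℂ (fun x => (ContinuousLinearMap.smulRightL ℂ E E (pr 0))
      (fderiv ℂ f x e₁)) z :=
    DifferentiableAt.comp (f := fun x => fderiv ℂ f x e₁) z
      (ContinuousLinearMap.smulRightL ℂ E E (pr 0)).differentiableAt d1
  have k2 : DifferentiableAt ℂ (fun x => (ContinuousLinearMap.smulRightL ℂ E E (pr 1))
      (fderiv ℂ f x e₂)) z :=
    DifferentiableAt.comp (f := fun x => fderiv ℂ f x e₂) z
      (ContinuousLinearMap.smulRightL ℂ E E (pr 1)).differentiableAt d2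
  have hd : DifferentiableAt ℂ (fderiv ℂ f) z := by
    have h1 := k1.add k2
    refine h1.congr_of_eventuallyEq (Eventually.of_forall fun x => ?_)
    exact hrep x
  have hsym := second_derivative_symmetric_of_eventually (f := f) (f' := fderiv ℂ f) (x := z)
    (f'' := fderiv ℂ (fderiv ℂ f) z) (by
      filter_upwards [isOpen_ball.mem_nhds hz] with y hy
      exact (hf.differentiableAt (isOpen_ball.mem_nhds hy)).hasFDerivAt) hd.hasFDerivAt
  have happ : ∀ a b : E, fderiv ℂ (fun z => fderiv ℂ f z a) z b =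
      fderiv ℂ (fderiv ℂ f) z b a := by
    intro a b
    have h1 := hd.hasFDerivAt.clm_apply (hasFDerivAt_const a z)
    rw [h1.fderiv]
    simp
  rw [happ v w, happ w v]
  exact hsym w v

/-- the second diagonal entry of the differential on the slice -/
noncomputable def yy (f : E → E) (ζ : ℂ) : ℂ := (fderiv ℂ f (pt ζ 0) e₂) 1

theorem yy_diff {f : E → E} (hf : DifferentiableOn ℂ f (ball (0 : E) 1)) :
    DifferentiableOn ℂ (yy f) (ball 0 1) :=
  slice_diff (differentiableOn_fderiv_apply isOpen_ball hf e₂) 1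

theorem mem_sq {ζ : ℂ} (hζ : ‖ζ‖ < 1) : ‖ζ‖ ^ 2 + ‖(0 : ℂ)‖ ^ 2 < 1 := by
  rw [norm_zero]
  nlinarith [norm_nonneg ζ]

theorem yy_eq_co {f : E → E} (hf : DifferentiableOn ℂ f (ball (0 : E) 1)) {ζ : ℂ}
    (hζ : ‖ζ‖ < 1) : yy f ζ = co (fun w => f (pt ζ w) 1) 1 := by
  rw [co_one, (deriv_slice₂ hf 1 (mem_sq hζ)).deriv]
  rfl

theorem norm_pt_le {ζ w : ℂ} (hζ : ‖ζ‖ ≤ 1 / 2) (hw : ‖w‖ ≤ 1 / 2) : ‖pt ζ w‖ ≤ 3 / 4 := by
  have h := norm_pt_sq ζ w
  have h1 : ‖ζ‖ ^ 2 ≤ (1 / 2) ^ 2 := by gcongr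
  have h2 : ‖w‖ ^ 2 ≤ (1 / 2) ^ 2 := by gcongr
  have h3 : ‖pt ζ w‖ ^ 2 ≤ (3 / 4) ^ 2 := by rw [h]; linarith
  exact (sq_le_sq₀ (norm_nonneg _) (by norm_num)).1 h3

theorem wdiff {f : E → E} (hf : DifferentiableOn ℂ f (ball (0 : E) 1)) {ζ : ℂ}
    (hζ : ‖ζ‖ ≤ 1 / 2) : DifferentiableOn ℂ (fun w => f (pt ζ w) 1) (closedBall 0 (1 / 2)) := by
  intro w hw
  have hw' : ‖w‖ ≤ 1 / 2 := by simpa using hw
  have h1 : ‖ζ‖ ^ 2 ≤ (1 / 2) ^ 2 := by gcongr
  have h2 : ‖w‖ ^ 2 ≤ (1 / 2) ^ 2 := by gcongr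
  exact (deriv_slice₂ hf 1 (by linarith)).differentiableAt.differentiableWithinAt

theorem norm_yy_sub_le {f g : E → E} (hf : DifferentiableOn ℂ f (ball (0 : E) 1))
    (hg : DifferentiableOn ℂ g (ball (0 : E) 1)) {K : ℝ}
    (hK : ∀ z : E, ‖z‖ ≤ 3 / 4 → ‖f z 1 - g z 1‖ ≤ K) {ζ : ℂ} (hζ : ‖ζ‖ ≤ 1 / 2) :
    ‖yy f ζ - yy g ζ‖ ≤ 2 * K := by
  rw [yy_eq_co hf (by linarith), yy_eq_co hg (by linarith)]
  have hr : (0 : ℝ) < 1 / 2 := by norm_num
  have := norm_co_sub_le hr (wdiff hf hζ) (wdiff hg hζ) (K := K) (by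
    intro w hw
    have hw' : ‖w‖ = 1 / 2 := by simpa using hw
    exact hK _ (norm_pt_le hζ hw'.le)) 1
  rw [pow_one] at this
  linarith

theorem norm_yy_le {f : E → E} (hf : DifferentiableOn ℂ f (ball (0 : E) 1)) {K : ℝ}
    (hK : ∀ z : E, ‖z‖ ≤ 3 / 4 → ‖f z‖ ≤ K) {ζ : ℂ} (hζ : ‖ζ‖ ≤ 1 / 2) :
    ‖yy f ζ‖ ≤ 2 * K := by
  rw [yy_eq_co hf (by linarith)]
  have hr : (0 : ℝ) < 1 / 2 := by norm_num
  have := norm_co_le hr (wdiff hf hζ) (K := K) (by
    intro w hw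
    have hw' : ‖w‖ = 1 / 2 := by simpa using hw
    exact (norm_coord_le _ 1).trans (hK _ (norm_pt_le hζ hw'.le))) 1
  rw [pow_one] at this
  linarith

/-- the coefficient function `ζ pf ζ` -/
theorem co_W : co (fun ζ => ζ * pf ζ) 1 = 1 ∧ co (fun ζ => ζ * pf ζ) 2 = -2 := by
  refine co_of_expansion (a := 0) (g := fun ζ => 2 / (1 + ζ)) ?_ ?_
  · intro z hz
    have hz' : ‖z‖ < 1 := by simpa using hz
    exact (DifferentiableAt.div (by fun_prop) (by fun_prop)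
      (one_add_ne hz')).differentiableWithinAt
  · intro ζ hζ
    have hz' : ‖ζ‖ < 1 := by simpa using hζ
    have := one_add_ne hz'
    unfold pf
    field_simp
    ring

namespace Gen

variable {F H : ℝ → Hol} (hg : Gen F H)
include hg

/-- the transport equation on the slice -/
theorem yd_eq {t : ℝ} (ht : 0 ≤ t) (hR : Rigid (hh H t)) {ζ : ℂ} (hζ : ζ ∈ ball (0 : ℂ) 1) :
    yy (gt F H t) ζ = ζ * pf ζ * deriv (yy (ev (F t))) ζ + yy (hh H t) ζ * yy (ev (F t)) ζ := by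
  have hζ' : ‖ζ‖ < 1 := by simpa using hζ
  have hm := mem_sq hζ'
  have hM := hg.mb t ht
  have dF := ev_diff (F t)
  have d1 := differentiableOn_fderiv_apply isOpen_ball dF e₁
  have d2 := differentiableOn_fderiv_apply isOpen_ball dF e₂
  have k := deriv_slice₂ (gt_diff F H t) 1 hm
  have a1 := (deriv_slice₂ hM.diff 0 hm).mul (deriv_slice₂ d1 1 hm)
  have a2 := (deriv_slice₂ hM.diff 1 hm).mul (deriv_slice₂ d2 1 hm)
  have a3 := a1.add a2
  have hfun : (fun w => gt F H t (pt ζ w) 1) =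
      ((fun w => hh H t (pt ζ w) 0) * fun w => fderiv ℂ (ev (F t)) (pt ζ w) e₁ 1) +
        (fun w => hh H t (pt ζ w) 1) * fun w => fderiv ℂ (ev (F t)) (pt ζ w) e₂ 1 := by
    ext1 w
    rw [gt_eq]
    rfl
  rw [hfun] at k
  have a5 := k.unique a3
  have b1 : deriv (yy (ev (F t))) ζ =
      fderiv ℂ (fun z => fderiv ℂ (ev (F t)) z e₂) (pt ζ 0) e₁ 1 :=
    (deriv_slice d2 1 hζ').deriv
  have b2 := fderiv_symm dF (pt_zero_mem hζ') e₁ e₂
  unfold yy at b1 ⊢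
  rw [a5, b1, b2, hR.hA ζ hζ, hR.hP ζ hζ, hR.hB ζ hζ]
  ring

theorem yy_zero {t : ℝ} (ht : 0 ≤ t) : yy (ev (F t)) 0 = (Real.exp t : ℝ) := by
  unfold yy
  rw [pt00, hg.nc.deriv t ht]
  show ((Real.exp t : ℝ) : ℂ) * (1 : ℂ) = _
  ring

/-- Taylor coefficients of the right-hand side -/
theorem co_yd {t : ℝ} (ht : 0 ≤ t) (hR : Rigid (hh H t)) :
    co (yy (gt F H t)) 1 = 2 * co (yy (ev (F t))) 1 + co (yy (hh H t)) 1 * (Real.exp t : ℝ) ∧
    co (yy (gt F H t)) 2 = 3 * co (yy (ev (F t))) 2 +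
      (co (yy (hh H t)) 1 - 2) * co (yy (ev (F t))) 1 +
      co (yy (hh H t)) 2 * (Real.exp t : ℝ) := by
  have hy := yy_diff (ev_diff (F t))
  have hdy : DifferentiableOn ℂ (deriv (yy (ev (F t)))) (ball 0 1) := hy.deriv isOpen_ball
  have hC := hR.hC.diff
  have hC0 : yy (hh H t) 0 = 1 := hR.hC.one
  have hid : DifferentiableOn ℂ (fun ζ : ℂ => ζ) (ball 0 1) := differentiableOn_id
  have hW : DifferentiableOn ℂ (fun ζ => ζ * pf ζ) (ball 0 1) := hid.mul differentiableOn_pf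
  have m1 : DifferentiableOn ℂ (fun ζ => ζ * pf ζ * deriv (yy (ev (F t))) ζ) (ball 0 1) :=
    hW.mul hdy
  have m2 : DifferentiableOn ℂ (fun ζ => yy (hh H t) ζ * yy (ev (F t)) ζ) (ball 0 1) :=
    hC.mul hy
  have hcw := co_W
  have hy0 := hg.yy_zero ht
  have hdd := co_deriv (U := yy (ev (F t)))
  have hW0 : (0 : ℂ) * pf 0 = 0 := by simp
  have c1 := co_mul hW hdy
  have c2 := co_mul (U := yy (hh H t)) hC hy
  rw [hW0, hcw.1, hcw.2, hdd.1, hdd.2] at c1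
  rw [hC0, hy0] at c2
  constructor
  · rw [co_congr (fun ζ hζ => hg.yd_eq ht hR hζ) 1, co_add' m1 m2, c1.1, c2.1]
    ring
  · rw [co_congr (fun ζ hζ => hg.yd_eq ht hR hζ) 2, co_add' m1 m2, c1.2, c2.2]
    ring

theorem y_deriv {t : ℝ} (ht : 0 < t) {ζ : ℂ} (hζ : ‖ζ‖ ≤ 1 / 2) :
    HasDerivAt (fun t => yy (ev (F t)) ζ) (yy (gt F H t) ζ) t := by
  have hζ1 : ‖ζ‖ < 1 := by linarith
  have hr : (0 : ℝ) < 1 / 2 := by norm_num
  obtain ⟨K, hK0, hK⟩ := hg.gt_bound (r := 3 / 4) (by norm_num) (by norm_num) (t + 1)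
    (by linarith)
  have e : (fun t => yy (ev (F t)) ζ) = fun t => co (fun w => ev (F t) (pt ζ w) 1) 1 := by
    ext1 t
    exact yy_eq_co (ev_diff (F t)) hζ1
  rw [e, yy_eq_co (gt_diff F H t) hζ1]
  refine hasDerivAt_co (y := fun t w => ev (F t) (pt ζ w) 1)
    (y' := fun t w => gt F H t (pt ζ w) 1) hr
    (s := Ioo 0 (t + 1)) (Ioo_mem_nhds ht (by linarith)) ?_ ?_ ?_ (K := K) ?_ 1
  · intro s _
    exact wdiff (ev_diff (F s)) hζ
  · exact wdiff (gt_diff F H t) hζ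
  · intro s hs w hw
    have hw' : ‖w‖ = 1 / 2 := by simpa using hw
    have hn := norm_pt_le hζ hw'.le
    have hz : pt ζ w ∈ ball (0 : E) 1 := by
      rw [mem_ball_zero_iff]; linarith
    exact hasDerivAt_coordR (hg.der _ hz s hs.1) 1
  · intro s hs w hw
    have hw' : ‖w‖ = 1 / 2 := by simpa using hw
    exact (norm_coord_le _ 1).trans (hK s hs.1 hs.2 _ (norm_pt_le hζ hw'.le))

theorem co_y_deriv {t : ℝ} (ht : 0 < t) (n : ℕ) :
    HasDerivAt (fun t => co (yy (ev (F t))) n) (co (yy (gt F H t)) n) t := by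
  have hr : (0 : ℝ) < 1 / 2 := by norm_num
  have hr1 : (1 / 2 : ℝ) < 1 := by norm_num
  obtain ⟨K, hK0, hK⟩ := hg.gt_bound (r := 3 / 4) (by norm_num) (by norm_num) (t + 1)
    (by linarith)
  refine hasDerivAt_co (y := fun t => yy (ev (F t)))
    (y' := fun t => yy (gt F H t)) hr
    (s := Ioo 0 (t + 1)) (Ioo_mem_nhds ht (by linarith)) ?_ ?_ ?_ (K := 2 * K) ?_ n
  · intro s _
    exact differentiableOn_of_closedBall (yy_diff (ev_diff (F s))) hr1
  · exact differentiableOn_of_closedBall (yy_diff (gt_diff F H t)) hr1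
  · intro s hs ζ hζ
    have hζ' : ‖ζ‖ = 1 / 2 := by simpa using hζ
    exact hg.y_deriv hs.1 hζ'.le
  · intro s hs ζ hζ
    have hζ' : ‖ζ‖ = 1 / 2 := by simpa using hζ
    exact norm_yy_le (gt_diff F H s) (hK s hs.1 hs.2) hζ'.le

theorem co_y_cont (n : ℕ) : ContinuousOn (fun t => co (yy (ev (F t))) n) (Ici 0) := by
  apply continuousOn_of_lip
  intro T hT
  have hr : (0 : ℝ) < 1 / 2 := by norm_num
  have hr1 : (1 / 2 : ℝ) < 1 := by norm_num
  obtain ⟨C, hC0, hC⟩ := hg.lip_slice (3 / 4) (by norm_num) (by norm_num) T hT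
  refine ⟨2 ^ n * (2 * C), by positivity, fun s t hs hst htT => ?_⟩
  have h1 := norm_co_sub_le (A := yy (ev (F t))) (B := yy (ev (F s))) (K := 2 * (C * (t - s))) hr
    (differentiableOn_of_closedBall (yy_diff (ev_diff (F t))) hr1)
    (differentiableOn_of_closedBall (yy_diff (ev_diff (F s))) hr1) (by
      intro ζ hζ
      have hζ' : ‖ζ‖ = 1 / 2 := by simpa using hζ
      exact norm_yy_sub_le (ev_diff (F t)) (ev_diff (F s))
        (fun z hz => hC s t hs hst htT z hz 1) hζ'.le) n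
  have e : (2 : ℝ) ^ n * ((1 / 2) ^ n * ‖co (yy (ev (F t))) n - co (yy (ev (F s))) n‖) =
      ‖co (yy (ev (F t))) n - co (yy (ev (F s))) n‖ := by
    rw [← mul_assoc, ← mul_pow]; norm_num
  rw [← e]
  calc _ ≤ (2 : ℝ) ^ n * (2 * (C * (t - s))) := by gcongr
    _ = _ := by ring

theorem co_y_bound (n : ℕ) : ∃ K : ℝ, 0 ≤ K ∧ ∀ t, 0 ≤ t →
    ‖co (yy (ev (F t))) n‖ ≤ K * Real.exp t := by
  have hr : (0 : ℝ) < 1 / 2 := by norm_num
  have hr1 : (1 / 2 : ℝ) < 1 := by norm_num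
  obtain ⟨K, hK0, hK⟩ := hg.nc.bound (r := 3 / 4) (by norm_num)
  refine ⟨2 ^ n * (2 * K), by positivity, fun t ht => ?_⟩
  have h1 := norm_co_le (A := yy (ev (F t))) (K := 2 * (Real.exp t * K)) hr
    (differentiableOn_of_closedBall (yy_diff (ev_diff (F t))) hr1) (by
      intro ζ hζ
      have hζ' : ‖ζ‖ = 1 / 2 := by simpa using hζ
      exact norm_yy_le (ev_diff (F t)) (fun z hz => hK t ht z hz) hζ'.le) n
  have e : (2 : ℝ) ^ n * ((1 / 2) ^ n * ‖co (yy (ev (F t))) n‖) =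
      ‖co (yy (ev (F t))) n‖ := by
    rw [← mul_assoc, ← mul_pow]; norm_num
  rw [← e]
  calc _ ≤ (2 : ℝ) ^ n * (2 * (Real.exp t * K)) := by gcongr
    _ = _ := by ring

end Gen

end Pool.Agent.SP
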