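import Pool.Agent.Lib52.SP.ODE2

set_option autoImplicit false

open Set Metric Filter MeasureTheory Complex
open scoped Topology ComplexConjugate

namespace Pool.Agent.SP

/-- coefficients from a jet -/
theorem co_of_jet {A : ℂ → ℂ} (hA : DifferentiableOn ℂ A (ball 0 1)) {a b : ℂ} {K : ℝ}
    (h : ∀ ζ : ℂ, ‖ζ‖ ≤ 1 / 4 → ‖A ζ - a * ζ - b * ζ ^ 2‖ ≤ K * ‖ζ‖ ^ 3) :
    co A 1 = a ∧ co A 2 = b := by
  have hid : DifferentiableOn ℂ (fun ζ : ℂ => ζ) (ball 0 1) := differentiableOn_id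
  have hP : DifferentiableOn ℂ (fun ζ : ℂ => a * ζ + b * ζ ^ 2) (ball 0 1) :=
    (hid.const_mul a).add ((hid.pow 2).const_mul b)
  have hPc := co_of_expansion (C := fun ζ : ℂ => a * ζ + b * ζ ^ 2) (a := 0) (b := a) (c := b)
    (g := fun _ => 0) (differentiableOn_const 0) (fun ζ _ => by ring)
  have key : ∀ n : ℕ, 1 ≤ n → n ≤ 2 → ‖co A n - co (fun ζ : ℂ => a * ζ + b * ζ ^ 2) n‖ ≤ 0 := by
    intro n hn1 hn2
    set x := ‖co A n - co (fun ζ : ℂ => a * ζ + b * ζ ^ 2) n‖ with hx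
    have h1 : ∀ r : ℝ, 0 < r → r ≤ 1 / 4 → x ≤ |K| * r := by
      intro r hr hr1
      have hr2 : r < 1 := by linarith
      have h2 := norm_co_sub_le (K := |K| * r ^ 3) hr (differentiableOn_of_closedBall hA hr2)
        (differentiableOn_of_closedBall hP hr2) (by
          intro ζ hζ
          have hζ' : ‖ζ‖ = r := by simpa using hζ
          have h3 := h ζ (by rw [hζ']; exact hr1)
          rw [hζ'] at h3
          have e : A ζ - (a * ζ + b * ζ ^ 2) = A ζ - a * ζ - b * ζ ^ 2 := by ring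
          rw [e]
          refine h3.trans ?_
          have := le_abs_self K
          gcongr) n
      rw [← hx] at h2
      have h4 : r ^ 2 ≤ r ^ n := pow_le_pow_of_le_one hr.le hr2.le hn2
      have hx0 : 0 ≤ x := norm_nonneg _
      have h5 : r ^ 2 * x ≤ r ^ 2 * (|K| * r) := by
        calc r ^ 2 * x ≤ r ^ n * x := by gcongr
          _ ≤ |K| * r ^ 3 := h2
          _ = _ := by ring
      exact le_of_mul_le_mul_left h5 (by positivity)
    have t1 : Tendsto (fun r : ℝ => |K| * r) (𝓝[>] 0) (𝓝 (|K| * 0)) := by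
      apply Tendsto.mono_left _ nhdsWithin_le_nhds
      apply Continuous.tendsto; fun_prop
    rw [mul_zero] at t1
    apply ge_of_tendsto t1
    have : Ioo (0 : ℝ) (1 / 4) ∈ 𝓝[>] (0 : ℝ) := Ioo_mem_nhdsGT (by norm_num)
    filter_upwards [this] with r hr using h1 r hr.1 hr.2.le
  constructor
  · have := norm_le_zero_iff.1 (key 1 le_rfl (by norm_num))
    rw [← hPc.1]
    exact sub_eq_zero.1 this
  · have := norm_le_zero_iff.1 (key 2 (by norm_num) le_rfl)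
    rw [← hPc.2]
    exact sub_eq_zero.1 this

/-- coefficients of an exponential -/
theorem co_exp {A : ℂ → ℂ} (hA : DifferentiableOn ℂ A (ball 0 1)) (h0 : A 0 = 0) :
    co (fun ζ => Complex.exp (A ζ)) 1 = co A 1 ∧
    co (fun ζ => Complex.exp (A ζ)) 2 = co A 2 + co A 1 ^ 2 / 2 := by
  have hE : DifferentiableOn ℂ (fun ζ => Complex.exp (A ζ)) (ball 0 1) := hA.cexp
  have hdA : DifferentiableOn ℂ (deriv A) (ball 0 1) := hA.deriv isOpen_ball
  have hder : ∀ ζ ∈ ball (0 : ℂ) 1, deriv (fun ζ => Complex.exp (A ζ)) ζ =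
      deriv A ζ * Complex.exp (A ζ) := by
    intro ζ hζ
    have h1 := (hA.differentiableAt (isOpen_ball.mem_nhds hζ)).hasDerivAt.cexp
    rw [h1.deriv]; ring
  have h00 : (0 : ℂ) ∈ ball (0 : ℂ) 1 := mem_ball_self one_pos
  have c1 : co (fun ζ => Complex.exp (A ζ)) 1 = co A 1 := by
    rw [co_one, hder 0 h00, h0, Complex.exp_zero, mul_one, co_one]
  refine ⟨c1, ?_⟩
  have h2 := (co_deriv (U := fun ζ => Complex.exp (A ζ))).2
  have h3 := (co_mul hdA hE).1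
  rw [co_congr hder 1, h3, c1, (co_deriv (U := A)).1, (co_deriv (U := A)).2, h0,
    Complex.exp_zero] at h2
  linear_combination (-(1 : ℂ) / 2) * h2

/-- the initial data of the chain -/
theorem init_chain {L : ℝ → ℂ → ℂ} {q : ℂ × ℂ} (h : Fam L q) :
    co (yy (ev (chainOf h 0))) 1 = q.1 ∧
    co (yy (ev (chainOf h 0))) 2 = q.2 + q.1 ^ 2 / 2 := by
  have hL := h.diff 0 le_rfl
  have hj := co_of_jet hL h.jet
  have he := co_exp hL (L_zero h le_rfl)
  have hy : ∀ ζ ∈ ball (0 : ℂ) 1, yy (ev (chainOf h 0)) ζ = Complex.exp (L 0 ζ) := by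
    intro ζ hζ
    have hζ' : ‖ζ‖ < 1 := by simpa using hζ
    have h1 := deriv_slice₂ (ev_diff (chainOf h 0)) 1 (mem_sq hζ')
    have h2 : HasDerivAt (fun w : ℂ => w * Complex.exp (L 0 ζ)) (1 * Complex.exp (L 0 ζ)) 0 :=
      (hasDerivAt_id (0 : ℂ)).mul_const _
    have h3 : HasDerivAt (fun w => ev (chainOf h 0) (pt ζ w) 1) (1 * Complex.exp (L 0 ζ)) 0 := by
      refine h2.congr_of_eventuallyEq ?_
      have hcont : Continuous fun w : ℂ => pt ζ w := by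
        rw [continuous_iff_continuousAt]
        intro w
        exact (hasDerivAt_pt₂ ζ w).continuousAt
      have hopen : IsOpen {w : ℂ | pt ζ w ∈ ball (0 : E) 1} := isOpen_ball.preimage hcont
      filter_upwards [hopen.mem_nhds (show pt ζ 0 ∈ ball (0 : E) 1 from pt_zero_mem hζ')]
        with w hw
      rw [ev_chainOf h le_rfl hw]
      show ((Real.exp 0 : ℝ) : ℂ) * (w * Complex.exp (L 0 ζ)) = _
      rw [Real.exp_zero, Complex.ofReal_one, one_mul]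
    have h4 := h1.unique h3
    unfold yy
    rw [h4, one_mul]
  constructor
  · rw [co_congr hy 1, he.1, hj.1]
  · rw [co_congr hy 2, he.2, hj.1, hj.2]

/-- the control attached to a field -/
noncomputable def Cc (H : ℝ → Hol) (τ : ℝ) (ζ : ℂ) : ℂ := yy (hh H (max τ 0)) ζ

namespace Gen

variable {F H : ℝ → Hol} (hg : Gen F H)
include hg

theorem ctrl (h0 : co (sl (F 0)) 2 = 2) : Ctrl (Cc H) where
  inD := fun τ => (hg.rigid h0 (le_max_right τ 0)).hC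
  cont := by
    intro ζ hζ
    have hζ' : ‖ζ‖ < 1 := by simpa using hζ
    have c1 : ContinuousOn (fun t => fderiv ℂ (ev (H t)) (pt ζ 0)) (Ici 0) :=
      (continuous_fderiv_ev (pt_zero_mem hζ')).comp_continuousOn hg.cont
    have c2 : ContinuousOn (fun t => (pr 1) (-(fderiv ℂ (ev (H t)) (pt ζ 0) e₂))) (Ici 0) :=
      (pr 1).continuous.comp_continuousOn (c1.clm_apply continuousOn_const).neg
    have c3 : Continuous fun τ : ℝ =>
        (pr 1) (-(fderiv ℂ (ev (H (max τ 0))) (pt ζ 0) e₂)) :=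
      c2.comp_continuous (f := fun τ : ℝ => max τ 0) (by fun_prop) (fun τ => le_max_right τ 0)
    have e : (fun τ => Cc H τ ζ) = fun τ : ℝ =>
        (pr 1) (-(fderiv ℂ (ev (H (max τ 0))) (pt ζ 0) e₂)) := by
      ext1 τ
      unfold Cc yy
      rw [fderiv_hh]
      rfl
    rw [e]
    exact c3

/-- the second-level functional along the chain -/
noncomputable def Wf (F : ℝ → Hol) (t : ℝ) : ℂ :=
  (2 * ((Real.exp (-t) : ℝ) : ℂ) ^ 3 - ((Real.exp (-t) : ℝ) : ℂ) ^ 2) * co (yy (ev (F t))) 1 -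
    ((Real.exp (-t) : ℝ) : ℂ) ^ 3 * co (yy (ev (F t))) 2 +
    ((Real.exp (-t) : ℝ) : ℂ) ^ 4 * (co (yy (ev (F t))) 1 ^ 2 / 2)

omit hg in
theorem hasDerivAt_x (t : ℝ) : HasDerivAt (fun t : ℝ => ((Real.exp (-t) : ℝ) : ℂ))
    (-((Real.exp (-t) : ℝ) : ℂ)) t := by
  have h4 : HasDerivAt (fun t : ℝ => Real.exp (-t)) (Real.exp (-t) * (-1)) t :=
    (hasDerivAt_neg t).exp
  have h5 := h4.ofReal_comp
  refine h5.congr_deriv ?_
  push_cast; ring

theorem Wf_deriv (h0 : co (sl (F 0)) 2 = 2) {t : ℝ} (ht : 0 < t) :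
    HasDerivAt (Wf F) (-(co (yy (hh H t)) 1 * ((Real.exp (-t) - 2 * Real.exp (-t) ^ 2 : ℝ) : ℂ) +
      co (yy (hh H t)) 2 * ((Real.exp (-t) ^ 2 : ℝ) : ℂ))) t := by
  have hR := hg.rigid h0 ht.le
  obtain ⟨c1, c2⟩ := hg.co_yd ht.le hR
  have hb := hg.co_y_deriv ht 1
  have hc := hg.co_y_deriv ht 2
  rw [c1] at hb
  rw [c2] at hc
  have hx := hasDerivAt_x t
  have k1 := ((hx.fun_pow 3).const_mul (2 : ℂ)).sub (hx.fun_pow 2)
  have k2 := (k1.mul hb).sub ((hx.fun_pow 3).mul hc)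
  have k3 := k2.add ((hx.fun_pow 4).mul ((hb.fun_pow 2).div_const 2))
  refine k3.congr_deriv ?_
  have hxe : ((Real.exp (-t) : ℝ) : ℂ) * ((Real.exp t : ℝ) : ℂ) = 1 := by
    rw [← Complex.ofReal_mul, ← Real.exp_add]; simp
  push_cast
  have hxe' : Complex.exp (-(t : ℂ)) * Complex.exp (t : ℂ) = 1 := by
    rw [← Complex.exp_add]; simp
  simp only [Pi.sub_apply]
  set x := Complex.exp (-(t : ℂ)) with hxdef
  set X := Complex.exp (t : ℂ) with hXdef
  set b := co (yy (ev (F t))) 1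
  set c := co (yy (ev (F t))) 2
  set g1 := co (yy (hh H t)) 1
  set g2 := co (yy (hh H t)) 2
  norm_num
  linear_combination (g1 * (2 * x ^ 2 - x) - x ^ 2 * g2 + x ^ 3 * b * g1) * hxe'

theorem Wf_cont : ContinuousOn (Wf F) (Ici 0) := by
  have hx : ContinuousOn (fun t : ℝ => ((Real.exp (-t) : ℝ) : ℂ)) (Ici 0) :=
    Continuous.continuousOn (by fun_prop)
  have hb := hg.co_y_cont 1
  have hc := hg.co_y_cont 2
  exact ((((continuousOn_const (c := (2 : ℂ))).mul (hx.pow 3)).sub (hx.pow 2)).mul hb).sub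
    ((hx.pow 3).mul hc) |>.add ((hx.pow 4).mul ((hb.pow 2).div_const 2))

theorem Wf_tendsto : Tendsto (Wf F) atTop (𝓝 0) := by
  obtain ⟨K1, hK1, hb⟩ := hg.co_y_bound 1
  obtain ⟨K2, hK2, hc⟩ := hg.co_y_bound 2
  have t1 : Tendsto (fun t : ℝ => (3 * K1 + K2 + K1 ^ 2 / 2) * Real.exp (-t)) atTop (𝓝 0) := by
    have := Real.tendsto_exp_neg_atTop_nhds_zero.const_mul (3 * K1 + K2 + K1 ^ 2 / 2)
    simpa using this
  apply squeeze_zero_norm' _ t1
  filter_upwards [eventually_ge_atTop 0] with t ht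
  have hb' := hb t ht
  have hc' := hc t ht
  set x := Real.exp (-t) with hx
  have hx0 : 0 < x := Real.exp_pos _
  have hx1 : x ≤ 1 := by rw [hx, Real.exp_le_one_iff]; linarith
  have hxe : x * Real.exp t = 1 := by rw [hx, ← Real.exp_add]; simp
  set b := co (yy (ev (F t))) 1 with hbdef
  set c := co (yy (ev (F t))) 2 with hcdef
  have n1 : x * ‖b‖ ≤ K1 := by
    calc x * ‖b‖ ≤ x * (K1 * Real.exp t) := by gcongr
      _ = K1 * (x * Real.exp t) := by ring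
      _ = K1 := by rw [hxe, mul_one]
  have n2 : x * ‖c‖ ≤ K2 := by
    calc x * ‖c‖ ≤ x * (K2 * Real.exp t) := by gcongr
      _ = K2 * (x * Real.exp t) := by ring
      _ = K2 := by rw [hxe, mul_one]
  have hW : Wf F t = (2 * (x : ℂ) ^ 3 - (x : ℂ) ^ 2) * b - (x : ℂ) ^ 3 * c +
      (x : ℂ) ^ 4 * (b ^ 2 / 2) := rfl
  rw [hW]
  have m1 : ‖(2 * (x : ℂ) ^ 3 - (x : ℂ) ^ 2) * b‖ ≤ 3 * K1 * x := by
    rw [norm_mul]
    have e1 : ‖(2 * (x : ℂ) ^ 3 - (x : ℂ) ^ 2)‖ ≤ 2 * x ^ 3 + x ^ 2 := by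
      refine (norm_sub_le _ _).trans ?_
      rw [norm_mul, norm_pow, norm_pow, Complex.norm_real, Real.norm_of_nonneg hx0.le,
        Complex.norm_ofNat]
    calc _ ≤ (2 * x ^ 3 + x ^ 2) * ‖b‖ := by gcongr
      _ = (2 * x ^ 2 + x) * (x * ‖b‖) := by ring
      _ ≤ (2 * x ^ 2 + x) * K1 := by gcongr
      _ ≤ (2 * x + x) * K1 := by
          have : x ^ 2 ≤ x := by nlinarith
          gcongr
      _ = _ := by ring
  have m2 : ‖(x : ℂ) ^ 3 * c‖ ≤ K2 * x := by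
    rw [norm_mul, norm_pow, Complex.norm_real, Real.norm_of_nonneg hx0.le]
    calc _ = x ^ 2 * (x * ‖c‖) := by ring
      _ ≤ x ^ 2 * K2 := by gcongr
      _ ≤ x * K2 := by
          have : x ^ 2 ≤ x := by nlinarith
          gcongr
      _ = _ := by ring
  have m3 : ‖(x : ℂ) ^ 4 * (b ^ 2 / 2)‖ ≤ K1 ^ 2 / 2 * x := by
    rw [norm_mul, norm_pow, Complex.norm_real, Real.norm_of_nonneg hx0.le, norm_div, norm_pow,
      Complex.norm_ofNat]
    calc _ = x ^ 2 * (x * ‖b‖) ^ 2 / 2 := by ring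
      _ ≤ x ^ 2 * K1 ^ 2 / 2 := by gcongr
      _ ≤ x * K1 ^ 2 / 2 := by
          have : x ^ 2 ≤ x := by nlinarith
          gcongr
      _ = _ := by ring
  calc _ ≤ ‖(2 * (x : ℂ) ^ 3 - (x : ℂ) ^ 2) * b - (x : ℂ) ^ 3 * c‖ +
        ‖(x : ℂ) ^ 4 * (b ^ 2 / 2)‖ := norm_add_le _ _
    _ ≤ ‖(2 * (x : ℂ) ^ 3 - (x : ℂ) ^ 2) * b‖ + ‖(x : ℂ) ^ 3 * c‖ +
        ‖(x : ℂ) ^ 4 * (b ^ 2 / 2)‖ := by gcongr; exact norm_sub_le _ _
    _ ≤ 3 * K1 * x + K2 * x + K1 ^ 2 / 2 * x := by gcongr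
    _ = _ := by ring

end Gen

/-- the integrand of `JJ` -/
noncomputable def Ji (C : ℝ → ℂ → ℂ) (τ : ℝ) : ℂ :=
  co (C τ) 1 * ((Real.exp (-τ) - 2 * Real.exp (-τ) ^ 2 : ℝ) : ℂ) +
    co (C τ) 2 * ((Real.exp (-τ) ^ 2 : ℝ) : ℂ)

theorem JJ_def (C : ℝ → ℂ → ℂ) : JJ C = ∫ τ in Ioi (0 : ℝ), Ji C τ := rfl

theorem Ctrl.Ji_eq (C : ℝ → ℂ → ℂ) (τ : ℝ) : Ji C τ = Ctrl.q2i C τ - Ctrl.q1i C τ := by
  unfold Ji Ctrl.q2i Ctrl.q1i
  rw [zero_sub]
  push_cast
  ring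

theorem Ctrl.Ji_cont {C : ℝ → ℂ → ℂ} (h : Ctrl C) : Continuous (Ji C) := by
  unfold Ji
  exact ((h.co_cont 1).mul (by fun_prop)).add ((h.co_cont 2).mul (by fun_prop))

theorem Ctrl.Ji_int {C : ℝ → ℂ → ℂ} (h : Ctrl C) : IntegrableOn (Ji C) (Ioi 0) := by
  have e : Ji C = fun τ => Ctrl.q2i C τ - Ctrl.q1i C τ := by
    ext1 τ; exact Ctrl.Ji_eq C τ
  rw [e]
  exact h.q2i_int.sub h.q1i_int

/-- the second-level functional is an integral of the control -/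
theorem Gen.W_eq {F H : ℝ → Hol} (hg : Gen F H) (h0 : co (sl (F 0)) 2 = 2) :
    Gen.Wf F 0 = JJ (Cc H) := by
  have hC := hg.ctrl h0
  have h1 := integral_Ioi_of_hasDerivAt_of_tendsto (f := Gen.Wf F) (f' := fun τ => -Ji (Cc H) τ)
    (a := 0) (m := 0) (hg.Wf_cont 0 self_mem_Ici) (by
      intro t ht
      have ht' : 0 < t := ht
      refine (hg.Wf_deriv h0 ht').congr_deriv ?_
      have e : Cc H t = yy (hh H t) := by
        ext1 ζ
        unfold Cc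
        rw [max_eq_left ht'.le]
      unfold Ji
      rw [e]) hC.Ji_int.neg hg.Wf_tendsto
  rw [integral_neg, zero_sub, neg_inj] at h1
  rw [JJ_def, h1]

end Pool.Agent.SP
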