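import Pool.Agent.Lib52.SP.Modes

set_option autoImplicit false

open Set Metric Filter MeasureTheory Complex
open scoped Topology Real ComplexConjugate

namespace Pool.Agent.SP

/-- average of twice the real part -/
theorem avr_two_re {r : ℝ} {g : ℂ → ℂ} (hr : 0 < r) (hg : ContinuousOn g (sphere 0 r)) :
    avr r (fun z => 2 * (g z).re) = 2 * (md 0 r g).re := by
  rw [avr_const_mul, md_zero_eq, av_re hr hg]

/-- averages over the second variable -/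
theorem w_modes {ρ : ℝ} (hρ : 0 < ρ) {g₁ g₂ : ℂ → ℂ}
    (h1 : DifferentiableOn ℂ g₁ (closedBall 0 ρ)) (h2 : DifferentiableOn ℂ g₂ (closedBall 0 ρ))
    (ζ : ℂ) (hpos : ∀ w ∈ sphere (0 : ℂ) ρ, 0 ≤ (conj ζ * g₁ w + conj w * g₂ w).re) :
    ρ / 2 * ‖conj ζ * co g₁ 1 + conj (g₂ 0) + ρ ^ 2 * co g₂ 2‖ ≤
      (conj ζ * g₁ 0).re + ρ ^ 2 * (co g₂ 1).re := by
  set G : ℂ → ℂ := fun w => conj ζ * g₁ w + conj w * g₂ w with hG
  have c1 : ContinuousOn g₁ (sphere 0 ρ) := h1.continuousOn.mono sphere_subset_closedBall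
  have c2 : ContinuousOn g₂ (sphere 0 ρ) := h2.continuousOn.mono sphere_subset_closedBall
  have c1' : ContinuousOn (fun w => conj ζ * g₁ w) (sphere 0 ρ) := continuousOn_const.mul c1
  have c2' : ContinuousOn (fun w => conj w * g₂ w) (sphere 0 ρ) :=
    continuous_conj.continuousOn.mul c2
  have cG : ContinuousOn G (sphere 0 ρ) := c1'.add c2'
  have hm : ∀ k : ℤ, md k ρ G = conj ζ * md k ρ g₁ + ρ * md (k + 1) ρ g₂ := by
    intro k
    rw [hG, md_add hρ k c1' c2', md_const_mul, md_conj_var_mul hρ]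
  have hk := norm_md_real_le hρ (1 : ℤ) (F := fun z => 2 * (G z).re)
    (fun z hz => by have := hpos z hz; simp only [hG]; positivity)
  rw [md_two_re hρ _ cG, avr_two_re hρ cG] at hk
  have e1 : md 1 ρ G = conj ζ * (ρ * co g₁ 1) + ρ * (ρ ^ 2 * co g₂ 2) := by
    have a1 := md_nat hρ 1 h1
    have a2 := md_nat hρ 2 h2
    rw [show ((1 : ℕ) : ℤ) = 1 by norm_num, pow_one] at a1
    rw [show ((2 : ℕ) : ℤ) = 1 + 1 by norm_num] at a2
    rw [hm, a1, a2]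
  have e2 : md (-1) ρ G = ρ * g₂ 0 := by
    have a1 := md_neg hρ 1 one_ne_zero h1
    have a2 := md_nat hρ 0 h2
    rw [show -((1 : ℕ) : ℤ) = -1 by norm_num] at a1
    rw [show ((0 : ℕ) : ℤ) = -1 + 1 by norm_num, pow_zero, one_mul, co_zero] at a2
    rw [hm, a1, a2, mul_zero, zero_add]
  have e0 : md 0 ρ G = conj ζ * g₁ 0 + ρ * (ρ * co g₂ 1) := by
    have a1 := md_nat hρ 0 h1
    have a2 := md_nat hρ 1 h2
    rw [show ((0 : ℕ) : ℤ) = 0 by norm_num, pow_zero, one_mul, co_zero] at a1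
    rw [show ((1 : ℕ) : ℤ) = 0 + 1 by norm_num, pow_one] at a2
    rw [hm, a1, a2]
  rw [e1, e2, e0] at hk
  have e3 : conj ζ * ((ρ : ℂ) * co g₁ 1) + ρ * (ρ ^ 2 * co g₂ 2) + conj (ρ * g₂ 0) =
      (ρ : ℂ) * (conj ζ * co g₁ 1 + conj (g₂ 0) + ρ ^ 2 * co g₂ 2) := by
    rw [map_mul, Complex.conj_ofReal]; ring
  rw [e3, norm_mul, Complex.norm_real, Real.norm_of_nonneg hρ.le] at hk
  have e4 : (conj ζ * g₁ 0 + (ρ : ℂ) * (ρ * co g₂ 1)).re =
      (conj ζ * g₁ 0).re + ρ ^ 2 * (co g₂ 1).re := by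
    rw [Complex.add_re, Complex.re_ofReal_mul, Complex.re_ofReal_mul]; ring
  rw [e4] at hk
  linarith

end Pool.Agent.SP
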