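import Mathlib

set_option autoImplicit false

open MeasureTheory Set

namespace Pool.Agent.SuppLoewner

section defs

variable (V : Type) [NormedAddCommGroup V] [InnerProductSpace ℂ V]

/-- the open unit ball of `V` -/
def Ball : Set V := Metric.ball 0 1

/-- the holomorphic maps `Ball V → V` as a subspace of the space of continuous maps `C(Ball V, V)`
with its compact-open topology -/
def holSub : Submodule ℂ C(Ball V, V) where
  carrier := {f | ∃ g : V → V, DifferentiableOn ℂ g (Ball V) ∧ ∀ z : Ball V, f z = g z}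
  add_mem' := fun ⟨g₁, h₁, e₁⟩ ⟨g₂, h₂, e₂⟩ =>
    ⟨g₁ + g₂, h₁.add h₂, fun z => congrArg₂ (· + ·) (e₁ z) (e₂ z)⟩
  zero_mem' := ⟨0, differentiableOn_const 0, fun _ => rfl⟩
  smul_mem' := fun c _ ⟨g, h, e⟩ => ⟨c • g, h.const_smul c, fun z => congrArg (c • ·) (e z)⟩

/-- `Hol(Ball V, V)`, with the topology of locally uniform convergence -/
def Hol : Type := holSub V

/-- the pointwise operations -/
noncomputable instance : AddCommGroup (Hol V) := (holSub V).addCommGroup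

/-- the pointwise operations -/
noncomputable instance : Module ℂ (Hol V) := (holSub V).module

/-- the topology induced by the compact-open topology of `C(Ball V, V)` -/
noncomputable instance : TopologicalSpace (Hol V) :=
  TopologicalSpace.induced (fun f : holSub V => (f : C(Ball V, V))) ContinuousMap.compactOpen

variable {V}

open Classical in
/-- the value of `f ∈ Hol V` at `z`, extended by `0` outside the ball -/
noncomputable def ev (f : Hol V) (z : V) : V :=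
  if h : z ∈ Ball V then (f : holSub V).1 ⟨z, h⟩ else 0

variable (V) in
/-- the class `𝓜` -/
def M : Set (Hol V) :=
  {h | ev h 0 = 0 ∧ fderiv ℂ (ev h) 0 = ContinuousLinearMap.id ℂ V ∧
    ∀ z ∈ Ball V, z ≠ 0 → 0 < (inner ℂ (ev h z) z).re}

/-- Herglotz vector fields associated with `𝓜` -/
structure IsHerglotz (G : V → ℝ → V) : Prop where
  meas : ∀ z ∈ Ball V, AEStronglyMeasurable (fun t => G z t) (volume.restrict (Ici (0 : ℝ)))
  mem : ∀ᵐ t ∂(volume.restrict (Ici (0 : ℝ))), ∃ h ∈ M V, ∀ z ∈ Ball V, G z t = - ev h z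

/-- normal Loewner chains `(f_t)_{t ≥ 0}` -/
structure IsNormalChain (F : ℝ → Hol V) : Prop where
  univalent : ∀ t, 0 ≤ t → InjOn (ev (F t)) (Ball V)
  zero : ∀ t, 0 ≤ t → ev (F t) 0 = 0
  deriv : ∀ t, 0 ≤ t →
    fderiv ℂ (ev (F t)) 0 = (Real.exp t : ℂ) • ContinuousLinearMap.id ℂ V
  mono : ∀ s t, 0 ≤ s → s ≤ t → ev (F s) '' Ball V ⊆ ev (F t) '' Ball V
  normal : IsCompact (closure {g : Hol V | ∃ t : ℝ, 0 ≤ t ∧ g = (Real.exp (-t) : ℂ) • F t})

/-- `G` generates `(f_t)` -/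
def Generates (G : V → ℝ → V) (F : ℝ → Hol V) : Prop :=
  ∀ z ∈ Ball V, ∀ᵐ t ∂(volume.restrict (Ici (0 : ℝ))),
    HasDerivAt (fun s => ev (F s) z) (-(fderiv ℂ (ev (F t)) z (G z t))) t

variable (V) in
/-- the class `S⁰` -/
def S0 : Set (Hol V) :=
  {f | InjOn (ev f) (Ball V) ∧ ev f 0 = 0 ∧ fderiv ℂ (ev f) 0 = ContinuousLinearMap.id ℂ V ∧
    ∃ F : ℝ → Hol V, IsNormalChain F ∧ F 0 = f}

/-- support points of a set `K` -/
def Supp (K : Set (Hol V)) : Set (Hol V) :=
  {f | f ∈ K ∧ ∃ L : Hol V →L[ℂ] ℂ, (¬ ∃ c : ℂ, ∀ g ∈ K, L g = c) ∧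
    ∀ g ∈ K, (L g).re ≤ (L f).re}

/-- `t ↦ G(·,t)` is continuous from `[0,∞)` into `Hol V` -/
def IsContinuousField (G : V → ℝ → V) : Prop :=
  ∃ H : ℝ → Hol V, ContinuousOn H (Ici (0 : ℝ)) ∧
    ∀ t, 0 ≤ t → ∀ z ∈ Ball V, G z t = ev (H t) z

end defs

end Pool.Agent.SuppLoewner
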