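import Pool.Agent.Lib52.SP.NC
import Pool.Agent.Lib52.SP.MClass

set_option autoImplicit false

open Set Metric Filter MeasureTheory Complex
open scoped Topology ComplexConjugate

namespace Pool.Agent.SP

/-- a Lipschitz function whose derivative agrees almost everywhere with a continuous function -/
theorem hasDerivAt_of_ae {X : Type*} [NormedAddCommGroup X] [NormedSpace ℝ X] [CompleteSpace X]
    {f D : ℝ → X} (hlip : ∀ T : ℝ, ∃ K : NNReal, LipschitzOnWith K f (Icc 0 T))
    (hD : ContinuousOn D (Ici 0))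
    (hae : ∀ᵐ t ∂(volume.restrict (Ici (0 : ℝ))), HasDerivAt f (D t) t) :
    ∀ t, 0 < t → HasDerivAt f (D t) t := by
  intro t ht
  set T := t + 1 with hT
  set D' : ℝ → X := fun x => D (max x 0) with hD'
  have hD'c : Continuous D' := by
    apply hD.comp_continuous (by fun_prop)
    intro x
    exact le_max_right x 0
  have hT0 : 0 ≤ T := by rw [hT]; linarith
  have hint : ∀ a b, IntervalIntegrable D' volume a b := fun a b =>
    hD'c.intervalIntegrable a b
  have hI : ∀ x, HasDerivAt (fun s => ∫ u in (0 : ℝ)..s, D' u) (D' x) x := fun x =>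
    intervalIntegral.integral_hasDerivAt_right (hint 0 x)
      (hD'c.stronglyMeasurableAtFilter _ _) hD'c.continuousAt
  obtain ⟨K, hK⟩ := hlip T
  obtain ⟨B, hB⟩ : ∃ B : ℝ, ∀ x ∈ Icc (0 : ℝ) T, ‖D' x‖ ≤ B :=
    isCompact_Icc.exists_bound_of_continuousOn hD'c.continuousOn
  have hIlip : LipschitzOnWith (Real.toNNReal B) (fun s => ∫ u in (0 : ℝ)..s, D' u)
      (Icc 0 T) := by
    apply LipschitzOnWith.of_dist_le_mul
    intro x hx y hy
    rw [dist_eq_norm, dist_eq_norm]
    have e1 : (∫ u in (0 : ℝ)..x, D' u) - ∫ u in (0 : ℝ)..y, D' u = ∫ u in y..x, D' u := by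
      rw [intervalIntegral.integral_interval_sub_left (hint _ _) (hint _ _)]
    rw [e1]
    have e2 := intervalIntegral.norm_integral_le_of_norm_le_const (a := y) (b := x) (f := D')
      (C := B) (fun u hu => hB u ⟨by
        have := hu.1
        have h3 : 0 ≤ min y x := le_min hy.1 hx.1
        linarith, by
        have := hu.2
        have h3 : max y x ≤ T := max_le hy.2 hx.2
        linarith⟩)
    refine e2.trans ?_
    have : B ≤ (Real.toNNReal B : ℝ) := Real.le_coe_toNNReal B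
    rw [Real.norm_eq_abs]
    gcongr
  have hΦ : LipschitzOnWith (K + Real.toNNReal B) (fun s => f s - ∫ u in (0 : ℝ)..s, D' u)
      (Icc 0 T) := by
    apply LipschitzOnWith.of_dist_le_mul
    intro x hx y hy
    have a1 := hK.dist_le_mul x hx y hy
    have a2 := hIlip.dist_le_mul x hx y hy
    rw [dist_eq_norm] at *
    have e3 : (f x - ∫ u in (0 : ℝ)..x, D' u) - (f y - ∫ u in (0 : ℝ)..y, D' u) =
      (f x - f y) - ((∫ u in (0 : ℝ)..x, D' u) - ∫ u in (0 : ℝ)..y, D' u) := by abel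
    rw [e3]
    refine (norm_sub_le _ _).trans ?_
    push_cast
    rw [add_mul]
    exact add_le_add a1 a2
  rw [← uIcc_of_le hT0] at hΦ
  have hac := hΦ.absolutelyContinuousOnInterval
  obtain ⟨c, hc⟩ := hac.const_of_ae_hasDerivAt_zero (by
    rw [ae_restrict_iff' measurableSet_Ici] at hae
    filter_upwards [hae] with x hx hxT
    rw [uIcc_of_le hT0] at hxT
    have h1 := hx hxT.1
    have h2 := h1.sub (hI x)
    have h3 : D' x = D x := by
      have : max x 0 = x := max_eq_left hxT.1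
      simp only [hD', this]
    rw [h3, sub_self] at h2
    exact h2)
  rw [uIcc_of_le hT0] at hc
  have h4 : HasDerivAt (fun s => c + ∫ u in (0 : ℝ)..s, D' u) (D t) t := by
    have h3 : D' t = D t := by
      have : max t 0 = t := max_eq_left ht.le
      simp only [hD', this]
    have := (hI t).const_add c
    rwa [h3] at this
  refine h4.congr_of_eventuallyEq ?_
  filter_upwards [Ioo_mem_nhds ht (show t < T by rw [hT]; linarith)] with s hs
  have := hc s ⟨hs.1.le, hs.2.le⟩
  rw [← this]; abel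

/-- closed conditions which hold almost everywhere hold everywhere -/
theorem mem_of_ae {X : Type*} [TopologicalSpace X] {φ : ℝ → X} {K : Set X} (hK : IsClosed K)
    (hφ : ContinuousOn φ (Ici 0)) (hae : ∀ᵐ t ∂(volume.restrict (Ici (0 : ℝ))), φ t ∈ K) :
    ∀ t, 0 ≤ t → φ t ∈ K := by
  intro t ht
  by_contra hn
  rw [ae_restrict_iff' measurableSet_Ici] at hae
  have h1 : ∀ᶠ x in 𝓝[Ici 0] t, φ x ∈ Kᶜ := hφ t ht (hK.isOpen_compl.mem_nhds hn)
  rw [eventually_nhdsWithin_iff, Metric.eventually_nhds_iff] at h1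
  obtain ⟨ε, hε, h2⟩ := h1
  have h3 : Ioo t (t + ε) ⊆ {x | ¬ (x ∈ Ici (0 : ℝ) → φ x ∈ K)} := by
    intro x hx
    rw [mem_ofPred_eq]
    intro h4
    have hx0 : x ∈ Ici (0 : ℝ) := by
      have := hx.1
      show 0 ≤ x
      linarith
    refine h2 ?_ hx0 (h4 hx0)
    rw [Real.dist_eq, abs_lt]
    constructor
    · linarith [hx.1]
    · linarith [hx.2]
  have h5 : volume {x | ¬ (x ∈ Ici (0 : ℝ) → φ x ∈ K)} = 0 := hae
  have h6 := measure_mono (μ := volume) h3
  rw [h5, Real.volume_Ioo] at h6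
  have h7 : ENNReal.ofReal (t + ε - t) = 0 := le_antisymm h6 bot_le
  rw [ENNReal.ofReal_eq_zero] at h7
  linarith

/-- locally uniform convergence in `Hol` -/
theorem eventually_close (g : Hol) {r : ℝ} (hr : r < 1) {ε : ℝ} (hε : 0 < ε) :
    ∀ᶠ f : Hol in 𝓝 g, ∀ z : E, ‖z‖ ≤ r → ‖ev f z - ev g z‖ ≤ ε := by
  set Kr : Set BB := {z | ‖(z : E)‖ ≤ r} with hKr
  have hKc : IsCompact Kr := by
    rw [Subtype.isCompact_iff]
    have : (Subtype.val '' Kr : Set E) = closedBall 0 r := by
      ext z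
      constructor
      · rintro ⟨w, hw, rfl⟩
        have hw' : ‖(w : E)‖ ≤ r := hw
        simpa using hw'
      · intro hz
        have hz' : ‖z‖ ≤ r := by simpa using hz
        exact ⟨⟨z, by rw [mem_ball_zero_iff]; linarith⟩, hz', rfl⟩
    rw [this]
    exact isCompact_closedBall _ _
  have : CompactSpace Kr := isCompact_iff_compactSpace.1 hKc
  have hcont : Continuous fun g : Hol => ((g : C(BB, E)).restrict Kr : C(Kr, E)) :=
    (ContinuousMap.continuous_restrict Kr).comp continuous_subtype_val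
  have t1 : Tendsto (fun f : Hol => ‖((f : C(BB, E)).restrict Kr : C(Kr, E)) -
      (g : C(BB, E)).restrict Kr‖) (𝓝 g) (𝓝 0) := by
    have := ((hcont.tendsto g).sub_const ((g : C(BB, E)).restrict Kr)).norm
    simpa using this
  filter_upwards [t1.eventually (gt_mem_nhds hε)] with f hf z hz
  have hm : z ∈ ball (0 : E) 1 := by rw [mem_ball_zero_iff]; linarith
  have h3 := ContinuousMap.norm_coe_le_norm
    (((f : C(BB, E)).restrict Kr : C(Kr, E)) - (g : C(BB, E)).restrict Kr) ⟨⟨z, hm⟩, hz⟩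
  have h4 : (((f : C(BB, E)).restrict Kr : C(Kr, E)) - (g : C(BB, E)).restrict Kr)
      ⟨⟨z, hm⟩, hz⟩ = ev f z - ev g z := by
    rw [ev_apply f hm, ev_apply g hm]; rfl
  rw [h4] at h3
  exact h3.trans hf.le

theorem continuous_ev {z : E} (hz : z ∈ ball (0 : E) 1) : Continuous fun f : Hol => ev f z := by
  rw [continuous_iff_continuousAt]
  intro g
  rw [ContinuousAt, Metric.tendsto_nhds]
  intro ε hε
  filter_upwards [eventually_close g (mem_ball_zero_iff.1 hz) (half_pos hε)] with f hf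
  rw [dist_eq_norm]
  have := hf z le_rfl
  linarith

theorem fderiv_sub_bound {f g : E → E} (hf : DifferentiableOn ℂ f (ball (0 : E) 1))
    (hg : DifferentiableOn ℂ g (ball (0 : E) 1)) {z : E} {r K : ℝ} (hz : ‖z‖ < r) (hr : r < 1)
    (hK : ∀ w : E, ‖w‖ ≤ r → ‖f w - g w‖ ≤ K) :
    ‖fderiv ℂ f z - fderiv ℂ g z‖ ≤ 2 * K / (r - ‖z‖) := by
  have hsub : ∀ w ∈ ball z (r - ‖z‖), ‖w‖ ≤ r := by
    intro w hw
    rw [mem_ball, dist_eq_norm] at hw
    have : ‖w‖ ≤ ‖w - z‖ + ‖z‖ := by simpa using norm_add_le (w - z) z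
    linarith
  have hsub2 : ball z (r - ‖z‖) ⊆ ball (0 : E) 1 := fun w hw => by
    rw [mem_ball_zero_iff]; linarith [hsub w hw]
  have hzb : z ∈ ball (0 : E) 1 := by rw [mem_ball_zero_iff]; linarith
  have h1 := norm_fderiv_le_of_bound (f := fun w => f w - g w) (c := z) (R := r - ‖z‖) (K := K)
    (by linarith) ((hf.mono hsub2).sub (hg.mono hsub2)) (fun w hw => hK w (hsub w hw))
  have h2 : fderiv ℂ (fun w => f w - g w) z = fderiv ℂ f z - fderiv ℂ g z :=
    fderiv_fun_sub (hf.differentiableAt (isOpen_ball.mem_nhds hzb))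
      (hg.differentiableAt (isOpen_ball.mem_nhds hzb))
  rwa [h2] at h1

theorem continuous_fderiv_ev {z : E} (hz : z ∈ ball (0 : E) 1) :
    Continuous fun f : Hol => fderiv ℂ (ev f) z := by
  rw [continuous_iff_continuousAt]
  intro g
  rw [ContinuousAt, Metric.tendsto_nhds]
  intro ε hε
  have hz' : ‖z‖ < 1 := mem_ball_zero_iff.1 hz
  set r := (1 + ‖z‖) / 2 with hr
  have hr1 : r < 1 := by rw [hr]; linarith
  have hzr : ‖z‖ < r := by rw [hr]; linarith
  have hrz : 0 < r - ‖z‖ := by linarith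
  have hε2 : 0 < ε * (r - ‖z‖) / 4 := by positivity
  filter_upwards [eventually_close g hr1 hε2] with f hf
  rw [dist_eq_norm]
  have := fderiv_sub_bound (ev_diff f) (ev_diff g) hzr hr1 hf
  refine this.trans_lt ?_
  have e : 2 * (ε * (r - ‖z‖) / 4) / (r - ‖z‖) = ε / 2 := by field_simp; ring
  rw [e]; linarith

/-- the vector field, with the sign changed -/
noncomputable def hh (H : ℝ → Hol) (t : ℝ) (z : E) : E := -ev (H t) z

theorem hh_diff (H : ℝ → Hol) (t : ℝ) : DifferentiableOn ℂ (hh H t) (ball (0 : E) 1) :=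
  (ev_diff (H t)).neg

theorem fderiv_hh (H : ℝ → Hol) (t : ℝ) (z : E) :
    fderiv ℂ (hh H t) z = -fderiv ℂ (ev (H t)) z := fderiv_fun_neg

theorem hh_MB {H : ℝ → Hol} (hH : ContinuousOn H (Ici 0)) {G : E → ℝ → E} (hG : IsHerglotz G)
    (hGH : ∀ t, 0 ≤ t → ∀ z ∈ ball (0 : E) 1, G z t = ev (H t) z) :
    ∀ t, 0 ≤ t → MB (hh H t) := by
  have hae : ∀ᵐ t ∂(volume.restrict (Ici (0 : ℝ))), ∃ h ∈ M, ∀ z ∈ ball (0 : E) 1,
      hh H t z = ev h z := by
    have h1 := hG.mem
    rw [ae_restrict_iff' measurableSet_Ici] at h1 ⊢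
    filter_upwards [h1] with t ht ht0
    obtain ⟨h, hM, he⟩ := ht ht0
    refine ⟨h, hM, fun z hz => ?_⟩
    have e1 := he z hz
    have e2 := hGH t ht0 z hz
    unfold hh
    rw [← e2, e1, neg_neg]
  have c0 : ∀ z ∈ ball (0 : E) 1, ContinuousOn (fun t => hh H t z) (Ici 0) := by
    intro z hz
    exact ((continuous_ev hz).comp_continuousOn hH).neg
  have c1 : ContinuousOn (fun t => fderiv ℂ (hh H t) 0) (Ici 0) := by
    have : (fun t => fderiv ℂ (hh H t) 0) = fun t => -fderiv ℂ (ev (H t)) 0 := by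
      ext1 t; exact fderiv_hh H t 0
    rw [this]
    exact ((continuous_fderiv_ev zero_mem_ball).comp_continuousOn hH).neg
  have r0 : ∀ t, 0 ≤ t → hh H t 0 ∈ ({0} : Set E) := by
    apply mem_of_ae isClosed_singleton (c0 0 zero_mem_ball)
    filter_upwards [hae] with t ht
    obtain ⟨h, hM, he⟩ := ht
    rw [he 0 zero_mem_ball]
    exact hM.1
  have r1 : ∀ t, 0 ≤ t → fderiv ℂ (hh H t) 0 ∈
      ({ContinuousLinearMap.id ℂ E} : Set (E →L[ℂ] E)) := by
    apply mem_of_ae isClosed_singleton c1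
    filter_upwards [hae] with t ht
    obtain ⟨h, hM, he⟩ := ht
    have : hh H t =ᶠ[𝓝 0] ev h := by
      filter_upwards [isOpen_ball.mem_nhds zero_mem_ball] with w hw using he w hw
    rw [this.fderiv_eq]
    exact hM.2.1
  have r2 : ∀ z ∈ ball (0 : E) 1, ∀ t, 0 ≤ t → (inner ℂ z (hh H t z)).re ∈ Ici (0 : ℝ) := by
    intro z hz
    apply mem_of_ae isClosed_Ici
    · exact Complex.continuous_re.comp_continuousOn
        (ContinuousOn.inner continuousOn_const (c0 z hz))
    · filter_upwards [hae] with t ht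
      obtain ⟨h, hM, he⟩ := ht
      rw [he z hz]
      by_cases hz0 : z = 0
      · rw [hz0, inner_zero_left]; simp
      · have h3 := hM.2.2 z hz hz0
        have h4 : inner ℂ z (ev h z) = conj (inner ℂ (ev h z) z) := (inner_conj_symm z _).symm
        rw [h4, Complex.conj_re]
        exact h3.le
  intro t ht
  exact ⟨hh_diff H t, r0 t ht, r1 t ht, fun z hz => r2 z hz t ht⟩

/-- the time derivative -/
noncomputable def gt (F H : ℝ → Hol) (t : ℝ) (z : E) : E := fderiv ℂ (ev (F t)) z (hh H t z)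

theorem gt_eq (F H : ℝ → Hol) (t : ℝ) (z : E) : gt F H t z =
    (hh H t z 0) • fderiv ℂ (ev (F t)) z e₁ + (hh H t z 1) • fderiv ℂ (ev (F t)) z e₂ := by
  unfold gt
  conv_lhs => rw [E_eq (hh H t z)]
  rw [map_add, map_smul, map_smul]

theorem coord_diff {f : E → E} (hf : DifferentiableOn ℂ f (ball (0 : E) 1)) (i : Fin 2) :
    DifferentiableOn ℂ (fun z => f z i) (ball (0 : E) 1) :=
  (differentiableOn_euclidean.1 hf) i

theorem gt_diff (F H : ℝ → Hol) (t : ℝ) : DifferentiableOn ℂ (gt F H t) (ball (0 : E) 1) := by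
  have h1 := differentiableOn_fderiv_apply isOpen_ball (ev_diff (F t)) e₁
  have h2 := differentiableOn_fderiv_apply isOpen_ball (ev_diff (F t)) e₂
  have h3 := coord_diff (hh_diff H t) 0
  have h4 := coord_diff (hh_diff H t) 1
  exact ((h3.smul h1).add (h4.smul h2)).congr fun z _ => gt_eq F H t z

section chain

variable {F : ℝ → Hol} (hF : IsNormalChain F) (hreg : Reg F) {H : ℝ → Hol}
  (hH : ContinuousOn H (Ici 0))
include hF hreg

theorem fderiv_F_cont {z : E} (hz : z ∈ ball (0 : E) 1) :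
    ContinuousOn (fun t => fderiv ℂ (ev (F t)) z) (Ici 0) := by
  intro t ht
  have ht0 : 0 ≤ t := ht
  have hz' : ‖z‖ < 1 := mem_ball_zero_iff.1 hz
  set r := (1 + ‖z‖) / 2 with hr
  have hr1 : r < 1 := by rw [hr]; linarith
  have hr0 : 0 ≤ r := by rw [hr]; positivity
  have hzr : ‖z‖ < r := by rw [hr]; linarith
  have hrz : 0 < r - ‖z‖ := by linarith
  obtain ⟨C, hC0, hC⟩ := hF.lipschitz hreg hr0 hr1 (T := t + 1) (by linarith)
  have hC' : ∀ s ∈ Ici (0 : ℝ), s ≤ t + 1 → ‖fderiv ℂ (ev (F s)) z - fderiv ℂ (ev (F t)) z‖ ≤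
      2 * C / (r - ‖z‖) * |s - t| := by
    intro s hs hsT
    have := fderiv_sub_bound (ev_diff (F s)) (ev_diff (F t)) hzr hr1 (K := C * |s - t|) (by
      intro w hw
      rcases le_total s t with hst | hst
      · have h1 := hC s t hs hst (by linarith) w hw
        rw [norm_sub_rev]
        refine h1.trans_eq ?_
        rw [abs_of_nonpos (by linarith)]; ring
      · have h1 := hC t s ht0 hst hsT w hw
        refine h1.trans_eq ?_
        rw [abs_of_nonneg (by linarith)])
    refine this.trans_eq (by ring)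
  rw [ContinuousWithinAt, tendsto_iff_norm_sub_tendsto_zero]
  have t1 : Tendsto (fun s => 2 * C / (r - ‖z‖) * |s - t|) (𝓝[Ici 0] t) (𝓝 0) := by
    have h1 : Continuous fun s : ℝ => 2 * C / (r - ‖z‖) * |s - t| := by fun_prop
    have h2 := (h1.tendsto t).mono_left (nhdsWithin_le_nhds (s := Ici (0 : ℝ)))
    simpa using h2
  apply squeeze_zero' (Eventually.of_forall fun s => norm_nonneg _) _ t1
  have h3 : ∀ᶠ s in 𝓝[Ici 0] t, s < t + 1 :=
    (nhdsWithin_le_nhds (s := Ici (0 : ℝ))) (gt_mem_nhds (by linarith))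
  filter_upwards [h3, self_mem_nhdsWithin] with s hs hs0
  exact hC' s hs0 hs.le

include hH

theorem gt_cont {z : E} (hz : z ∈ ball (0 : E) 1) :
    ContinuousOn (fun t => gt F H t z) (Ici 0) := by
  have c0 : ContinuousOn (fun t => hh H t z) (Ici 0) :=
    ((continuous_ev hz).comp_continuousOn hH).neg
  exact (fderiv_F_cont hF hreg hz).clm_apply c0

/-- the chain is differentiable in time -/
theorem hasDerivAt_F {G : E → ℝ → E}
    (hGH : ∀ t, 0 ≤ t → ∀ z ∈ ball (0 : E) 1, G z t = ev (H t) z) (hgen : Generates G F)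
    {z : E} (hz : z ∈ ball (0 : E) 1) {t : ℝ} (ht : 0 < t) :
    HasDerivAt (fun s => ev (F s) z) (gt F H t z) t := by
  have hz' : ‖z‖ < 1 := mem_ball_zero_iff.1 hz
  refine hasDerivAt_of_ae (f := fun s => ev (F s) z) (D := fun t => gt F H t z) ?_
    (gt_cont hF hreg hH hz) ?_ t ht
  · intro T
    rcases le_or_gt 0 T with hT | hT
    · obtain ⟨C, hC0, hC⟩ := hF.lipschitz hreg (norm_nonneg z) hz' hT
      refine ⟨⟨C, hC0⟩, ?_⟩
      apply LipschitzOnWith.of_dist_le_mul
      intro x hx y hy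
      rw [dist_eq_norm, dist_eq_norm, Real.norm_eq_abs]
      show _ ≤ C * |x - y|
      rcases le_total x y with hxy | hxy
      · have h1 := hC x y hx.1 hxy hy.2 z le_rfl
        rw [norm_sub_rev, abs_of_nonpos (by linarith)]
        refine h1.trans_eq (by ring)
      · have h1 := hC y x hy.1 hxy hx.2 z le_rfl
        rw [abs_of_nonneg (by linarith)]
        exact h1
    · refine ⟨0, ?_⟩
      rw [Icc_eq_empty (by linarith)]
      exact lipschitzOnWith_empty _ _
  · have h1 := hgen z hz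
    rw [ae_restrict_iff' measurableSet_Ici] at h1 ⊢
    filter_upwards [h1] with s hs hs0
    have h2 := hs hs0
    rw [hGH s hs0 z hz] at h2
    have h3 : gt F H s z = -(fderiv ℂ (ev (F s)) z (ev (H s) z)) := by
      unfold gt hh
      rw [map_neg]
    rw [h3]
    exact h2

end chain

end Pool.Agent.SP
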