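import Pool.Agent.Lib52.SP.Func

set_option autoImplicit false

open Set Metric Filter MeasureTheory Complex
open scoped Topology ComplexConjugate

namespace Pool.Agent.SP

/-! ### transition maps -/

theorem exists_transition {f g : E → E} (hf : DifferentiableOn ℂ f (ball (0 : E) 1))
    (hg : DifferentiableOn ℂ g (ball (0 : E) 1)) (hinj : InjOn g (ball (0 : E) 1))
    (hreg : ∀ z ∈ ball (0 : E) 1, Function.Injective (fderiv ℂ g z))
    (hsub : f '' ball (0 : E) 1 ⊆ g '' ball (0 : E) 1) :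
    ∃ φ : E → E, DifferentiableOn ℂ φ (ball (0 : E) 1) ∧ (∀ z ∈ ball (0 : E) 1,
      φ z ∈ ball (0 : E) 1 ∧ g (φ z) = f z) := by
  have hex : ∀ z : E, ∃ w : E, z ∈ ball (0 : E) 1 → w ∈ ball (0 : E) 1 ∧ g w = f z := by
    intro z
    by_cases hz : z ∈ ball (0 : E) 1
    · obtain ⟨w, hw, he⟩ := hsub ⟨z, hz, rfl⟩
      exact ⟨w, fun _ => ⟨hw, he⟩⟩
    · exact ⟨0, fun h => absurd h hz⟩
  choose φ hφ using hex
  refine ⟨φ, ?_, hφ⟩
  intro z₀ hz₀
  apply DifferentiableAt.differentiableWithinAt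
  obtain ⟨hp, hgp⟩ := hφ z₀ hz₀
  set p := φ z₀ with hpdef
  set A := fderiv ℂ g p with hA
  set Ae : E ≃L[ℂ] E :=
    (LinearEquiv.ofInjectiveEndo A.toLinearMap (hreg p hp)).toContinuousLinearEquiv with hAe
  have hAeA : (Ae : E →L[ℂ] E) = A := by
    ext1 v
    rfl
  have hs : HasStrictFDerivAt g (Ae : E →L[ℂ] E) p := by
    rw [hAeA]; exact hasStrictFDerivAt' isOpen_ball hg hp
  set inv := hs.localInverse g Ae p with hinv
  have h1 : ∀ᶠ y in 𝓝 (g p), g (inv y) = y := hs.eventually_right_inverse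
  have h2 : inv (g p) = p := hs.localInverse_apply_image
  have h3 : HasStrictFDerivAt inv (Ae.symm : E →L[ℂ] E) (g p) := hs.to_localInverse
  have hfz : DifferentiableAt ℂ f z₀ := hf.differentiableAt (isOpen_ball.mem_nhds hz₀)
  have hev : φ =ᶠ[𝓝 z₀] fun z => inv (f z) := by
    have c1 : Tendsto f (𝓝 z₀) (𝓝 (g p)) := by
      rw [hgp]; exact hfz.continuousAt
    have c2 : Tendsto (fun z => inv (f z)) (𝓝 z₀) (𝓝 p) := by
      have := h3.continuousAt.tendsto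
      rw [h2] at this
      exact this.comp c1
    filter_upwards [c1.eventually h1, c2.eventually (isOpen_ball.mem_nhds hp),
      isOpen_ball.mem_nhds hz₀] with z a1 a2 a3
    obtain ⟨b1, b2⟩ := hφ z a3
    exact hinj b1 a2 (by rw [b2, a1])
  refine DifferentiableAt.congr_of_eventuallyEq ?_ hev
  have h4 : DifferentiableAt ℂ inv (f z₀) := by
    rw [← hgp]; exact h3.hasFDerivAt.differentiableAt
  exact DifferentiableAt.comp z₀ h4 hfz

/-! ### self-maps of the ball close to the identity -/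

section selfmaps

variable {φ : E → E} {α : ℝ}

/-- `Re ⟨z - φ z, z⟩ ≥ 0` -/
theorem re_inner_psi (hd : DifferentiableOn ℂ φ (ball (0 : E) 1))
    (hm : ∀ z ∈ ball (0 : E) 1, φ z ∈ ball (0 : E) 1) (h0 : φ 0 = 0) {z : E}
    (hz : z ∈ ball (0 : E) 1) : 0 ≤ (inner ℂ z (z - φ z)).re := by
  have hz' : ‖z‖ < 1 := mem_ball_zero_iff.1 hz
  have h1 : ‖φ z‖ ≤ ‖z‖ := by
    apply Complex.norm_le_norm_of_mapsTo_ball hd _ h0 hz'
    intro w hw
    exact ball_subset_closedBall (hm w hw)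
  rw [inner_sub_right, Complex.sub_re]
  have h2 : (inner ℂ z z).re = ‖z‖ ^ 2 := by
    have := inner_self_eq_norm_sq (𝕜 := ℂ) z
    simpa using this
  have h3 : (inner ℂ z (φ z)).re ≤ ‖z‖ * ‖φ z‖ :=
    (Complex.re_le_norm _).trans (norm_inner_le_norm z (φ z))
  rw [h2]
  nlinarith [norm_nonneg z, norm_nonneg (φ z)]

/-- the slice function -/
theorem slice_caratheodory (hd : DifferentiableOn ℂ φ (ball (0 : E) 1))
    (hm : ∀ z ∈ ball (0 : E) 1, φ z ∈ ball (0 : E) 1) (h0 : φ 0 = 0)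
    (h' : fderiv ℂ φ 0 = (α : ℂ) • ContinuousLinearMap.id ℂ E) (hα : α ≤ 1) {v : E}
    (hv : ‖v‖ = 1) : ∃ Q : ℂ → ℂ, DifferentiableOn ℂ Q (ball 0 1) ∧ Q 0 = ((1 - α : ℝ) : ℂ) ∧
      (∀ ζ ∈ ball (0 : ℂ) 1, 0 ≤ (Q ζ).re) ∧
      ∀ ζ ∈ ball (0 : ℂ) 1, inner ℂ v (ζ • v - φ (ζ • v)) = ζ * Q ζ := by
  set P : ℂ → ℂ := fun ζ => inner ℂ v (ζ • v - φ (ζ • v)) with hP
  have hmem : ∀ ζ ∈ ball (0 : ℂ) 1, ζ • v ∈ ball (0 : E) 1 := by
    intro ζ hζ
    rw [mem_ball_zero_iff, norm_smul, hv, mul_one]; simpa using hζ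
  have hPd : ∀ ζ ∈ ball (0 : ℂ) 1, HasDerivAt P (inner ℂ v (v - fderiv ℂ φ (ζ • v) v)) ζ := by
    intro ζ hζ
    have d1 : HasDerivAt (fun ζ : ℂ => ζ • v) v ζ := by
      simpa using (hasDerivAt_id ζ).smul_const v
    have d2 : HasDerivAt (fun ζ : ℂ => φ (ζ • v)) (fderiv ℂ φ (ζ • v) v) ζ :=
      HasFDerivAt.comp_hasDerivAt ζ
        (hd.differentiableAt (isOpen_ball.mem_nhds (hmem ζ hζ))).hasFDerivAt d1
    have d3 := d1.sub d2
    exact HasFDerivAt.comp_hasDerivAt ζ (innerSL ℂ v).hasFDerivAt d3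
  have hP0 : P 0 = 0 := by simp [hP, h0]
  have hvv : inner ℂ v v = (1 : ℂ) := by
    rw [inner_self_eq_norm_sq_to_K, hv]; simp
  have hP' : deriv P 0 = ((1 - α : ℝ) : ℂ) := by
    rw [(hPd 0 (by simp)).deriv, zero_smul, h']
    simp only [_root_.smul_apply, ContinuousLinearMap.id_apply]
    rw [inner_sub_right, inner_smul_right, hvv]
    push_cast; ring
  refine ⟨dslope P 0, ?_, ?_, ?_, ?_⟩
  · rw [Complex.differentiableOn_dslope (ball_mem_nhds 0 one_pos)]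
    exact fun ζ hζ => (hPd ζ hζ).differentiableAt.differentiableWithinAt
  · rw [dslope_same, hP']
  · intro ζ hζ
    by_cases hne : ζ = 0
    · rw [hne, dslope_same, hP', Complex.ofReal_re]; linarith
    · rw [dslope_of_ne _ hne, slope_def_field, hP0, sub_zero, sub_zero, re_div_eq]
      apply div_nonneg _ (by positivity)
      have h1 := re_inner_psi hd hm h0 (hmem ζ hζ)
      rw [inner_smul_left] at h1
      rw [mul_comm]; exact h1
  · intro ζ hζ
    by_cases hne : ζ = 0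
    · rw [hne, zero_mul]
      exact hP0
    · rw [dslope_of_ne _ hne, slope_def_field, hP0, sub_zero, sub_zero]
      show P ζ = _
      field_simp

/-- bound for functions with nonnegative real part -/
theorem norm_le_of_re_nonneg {Q : ℂ → ℂ} {c : ℝ} (hc : 0 < c)
    (hQ : DifferentiableOn ℂ Q (ball 0 1)) (h0 : Q 0 = (c : ℂ))
    (hpos : ∀ ζ ∈ ball (0 : ℂ) 1, 0 ≤ (Q ζ).re) {ζ : ℂ} (hζ : ‖ζ‖ < 1) :
    ‖Q ζ‖ ≤ 2 * c / (1 - ‖ζ‖) := by
  have hd : DifferentiableOn ℂ (fun z => (c : ℂ) - Q z) (ball 0 1) :=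
    (differentiableOn_const _).sub hQ
  have key := Complex.borelCaratheodory_zero hc hd (fun z hz => by
    have := hpos z hz
    simp only [mem_ofPred_eq, Complex.sub_re, Complex.ofReal_re]
    linarith) one_pos (z := ζ) (by simpa using hζ) (by simp [h0])
  have h1 : ‖Q ζ‖ ≤ ‖(c : ℂ) - Q ζ‖ + c := by
    have h2 : ‖Q ζ‖ ≤ ‖(c : ℂ)‖ + ‖(c : ℂ) - Q ζ‖ := by
      have := norm_sub_le (c : ℂ) ((c : ℂ) - Q ζ)
      simpa using this
    rw [Complex.norm_real, Real.norm_of_nonneg hc.le] at h2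
    linarith
  have h3 : 0 < 1 - ‖ζ‖ := by linarith
  have hn := norm_nonneg ζ
  calc ‖Q ζ‖ ≤ 2 * c * ‖ζ‖ / (1 - ‖ζ‖) + c := by linarith
    _ = c * (1 + ‖ζ‖) / (1 - ‖ζ‖) := by field_simp; ring
    _ ≤ c * 2 / (1 - ‖ζ‖) := by gcongr; linarith
    _ = _ := by ring

theorem inner_psi_bound (hd : DifferentiableOn ℂ φ (ball (0 : E) 1))
    (hm : ∀ z ∈ ball (0 : E) 1, φ z ∈ ball (0 : E) 1) (h0 : φ 0 = 0)
    (h' : fderiv ℂ φ 0 = (α : ℂ) • ContinuousLinearMap.id ℂ E) (hα : α < 1) {x : E}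
    (hx : ‖x‖ < 1) : ‖inner ℂ x (x - φ x)‖ ≤ 2 * (1 - α) / (1 - ‖x‖) := by
  by_cases hx0 : x = 0
  · rw [hx0, h0]; simp; linarith
  have hxn : 0 < ‖x‖ := norm_pos_iff.2 hx0
  set v : E := ((‖x‖⁻¹ : ℝ) : ℂ) • x with hv
  have hv1 : ‖v‖ = 1 := by
    rw [hv, norm_smul, Complex.norm_real, Real.norm_of_nonneg (by positivity)]
    field_simp
  have hxv : x = ((‖x‖ : ℝ) : ℂ) • v := by
    rw [hv, smul_smul, ← Complex.ofReal_mul, mul_inv_cancel₀ hxn.ne']; simp
  obtain ⟨Q, hQ, hQ0, hQpos, hQe⟩ := slice_caratheodory hd hm h0 h' hα.le hv1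
  have hζ : ((‖x‖ : ℝ) : ℂ) ∈ ball (0 : ℂ) 1 := by simpa using hx
  have h1 := hQe _ hζ
  rw [← hxv] at h1
  have h2 : inner ℂ x (x - φ x) = ((‖x‖ : ℝ) : ℂ) * inner ℂ v (x - φ x) := by
    conv_lhs => rw [show inner ℂ x (x - φ x) = inner ℂ (((‖x‖ : ℝ) : ℂ) • v) (x - φ x) by
      rw [← hxv]]
    rw [inner_smul_left, Complex.conj_ofReal]
  rw [h2, h1, norm_mul, norm_mul, Complex.norm_real, norm_norm]
  have h3 := norm_le_of_re_nonneg (by linarith : 0 < 1 - α) hQ hQ0 hQpos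
    (ζ := ((‖x‖ : ℝ) : ℂ)) (by simpa using hx)
  rw [Complex.norm_real, norm_norm] at h3
  calc ‖x‖ * (‖x‖ * ‖Q ((‖x‖ : ℝ) : ℂ)‖) ≤ 1 * (1 * ‖Q ((‖x‖ : ℝ) : ℂ)‖) := by gcongr
    _ ≤ 2 * (1 - α) / (1 - ‖x‖) := by rw [one_mul, one_mul]; exact h3

/-- a self-map of the ball with `dφ₀ = α id` is `O(1-α)`-close to the identity -/
theorem norm_psi_bound (hd : DifferentiableOn ℂ φ (ball (0 : E) 1))
    (hm : ∀ z ∈ ball (0 : E) 1, φ z ∈ ball (0 : E) 1) (h0 : φ 0 = 0)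
    (h' : fderiv ℂ φ 0 = (α : ℂ) • ContinuousLinearMap.id ℂ E) (hα : α < 1) {r : ℝ}
    (_hr0 : 0 ≤ r) (hr : r < 1) {z : E} (hz : ‖z‖ ≤ r) :
    ‖z - φ z‖ ≤ 8 * (1 - α) / (1 - r) ^ 2 := by
  have h1r : 0 < 1 - r := by linarith
  have h1α : 0 < 1 - α := by linarith
  by_cases hψ : z - φ z = 0
  · rw [hψ, norm_zero]; positivity
  set y : E := ((‖z - φ z‖⁻¹ : ℝ) : ℂ) • (z - φ z) with hy
  have hψn : 0 < ‖z - φ z‖ := norm_pos_iff.2 hψ
  have hy1 : ‖y‖ = 1 := by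
    rw [hy, norm_smul, Complex.norm_real, Real.norm_of_nonneg (by positivity)]
    field_simp
  set c : ℝ := (1 - r) / 2 with hc
  have hc0 : 0 < c := by rw [hc]; linarith
  have hmem : ∀ s ∈ closedBall (0 : ℂ) c, ‖z + s • y‖ ≤ (1 + r) / 2 := by
    intro s hs
    have hs' : ‖s‖ ≤ c := by simpa using hs
    calc ‖z + s • y‖ ≤ ‖z‖ + ‖s • y‖ := norm_add_le _ _
      _ ≤ r + c := by rw [norm_smul, hy1, mul_one]; gcongr
      _ = (1 + r) / 2 := by rw [hc]; ring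
  have hmem' : ∀ s ∈ closedBall (0 : ℂ) c, z + s • y ∈ ball (0 : E) 1 := fun s hs => by
    rw [mem_ball_zero_iff]; linarith [hmem s hs]
  -- holomorphic pieces
  have dψ : ∀ s ∈ closedBall (0 : ℂ) c,
      DifferentiableAt ℂ (fun s : ℂ => (z + s • y) - φ (z + s • y)) s := by
    intro s hs
    have d1 : DifferentiableAt ℂ (fun s : ℂ => z + s • y) s := by fun_prop
    have d2 : DifferentiableAt ℂ φ (z + s • y) :=
      hd.differentiableAt (isOpen_ball.mem_nhds (hmem' s hs))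
    exact d1.sub (DifferentiableAt.comp (f := fun s : ℂ => z + s • y) s d2 d1)
  have dz : DifferentiableOn ℂ (fun s : ℂ => inner ℂ z ((z + s • y) - φ (z + s • y)))
      (closedBall 0 c) := fun s hs =>
    (DifferentiableAt.comp s (innerSL ℂ z).differentiableAt (dψ s hs)).differentiableWithinAt
  have dy : DifferentiableOn ℂ (fun s : ℂ => inner ℂ y ((z + s • y) - φ (z + s • y)))
      (closedBall 0 c) := fun s hs =>
    (DifferentiableAt.comp s (innerSL ℂ y).differentiableAt (dψ s hs)).differentiableWithinAt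
  have cz := dz.continuousOn.mono (sphere_subset_closedBall (x := (0 : ℂ)) (ε := c))
  have cy := dy.continuousOn.mono (sphere_subset_closedBall (x := (0 : ℂ)) (ε := c))
  -- the mode `-1`
  have e1 : md (-1) c (fun s => inner ℂ (z + s • y) ((z + s • y) - φ (z + s • y))) =
      c * inner ℂ y (z - φ z) := by
    have e2 : md (-1) c (fun s => inner ℂ (z + s • y) ((z + s • y) - φ (z + s • y))) =
        md (-1) c (fun s => inner ℂ z ((z + s • y) - φ (z + s • y)) +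
          conj s * inner ℂ y ((z + s • y) - φ (z + s • y))) := by
      apply md_congr hc0 _ fun s _ => ?_
      rw [inner_add_left, inner_smul_left]
    have cy' : ContinuousOn (fun s : ℂ => conj s * inner ℂ y ((z + s • y) - φ (z + s • y)))
        (sphere 0 c) := continuous_conj.continuousOn.mul cy
    rw [e2, md_add hc0 _ cz cy', md_conj_var_mul hc0, md_int_neg hc0 (by norm_num) dz, zero_add]
    have := md_nat hc0 0 dy
    rw [show ((0 : ℕ) : ℤ) = -1 + 1 by norm_num, pow_zero, one_mul, co_zero] at this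
    rw [this]; simp
  have e3 : ‖md (-1) c (fun s => inner ℂ (z + s • y) ((z + s • y) - φ (z + s • y)))‖ ≤
      4 * (1 - α) / (1 - r) := by
    refine (norm_md_le hc0 _).trans ?_
    have hcont : ContinuousOn
        (fun s : ℂ => ‖inner ℂ (z + s • y) ((z + s • y) - φ (z + s • y))‖) (sphere 0 c) := by
      apply ContinuousOn.norm
      have cy' : ContinuousOn (fun s : ℂ => inner ℂ z ((z + s • y) - φ (z + s • y)) +
          conj s * inner ℂ y ((z + s • y) - φ (z + s • y))) (sphere 0 c) :=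
        cz.add (continuous_conj.continuousOn.mul cy)
      refine cy'.congr fun s _ => ?_
      rw [inner_add_left, inner_smul_left]
    calc _ ≤ avr c (fun _ => 4 * (1 - α) / (1 - r)) := by
          apply avr_mono hc0 hcont continuousOn_const
          intro s hs
          have hs' := sphere_subset_closedBall hs
          have hn := hmem s hs'
          have hlt : ‖z + s • y‖ < 1 := by linarith
          refine (inner_psi_bound hd hm h0 h' hα hlt).trans ?_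
          rw [div_le_div_iff₀ (by linarith) h1r]
          nlinarith
      _ = _ := Real.circleAverage_const _ 0 _
  rw [e1, norm_mul, Complex.norm_real, Real.norm_of_nonneg hc0.le] at e3
  have e4 : inner ℂ y (z - φ z) = ((‖z - φ z‖ : ℝ) : ℂ) := by
    rw [hy, inner_smul_left, Complex.conj_ofReal, inner_self_eq_norm_sq_to_K]
    push_cast
    have : ((‖z - φ z‖ : ℝ) : ℂ) ≠ 0 := by exact_mod_cast hψn.ne'
    field_simp
    simp
  rw [e4, Complex.norm_real, norm_norm] at e3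
  rw [le_div_iff₀ (by positivity)]
  rw [le_div_iff₀ h1r, hc] at e3
  nlinarith

/-- second coefficient of a self-map -/
noncomputable def D2 (f : E → E) : ℂ := (fderiv ℂ (fun z => fderiv ℂ f z e₁) 0 e₁) 0

end selfmaps

theorem e₁_norm : ‖e₁‖ = 1 := by
  have : ‖e₁‖ = ‖(1 : ℂ)‖ := norm_pt_zero 1
  rw [this, norm_one]

theorem pt_zero_eq (ζ : ℂ) : pt ζ 0 = ζ • e₁ := by rw [pt_eq, zero_smul, add_zero]

theorem deriv_slice {f : E → E} (hf : DifferentiableOn ℂ f (ball (0 : E) 1)) (i : Fin 2) {ζ : ℂ}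
    (hζ : ‖ζ‖ < 1) : HasDerivAt (fun ζ => f (pt ζ 0) i) (fderiv ℂ f (pt ζ 0) e₁ i) ζ :=
  hasDerivAt_coord (hasDerivAt_line₁
    (hf.differentiableAt (isOpen_ball.mem_nhds (pt_zero_mem hζ)))) i

theorem deriv2_slice {f : E → E} (hf : DifferentiableOn ℂ f (ball (0 : E) 1)) :
    HasDerivAt (fun ζ => fderiv ℂ f (pt ζ 0) e₁ 0) (D2 f) 0 := by
  have h1 := deriv_slice (differentiableOn_fderiv_apply isOpen_ball hf e₁) 0 (ζ := 0) (by simp)
  have h2 : pt (0 : ℂ) 0 = 0 := by ext i; fin_cases i <;> rfl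
  rw [h2] at h1
  exact h1

theorem pt00 : pt (0 : ℂ) 0 = 0 := by ext i; fin_cases i <;> rfl

theorem co_two (A : ℂ → ℂ) : co A 2 = deriv (deriv A) 0 / 2 := by
  unfold co
  have : iteratedDeriv 2 A 0 = deriv (deriv A) 0 := by
    rw [show (2 : ℕ) = 1 + 1 from rfl, iteratedDeriv_succ', iteratedDeriv_one]
  rw [this]
  norm_num [Nat.factorial]

theorem co_two_eq {f : E → E} (hf : DifferentiableOn ℂ f (ball (0 : E) 1)) :
    co (fun ζ => f (pt ζ 0) 0) 2 = D2 f / 2 := by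
  rw [co_two]
  have h1 : deriv (fun ζ => f (pt ζ 0) 0) =ᶠ[𝓝 0] fun ζ => fderiv ℂ f (pt ζ 0) e₁ 0 := by
    filter_upwards [ball_mem_nhds (0 : ℂ) one_pos] with ζ hζ
    exact (deriv_slice hf 0 (by simpa using hζ)).deriv
  rw [h1.deriv_eq, (deriv2_slice hf).deriv]

/-- second coefficient of a composition -/
theorem D2_comp {f g φ : E → E} {a b : ℂ} (hf : DifferentiableOn ℂ f (ball (0 : E) 1))
    (hg : DifferentiableOn ℂ g (ball (0 : E) 1)) (hφ : DifferentiableOn ℂ φ (ball (0 : E) 1))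
    (hm : ∀ z ∈ ball (0 : E) 1, φ z ∈ ball (0 : E) 1) (h0 : φ 0 = 0)
    (he : ∀ z ∈ ball (0 : E) 1, g (φ z) = f z)
    (h' : fderiv ℂ φ 0 = a • ContinuousLinearMap.id ℂ E)
    (hg' : fderiv ℂ g 0 = b • ContinuousLinearMap.id ℂ E) :
    D2 f = b * D2 φ + a ^ 2 * D2 g := by
  -- the derivative of the slice
  have hd1 : ∀ ζ ∈ ball (0 : ℂ) 1, fderiv ℂ f (pt ζ 0) e₁ 0 =
      (fderiv ℂ φ (pt ζ 0) e₁ 0) * (fderiv ℂ g (φ (pt ζ 0)) e₁ 0) +
      (fderiv ℂ φ (pt ζ 0) e₁ 1) * (fderiv ℂ g (φ (pt ζ 0)) e₂ 0) := by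
    intro ζ hζ
    have hζ' : ‖ζ‖ < 1 := by simpa using hζ
    have hz := pt_zero_mem hζ'
    have dφ := hφ.differentiableAt (isOpen_ball.mem_nhds hz)
    have dg := hg.differentiableAt (isOpen_ball.mem_nhds (hm _ hz))
    have hc : HasFDerivAt f ((fderiv ℂ g (φ (pt ζ 0))).comp (fderiv ℂ φ (pt ζ 0))) (pt ζ 0) := by
      have h1 := HasFDerivAt.comp (pt ζ 0) dg.hasFDerivAt dφ.hasFDerivAt
      refine h1.congr_of_eventuallyEq ?_
      filter_upwards [isOpen_ball.mem_nhds hz] with w hw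
      exact (he w hw).symm
    rw [hc.fderiv, ContinuousLinearMap.comp_apply]
    set η := fderiv ℂ φ (pt ζ 0) e₁ with hη
    conv_lhs => rw [E_eq η]
    rw [map_add, map_smul, map_smul]
    rfl
  have h1 := deriv2_slice hf
  have h2 : HasDerivAt (fun ζ => (fderiv ℂ φ (pt ζ 0) e₁ 0) * (fderiv ℂ g (φ (pt ζ 0)) e₁ 0) +
      (fderiv ℂ φ (pt ζ 0) e₁ 1) * (fderiv ℂ g (φ (pt ζ 0)) e₂ 0)) (D2 f) 0 := by
    refine h1.congr_of_eventuallyEq ?_
    filter_upwards [ball_mem_nhds (0 : ℂ) one_pos] with ζ hζ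
    exact (hd1 ζ hζ).symm
  -- the pieces
  have k1 := deriv2_slice hφ
  have k2 : HasDerivAt (fun ζ => fderiv ℂ φ (pt ζ 0) e₁ 1)
      (fderiv ℂ (fun z => fderiv ℂ φ z e₁) (pt 0 0) e₁ 1) 0 :=
    deriv_slice (differentiableOn_fderiv_apply isOpen_ball hφ e₁) 1 (by simp)
  have kφ : HasDerivAt (fun ζ => φ (pt ζ 0)) (a • e₁) 0 := by
    have dφ := hφ.differentiableAt (isOpen_ball.mem_nhds (pt_zero_mem (ζ := 0) (by simp)))
    have := hasDerivAt_line₁ dφ
    rw [pt00, h'] at this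
    simpa using this
  have kg : ∀ v : E, HasDerivAt (fun ζ => fderiv ℂ g (φ (pt ζ 0)) v 0)
      ((fderiv ℂ (fun z => fderiv ℂ g z v) 0 (a • e₁)) 0) 0 := by
    intro v
    have dg := (differentiableOn_fderiv_apply isOpen_ball hg v).differentiableAt
      (isOpen_ball.mem_nhds zero_mem_ball)
    have hφ0 : φ (pt 0 0) = 0 := by rw [pt00, h0]
    have h5 : HasFDerivAt (fun z => fderiv ℂ g z v) (fderiv ℂ (fun z => fderiv ℂ g z v) 0)
        (φ (pt 0 0)) := by rw [hφ0]; exact dg.hasFDerivAt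
    exact hasDerivAt_coord (HasFDerivAt.comp_hasDerivAt 0 h5 kφ) 0
  have h3 := (k1.mul (kg e₁)).add (k2.mul (kg e₂))
  have h4 := h2.unique h3
  rw [h4]
  simp only [pt00, h0, h', hg']
  have v1 : (a • ContinuousLinearMap.id ℂ E) e₁ 0 = a := by
    show a * (1 : ℂ) = a
    ring
  have v2 : (a • ContinuousLinearMap.id ℂ E) e₁ 1 = 0 := by
    show a * (0 : ℂ) = 0
    ring
  have v3 : (b • ContinuousLinearMap.id ℂ E) e₁ 0 = b := by
    show b * (1 : ℂ) = b
    ring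
  have v4 : (b • ContinuousLinearMap.id ℂ E) e₂ 0 = 0 := by
    show b * (0 : ℂ) = 0
    ring
  rw [v1, v2, v3, v4, map_smul]
  show D2 φ * b + a * (a * D2 g) + _ = _
  ring

/-- second coefficient of a self-map -/
theorem norm_D2_le {φ : E → E} {α : ℝ} (hd : DifferentiableOn ℂ φ (ball (0 : E) 1))
    (hm : ∀ z ∈ ball (0 : E) 1, φ z ∈ ball (0 : E) 1) (h0 : φ 0 = 0)
    (h' : fderiv ℂ φ 0 = (α : ℂ) • ContinuousLinearMap.id ℂ E) (hα : α ≤ 1) :
    ‖D2 φ‖ ≤ 4 * (1 - α) := by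
  obtain ⟨Q, hQ, hQ0, hQpos, hQe⟩ := slice_caratheodory hd hm h0 h' hα e₁_norm
  -- `φ¹(ζ,0) = ζ - ζ Q ζ`
  have hin : ∀ x : E, inner ℂ e₁ x = x 0 := by
    intro x
    have : inner ℂ e₁ x = ∑ i, inner ℂ (e₁ i) (x i) := PiLp.inner_apply e₁ x
    rw [this, Fin.sum_univ_two]
    have a0 : e₁ 0 = 1 := rfl
    have a1 : e₁ 1 = 0 := rfl
    rw [a0, a1]; simp
  have hslice : ∀ ζ ∈ ball (0 : ℂ) 1, φ (pt ζ 0) 0 = ζ - ζ * Q ζ := by
    intro ζ hζ
    have h1 := hQe ζ hζ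
    rw [hin] at h1
    rw [pt_zero_eq, ← h1]
    show _ = ζ - (ζ * (1 : ℂ) - φ (ζ • e₁) 0)
    ring
  have h2 : D2 φ / 2 = -co Q 1 := by
    rw [← co_two_eq hd]
    -- expansion of Q
    have hdQ : DifferentiableOn ℂ (dslope Q 0) (ball 0 1) :=
      (Complex.differentiableOn_dslope (ball_mem_nhds 0 one_pos)).2 hQ
    have hdQ2 : DifferentiableOn ℂ (dslope (dslope Q 0) 0) (ball 0 1) :=
      (Complex.differentiableOn_dslope (ball_mem_nhds 0 one_pos)).2 hdQ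
    have hds : ∀ (R : ℂ → ℂ) (ζ : ℂ), R ζ = R 0 + ζ * dslope R 0 ζ := by
      intro R ζ
      have := sub_smul_dslope R 0 ζ
      rw [sub_zero, smul_eq_mul] at this
      rw [this]; ring
    have := (co_of_expansion (C := fun ζ => φ (pt ζ 0) 0) (a := 0) (b := 1 - Q 0)
      (c := -dslope Q 0 0) (g := fun ζ => -dslope (dslope Q 0) 0 ζ) hdQ2.neg ?_).2
    · rw [this, dslope_same, co_one]
    · intro ζ hζ
      rw [hslice ζ hζ]
      have h3 := hds Q ζ
      have h4 := hds (dslope Q 0) ζ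
      rw [h3]
      conv_lhs => rw [h4]
      ring
  have h3 : ∀ r : ℝ, 0 < r → r < 1 → r * ‖co Q 1‖ ≤ 2 * (1 - α) := by
    intro r hr hr1
    have := caratheodory hr (differentiableOn_of_closedBall hQ hr1)
      (fun z hz => hQpos z (sphere_subset_ball hr1 hz)) 1 one_ne_zero
    rw [pow_one, hQ0, Complex.ofReal_re] at this
    exact this
  have h4 : ‖co Q 1‖ ≤ 2 * (1 - α) := by
    have t1 : Tendsto (fun r : ℝ => r * ‖co Q 1‖) (𝓝[<] 1) (𝓝 (1 * ‖co Q 1‖)) := by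
      apply Tendsto.mono_left _ nhdsWithin_le_nhds
      apply Continuous.tendsto; fun_prop
    rw [one_mul] at t1
    apply le_of_tendsto t1
    have : Ioo (0 : ℝ) 1 ∈ 𝓝[<] (1 : ℝ) := Ioo_mem_nhdsLT one_pos
    filter_upwards [this] with r hr using h3 r hr.1 hr.2
  have h5 : D2 φ = -2 * co Q 1 := by linear_combination 2 * h2
  rw [h5, norm_mul, norm_neg, Complex.norm_ofNat]
  linarith

end Pool.Agent.SP
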