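import Pool.Agent.Lib52.SP.Dcls

set_option autoImplicit false

open Set Metric Filter MeasureTheory Complex
open scoped Topology Real ComplexConjugate

namespace Pool.Agent.SP

/-- Koebe function -/
noncomputable def kf (ζ : ℂ) : ℂ := ζ / (1 - ζ) ^ 2

/-- principal square root of `1 + 4 y` -/
noncomputable def sq (y : ℂ) : ℂ := (1 + 4 * y) ^ (2⁻¹ : ℂ)

/-- the slit domain `k(𝔻)` -/
def Dom : Set ℂ := {y | 1 + 4 * y ∈ slitPlane}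

/-- inverse of the Koebe function -/
noncomputable def ki (y : ℂ) : ℂ := (sq y - 1) / (sq y + 1)

/-- the Koebe semigroup `k⁻¹(x k(ζ))` -/
noncomputable def Zf (x : ℝ) (ζ : ℂ) : ℂ := ki (x * kf ζ)

theorem isOpen_Dom : IsOpen Dom := by
  apply isOpen_slitPlane.preimage
  fun_prop

theorem sq_sq (y : ℂ) : sq y ^ 2 = 1 + 4 * y := by
  unfold sq
  exact cpow_ofNat_inv_pow _ 2

theorem sq_re_pos {y : ℂ} (hy : y ∈ Dom) : 0 < (sq y).re := by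
  have h0 : (1 + 4 * y) ≠ 0 := slitPlane_ne_zero hy
  unfold sq
  rw [cpow_def_of_ne_zero h0, Complex.exp_re]
  apply mul_pos (Real.exp_pos _)
  apply Real.cos_pos_of_mem_Ioo
  have h1 : (log (1 + 4 * y) * 2⁻¹).im = arg (1 + 4 * y) / 2 := by
    have : (2⁻¹ : ℂ) = ((1 / 2 : ℝ) : ℂ) := by push_cast; norm_num
    rw [this, Complex.im_mul_ofReal, Complex.log_im]; ring
  rw [h1]
  have h2 := (mem_slitPlane_iff_arg.1 hy).1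
  have h3 := Complex.neg_pi_lt_arg (1 + 4 * y)
  have h4 := Complex.arg_le_pi (1 + 4 * y)
  have h5 : arg (1 + 4 * y) < π := lt_of_le_of_ne h4 h2
  constructor <;> linarith

theorem sq_ne_zero {y : ℂ} (hy : y ∈ Dom) : sq y ≠ 0 := by
  intro h
  have := sq_re_pos hy
  rw [h] at this; simp at this

theorem sq_add_one_ne {y : ℂ} (hy : y ∈ Dom) : sq y + 1 ≠ 0 := by
  intro h
  have h1 := sq_re_pos hy
  have h2 : sq y = -1 := by linear_combination h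
  rw [h2] at h1
  norm_num at h1

theorem one_add_four_kf {ζ : ℂ} (hζ : ‖ζ‖ < 1) : 1 + 4 * kf ζ = ((1 + ζ) / (1 - ζ)) ^ 2 := by
  have := one_sub_ne hζ
  unfold kf
  field_simp
  ring

theorem re_inv_pos {ζ : ℂ} (hζ : ‖ζ‖ < 1) : 0 < ((1 + ζ) / (1 - ζ)).re := by
  have := re_pf_pos (ζ := -ζ) (by simpa using hζ)
  unfold pf at this
  rwa [sub_neg_eq_add, ← sub_eq_add_neg] at this

theorem sq_kf {ζ : ℂ} (hζ : ‖ζ‖ < 1) : sq (kf ζ) = (1 + ζ) / (1 - ζ) := by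
  unfold sq
  rw [one_add_four_kf hζ, sq_cpow_two_inv (re_inv_pos hζ)]

theorem kf_mem {ζ : ℂ} (hζ : ‖ζ‖ < 1) : kf ζ ∈ Dom := by
  show 1 + 4 * kf ζ ∈ slitPlane
  rw [one_add_four_kf hζ]
  set P := (1 + ζ) / (1 - ζ) with hP
  have hre : 0 < P.re := re_inv_pos hζ
  rw [mem_slitPlane_iff]
  by_cases him : P.im = 0
  · left
    rw [pow_two, Complex.mul_re, him]
    nlinarith
  · right
    rw [pow_two, Complex.mul_im]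
    have : P.re * P.im + P.im * P.re = 2 * (P.re * P.im) := by ring
    rw [this]
    have := mul_ne_zero hre.ne' him
    simpa using this

theorem ki_kf {ζ : ℂ} (hζ : ‖ζ‖ < 1) : ki (kf ζ) = ζ := by
  unfold ki
  rw [sq_kf hζ]
  have h1 := one_sub_ne hζ
  have h2 : (1 + ζ) / (1 - ζ) + 1 = 2 / (1 - ζ) := by field_simp; ring
  have h3 : (1 + ζ) / (1 - ζ) - 1 = 2 * ζ / (1 - ζ) := by field_simp; ring
  rw [h2, h3]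
  field_simp

theorem norm_ki_lt {y : ℂ} (hy : y ∈ Dom) : ‖ki y‖ < 1 := by
  unfold ki
  have h1 := sq_re_pos hy
  have h2 := sq_add_one_ne hy
  rw [norm_div, div_lt_one (norm_pos_iff.2 h2)]
  rw [← abs_of_nonneg (norm_nonneg (sq y - 1)), ← abs_of_nonneg (norm_nonneg (sq y + 1)),
    ← sq_lt_sq, ← Complex.normSq_eq_norm_sq, ← Complex.normSq_eq_norm_sq, Complex.normSq_apply,
    Complex.normSq_apply]
  simp only [Complex.sub_re, Complex.one_re, Complex.sub_im, Complex.one_im, Complex.add_re,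
    Complex.add_im]
  nlinarith

theorem kf_ki {y : ℂ} (hy : y ∈ Dom) : kf (ki y) = y := by
  have h1 := sq_add_one_ne hy
  have h2 := sq_sq y
  unfold kf ki
  have h3 : (1 : ℂ) - (sq y - 1) / (sq y + 1) = 2 / (sq y + 1) := by field_simp; ring
  rw [h3]
  field_simp
  linear_combination h2

theorem smul_mem_Dom {x : ℝ} (h0 : 0 ≤ x) (h1 : x ≤ 1) {y : ℂ} (hy : y ∈ Dom) :
    (x : ℂ) * y ∈ Dom := by
  show 1 + 4 * ((x : ℂ) * y) ∈ slitPlane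
  have := starConvex_one_slitPlane.add_smul_mem (y := 4 * y) hy h0 h1
  convert this using 1
  rw [Complex.real_smul]; ring

theorem hasDerivAt_sq {y : ℂ} (hy : y ∈ Dom) : HasDerivAt sq (2 / sq y) y := by
  have h1 : HasDerivAt (fun y : ℂ => 1 + 4 * y) 4 y := by
    simpa using ((hasDerivAt_id y).const_mul (4 : ℂ)).const_add 1
  have h2 := h1.cpow_const (c := (2⁻¹ : ℂ)) hy
  have h3 : (2⁻¹ : ℂ) * (1 + 4 * y) ^ ((2⁻¹ : ℂ) - 1) * 4 = 2 / sq y := by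
    have h0 : (1 + 4 * y) ≠ 0 := slitPlane_ne_zero hy
    have hs := sq_ne_zero hy
    have e1 : (1 + 4 * y) ^ ((2⁻¹ : ℂ) - 1) = (sq y)⁻¹ := by
      have : ((2⁻¹ : ℂ) - 1) = -(2⁻¹ : ℂ) := by norm_num
      rw [this, cpow_neg]; rfl
    rw [e1]; field_simp; norm_num
  rw [← h3]; exact h2

theorem hasDerivAt_ki {y : ℂ} (hy : y ∈ Dom) :
    HasDerivAt ki (4 / (sq y * (sq y + 1) ^ 2)) y := by
  have h1 := sq_add_one_ne hy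
  have h0 := sq_ne_zero hy
  have h2 := ((hasDerivAt_sq hy).sub_const 1).div ((hasDerivAt_sq hy).add_const 1) h1
  refine h2.congr_deriv ?_
  field_simp
  ring

theorem differentiableAt_kf {ζ : ℂ} (hζ : ‖ζ‖ < 1) : DifferentiableAt ℂ kf ζ := by
  have d1 : DifferentiableAt ℂ (fun ζ : ℂ => ζ) ζ := by fun_prop
  have d2 : DifferentiableAt ℂ (fun ζ : ℂ => (1 - ζ) ^ 2) ζ := by fun_prop
  exact d1.div d2 (pow_ne_zero 2 (one_sub_ne hζ))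

/-! ### the flow -/

theorem mem_Dom_Z {x : ℝ} (h0 : 0 ≤ x) (h1 : x ≤ 1) {ζ : ℂ} (hζ : ‖ζ‖ < 1) :
    (x : ℂ) * kf ζ ∈ Dom := smul_mem_Dom h0 h1 (kf_mem hζ)

theorem norm_Zf_lt {x : ℝ} (h0 : 0 ≤ x) (h1 : x ≤ 1) {ζ : ℂ} (hζ : ‖ζ‖ < 1) :
    ‖Zf x ζ‖ < 1 := norm_ki_lt (mem_Dom_Z h0 h1 hζ)

theorem Zf_one {ζ : ℂ} (hζ : ‖ζ‖ < 1) : Zf 1 ζ = ζ := by
  unfold Zf
  rw [Complex.ofReal_one, one_mul, ki_kf hζ]

theorem kf_Zf {x : ℝ} (h0 : 0 ≤ x) (h1 : x ≤ 1) {ζ : ℂ} (hζ : ‖ζ‖ < 1) :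
    kf (Zf x ζ) = x * kf ζ := kf_ki (mem_Dom_Z h0 h1 hζ)

theorem Zf_Zf {x y : ℝ} (_hx0 : 0 ≤ x) (_hx1 : x ≤ 1) (hy0 : 0 ≤ y) (hy1 : y ≤ 1) {ζ : ℂ}
    (hζ : ‖ζ‖ < 1) : Zf x (Zf y ζ) = Zf (x * y) ζ := by
  show ki (x * kf (Zf y ζ)) = _
  rw [kf_Zf hy0 hy1 hζ]
  unfold Zf
  congr 1
  push_cast; ring

theorem kf_zero : kf 0 = 0 := by simp [kf]

theorem Zf_zero (x : ℝ) : Zf x 0 = 0 := by
  unfold Zf
  rw [kf_zero, mul_zero]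
  have := ki_kf (ζ := 0) (by simp)
  rwa [kf_zero] at this

theorem differentiableAt_Zf {x : ℝ} (h0 : 0 ≤ x) (h1 : x ≤ 1) {ζ : ℂ} (hζ : ‖ζ‖ < 1) :
    DifferentiableAt ℂ (Zf x) ζ := by
  have d1 : DifferentiableAt ℂ (fun ζ : ℂ => (x : ℂ) * kf ζ) ζ :=
    (differentiableAt_kf hζ).const_mul _
  have d2 := (hasDerivAt_ki (mem_Dom_Z h0 h1 hζ)).differentiableAt
  exact DifferentiableAt.comp ζ d2 d1

theorem norm_Zf_le {x : ℝ} (h0 : 0 ≤ x) (h1 : x ≤ 1) {ζ : ℂ} (hζ : ‖ζ‖ < 1) :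
    ‖Zf x ζ‖ ≤ ‖ζ‖ := by
  apply Complex.norm_le_norm_of_mapsTo_ball (R := 1) (f := Zf x) _ _ (Zf_zero x) hζ
  · intro z hz
    exact (differentiableAt_Zf h0 h1 (by simpa using hz)).differentiableWithinAt
  · intro z hz
    have := norm_Zf_lt h0 h1 (ζ := z) (by simpa using hz)
    simpa using this.le

theorem norm_Zf_le' {x : ℝ} (h0 : 0 ≤ x) (h1 : x ≤ 1) {ζ : ℂ} (hζ : ‖ζ‖ < 1) :
    ‖Zf x ζ‖ ≤ 4 * (x * ‖kf ζ‖) := by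
  have hlt := norm_Zf_lt h0 h1 hζ
  have h2 := kf_Zf h0 h1 hζ
  have h3 : Zf x ζ = kf (Zf x ζ) * (1 - Zf x ζ) ^ 2 := by
    have := one_sub_ne hlt
    unfold kf; field_simp
  have h4 : ‖(1 - Zf x ζ)‖ ≤ 2 := by
    calc ‖(1 - Zf x ζ)‖ ≤ ‖(1 : ℂ)‖ + ‖Zf x ζ‖ := norm_sub_le _ _
      _ ≤ 2 := by rw [norm_one]; linarith
  rw [h3, h2, norm_mul, norm_pow, norm_mul, Complex.norm_real, Real.norm_of_nonneg h0]
  have h5 : ‖(1 - Zf x ζ)‖ ^ 2 ≤ 2 ^ 2 := by gcongr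
  have h6 : 0 ≤ x * ‖kf ζ‖ := by positivity
  nlinarith

theorem norm_kf_le {ζ : ℂ} (hζ : ‖ζ‖ < 1) : ‖kf ζ‖ ≤ ‖ζ‖ / (1 - ‖ζ‖) ^ 2 := by
  unfold kf
  rw [norm_div, norm_pow]
  have h1 : 0 < 1 - ‖ζ‖ := by linarith
  have h2 : 1 - ‖ζ‖ ≤ ‖1 - ζ‖ := by
    have := norm_sub_norm_le (1 : ℂ) ζ
    rwa [norm_one] at this
  gcongr

/-- the ODE of the flow -/
theorem hasDerivAt_Zf {s τ : ℝ} (h : s ≤ τ) {ζ : ℂ} (hζ : ‖ζ‖ < 1) :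
    HasDerivAt (fun τ : ℝ => Zf (Real.exp (s - τ)) ζ)
      (-(Zf (Real.exp (s - τ)) ζ * pf (Zf (Real.exp (s - τ)) ζ))) τ := by
  have hx0 : 0 ≤ Real.exp (s - τ) := (Real.exp_pos _).le
  have hx1 : Real.exp (s - τ) ≤ 1 := by rw [Real.exp_le_one_iff]; linarith
  have hy := mem_Dom_Z hx0 hx1 hζ
  have d1 : HasDerivAt (fun τ : ℝ => Real.exp (s - τ)) (-Real.exp (s - τ)) τ := by
    have := ((hasDerivAt_id τ).const_sub s).exp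
    simpa using this
  have d2 : HasDerivAt (fun τ : ℝ => ((Real.exp (s - τ) : ℝ) : ℂ) * kf ζ)
      (((-Real.exp (s - τ) : ℝ) : ℂ) * kf ζ) τ := d1.ofReal_comp.mul_const _
  have d3 := (hasDerivAt_ki hy).comp_of_eq τ d2 rfl
  have e : 4 / (sq (((Real.exp (s - τ) : ℝ) : ℂ) * kf ζ) *
      (sq (((Real.exp (s - τ) : ℝ) : ℂ) * kf ζ) + 1) ^ 2) *
      (((-Real.exp (s - τ) : ℝ) : ℂ) * kf ζ) =
      -(Zf (Real.exp (s - τ)) ζ * pf (Zf (Real.exp (s - τ)) ζ)) := by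
    set y : ℂ := ((Real.exp (s - τ) : ℝ) : ℂ) * kf ζ with hydef
    have e1 : (((-Real.exp (s - τ) : ℝ) : ℂ) * kf ζ) = -y := by rw [hydef]; push_cast; ring
    have e2 : Zf (Real.exp (s - τ)) ζ = ki y := rfl
    rw [e1, e2]
    have h0 := sq_ne_zero hy
    have h1 := sq_add_one_ne hy
    have h2 := sq_sq y
    have e3 : 1 - ki y = 2 / (sq y + 1) := by unfold ki; field_simp; ring
    have e4 : 1 + ki y = 2 * sq y / (sq y + 1) := by unfold ki; field_simp; ring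
    unfold pf
    rw [e3, e4]
    unfold ki
    field_simp
    linear_combination h2
  rw [← e]
  exact d3

theorem hasDerivAt_logZ {s τ : ℝ} (h : s ≤ τ) {ζ : ℂ} (hζ : ‖ζ‖ < 1) :
    HasDerivAt (fun τ : ℝ => Real.log (1 - ‖Zf (Real.exp (s - τ)) ζ‖ ^ 2) / 2)
      (‖Zf (Real.exp (s - τ)) ζ‖ ^ 2 / ‖1 + Zf (Real.exp (s - τ)) ζ‖ ^ 2) τ := by
  have hx0 : 0 ≤ Real.exp (s - τ) := (Real.exp_pos _).le
  have hx1 : Real.exp (s - τ) ≤ 1 := by rw [Real.exp_le_one_iff]; linarith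
  have hlt := norm_Zf_lt hx0 hx1 hζ
  set Z := Zf (Real.exp (s - τ)) ζ with hZ
  have d1 := hasDerivAt_Zf h hζ
  rw [← hZ] at d1
  have d2 := d1.norm_sq
  rw [← hZ] at d2
  have hpos : 0 < 1 - ‖Z‖ ^ 2 := by nlinarith [norm_nonneg Z]
  have d3 := ((d2.const_sub 1).log (by rw [← hZ]; exact hpos.ne')).div_const 2
  refine d3.congr_deriv ?_
  rw [← hZ]
  have e1 : inner ℝ Z (-(Z * pf Z)) = -(‖Z‖ ^ 2 * ((1 - ‖Z‖ ^ 2) / ‖1 + Z‖ ^ 2)) := by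
    rw [inner_neg_right, ← re_pf, Complex.inner]
    have : Z * pf Z * conj Z = ((‖Z‖ ^ 2 : ℝ) : ℂ) * pf Z := by
      rw [← Complex.normSq_eq_norm_sq, ← Complex.mul_conj]; ring
    rw [this, Complex.re_ofReal_mul]
  rw [e1]
  have h1 := norm_one_add_pos hlt
  field_simp

/-! ### expansions at the origin -/

theorem Zf_expansion {x : ℝ} (h0 : 0 ≤ x) (h1 : x ≤ 1) {ζ : ℂ} (hζ : ‖ζ‖ ≤ 1 / 4) :
    ‖Zf x ζ - x * ζ - 2 * (x - x ^ 2) * ζ ^ 2‖ ≤ 351 * x * ‖ζ‖ ^ 3 := by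
  have hζ1 : ‖ζ‖ < 1 := by linarith
  have hlt := norm_Zf_lt h0 h1 hζ1
  have hn := norm_nonneg ζ
  have h1ζ := one_sub_ne hζ1
  have hden : (3 / 4 : ℝ) ≤ ‖1 - ζ‖ := by
    have := norm_sub_norm_le (1 : ℂ) ζ
    rw [norm_one] at this; linarith
  have hden2 : (9 / 16 : ℝ) ≤ ‖1 - ζ‖ ^ 2 := by nlinarith
  have hdpos : 0 < ‖1 - ζ‖ ^ 2 := by positivity
  -- kf
  have k1 : ‖kf ζ‖ ≤ 2 * ‖ζ‖ := by
    unfold kf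
    rw [norm_div, norm_pow, div_le_iff₀ hdpos]; nlinarith
  have k2 : ‖kf ζ - ζ - 2 * ζ ^ 2‖ ≤ 7 * ‖ζ‖ ^ 3 := by
    have e : kf ζ - ζ - 2 * ζ ^ 2 = ζ ^ 3 * (3 - 2 * ζ) / (1 - ζ) ^ 2 := by
      unfold kf; field_simp; ring
    rw [e, norm_div, norm_mul, norm_pow, norm_pow, div_le_iff₀ hdpos]
    have : ‖3 - 2 * ζ‖ ≤ 7 / 2 := by
      calc ‖3 - 2 * ζ‖ ≤ ‖(3 : ℂ)‖ + ‖2 * ζ‖ := norm_sub_le _ _
        _ = 3 + 2 * ‖ζ‖ := by rw [norm_mul]; simp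
        _ ≤ 7 / 2 := by linarith
    have h3 : 0 ≤ ‖ζ‖ ^ 3 := by positivity
    calc ‖ζ‖ ^ 3 * ‖3 - 2 * ζ‖ ≤ ‖ζ‖ ^ 3 * (7 / 2) := by gcongr
      _ ≤ 7 * ‖ζ‖ ^ 3 * ‖1 - ζ‖ ^ 2 := by nlinarith
  have k3 : ‖kf ζ - ζ‖ ≤ 4 * ‖ζ‖ ^ 2 := by
    have e : kf ζ - ζ = ζ ^ 2 * (2 - ζ) / (1 - ζ) ^ 2 := by
      unfold kf; field_simp; ring
    rw [e, norm_div, norm_mul, norm_pow, norm_pow, div_le_iff₀ hdpos]
    have : ‖2 - ζ‖ ≤ 9 / 4 := by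
      calc ‖2 - ζ‖ ≤ ‖(2 : ℂ)‖ + ‖ζ‖ := norm_sub_le _ _
        _ ≤ 9 / 4 := by rw [Complex.norm_ofNat]; linarith
    have h3 : 0 ≤ ‖ζ‖ ^ 2 := by positivity
    calc ‖ζ‖ ^ 2 * ‖2 - ζ‖ ≤ ‖ζ‖ ^ 2 * (9 / 4) := by gcongr
      _ ≤ 4 * ‖ζ‖ ^ 2 * ‖1 - ζ‖ ^ 2 := by nlinarith
  obtain ⟨y, hy⟩ : ∃ y : ℂ, y = x * kf ζ := ⟨_, rfl⟩
  set Z := Zf x ζ with hZdef
  have hZy : Z = y * (1 - Z) ^ 2 := by
    have h2 := kf_Zf h0 h1 hζ1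
    rw [← hZdef] at h2
    have := one_sub_ne hlt
    rw [hy, ← h2]
    unfold kf; field_simp
  have hyn : ‖y‖ = x * ‖kf ζ‖ := by
    rw [hy, norm_mul, Complex.norm_real, Real.norm_of_nonneg h0]
  have hyle : ‖y‖ ≤ 2 * x * ‖ζ‖ := by rw [hyn]; nlinarith
  have hZle : ‖Z‖ ≤ 4 * ‖y‖ := by rw [hyn]; exact norm_Zf_le' h0 h1 hζ1
  have hy0 := norm_nonneg y
  have hZ0 := norm_nonneg Z
  have a1 : ‖Z - y‖ ≤ 12 * ‖y‖ ^ 2 := by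
    have e : Z - y = y * (Z * (Z - 2)) := by linear_combination hZy
    rw [e, norm_mul, norm_mul]
    have : ‖Z - 2‖ ≤ 3 := by
      calc ‖Z - 2‖ ≤ ‖Z‖ + ‖(2 : ℂ)‖ := norm_sub_le _ _
        _ ≤ 3 := by rw [Complex.norm_ofNat]; linarith
    calc ‖y‖ * (‖Z‖ * ‖Z - 2‖) ≤ ‖y‖ * (4 * ‖y‖ * 3) := by gcongr
      _ = 12 * ‖y‖ ^ 2 := by ring
  have a2 : ‖Z - y + 2 * y ^ 2‖ ≤ 40 * ‖y‖ ^ 3 := by
    have e : Z - y + 2 * y ^ 2 = -2 * y * (Z - y) + y * Z ^ 2 := by linear_combination hZy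
    rw [e]
    calc ‖-2 * y * (Z - y) + y * Z ^ 2‖ ≤ ‖-2 * y * (Z - y)‖ + ‖y * Z ^ 2‖ := norm_add_le _ _
      _ = 2 * ‖y‖ * ‖Z - y‖ + ‖y‖ * ‖Z‖ ^ 2 := by
          rw [norm_mul, norm_mul, norm_mul, norm_pow]; simp
      _ ≤ 2 * ‖y‖ * (12 * ‖y‖ ^ 2) + ‖y‖ * (4 * ‖y‖) ^ 2 := by gcongr
      _ = 40 * ‖y‖ ^ 3 := by ring
  have a3 : ‖y‖ ^ 3 ≤ 8 * x * ‖ζ‖ ^ 3 := by
    calc ‖y‖ ^ 3 ≤ (2 * x * ‖ζ‖) ^ 3 := by gcongr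
      _ = x ^ 2 * (8 * x * ‖ζ‖ ^ 3) := by ring
      _ ≤ 1 * (8 * x * ‖ζ‖ ^ 3) := by
          apply mul_le_mul_of_nonneg_right _ (by positivity); nlinarith
      _ = _ := one_mul _
  have a4 : ‖y - x * ζ - 2 * x * ζ ^ 2‖ ≤ 7 * x * ‖ζ‖ ^ 3 := by
    have e : y - x * ζ - 2 * x * ζ ^ 2 = x * (kf ζ - ζ - 2 * ζ ^ 2) := by rw [hy]; ring
    rw [e, norm_mul, Complex.norm_real, Real.norm_of_nonneg h0]
    calc x * ‖kf ζ - ζ - 2 * ζ ^ 2‖ ≤ x * (7 * ‖ζ‖ ^ 3) := by gcongr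
      _ = _ := by ring
  have a5 : ‖y ^ 2 - x ^ 2 * ζ ^ 2‖ ≤ 12 * x * ‖ζ‖ ^ 3 := by
    have e : y ^ 2 - (x : ℂ) ^ 2 * ζ ^ 2 = (x : ℂ) ^ 2 * ((kf ζ - ζ) * (kf ζ + ζ)) := by
      rw [hy]; ring
    rw [e, norm_mul, norm_pow, Complex.norm_real, Real.norm_of_nonneg h0, norm_mul]
    have : ‖kf ζ + ζ‖ ≤ 3 * ‖ζ‖ := by
      calc ‖kf ζ + ζ‖ ≤ ‖kf ζ‖ + ‖ζ‖ := norm_add_le _ _
        _ ≤ 3 * ‖ζ‖ := by linarith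
    calc x ^ 2 * (‖kf ζ - ζ‖ * ‖kf ζ + ζ‖) ≤ x ^ 2 * ((4 * ‖ζ‖ ^ 2) * (3 * ‖ζ‖)) := by gcongr
      _ = x * (12 * x * ‖ζ‖ ^ 3) := by ring
      _ ≤ 1 * (12 * x * ‖ζ‖ ^ 3) := by gcongr
      _ = _ := one_mul _
  have e : Z - x * ζ - 2 * (x - x ^ 2) * ζ ^ 2 =
      (Z - y + 2 * y ^ 2) + (y - x * ζ - 2 * x * ζ ^ 2) - 2 * (y ^ 2 - x ^ 2 * ζ ^ 2) := by ring
  rw [e]
  calc _ ≤ ‖(Z - y + 2 * y ^ 2) + (y - x * ζ - 2 * x * ζ ^ 2)‖ +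
        ‖2 * (y ^ 2 - x ^ 2 * ζ ^ 2)‖ := norm_sub_le _ _
    _ ≤ (‖Z - y + 2 * y ^ 2‖ + ‖y - x * ζ - 2 * x * ζ ^ 2‖) +
        2 * ‖y ^ 2 - x ^ 2 * ζ ^ 2‖ := by
        gcongr
        · exact norm_add_le _ _
        · rw [norm_mul, Complex.norm_ofNat]
    _ ≤ (40 * ‖y‖ ^ 3 + 7 * x * ‖ζ‖ ^ 3) + 2 * (12 * x * ‖ζ‖ ^ 3) := by gcongr
    _ ≤ 351 * x * ‖ζ‖ ^ 3 := by nlinarith

/-- second order expansion of `C(Z_x(ζ))` -/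
theorem comp_expansion {C : ℂ → ℂ} (hC : InD C) {x : ℝ} (h0 : 0 ≤ x) (h1 : x ≤ 1) {ζ : ℂ}
    (hζ : ‖ζ‖ ≤ 1 / 4) :
    ‖C (Zf x ζ) - 1 - (co C 1 * x) * ζ - (co C 1 * (2 * (x - x ^ 2)) + co C 2 * x ^ 2) * ζ ^ 2‖ ≤
      6200 * x * ‖ζ‖ ^ 3 := by
  have hζ1 : ‖ζ‖ < 1 := by linarith
  have hn := norm_nonneg ζ
  have hZle := norm_Zf_le h0 h1 hζ1
  have hZle' := norm_Zf_le' h0 h1 hζ1
  have hexp := Zf_expansion h0 h1 hζ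
  have k1 : ‖kf ζ‖ ≤ 2 * ‖ζ‖ := by
    unfold kf
    have hden : (3 / 4 : ℝ) ≤ ‖1 - ζ‖ := by
      have := norm_sub_norm_le (1 : ℂ) ζ
      rw [norm_one] at this; linarith
    have hden2 : (9 / 16 : ℝ) ≤ ‖1 - ζ‖ ^ 2 := by nlinarith
    rw [norm_div, norm_pow, div_le_iff₀ (by positivity)]; nlinarith
  set Z := Zf x ζ with hZ
  have hZx : ‖Z‖ ≤ 8 * x * ‖ζ‖ := by
    calc ‖Z‖ ≤ 4 * (x * ‖kf ζ‖) := hZle'
      _ ≤ 4 * (x * (2 * ‖ζ‖)) := by gcongr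
      _ = _ := by ring
  have r1 := hC.remainder (ζ := Z) (by linarith)
  have r1' : ‖C Z - 1 - co C 1 * Z - co C 2 * Z ^ 2‖ ≤ 512 * x * ‖ζ‖ ^ 3 := by
    calc _ ≤ 64 * ‖Z‖ ^ 3 := r1
      _ = 64 * (‖Z‖ ^ 2 * ‖Z‖) := by ring
      _ ≤ 64 * (‖ζ‖ ^ 2 * (8 * x * ‖ζ‖)) := by gcongr
      _ = _ := by ring
  have r2 : ‖Z ^ 2 - x ^ 2 * ζ ^ 2‖ ≤ 180 * x * ‖ζ‖ ^ 3 := by
    have e : Z ^ 2 - (x : ℂ) ^ 2 * ζ ^ 2 = (Z - x * ζ) * (Z + x * ζ) := by ring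
    rw [e, norm_mul]
    have a1 : ‖Z - x * ζ‖ ≤ 90 * x * ‖ζ‖ ^ 2 := by
      have e2 : Z - x * ζ = (Z - x * ζ - 2 * (x - x ^ 2) * ζ ^ 2) + 2 * (x - x ^ 2) * ζ ^ 2 := by
        ring
      rw [e2]
      have a2 : ‖2 * ((x : ℂ) - x ^ 2) * ζ ^ 2‖ ≤ 2 * x * ‖ζ‖ ^ 2 := by
        have : ((x : ℂ) - x ^ 2) = ((x - x ^ 2 : ℝ) : ℂ) := by push_cast; ring
        rw [this, norm_mul, norm_mul, norm_pow, Complex.norm_real, Complex.norm_ofNat,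
          Real.norm_of_nonneg (by nlinarith)]
        gcongr
        nlinarith
      calc _ ≤ _ := norm_add_le _ _
        _ ≤ 351 * x * ‖ζ‖ ^ 3 + 2 * x * ‖ζ‖ ^ 2 := add_le_add hexp a2
        _ = x * ‖ζ‖ ^ 2 * (351 * ‖ζ‖ + 2) := by ring
        _ ≤ x * ‖ζ‖ ^ 2 * 90 := by gcongr; linarith
        _ = _ := by ring
    have a3 : ‖Z + x * ζ‖ ≤ 2 * ‖ζ‖ := by
      calc ‖Z + x * ζ‖ ≤ ‖Z‖ + ‖(x : ℂ) * ζ‖ := norm_add_le _ _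
        _ ≤ ‖ζ‖ + 1 * ‖ζ‖ := by
            rw [norm_mul, Complex.norm_real, Real.norm_of_nonneg h0]
            gcongr
        _ = _ := by ring
    calc ‖Z - x * ζ‖ * ‖Z + x * ζ‖ ≤ (90 * x * ‖ζ‖ ^ 2) * (2 * ‖ζ‖) := by gcongr
      _ = _ := by ring
  have b1 := hC.co_bound (n := 1) one_ne_zero
  have b2 := hC.co_bound (n := 2) two_ne_zero
  have e : C Z - 1 - (co C 1 * x) * ζ - (co C 1 * (2 * (x - x ^ 2)) + co C 2 * x ^ 2) * ζ ^ 2 =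
      (C Z - 1 - co C 1 * Z - co C 2 * Z ^ 2) +
        co C 1 * (Z - x * ζ - 2 * (x - x ^ 2) * ζ ^ 2) + co C 2 * (Z ^ 2 - x ^ 2 * ζ ^ 2) := by
    ring
  rw [e]
  calc _ ≤ ‖(C Z - 1 - co C 1 * Z - co C 2 * Z ^ 2) +
        co C 1 * (Z - x * ζ - 2 * (x - x ^ 2) * ζ ^ 2)‖ + ‖co C 2 * (Z ^ 2 - x ^ 2 * ζ ^ 2)‖ :=
        norm_add_le _ _
    _ ≤ (‖C Z - 1 - co C 1 * Z - co C 2 * Z ^ 2‖ +
        ‖co C 1‖ * ‖Z - x * ζ - 2 * (x - x ^ 2) * ζ ^ 2‖) + ‖co C 2‖ * ‖Z ^ 2 - x ^ 2 * ζ ^ 2‖ := by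
        rw [norm_mul]
        gcongr
        refine (norm_add_le _ _).trans ?_
        rw [norm_mul]
    _ ≤ (512 * x * ‖ζ‖ ^ 3 + (4 * 2 ^ 1) * (351 * x * ‖ζ‖ ^ 3)) +
        (4 * 2 ^ 2) * (180 * x * ‖ζ‖ ^ 3) := by gcongr
    _ = 6200 * x * ‖ζ‖ ^ 3 := by ring

end Pool.Agent.SP
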